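import Pool.Agent.Lib.MP_8c24b6_lc.RnaDefs

/-!
Module B7 (45 min). From a function with the congruence property to a streaming algorithm.
-/

namespace MP8C

open Finset

/-- `F` is computed from left to right on the words of length `≤ n` (congruence), and on these words
it has at most `2^s - 1` values.  Then for every output rule `g` on the values there is a one-pass
algorithm with `s` bits which outputs `g (F x)` on the words `x` of length `n`.
States: an injection of the (finite) set of values of `F` on words of length `≤ n` into
`Fin (2^s - 1)`, and one extra state for everything else. -/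
theorem exists_alg {α : Type*} (n s : ℕ) (F : List Base → α)
    (hcong : ∀ u v : List Base, u.length < n → v.length < n → F u = F v →
      ∀ b, F (u ++ [b]) = F (v ++ [b]))
    (hlen : ∀ u v : List Base, F u = F v → u.length = v.length)
    (V : Finset α) (hV : ∀ u : List Base, u.length ≤ n → F u ∈ V) (hcard : V.card < 2 ^ s)
    (g : α → ℝ) :
    ∃ alg : StreamAlg s, ∀ x : List Base, x.length = n → alg.run x = g (F x) := by
  classical
  have hc : Fintype.card {a // a ∈ V} ≤ Fintype.card (Fin (2 ^ s)) := by
    rw [Fintype.card_coe, Fintype.card_fin]
    exact hcard.le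
  obtain ⟨e⟩ := Function.Embedding.nonempty_of_card_le hc
  have hpos : 0 < 2 ^ s := by positivity
  obtain ⟨enc, henc⟩ : ∃ enc : α → Fin (2 ^ s), ∀ a (h : a ∈ V), enc a = e ⟨a, h⟩ := by
    refine ⟨fun a => if h : a ∈ V then e ⟨a, h⟩ else ⟨0, hpos⟩, ?_⟩
    intro a h
    simp [h]
  have hinj : ∀ a ∈ V, ∀ b ∈ V, enc a = enc b → a = b := by
    intro a ha b hb hab
    rw [henc a ha, henc b hb] at hab
    have := e.injective hab
    exact congrArg Subtype.val this
  let alg : StreamAlg s :=
    { start := enc (F [])
      step := fun q b => if h : ∃ u : List Base, u.length < n ∧ enc (F u) = q then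
        enc (F (h.choose ++ [b])) else q
      out := fun q => if h : ∃ a ∈ V, enc a = q then g h.choose else 0 }
  have hstep : ∀ (u : List Base) (b : Base), u.length < n →
      alg.step (enc (F u)) b = enc (F (u ++ [b])) := by
    intro u b hu
    have hex : ∃ v : List Base, v.length < n ∧ enc (F v) = enc (F u) := ⟨u, hu, rfl⟩
    have h1 : alg.step (enc (F u)) b = enc (F (hex.choose ++ [b])) := dif_pos hex
    have h2 := hex.choose_spec
    have h3 : F hex.choose = F u := hinj _ (hV _ h2.1.le) _ (hV _ hu.le) h2.2
    rw [h1, hcong _ _ h2.1 hu h3 b]
  have hfold : ∀ (x u : List Base), (u ++ x).length ≤ n →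
      x.foldl alg.step (enc (F u)) = enc (F (u ++ x)) := by
    intro x
    induction x with
    | nil => intro u _; simp
    | cons b x ih =>
      intro u hu
      rw [List.foldl_cons]
      have hu' : u.length < n := by
        rw [List.length_append, List.length_cons] at hu
        omega
      rw [hstep u b hu']
      have h1 : u ++ b :: x = (u ++ [b]) ++ x := by simp
      rw [h1]
      apply ih
      rw [← h1]
      exact hu
  refine ⟨alg, fun x hx => ?_⟩
  have h1 : x.foldl alg.step alg.start = enc (F x) := by
    have := hfold x [] (by simp [hx])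
    simpa using this
  have hex : ∃ a ∈ V, enc a = enc (F x) := ⟨F x, hV x hx.le, rfl⟩
  have h2 : alg.out (enc (F x)) = g hex.choose := dif_pos hex
  have h3 := hex.choose_spec
  have h4 : hex.choose = F x := hinj _ h3.1 _ (hV x hx.le) h3.2
  unfold StreamAlg.run
  rw [h1, h2, h4]

end MP8C
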