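import Pool.Agent.Lib.MP_8c24b6_lc.UnmBasic

/-!
Module A10a (75 min). Breakpoints of an alignment, rounded to multiples of `T`.
-/

namespace MP8C

open Finset

private theorem brk_fst {w z : ℕ → Bool} {A B C D : ℕ} {P : Finset (ℕ × ℕ)}
    (hP : IsAl w z A B C D P) {p q : ℕ × ℕ} (hp : p ∈ P) (hq : q ∈ P) (h : p.1 = q.1) : p = q := by
  have h1 := hP.2 p hp q hq
  have h2 := hP.2 q hq p hp
  exact Prod.ext h (by omega)

private theorem brk_snd {w z : ℕ → Bool} {A B C D : ℕ} {P : Finset (ℕ × ℕ)}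
    (hP : IsAl w z A B C D P) {p q : ℕ × ℕ} (hp : p ∈ P) (hq : q ∈ P) (h : p.2 = q.2) : p = q := by
  have h1 := hP.2 p hp q hq
  have h2 := hP.2 q hq p hp
  exact Prod.ext (by omega) h

private theorem brk_card1 {w z : ℕ → Bool} {A B C D : ℕ} {P Q : Finset (ℕ × ℕ)}
    (hP : IsAl w z A B C D P) (hQ : Q ⊆ P) {a b : ℕ} (h : ∀ p ∈ Q, a ≤ p.1 ∧ p.1 < b) :
    Q.card ≤ b - a := by
  rw [← Nat.card_Ico a b]
  refine card_le_card_of_injOn Prod.fst ?_ ?_
  · intro p hp
    exact mem_Ico.2 (h p hp)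
  · intro p hp q hq hpq
    exact brk_fst hP (hQ hp) (hQ hq) hpq

private theorem brk_card2 {w z : ℕ → Bool} {A B C D : ℕ} {P Q : Finset (ℕ × ℕ)}
    (hP : IsAl w z A B C D P) (hQ : Q ⊆ P) {a b : ℕ} (h : ∀ p ∈ Q, a ≤ p.2 ∧ p.2 < b) :
    Q.card ≤ b - a := by
  rw [← Nat.card_Ico a b]
  refine card_le_card_of_injOn Prod.snd ?_ ?_
  · intro p hp
    exact mem_Ico.2 (h p hp)
  · intro p hp q hq hpq
    exact brk_snd hP (hQ hp) (hQ hq) hpq

/-- the exact breakpoint -/
private def brk (P : Finset (ℕ × ℕ)) (x : ℕ) : ℕ :=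
  (P.filter (fun p => p.1 < x)).sup (fun p => p.2 + 1)

private theorem brk_mono (P : Finset (ℕ × ℕ)) {x y : ℕ} (h : x ≤ y) : brk P x ≤ brk P y := by
  unfold brk
  refine Finset.sup_mono ?_
  intro p hp
  rw [mem_filter] at hp ⊢
  exact ⟨hp.1, by omega⟩

private theorem brk_iff {w z : ℕ → Bool} {A B C D : ℕ} {P : Finset (ℕ × ℕ)}
    (hP : IsAl w z A B C D P) {p : ℕ × ℕ} (hp : p ∈ P) (x : ℕ) : p.1 < x ↔ p.2 < brk P x := by
  constructor
  · intro h
    have h1 : p.2 + 1 ≤ brk P x :=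
      Finset.le_sup (f := fun p : ℕ × ℕ => p.2 + 1) (mem_filter.2 ⟨hp, h⟩)
    omega
  · intro h
    unfold brk at h
    rw [Finset.lt_sup_iff] at h
    obtain ⟨q, hq, hq2⟩ := h
    rw [mem_filter] at hq
    have h1 := hP.2 p hp q hq.1
    have h2 := hP.2 q hq.1 p hp
    omega

private theorem brk_le {w z : ℕ → Bool} {A B C D : ℕ} {P : Finset (ℕ × ℕ)}
    (hP : IsAl w z A B C D P) (x : ℕ) : brk P x ≤ D := by
  unfold brk
  refine Finset.sup_le ?_
  intro p hp
  have := (hP.1 p (mem_filter.1 hp).1).2.1.2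
  omega

/-- one step -/
private theorem brk_step {w z : ℕ → Bool} {A B C D : ℕ} {P : Finset (ℕ × ℕ)}
    (hP : IsAl w z A B C D P) {a b c d T : ℕ} (hab : a ≤ b) (hc1 : brk P a ≤ c)
    (hc2 : c ≤ brk P a + T) (hd1 : brk P b ≤ d) (hd2 : d ≤ brk P b + T) (hcd : c ≤ d) :
    unm P a b c d + 2 * (P.filter (fun p => a ≤ p.1 ∧ p.1 < b)).card + brk P a ≤
      (b - a) + brk P b + 2 * T := by
  have hab' := brk_mono P hab
  have h1 : (P.filter (fun p => a ≤ p.1 ∧ p.1 < b)).card ≤
      (P.filter (fun p => (a ≤ p.1 ∧ p.1 < b) ∧ (c ≤ p.2 ∧ p.2 < d))).card +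
        (P.filter (fun p => brk P a ≤ p.2 ∧ p.2 < c)).card := by
    rw [← card_union_add_card_inter]
    refine le_trans (card_le_card ?_) (Nat.le_add_right _ _)
    intro p hp
    rw [mem_filter] at hp
    have e1 := brk_iff hP hp.1 a
    have e2 := brk_iff hP hp.1 b
    rw [mem_union, mem_filter, mem_filter]
    by_cases h : c ≤ p.2
    · exact Or.inl ⟨hp.1, hp.2, h, by omega⟩
    · exact Or.inr ⟨hp.1, by omega, by omega⟩
  have h2 : (P.filter (fun p => brk P a ≤ p.2 ∧ p.2 < c)).card ≤ c - brk P a :=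
    brk_card2 hP (filter_subset _ _) fun p hp => (mem_filter.1 hp).2
  have h3 : (P.filter (fun p => (a ≤ p.1 ∧ p.1 < b) ∧ (c ≤ p.2 ∧ p.2 < d))).card ≤ b - a :=
    brk_card1 hP (filter_subset _ _) fun p hp => (mem_filter.1 hp).2.1
  have h4 : (P.filter (fun p => (a ≤ p.1 ∧ p.1 < b) ∧ (c ≤ p.2 ∧ p.2 < d))).card ≤ d - c :=
    brk_card2 hP (filter_subset _ _) fun p hp => (mem_filter.1 hp).2.2
  unfold unm
  omega

/-- A10a. BREAKPOINTS.  For `x ≤ n T` put `ψ x = 0` if no pair of `P` has first coordinate `< x`,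
else `1 + max {p.2 : p ∈ P, p.1 < x}`; `ψ` is monotone, `ψ x ≤ n' T`, and `p.1 < x ↔ p.2 < ψ x` for
`p ∈ P`.  Put `φ k = min (⌈ψ (k T) / T⌉) n'`; then `|φ k * T - ψ (k T)| < T`.  With the exact
breakpoints the numbers of unmatched letters of the pieces add up to at most
`n T + n' T - 2 |P|`; rounding costs at most `6 T` per piece (`|I_j|` grows by `< 2T`, and at most
`2T` pairs are lost, each one counts twice). -/
theorem breakpoints (w z : ℕ → Bool) (T n n' : ℕ) (hT : 1 ≤ T) (P : Finset (ℕ × ℕ))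
    (hP : IsAl w z 0 (n * T) 0 (n' * T) P) :
    ∃ φ : ℕ → ℕ, φ 0 = 0 ∧ Monotone φ ∧ (∀ k, φ k ≤ n') ∧
      ∀ (r : ℕ) (κ : ℕ → ℕ), Monotone κ → κ r ≤ n →
        ∑ j ∈ range r, unm P (κ j * T) (κ (j + 1) * T) (φ (κ j) * T) (φ (κ (j + 1)) * T) ≤
          (n * T + n' * T - 2 * P.card) + 6 * T * r := by
  obtain ⟨φ, hφ⟩ : ∃ φ : ℕ → ℕ, φ = fun k => (brk P (k * T) + (T - 1)) / T := ⟨_, rfl⟩
  have hφ' : ∀ k, φ k = (brk P (k * T) + (T - 1)) / T := fun k => by rw [hφ]
  have hb0 : brk P 0 = 0 := by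
    unfold brk
    rw [filter_false_of_mem (fun p _ => by omega)]
    rfl
  have hlow : ∀ k, brk P (k * T) ≤ φ k * T := by
    intro k
    rw [hφ']
    have h1 := Nat.div_add_mod (brk P (k * T) + (T - 1)) T
    have h2 := Nat.mod_lt (brk P (k * T) + (T - 1)) hT
    rw [mul_comm] at h1
    omega
  have hup : ∀ k, φ k * T ≤ brk P (k * T) + T := by
    intro k
    rw [hφ']
    have h1 := Nat.div_mul_le_self (brk P (k * T) + (T - 1)) T
    omega
  have hmono : Monotone φ := by
    intro a b hab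
    rw [hφ', hφ']
    refine Nat.div_le_div_right ?_
    have := brk_mono P (Nat.mul_le_mul_right T hab)
    omega
  refine ⟨φ, ?_, hmono, ?_, ?_⟩
  · rw [hφ', zero_mul, hb0, zero_add]
    exact Nat.div_eq_of_lt (by omega)
  · intro k
    rw [hφ']
    have h1 := brk_le hP (k * T)
    rw [Nat.div_le_iff_le_mul_add_pred (by omega)]
    have h2 : T * n' = n' * T := mul_comm _ _
    omega
  · intro r κ hκ hr
    -- induction
    have key : ∀ r, ∑ j ∈ range r, unm P (κ j * T) (κ (j + 1) * T) (φ (κ j) * T)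
        (φ (κ (j + 1)) * T) + 2 * (P.filter (fun p => p.1 < κ r * T)).card ≤
        κ r * T + brk P (κ r * T) + 2 * T * r := by
      intro r
      induction r with
      | zero =>
        rw [sum_range_zero, zero_add, mul_zero, add_zero]
        have h1 : (P.filter (fun p => p.1 < κ 0 * T)).card ≤ κ 0 * T - 0 :=
          brk_card1 hP (filter_subset _ _) fun p hp => ⟨by omega, (mem_filter.1 hp).2⟩
        have h2 : (P.filter (fun p => p.1 < κ 0 * T)).card ≤ brk P (κ 0 * T) - 0 :=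
          brk_card2 hP (filter_subset _ _) fun p hp => ⟨by omega,
            (brk_iff hP (mem_filter.1 hp).1 _).1 (mem_filter.1 hp).2⟩
        omega
      | succ r ih =>
        rw [sum_range_succ]
        have hk : κ r ≤ κ (r + 1) := hκ (Nat.le_succ r)
        have hkT : κ r * T ≤ κ (r + 1) * T := Nat.mul_le_mul_right T hk
        have h1 := brk_step hP hkT (hlow _) (hup _) (hlow _) (hup _)
          (Nat.mul_le_mul_right T (hmono hk))
        have h2 : (P.filter (fun p => p.1 < κ (r + 1) * T)).card ≤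
            (P.filter (fun p => p.1 < κ r * T)).card +
              (P.filter (fun p => κ r * T ≤ p.1 ∧ p.1 < κ (r + 1) * T)).card := by
          rw [← card_union_add_card_inter]
          refine le_trans (card_le_card ?_) (Nat.le_add_right _ _)
          intro p hp
          rw [mem_filter] at hp
          rw [mem_union, mem_filter, mem_filter]
          by_cases h : p.1 < κ r * T
          · exact Or.inl ⟨hp.1, h⟩
          · exact Or.inr ⟨hp.1, by omega, hp.2⟩
        have h3 : 2 * T * (r + 1) = 2 * T * r + 2 * T := by ring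
        rw [h3]
        omega
    have h1 := key r
    have h2 : P.card ≤ (P.filter (fun p => p.1 < κ r * T)).card +
        (P.filter (fun p => κ r * T ≤ p.1)).card := by
      rw [← card_union_add_card_inter]
      refine le_trans (card_le_card ?_) (Nat.le_add_right _ _)
      intro p hp
      rw [mem_union, mem_filter, mem_filter]
      by_cases h : p.1 < κ r * T
      · exact Or.inl ⟨hp, h⟩
      · exact Or.inr ⟨hp, by omega⟩
    have h3 : (P.filter (fun p => κ r * T ≤ p.1)).card ≤ n * T - κ r * T :=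
      brk_card1 hP (filter_subset _ _) fun p hp =>
        ⟨(mem_filter.1 hp).2, (hP.1 p (mem_filter.1 hp).1).1.2⟩
    have h4 : (P.filter (fun p => κ r * T ≤ p.1)).card ≤ n' * T - brk P (κ r * T) :=
      brk_card2 hP (filter_subset _ _) fun p hp => by
        have e1 := brk_iff hP (mem_filter.1 hp).1 (κ r * T)
        have e2 := (mem_filter.1 hp).2
        exact ⟨by omega, (hP.1 p (mem_filter.1 hp).1).2.1.2⟩
    have h5 := brk_le hP (κ r * T)
    have h6 : κ r * T ≤ n * T := Nat.mul_le_mul_right T hr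
    have h7 : 6 * T * r = 2 * T * r + 4 * T * r := by ring
    rw [h7]
    omega

end MP8C
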