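import Pool.Agent.Lib.MP_8c24b6_lc.FoldDefs

/-! Module B3 (90 min): lower bound. -/

namespace MP8C

open Finset

theorem IsMat.card_le_optf {col sg : ℕ → Bool} {n : ℕ} {M : Finset (ℕ × ℕ)}
    (h : IsMat col sg n M) : M.card ≤ optf col sg n := by
  classical
  unfold optf
  apply Finset.le_sup (f := Finset.card)
  rw [mem_filter, mem_powerset]
  refine ⟨?_, h⟩
  intro p hp
  obtain ⟨h1, h2, -, -⟩ := h.1 p hp
  rw [mem_product, mem_range, mem_range]
  omega

theorem exists_mat (col sg : ℕ → Bool) (n : ℕ) :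
    ∃ M, IsMat col sg n M ∧ M.card = optf col sg n := by
  classical
  have hne : ((range n ×ˢ range n).powerset.filter (fun M => IsMat col sg n M)).Nonempty := by
    refine ⟨∅, ?_⟩
    rw [mem_filter, mem_powerset]
    refine ⟨empty_subset _, ?_, ?_, ?_⟩
    · intro p hp; exact absurd hp (notMem_empty p)
    · intro p hp; exact absurd hp (notMem_empty p)
    · intro p hp; exact absurd hp (notMem_empty p)
  obtain ⟨M, hM, hc⟩ := Finset.exists_mem_eq_sup _ hne Finset.card
  rw [mem_filter] at hM
  exact ⟨M, hM.2, by unfold optf; rw [hc]⟩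

/-- the translated pair -/
private def emb (a b' : ℕ) (p : ℕ × ℕ) : ℕ × ℕ := (p.1 + a, b' - 1 - p.2)

/-- B3. LOWER BOUND.  The union over the strands of the translated optimal alignments is a
non-crossing matching. -/
theorem frame_le (col sg : ℕ → Bool) (n N : ℕ) (a a' b b' : ℕ → ℕ)
    (h : IsFrame n N sg a a' b b') :
    ∑ s ∈ range N, lcs (lw col (a s)) (rw' col (b' s)) 0 (a' s - a s) 0 (b' s - b s) ≤
      optf col sg n := by
  classical
  have hP : ∀ s, ∃ P, IsAl (lw col (a s)) (rw' col (b' s)) 0 (a' s - a s) 0 (b' s - b s) P ∧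
      P.card = lcs (lw col (a s)) (rw' col (b' s)) 0 (a' s - a s) 0 (b' s - b s) :=
    fun s => exists_al _ _ _ _ _ _
  choose P hal hcard using hP
  -- bounds
  have hbd : ∀ s < N, ∀ p ∈ P s, (a s ≤ (emb (a s) (b' s) p).1 ∧ (emb (a s) (b' s) p).1 < a' s) ∧
      (b s ≤ (emb (a s) (b' s) p).2 ∧ (emb (a s) (b' s) p).2 < b' s) := by
    intro s hs p hp
    obtain ⟨⟨-, h1⟩, ⟨-, h2⟩, -⟩ := (hal s).1 p hp
    have h3 := h.h1 s hs
    have h4 := h.h3 s hs
    simp only [emb]
    omega
  have hcol : ∀ s < N, ∀ p ∈ P s, col (emb (a s) (b' s) p).1 = col (emb (a s) (b' s) p).2 := by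
    intro s hs p hp
    obtain ⟨-, -, h3⟩ := (hal s).1 p hp
    exact h3
  have hmem : ∀ p, p ∈ (range N).biUnion (fun s => (P s).image (emb (a s) (b' s))) →
      ∃ s < N, ∃ x ∈ P s, emb (a s) (b' s) x = p := by
    intro p hp
    rw [mem_biUnion] at hp
    obtain ⟨s, hs, hp⟩ := hp
    rw [mem_image] at hp
    obtain ⟨x, hx, hxp⟩ := hp
    exact ⟨s, mem_range.mp hs, x, hx, hxp⟩
  have hmat : IsMat col sg n ((range N).biUnion (fun s => (P s).image (emb (a s) (b' s)))) := by
    refine ⟨?_, ?_, ?_⟩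
    · intro p hp
      obtain ⟨s, hs, x, hx, rfl⟩ := hmem p hp
      obtain ⟨⟨h1, h2⟩, h3, h4⟩ := hbd s hs x hx
      have h5 := h.h2 s hs
      have h6 := h.h4 s hs
      refine ⟨by omega, by omega, hcol s hs x hx, h.sgn s hs _ _ h1 h2 h3 h4⟩
    · intro p hp q hq hpq
      obtain ⟨s, hs, x, hx, rfl⟩ := hmem p hp
      obtain ⟨t, ht, y, hy, rfl⟩ := hmem q hq
      obtain ⟨⟨h1, h2⟩, h3, h4⟩ := hbd s hs x hx
      obtain ⟨⟨g1, g2⟩, g3, g4⟩ := hbd t ht y hy
      have h5 := h.h2 s hs
      have g5 := h.h2 t ht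
      by_cases hst : s = t
      · subst hst
        refine ⟨?_, by omega, by omega, ?_⟩
        · intro e
          apply hpq
          have : x = y := (hal s).fst_inj hx hy (by simp only [emb] at e; omega)
          rw [this]
        · intro e
          apply hpq
          have h6 := ((hal s).1 x hx).2.1.2
          have g6 := ((hal s).1 y hy).2.1.2
          have : x = y := (hal s).snd_inj hx hy (by simp only [emb] at e; omega)
          rw [this]
      · refine ⟨?_, ?_, ?_, ?_⟩
        · intro e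
          exact h.disAA s hs t ht hst _ h1 h2 (e ▸ g1) (e ▸ g2)
        · intro e
          exact h.disAB s hs t ht hst _ h1 h2 (e ▸ g3) (e ▸ g4)
        · intro e
          exact h.disAB t ht s hs (Ne.symm hst) _ g1 g2 (e ▸ h3) (e ▸ h4)
        · intro e
          exact h.disBB s hs t ht hst _ h3 h4 (e ▸ g3) (e ▸ g4)
    · intro p hp q hq
      obtain ⟨s, hs, x, hx, rfl⟩ := hmem p hp
      obtain ⟨t, ht, y, hy, rfl⟩ := hmem q hq
      obtain ⟨⟨h1, h2⟩, h3, h4⟩ := hbd s hs x hx
      obtain ⟨⟨g1, g2⟩, g3, g4⟩ := hbd t ht y hy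
      by_cases hst : s = t
      · subst hst
        rintro ⟨e1, -, e3⟩
        have h6 := ((hal s).1 x hx).2.1.2
        have g6 := ((hal s).1 y hy).2.1.2
        have h7 := (hal s).2 x hx y hy
        simp only [emb] at e1 e3
        have h8 : x.1 < y.1 := by omega
        have h9 := h7.mp h8
        omega
      · exact h.ncr s hs t ht hst _ _ _ _ h1 h2 h3 h4 g1 g2 g3 g4
  refine le_trans (le_of_eq ?_) hmat.card_le_optf
  rw [card_biUnion]
  · apply sum_congr rfl
    intro s hs
    rw [mem_range] at hs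
    rw [← hcard s, card_image_of_injOn]
    intro x hx y hy e
    have e1 : (emb (a s) (b' s) x).1 = (emb (a s) (b' s) y).1 := by rw [e]
    exact (hal s).fst_inj hx hy (by simp only [emb] at e1; omega)
  · intro s hs t ht hst
    rw [mem_coe, mem_range] at hs ht
    rw [Function.onFun, disjoint_left]
    intro p hp hq
    rw [mem_image] at hp hq
    obtain ⟨x, hx, rfl⟩ := hp
    obtain ⟨y, hy, e⟩ := hq
    obtain ⟨⟨h1, h2⟩, -⟩ := hbd s hs x hx
    obtain ⟨⟨g1, g2⟩, -⟩ := hbd t ht y hy
    rw [e] at g1 g2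
    exact h.disAA s hs t ht hst _ h1 h2 g1 g2

/-- the lengths of the strands of a frame add up to at most `n` (disjoint intervals) -/
theorem IsFrame.sum_le {n N : ℕ} {sg : ℕ → Bool} {a a' b b' : ℕ → ℕ}
    (h : IsFrame n N sg a a' b b') :
    ∑ s ∈ range N, ((a' s - a s) + (b' s - b s)) ≤ n := by
  classical
  have key : ((range N).biUnion (fun s => Ico (a s) (a' s) ∪ Ico (b s) (b' s))).card =
      ∑ s ∈ range N, ((a' s - a s) + (b' s - b s)) := by
    rw [card_biUnion]
    · apply sum_congr rfl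
      intro s hs
      rw [mem_range] at hs
      rw [card_union_of_disjoint, Nat.card_Ico, Nat.card_Ico]
      rw [disjoint_left]
      intro p hp hq
      rw [mem_Ico] at hp hq
      have := h.h2 s hs
      omega
    · intro s hs t ht hst
      rw [mem_coe, mem_range] at hs ht
      rw [Function.onFun, disjoint_left]
      intro p hp hq
      rw [mem_union, mem_Ico, mem_Ico] at hp hq
      rcases hp with hp | hp <;> rcases hq with hq | hq
      · exact h.disAA s hs t ht hst p hp.1 hp.2 hq.1 hq.2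
      · exact h.disAB s hs t ht hst p hp.1 hp.2 hq.1 hq.2
      · exact h.disAB t ht s hs (Ne.symm hst) p hq.1 hq.2 hp.1 hp.2
      · exact h.disBB s hs t ht hst p hp.1 hp.2 hq.1 hq.2
  rw [← key]
  calc _ ≤ (range n).card := by
        apply card_le_card
        intro p hp
        rw [mem_biUnion] at hp
        obtain ⟨s, hs, hp⟩ := hp
        rw [mem_range] at hs
        rw [mem_union, mem_Ico, mem_Ico] at hp
        have h1 := h.h1 s hs
        have h2 := h.h2 s hs
        have h3 := h.h3 s hs
        have h4 := h.h4 s hs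
        rw [mem_range]
        omega
    _ = n := card_range n

end MP8C
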