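import Pool.Agent.Lib.MP_8c24b6_lc.RnaDefs
import Pool.Agent.Lib.MP_8c24b6_lc.FoldC

/-!
Module B6 (60 min). From lists of letters to the functions `col`, `sg`.
-/

namespace MP8C

open Finset

/-- colour: `false` for A, U; `true` for C, G -/
def colour : Base → Bool
  | .A => false
  | .U => false
  | .C => true
  | .G => true

/-- colour word of a list (positions outside the list: colour of `A`) -/
def colL (x : List Base) (i : ℕ) : Bool := colour (x.getD i Base.A)

/-- sign word of a list -/
def sgL (x : List Base) (i : ℕ) : Bool := positive (x.getD i Base.A)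

theorem complementary_iff (s t : Base) :
    Complementary s t ↔ colour s = colour t ∧ positive s ≠ positive t := by
  cases s <;> cases t <;> simp [Complementary, colour, positive]

private theorem getD_of_some {x : List Base} {i : ℕ} {s : Base} (h : x[i]? = some s) :
    i < x.length ∧ x.getD i Base.A = s := by
  rw [List.getElem?_eq_some_iff] at h
  obtain ⟨h1, h2⟩ := h
  refine ⟨h1, ?_⟩
  rw [List.getD_eq_getElem _ _ h1, h2]

private theorem some_of_lt {x : List Base} {i : ℕ} (h : i < x.length) :
    x[i]? = some (x.getD i Base.A) := by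
  rw [List.getElem?_eq_getElem h, List.getD_eq_getElem _ _ h]

theorem isFolding_iff (x : List Base) (M : Finset (ℕ × ℕ)) :
    IsFolding x M ↔ IsMat (colL x) (sgL x) x.length M := by
  unfold IsFolding IsMat
  refine and_congr_left fun _ => ?_
  refine forall_congr' fun p => ?_
  refine imp_congr_right fun _ => ?_
  constructor
  · rintro ⟨h1, s, t, hs, ht, hc⟩
    obtain ⟨_, h3⟩ := getD_of_some hs
    obtain ⟨h4, h5⟩ := getD_of_some ht
    rw [complementary_iff] at hc
    refine ⟨h1, h4, ?_, ?_⟩
    · unfold colL
      rw [h3, h5]
      exact hc.1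
    · unfold sgL
      rw [h3, h5]
      exact hc.2
  · rintro ⟨h1, h2, h3, h4⟩
    refine ⟨h1, x.getD p.1 Base.A, x.getD p.2 Base.A, some_of_lt (h1.trans h2), some_of_lt h2, ?_⟩
    rw [complementary_iff]
    exact ⟨h3, h4⟩

theorem opt_eq (x : List Base) : opt x = optf (colL x) (sgL x) x.length := by
  classical
  unfold opt
  apply le_antisymm
  · apply csSup_le'
    rintro m ⟨M, hM, rfl⟩
    rw [isFolding_iff] at hM
    unfold optf
    refine Finset.le_sup (f := Finset.card) ?_
    rw [Finset.mem_filter, Finset.mem_powerset]
    refine ⟨?_, hM⟩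
    intro p hp
    obtain ⟨h1, h2, _⟩ := hM.1 p hp
    rw [Finset.mem_product, Finset.mem_range, Finset.mem_range]
    exact ⟨h1.trans h2, h2⟩
  · unfold optf
    apply Finset.sup_le
    intro M hM
    rw [Finset.mem_filter] at hM
    refine le_csSup ?_ ⟨M, (isFolding_iff x M).2 hM.2, rfl⟩
    refine ⟨x.length * x.length, ?_⟩
    rintro m ⟨N, hN, rfl⟩
    rw [isFolding_iff] at hN
    have hsub : N ⊆ range x.length ×ˢ range x.length := by
      intro p hp
      obtain ⟨h1, h2, _⟩ := hN.1 p hp
      rw [Finset.mem_product, Finset.mem_range, Finset.mem_range]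
      exact ⟨h1.trans h2, h2⟩
    have := Finset.card_le_card hsub
    rw [Finset.card_product, Finset.card_range] at this
    exact this

theorem alternations_eq (x : List Base) : alternations x = schg (sgL x) x.length := by
  unfold alternations schg
  refine congrArg Finset.card ?_
  refine Finset.filter_congr fun i _ => ?_
  refine and_congr_right fun h => ?_
  rw [some_of_lt h, some_of_lt (lt_trans (Nat.lt_succ_self i) h)]
  unfold sgL
  simp

end MP8C
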