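import Pool.Agent.Lib.MP_8c24b6_lc.Bridge

/-! Module B6b (75 min): one colour, letter counts. -/

namespace MP8C

open Finset

namespace BridgeBAux

/-- positions of the letter `s` -/
def posS (x : List Base) (s : Base) : Finset ℕ :=
  (range x.length).filter (fun i => x[i]? = some s)

lemma mem_posS {x : List Base} {s : Base} {i : ℕ} : i ∈ posS x s ↔ x[i]? = some s := by
  unfold posS
  rw [mem_filter, mem_range]
  constructor
  · exact fun h => h.2
  · intro h
    exact ⟨(List.getElem?_eq_some_iff.1 h).1, h⟩

lemma card_posS (x : List Base) (s : Base) : (posS x s).card = x.count s := by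
  induction x using List.reverseRecOn with
  | nil => simp [posS]
  | append_singleton l a ih =>
    have h1 : posS (l ++ [a]) s = if a = s then insert l.length (posS l s) else posS l s := by
      ext i
      rw [mem_posS]
      by_cases ha : a = s
      · rw [if_pos ha, mem_insert, mem_posS]
        rcases lt_trichotomy i l.length with h | h | h
        · rw [List.getElem?_append_left h]
          constructor
          · exact fun h' => Or.inr h'
          · rintro (h' | h')
            · omega
            · exact h'
        · subst h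
          simp [ha]
        · have h2 : (l ++ [a])[i]? = none := by
            rw [List.getElem?_eq_none_iff]; simp; omega
          have h3 : l[i]? = none := by rw [List.getElem?_eq_none_iff]; omega
          rw [h2, h3]
          simp; omega
      · rw [if_neg ha, mem_posS]
        rcases lt_trichotomy i l.length with h | h | h
        · rw [List.getElem?_append_left h]
        · subst h
          simp [ha]
        · have h2 : (l ++ [a])[i]? = none := by
            rw [List.getElem?_eq_none_iff]; simp; omega
          have h3 : l[i]? = none := by rw [List.getElem?_eq_none_iff]; omega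
          rw [h2, h3]
    rw [h1, List.count_append]
    by_cases ha : a = s
    · rw [if_pos ha, card_insert_of_notMem, ih]
      · subst ha
        simp
      · rw [mem_posS]
        simp
    · rw [if_neg ha, ih]
      simp [ha]

/-- the end of the pair `p` with the letter `s` -/
def endS (x : List Base) (s : Base) (p : ℕ × ℕ) : ℕ := if x[p.1]? = some s then p.1 else p.2

lemma endS_inj {x : List Base} {M : Finset (ℕ × ℕ)} (hM : IsFolding x M) (s : Base) :
    Set.InjOn (endS x s) M := by
  intro p hp q hq h
  by_contra hne
  obtain ⟨h1, h2, h3, h4⟩ := hM.2.1 p hp q hq hne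
  unfold endS at h
  split_ifs at h <;> contradiction

/-- all pairs of `M` have the letters `s`, `t` -/
def Typ (x : List Base) (s t : Base) (M : Finset (ℕ × ℕ)) : Prop :=
  ∀ p ∈ M, (x[p.1]? = some s ∧ x[p.2]? = some t) ∨ (x[p.1]? = some t ∧ x[p.2]? = some s)

lemma Typ.symm {x : List Base} {s t : Base} {M : Finset (ℕ × ℕ)} (h : Typ x s t M) :
    Typ x t s M := fun p hp => (h p hp).symm

lemma image_sub {x : List Base} {s t : Base} {M : Finset (ℕ × ℕ)} (h : Typ x s t M) :
    M.image (endS x s) ⊆ posS x s := by
  intro i hi
  obtain ⟨p, hp, rfl⟩ := mem_image.1 hi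
  rw [mem_posS]
  unfold endS
  split_ifs with h1
  · exact h1
  · rcases h p hp with h2 | h2
    · exact absurd h2.1 h1
    · exact h2.2

lemma card_le {x : List Base} {s t : Base} {M : Finset (ℕ × ℕ)} (hM : IsFolding x M)
    (h : Typ x s t M) : M.card ≤ x.count s := by
  rw [← card_posS, ← card_image_of_injOn (endS_inj hM s)]
  exact card_le_card (image_sub h)

lemma card_le_min {x : List Base} {s t : Base} {M : Finset (ℕ × ℕ)} (hM : IsFolding x M)
    (h : Typ x s t M) : M.card ≤ min (x.count s) (x.count t) :=
  le_min (card_le hM h) (card_le hM h.symm)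

lemma IsFolding.subset {x : List Base} {M N : Finset (ℕ × ℕ)} (hM : IsFolding x M) (h : N ⊆ M) :
    IsFolding x N :=
  ⟨fun p hp => hM.1 p (h hp), fun p hp q hq => hM.2.1 p (h hp) q (h hq),
    fun p hp q hq => hM.2.2 p (h hp) q (h hq)⟩

lemma card_bound {x : List Base} {M : Finset (ℕ × ℕ)} (hM : IsFolding x M) :
    M.card ≤ min (x.count Base.A) (x.count Base.U) + min (x.count Base.C) (x.count Base.G) := by
  classical
  rw [← card_filter_add_card_filter_not (fun p : ℕ × ℕ => x[p.1]? = some Base.A ∨
    x[p.1]? = some Base.U)]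
  refine add_le_add (card_le_min (IsFolding.subset hM (filter_subset _ _)) ?_)
    (card_le_min (IsFolding.subset hM (filter_subset _ _)) ?_)
  · intro p hp
    obtain ⟨hp1, hp2⟩ := mem_filter.1 hp
    obtain ⟨-, s, t, hs, ht, hst⟩ := hM.1 p hp1
    rw [hs] at hp2 ⊢
    rw [ht]
    rcases hst with ⟨rfl, rfl⟩ | ⟨rfl, rfl⟩ | ⟨rfl, rfl⟩ | ⟨rfl, rfl⟩ <;> simp_all
  · intro p hp
    obtain ⟨hp1, hp2⟩ := mem_filter.1 hp
    obtain ⟨-, s, t, hs, ht, hst⟩ := hM.1 p hp1
    rw [hs] at hp2 ⊢
    rw [ht]
    rcases hst with ⟨rfl, rfl⟩ | ⟨rfl, rfl⟩ | ⟨rfl, rfl⟩ | ⟨rfl, rfl⟩ <;> simp_all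

/-- the invariant of the stack algorithm -/
def Inv (s t : Base) (x : List Base) (M : Finset (ℕ × ℕ)) : Prop :=
  IsFolding x M ∧ Typ x s t M ∧ M.card = min (x.count s) (x.count t) ∧
  ∀ i, (x[i]? = some s ∨ x[i]? = some t) → (∀ p ∈ M, p.1 ≠ i ∧ p.2 ≠ i) →
    ∀ q ∈ M, ¬ (q.1 < i ∧ i < q.2)

lemma Inv.symm {s t : Base} {x : List Base} {M : Finset (ℕ × ℕ)} (h : Inv s t x M) :
    Inv t s x M :=
  ⟨h.1, h.2.1.symm, by rw [h.2.2.1, min_comm], fun i hi => h.2.2.2 i hi.symm⟩

lemma getElem?_append_of_some {x : List Base} {i : ℕ} {s a : Base} (h : x[i]? = some s) :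
    (x ++ [a])[i]? = some s := by
  rw [List.getElem?_append_left (List.getElem?_eq_some_iff.1 h).1]
  exact h

lemma IsFolding.append {x : List Base} {M : Finset (ℕ × ℕ)} (hM : IsFolding x M) (a : Base) :
    IsFolding (x ++ [a]) M := by
  refine ⟨fun p hp => ?_, hM.2.1, hM.2.2⟩
  obtain ⟨h1, s, t, hs, ht, hst⟩ := hM.1 p hp
  exact ⟨h1, s, t, getElem?_append_of_some hs, getElem?_append_of_some ht, hst⟩

lemma Typ.append {x : List Base} {s t : Base} {M : Finset (ℕ × ℕ)} (h : Typ x s t M) (a : Base) :
    Typ (x ++ [a]) s t M := by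
  intro p hp
  rcases h p hp with h | h
  · exact Or.inl ⟨getElem?_append_of_some h.1, getElem?_append_of_some h.2⟩
  · exact Or.inr ⟨getElem?_append_of_some h.1, getElem?_append_of_some h.2⟩

lemma lt_length {x : List Base} {M : Finset (ℕ × ℕ)} (hM : IsFolding x M) {p : ℕ × ℕ}
    (hp : p ∈ M) : p.1 < x.length ∧ p.2 < x.length := by
  obtain ⟨-, s, t, hs, ht, -⟩ := hM.1 p hp
  exact ⟨(List.getElem?_eq_some_iff.1 hs).1, (List.getElem?_eq_some_iff.1 ht).1⟩

/-- a letter is appended and not used -/
lemma Inv.append_of {s t : Base} {x : List Base} {M : Finset (ℕ × ℕ)} (h : Inv s t x M) (a : Base)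
    (hc : min ((x ++ [a]).count s) ((x ++ [a]).count t) = min (x.count s) (x.count t)) :
    Inv s t (x ++ [a]) M := by
  refine ⟨IsFolding.append h.1 a, h.2.1.append a, by rw [h.2.2.1, hc], ?_⟩
  intro i hi hun q hq hqi
  have hq2 := (lt_length h.1 hq).2
  have hix : i < x.length := by omega
  rw [List.getElem?_append_left hix] at hi
  exact h.2.2.2 i hi hun q hq hqi

/-- the letter `s` is appended -/
lemma Inv.append_s {s t : Base} (hst : Complementary s t) {x : List Base} {M : Finset (ℕ × ℕ)}
    (h : Inv s t x M) : ∃ N, Inv s t (x ++ [s]) N := by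
  classical
  have hne : s ≠ t := by
    rcases hst with ⟨rfl, rfl⟩ | ⟨rfl, rfl⟩ | ⟨rfl, rfl⟩ | ⟨rfl, rfl⟩ <;> decide
  have hts : Complementary t s := by
    rcases hst with ⟨rfl, rfl⟩ | ⟨rfl, rfl⟩ | ⟨rfl, rfl⟩ | ⟨rfl, rfl⟩ <;> simp [Complementary]
  have hcs : (x ++ [s]).count s = x.count s + 1 := by
    rw [List.count_append]; simp
  have hct : (x ++ [s]).count t = x.count t := by
    rw [List.count_append]; simp [hne]
  by_cases hc : x.count t ≤ x.count s
  · refine ⟨M, h.append_of s ?_⟩
    rw [hcs, hct]
    omega
  · push Not at hc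
    have hMc : M.card = x.count s := by rw [h.2.2.1]; omega
    -- all letters `s` are matched
    have himg : M.image (endS x s) = posS x s := by
      apply eq_of_subset_of_card_le (image_sub h.2.1)
      rw [card_image_of_injOn (endS_inj h.1 s), hMc, card_posS]
    -- there are letters `t` which are not matched
    let F := (posS x t).filter (fun i => ∀ p ∈ M, p.1 ≠ i ∧ p.2 ≠ i)
    have hF : F.Nonempty := by
      by_contra hF
      rw [not_nonempty_iff_eq_empty] at hF
      have : posS x t ⊆ M.image (endS x t) := by
        intro i hi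
        have h1 : i ∉ F := by rw [hF]; exact notMem_empty _
        have h2 : ¬ ∀ p ∈ M, p.1 ≠ i ∧ p.2 ≠ i := fun h' => h1 (mem_filter.2 ⟨hi, h'⟩)
        push Not at h2
        obtain ⟨p, hp, hpi⟩ := h2
        rw [mem_posS] at hi
        refine mem_image.2 ⟨p, hp, ?_⟩
        unfold endS
        by_cases h3 : p.1 = i
        · rw [h3, if_pos hi]
        · have h4 := hpi h3
          rcases h.2.1 p hp with h5 | h5
          · rw [if_neg, h4]
            rw [h5.1]
            intro h6
            exact hne (Option.some_injective _ h6)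
          · exfalso
            rw [h4, hi] at h5
            exact hne (Option.some_injective _ h5.2).symm
      have h1 := card_le_card this
      rw [card_image_of_injOn (endS_inj h.1 t), hMc, card_posS] at h1
      omega
    set i := F.max' hF with hi
    have hiF : i ∈ F := max'_mem _ _
    obtain ⟨hi1, hi2⟩ := mem_filter.1 hiF
    rw [mem_posS] at hi1
    have hix : i < x.length := (List.getElem?_eq_some_iff.1 hi1).1
    have hnew : (i, x.length) ∉ M := fun h' => (hi2 _ h').1 rfl
    refine ⟨insert (i, x.length) M, ⟨?_, ?_, ?_⟩, ?_, ?_, ?_⟩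
    · intro p hp
      rcases mem_insert.1 hp with rfl | hp
      · exact ⟨hix, t, s, getElem?_append_of_some hi1, by simp, hts⟩
      · exact (IsFolding.append h.1 s).1 p hp
    · intro p hp q hq hpq
      rcases mem_insert.1 hp with rfl | hp
      · rcases mem_insert.1 hq with rfl | hq
        · exact absurd rfl hpq
        · have h1 := hi2 q hq
          have h2 := lt_length h.1 hq
          refine ⟨fun h' => h1.1 h'.symm, fun h' => h1.2 h'.symm, ?_, ?_⟩
          · show x.length ≠ q.1
            omega
          · show x.length ≠ q.2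
            omega
      · rcases mem_insert.1 hq with rfl | hq
        · have h1 := hi2 p hp
          have h2 := lt_length h.1 hp
          refine ⟨h1.1, ?_, h1.2, ?_⟩
          · show p.1 ≠ x.length
            omega
          · show p.2 ≠ x.length
            omega
        · exact h.1.2.1 p hp q hq hpq
    · intro p hp q hq
      rcases mem_insert.1 hp with rfl | hp
      · rcases mem_insert.1 hq with rfl | hq
        · intro h'
          exact absurd h'.1 (lt_irrefl _)
        · intro h'
          have h2 := lt_length h.1 hq
          have h3 : x.length < q.2 := h'.2.2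
          omega
      · rcases mem_insert.1 hq with rfl | hq
        · intro h'
          exact h.2.2.2 i (Or.inr hi1) hi2 p hp ⟨h'.1, h'.2.1⟩
        · exact h.1.2.2 p hp q hq
    · intro p hp
      rcases mem_insert.1 hp with rfl | hp
      · exact Or.inr ⟨getElem?_append_of_some hi1, by simp⟩
      · exact h.2.1.append s p hp
    · rw [card_insert_of_notMem hnew, hMc, hcs, hct]
      omega
    · intro j hj hun q hq hqj
      have hjne : j ≠ i := fun h' => (hun _ (mem_insert_self _ _)).1 h'.symm
      have hjn : j ≠ x.length := fun h' => (hun _ (mem_insert_self _ _)).2 h'.symm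
      have hjx : j < x.length := by
        rcases mem_insert.1 hq with rfl | hq
        · exact hqj.2
        · have := lt_length h.1 hq
          omega
      rw [List.getElem?_append_left hjx] at hj
      have hunM : ∀ p ∈ M, p.1 ≠ j ∧ p.2 ≠ j := fun p hp => hun p (mem_insert_of_mem hp)
      rcases mem_insert.1 hq with rfl | hq
      · have hij : i < j := hqj.1
        rcases hj with hj | hj
        · have h1 : j ∈ M.image (endS x s) := by rw [himg, mem_posS]; exact hj
          obtain ⟨p, hp, hpj⟩ := mem_image.1 h1
          have h2 := hunM p hp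
          unfold endS at hpj
          split_ifs at hpj
          · exact h2.1 hpj
          · exact h2.2 hpj
        · have h1 : j ∈ F := mem_filter.2 ⟨mem_posS.2 hj, hunM⟩
          have h2 := le_max' F j h1
          omega
      · exact h.2.2.2 j hj hunM q hq hqj

lemma exists_inv {s t : Base} (hst : Complementary s t) (x : List Base) : ∃ M, Inv s t x M := by
  have hts : Complementary t s := by
    rcases hst with ⟨rfl, rfl⟩ | ⟨rfl, rfl⟩ | ⟨rfl, rfl⟩ | ⟨rfl, rfl⟩ <;> simp [Complementary]
  induction x using List.reverseRecOn with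
  | nil =>
    refine ⟨∅, ⟨?_, ?_, ?_⟩, ?_, by simp, ?_⟩
    · intro p hp; simp at hp
    · intro p hp; simp at hp
    · intro p hp; simp at hp
    · intro p hp; simp at hp
    · intro i _ _ q hq; simp at hq
  | append_singleton l a ih =>
    obtain ⟨M, hM⟩ := ih
    by_cases h1 : a = s
    · subst h1
      exact hM.append_s hst
    · by_cases h2 : a = t
      · subst h2
        obtain ⟨N, hN⟩ := hM.symm.append_s hts
        exact ⟨N, hN.symm⟩
      · refine ⟨M, hM.append_of a ?_⟩
        rw [List.count_append, List.count_append]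
        simp [h1, h2]

lemma bddAbove (x : List Base) : BddAbove {m | ∃ M, IsFolding x M ∧ M.card = m} := by
  refine ⟨min (x.count Base.A) (x.count Base.U) + min (x.count Base.C) (x.count Base.G), ?_⟩
  rintro m ⟨M, hM, rfl⟩
  exact card_bound hM

lemma le_opt_of {s t : Base} (hst : Complementary s t) (x : List Base) :
    min (x.count s) (x.count t) ≤ opt x := by
  obtain ⟨M, hM⟩ := exists_inv hst x
  rw [← hM.2.2.1]
  exact le_csSup (bddAbove x) ⟨M, hM.1, rfl⟩

end BridgeBAux

/-- `opt x ≤ min(#A,#U) + min(#C,#G)` -/
theorem opt_le (x : List Base) :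
    opt x ≤ min (x.count Base.A) (x.count Base.U) + min (x.count Base.C) (x.count Base.G) := by
  apply csSup_le'
  rintro m ⟨M, hM, rfl⟩
  exact BridgeBAux.card_bound hM

/-- `opt x ≥ min(#A,#U)` and `opt x ≥ min(#C,#G)` (letters of one colour only: match an adjacent
complementary pair of the subsequence and use induction, or induction on the list with a stack;
e.g. strong induction on the length: if both `A` and `U` occur, there are positions `i < j` with
`{x i, x j} = {A, U}` and no `A`, `U` in between; remove them from the subsequence). -/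
theorem le_opt_AU (x : List Base) : min (x.count Base.A) (x.count Base.U) ≤ opt x :=
  BridgeBAux.le_opt_of (by simp [Complementary]) x

theorem le_opt_CG (x : List Base) : min (x.count Base.C) (x.count Base.G) ≤ opt x :=
  BridgeBAux.le_opt_of (by simp [Complementary]) x

end MP8C
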