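import Pool.Agent.Lib.MP_8c24b6_lc.Defs

/-!
Module A3 (45 min). Counts, minority counts, sums over windows.
-/

namespace MP8C

open Finset

theorem cb_eq_sum (β : Bool) (w : ℕ → Bool) (a b : ℕ) :
    cb β w a b = ∑ x ∈ Ico a b, if w x = β then 1 else 0 := by
  unfold cb
  rw [Finset.card_filter]

theorem cb_add (β : Bool) (w : ℕ → Bool) {a b c : ℕ} (h1 : a ≤ b) (h2 : b ≤ c) :
    cb β w a b + cb β w b c = cb β w a c := by
  simp only [cb_eq_sum]
  exact Finset.sum_Ico_consecutive _ h1 h2

theorem cb_true_add_false (w : ℕ → Bool) (a b : ℕ) : cb true w a b + cb false w a b = b - a := by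
  simp only [cb_eq_sum]
  rw [← Finset.sum_add_distrib]
  have : ∀ x ∈ Ico a b, ((if w x = true then 1 else 0) + (if w x = false then 1 else 0) : ℕ) = 1 := by
    intro x _
    cases w x <;> simp
  rw [Finset.sum_congr rfl this]
  simp

theorem cb_mono (β : Bool) (w : ℕ → Bool) {a b a' b' : ℕ} (ha : a' ≤ a) (hb : b ≤ b') :
    cb β w a b ≤ cb β w a' b' := by
  unfold cb
  exact Finset.card_le_card (Finset.filter_subset_filter _ (Finset.Ico_subset_Ico ha hb))

theorem mc_mono (w : ℕ → Bool) {a b a' b' : ℕ} (ha : a' ≤ a) (hb : b ≤ b') :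
    mc w a b ≤ mc w a' b' := by
  unfold mc
  exact min_le_min (cb_mono _ _ ha hb) (cb_mono _ _ ha hb)

theorem two_mc_le (w : ℕ → Bool) (a b : ℕ) : 2 * mc w a b ≤ b - a := by
  have h := cb_true_add_false w a b
  unfold mc
  omega

theorem mc_add_le (w : ℕ → Bool) {a b c : ℕ} (h1 : a ≤ b) (h2 : b ≤ c) :
    mc w a b + mc w b c ≤ mc w a c := by
  have ht := cb_add true w h1 h2
  have hf := cb_add false w h1 h2
  unfold mc
  omega

theorem cb_shift (β : Bool) (w : ℕ → Bool) (s a b : ℕ) :
    cb β (fun x => w (x + s)) a b = cb β w (a + s) (b + s) := by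
  simp only [cb_eq_sum]
  rw [← Finset.sum_Ico_add' (fun x => if w x = β then 1 else 0) a b s]

theorem mc_shift (w : ℕ → Bool) (s a b : ℕ) :
    mc (fun x => w (x + s)) a b = mc w (a + s) (b + s) := by
  unfold mc
  rw [cb_shift, cb_shift]

theorem msum_shift (w : ℕ → Bool) (s r a n : ℕ) :
    msum (fun x => w (x + s)) r a n = msum w r (a + s) n := by
  unfold msum
  refine Finset.sum_congr rfl fun j _ => ?_
  rw [mc_shift]
  congr 1 <;> ring

theorem msum_add (w : ℕ → Bool) (r a n m : ℕ) :
    msum w r a (n + m) = msum w r a n + msum w r (a + n * r) m := by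
  unfold msum
  rw [Finset.sum_range_add]
  congr 1
  refine Finset.sum_congr rfl fun j _ => ?_
  congr 1 <;> ring

theorem msum_succ (w : ℕ → Bool) (r a n : ℕ) :
    msum w r a (n + 1) = msum w r a n + mc w (a + n * r) (a + (n + 1) * r) := by
  unfold msum
  rw [Finset.sum_range_succ]

theorem msum_le_mc (w : ℕ → Bool) (r a n : ℕ) : msum w r a n ≤ mc w a (a + n * r) := by
  induction n with
  | zero => simp [msum]
  | succ n ih =>
    rw [msum_succ]
    have h := mc_add_le w (a := a) (b := a + n * r) (c := a + (n + 1) * r) (by omega)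
      (by nlinarith)
    omega

theorem two_msum_le (w : ℕ → Bool) (r a n : ℕ) : 2 * msum w r a n ≤ n * r := by
  have h1 := msum_le_mc w r a n
  have h2 := two_mc_le w a (a + n * r)
  omega

/-- windows of length `k * r`, each one cut in `k` windows of length `r` -/
theorem msum_mono (w : ℕ → Bool) (k r a n : ℕ) :
    msum w r a (n * k) ≤ msum w (k * r) a n := by
  induction n with
  | zero => simp [msum]
  | succ n ih =>
    rw [msum_succ, Nat.succ_mul, msum_add]
    have h := msum_le_mc w r (a + n * k * r) k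
    have e1 : a + n * (k * r) = a + n * k * r := by ring
    have e2 : a + (n + 1) * (k * r) = a + n * k * r + k * r := by ring
    rw [e1, e2]
    omega

theorem msum_one (w : ℕ → Bool) (a n : ℕ) : msum w 1 a n = 0 := by
  unfold msum
  refine Finset.sum_eq_zero fun j _ => ?_
  have h := two_mc_le w (a + j * 1) (a + (j + 1) * 1)
  have : a + (j + 1) * 1 - (a + j * 1) = 1 := by omega
  omega

end MP8C
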