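import Pool.Agent.Lib.MP_8c24b6_lc.LcsBasic
import Pool.Agent.Lib.MP_8c24b6_lc.Mono

/-!
Module A8 (60 min). Sign changes at distance one.
If `w x = false, w (x+1) = true` and `z y = true, z (y+1) = false` then
`exc x y + exc (x+1) (y+1) = L(x+2,y+2) - L(x,y) ≥ L(x+1,y+2) - L(x,y) ≥ L(x,y+1) + 1 - L(x,y) ≥ 1`
(the cells `(x,y)` and `(x+1,y+1)` have different letters, the cell `(x,y+1)` has equal letters).
Every cell is used at most twice.
-/

namespace MP8C

open Finset

theorem exc_corner (w z : ℕ → Bool) (x y : ℕ) (hx : w x = false) (hx' : w (x + 1) = true)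
    (hy : z y = true) (hy' : z (y + 1) = false) :
    1 ≤ exc w z x y + exc w z (x + 1) (y + 1) := by
  have h1 := exc_spec w z x y
  have h2 := exc_spec w z (x + 1) (y + 1)
  rw [if_neg (by rw [hx, hy]; decide)] at h1
  rw [if_neg (by rw [hx', hy']; decide)] at h2
  have h3 : lcs w z 0 x 0 (y + 1) + 1 ≤ lcs w z 0 (x + 1) 0 (y + 1 + 1) :=
    lcs_match w z (Nat.zero_le _) (Nat.zero_le _) (by rw [hx, hy'])
  have h4 : lcs w z 0 x 0 y ≤ lcs w z 0 x 0 (y + 1) :=
    lcs_mono w z le_rfl le_rfl le_rfl (Nat.le_succ y)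
  have h5 : lcs w z 0 (x + 1) 0 (y + 1 + 1) ≤ lcs w z 0 (x + 1 + 1) 0 (y + 1 + 1) :=
    lcs_mono w z le_rfl (Nat.le_succ _) le_rfl le_rfl
  omega

theorem chg_prod (w z : ℕ → Bool) (x0 x1 y0 y1 : ℕ) :
    chg false w x0 x1 * chg true z y0 y1 ≤
      2 * ∑ x ∈ Ico x0 x1, ∑ y ∈ Ico y0 y1, exc w z x y := by
  set X := (Ico x0 x1).filter (fun x => x + 1 < x1 ∧ w x = false ∧ w (x + 1) = !false) with hX
  set Y := (Ico y0 y1).filter (fun y => y + 1 < y1 ∧ z y = true ∧ z (y + 1) = !true) with hY
  have hprod : chg false w x0 x1 * chg true z y0 y1 = (X ×ˢ Y).card := by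
    rw [Finset.card_product]
    rfl
  have h1 : (X ×ˢ Y).card ≤
      ∑ p ∈ X ×ˢ Y, (exc w z p.1 p.2 + exc w z (p.1 + 1) (p.2 + 1)) := by
    rw [Finset.card_eq_sum_ones]
    refine Finset.sum_le_sum ?_
    intro p hp
    rw [Finset.mem_product, hX, hY, Finset.mem_filter, Finset.mem_filter] at hp
    exact exc_corner w z p.1 p.2 hp.1.2.2.1 (by simpa using hp.1.2.2.2) hp.2.2.2.1
      (by simpa using hp.2.2.2.2)
  have h2 : ∑ p ∈ X ×ˢ Y, exc w z p.1 p.2 ≤ ∑ p ∈ Ico x0 x1 ×ˢ Ico y0 y1, exc w z p.1 p.2 := by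
    refine Finset.sum_le_sum_of_subset ?_
    exact Finset.product_subset_product (Finset.filter_subset _ _) (Finset.filter_subset _ _)
  have h3 : ∑ p ∈ X ×ˢ Y, exc w z (p.1 + 1) (p.2 + 1) ≤
      ∑ p ∈ Ico x0 x1 ×ˢ Ico y0 y1, exc w z p.1 p.2 := by
    have himg : ∑ p ∈ X ×ˢ Y, exc w z (p.1 + 1) (p.2 + 1) =
        ∑ p ∈ (X ×ˢ Y).image (fun p : ℕ × ℕ => (p.1 + 1, p.2 + 1)), exc w z p.1 p.2 := by
      rw [Finset.sum_image]
      intro p _ q _ hpq
      simp only [Prod.mk.injEq] at hpq
      exact Prod.ext (by omega) (by omega)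
    rw [himg]
    refine Finset.sum_le_sum_of_subset ?_
    intro q hq
    rw [Finset.mem_image] at hq
    obtain ⟨p, hp, rfl⟩ := hq
    rw [Finset.mem_product, hX, hY, Finset.mem_filter, Finset.mem_filter, Finset.mem_Ico,
      Finset.mem_Ico] at hp
    rw [Finset.mem_product, Finset.mem_Ico, Finset.mem_Ico]
    dsimp only
    omega
  have h4 : ∑ p ∈ Ico x0 x1 ×ˢ Ico y0 y1, exc w z p.1 p.2 =
      ∑ x ∈ Ico x0 x1, ∑ y ∈ Ico y0 y1, exc w z x y := Finset.sum_product _ _ _
  rw [Finset.sum_add_distrib] at h1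
  rw [hprod]
  omega

theorem chg_eq' (α : Bool) (w : ℕ → Bool) (a b : ℕ) :
    chg α w a b = ((Ico a (b - 1)).filter (fun x => w x = α ∧ w (x + 1) = !α)).card := by
  unfold chg
  congr 1
  ext x
  simp only [Finset.mem_filter, Finset.mem_Ico]
  constructor
  · rintro ⟨⟨h1, h2⟩, h3, h4⟩
    exact ⟨⟨h1, by omega⟩, h4⟩
  · rintro ⟨⟨h1, h2⟩, h4⟩
    exact ⟨⟨h1, by omega⟩, by omega, h4⟩

theorem chg_succ' (α : Bool) (w : ℕ → Bool) (a k : ℕ) :
    chg α w a (a + 1 + (k + 1)) = chg α w a (a + 1 + k) +
      (if w (a + k) = α ∧ w (a + k + 1) = !α then 1 else 0) := by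
  rw [chg_eq', chg_eq']
  have e1 : a + 1 + (k + 1) - 1 = a + k + 1 := by omega
  have e2 : a + 1 + k - 1 = a + k := by omega
  rw [e1, e2, Finset.card_filter, Finset.card_filter, Finset.sum_Ico_succ_top (by omega)]

theorem chg_balance (w : ℕ → Bool) (a k : ℕ) :
    chg false w a (a + 1 + k) + (if w a = true then 1 else 0) =
      chg true w a (a + 1 + k) + (if w (a + k) = true then 1 else 0) := by
  induction k with
  | zero =>
    rw [chg_eq', chg_eq']
    simp
  | succ k ih =>
    rw [chg_succ', chg_succ']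
    have e : a + (k + 1) = a + k + 1 := by omega
    rw [e]
    cases h1 : w (a + k) <;> cases h2 : w (a + k + 1) <;> simp [h1] at ih ⊢ <;> omega

theorem chg_alt (α : Bool) (w : ℕ → Bool) (a b : ℕ) :
    chg false w a b + chg true w a b ≤ 2 * chg α w a b + 1 := by
  rcases Nat.lt_or_ge a b with h | h
  · obtain ⟨k, rfl⟩ : ∃ k, b = a + 1 + k := ⟨b - (a + 1), by omega⟩
    have hb := chg_balance w a k
    have h1 : (if w a = true then 1 else 0) ≤ 1 := by split_ifs <;> omega
    have h2 : (if w (a + k) = true then 1 else 0) ≤ 1 := by split_ifs <;> omega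
    cases α
    · omega
    · omega
  · have h0 : ∀ β : Bool, chg β w a b = 0 := by
      intro β
      rw [chg_eq', Finset.Ico_eq_empty (by omega), Finset.filter_empty, Finset.card_empty]
    rw [h0, h0]
    omega

theorem chg_add_le (α : Bool) (w : ℕ → Bool) (a b c : ℕ) (hab : a ≤ b) (hbc : b ≤ c) :
    chg α w a b + chg α w b c ≤ chg α w a c := by
  rw [chg_eq', chg_eq', chg_eq']
  rw [← Finset.card_union_of_disjoint]
  · refine Finset.card_le_card ?_
    intro x hx
    rw [Finset.mem_union, Finset.mem_filter, Finset.mem_filter, Finset.mem_Ico, Finset.mem_Ico] at hx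
    rw [Finset.mem_filter, Finset.mem_Ico]
    rcases hx with ⟨h1, h2⟩ | ⟨h1, h2⟩
    · exact ⟨by omega, h2⟩
    · exact ⟨by omega, h2⟩
  · rw [Finset.disjoint_left]
    intro x hx hx'
    rw [Finset.mem_filter, Finset.mem_Ico] at hx hx'
    omega

theorem const_of_no_chg (w : ℕ → Bool) (a b : ℕ) (hf : chg false w a b = 0)
    (ht : chg true w a b = 0) : ∀ x, a ≤ x → x < b → w x = w a := by
  intro x hax
  induction x, hax using Nat.le_induction with
  | base => intro _; rfl
  | succ x hax ih =>
    intro hxb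
    have hx := ih (by omega)
    rw [chg_eq', Finset.card_eq_zero, Finset.filter_eq_empty_iff] at hf ht
    have h1 := hf (x := x) (Finset.mem_Ico.mpr ⟨hax, by omega⟩)
    have h2 := ht (x := x) (Finset.mem_Ico.mpr ⟨hax, by omega⟩)
    rw [← hx]
    cases h3 : w x <;> cases h4 : w (x + 1) <;> simp [h3, h4] at h1 h2 ⊢

theorem window_chg (w : ℕ → Bool) (a R : ℕ) :
    2 * mc w a (a + R) ≤ R * (chg false w a (a + R) + chg true w a (a + R)) := by
  have hsum : cb true w a (a + R) + cb false w a (a + R) = R := by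
    unfold cb
    rw [← Finset.card_union_of_disjoint]
    · rw [← Finset.filter_or]
      rw [Finset.filter_true_of_mem]
      · simp
      · intro x _
        cases w x <;> simp
    · rw [Finset.disjoint_left]
      intro x hx hx'
      rw [Finset.mem_filter] at hx hx'
      rw [hx.2] at hx'
      exact absurd hx'.2 (by decide)
  have hmc : 2 * mc w a (a + R) ≤ R := by
    unfold mc
    omega
  rcases Nat.eq_zero_or_pos (chg false w a (a + R) + chg true w a (a + R)) with h0 | h0
  · have hc := const_of_no_chg w a (a + R) (by omega) (by omega)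
    have : mc w a (a + R) = 0 := by
      have hz : cb (!(w a)) w a (a + R) = 0 := by
        unfold cb
        rw [Finset.card_eq_zero, Finset.filter_eq_empty_iff]
        intro x hx
        rw [Finset.mem_Ico] at hx
        rw [hc x hx.1 hx.2]
        cases w a <;> decide
      unfold mc
      cases h : w a
      · rw [h] at hz
        simp only [Bool.not_false] at hz
        omega
      · rw [h] at hz
        simp only [Bool.not_true] at hz
        omega
    rw [this]
    omega
  · calc 2 * mc w a (a + R) ≤ R * 1 := by omega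
      _ ≤ R * (chg false w a (a + R) + chg true w a (a + R)) := Nat.mul_le_mul_left R h0

/-- The numbers of the two kinds of changes in an interval differ by at most one (they alternate);
every window with `mc ≥ 1` contains a change; `2 * mc ≤ R` for every window. -/
theorem chg_ge (w : ℕ → Bool) (α : Bool) (R a n : ℕ) :
    2 * msum w R a n ≤ R * (2 * chg α w a (a + n * R) + 1) := by
  have key : 2 * msum w R a n ≤
      R * (chg false w a (a + n * R) + chg true w a (a + n * R)) := by
    induction n with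
    | zero => simp [msum]
    | succ n ih =>
      have e : msum w R a (n + 1) = msum w R a n + mc w (a + n * R) (a + (n + 1) * R) := by
        unfold msum
        rw [Finset.sum_range_succ]
      have e2 : a + (n + 1) * R = a + n * R + R := by ring
      rw [e, e2]
      have hw := window_chg w (a + n * R) R
      have hF := chg_add_le false w a (a + n * R) (a + n * R + R) (by omega) (by omega)
      have hT := chg_add_le true w a (a + n * R) (a + n * R + R) (by omega) (by omega)
      calc 2 * (msum w R a n + mc w (a + n * R) (a + n * R + R))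
          = 2 * msum w R a n + 2 * mc w (a + n * R) (a + n * R + R) := by ring
        _ ≤ R * (chg false w a (a + n * R) + chg true w a (a + n * R)) +
            R * (chg false w (a + n * R) (a + n * R + R) +
              chg true w (a + n * R) (a + n * R + R)) := Nat.add_le_add ih hw
        _ = R * ((chg false w a (a + n * R) + chg false w (a + n * R) (a + n * R + R)) +
            (chg true w a (a + n * R) + chg true w (a + n * R) (a + n * R + R))) := by ring
        _ ≤ R * (chg false w a (a + n * R + R) + chg true w a (a + n * R + R)) :=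
            Nat.mul_le_mul_left R (Nat.add_le_add hF hT)
  exact key.trans (Nat.mul_le_mul_left R (chg_alt α w a (a + n * R)))

end MP8C
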