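import Pool.Agent.Lib.MP_8c24b6_lc.Mono

/-!
Module A5 (60 min). Mixed windows contain many close pairs of different letters.
-/

namespace MP8C

open Finset

private theorem cont_pf_mono {u : ℕ → Bool} {a b k a' b' k' : ℕ} {Q : Finset (ℕ × ℕ)}
    (h : PairFam u a b k Q) (ha : a' ≤ a) (hb : b ≤ b') (hk : k ≤ k') :
    PairFam u a' b' k' Q := by
  refine ⟨fun p hp => ?_, h.2.1, h.2.2⟩
  obtain ⟨h1, h2, h3, h4, h5, h6⟩ := h.1 p hp
  exact ⟨⟨by omega, by omega⟩, ⟨by omega, by omega⟩, h3, h4, by omega, by omega⟩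

private theorem cont_pf_empty (u : ℕ → Bool) (a b k : ℕ) : PairFam u a b k ∅ := by
  refine ⟨fun p hp => ?_, fun p hp => ?_, fun p hp => ?_⟩ <;> simp at hp

private theorem cont_pf_union {u : ℕ → Bool} {a m b k : ℕ} {Q Q' : Finset (ℕ × ℕ)}
    (h : PairFam u a m k Q) (h' : PairFam u m b k Q') (ham : a ≤ m) (hmb : m ≤ b) :
    PairFam u a b k (Q ∪ Q') ∧ (Q ∪ Q').card = Q.card + Q'.card := by
  refine ⟨⟨?_, ?_, ?_⟩, ?_⟩
  · intro p hp
    rcases Finset.mem_union.mp hp with hp | hp
    · exact (cont_pf_mono h le_rfl hmb le_rfl).1 p hp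
    · exact (cont_pf_mono h' ham le_rfl le_rfl).1 p hp
  · intro p hp q hq e
    rcases Finset.mem_union.mp hp with hp | hp <;> rcases Finset.mem_union.mp hq with hq | hq
    · exact h.2.1 p hp q hq e
    · have h1 := (h.1 p hp).1
      have h2 := (h'.1 q hq).1
      omega
    · have h1 := (h'.1 p hp).1
      have h2 := (h.1 q hq).1
      omega
    · exact h'.2.1 p hp q hq e
  · intro p hp q hq e
    rcases Finset.mem_union.mp hp with hp | hp <;> rcases Finset.mem_union.mp hq with hq | hq
    · exact h.2.2 p hp q hq e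
    · have h1 := (h.1 p hp).1
      have h2 := (h'.1 q hq).1
      have h3 := (h.1 p hp).2.1
      have h4 := (h'.1 q hq).2.1
      omega
    · have h3 := (h'.1 p hp).2.1
      have h4 := (h.1 q hq).2.1
      omega
    · exact h'.2.2 p hp q hq e
  · apply Finset.card_union_of_disjoint
    rw [Finset.disjoint_left]
    intro p hp hp'
    have h1 := (h.1 p hp).1
    have h2 := (h'.1 p hp').1
    omega

/-- union over windows -/
private theorem cont_union (u : ℕ → Bool) (a L k n : ℕ) (f : ℕ → Finset (ℕ × ℕ))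
    (hf : ∀ j < n, PairFam u (a + j * L) (a + (j + 1) * L) k (f j)) :
    ∃ Q, PairFam u a (a + n * L) k Q ∧ Q.card = ∑ j ∈ range n, (f j).card := by
  induction n with
  | zero => exact ⟨∅, cont_pf_empty _ _ _ _, by simp⟩
  | succ n ih =>
    obtain ⟨Q, hQ, hc⟩ := ih (fun j hj => hf j (by omega))
    have h1 := hf n (by omega)
    have h2 := cont_pf_union hQ h1 (by omega) (by nlinarith)
    refine ⟨Q ∪ f n, h2.1, ?_⟩
    rw [h2.2, hc, Finset.sum_range_succ]

/-- a window `[a,b)` contains a family of `mc u a b` disjoint pairs (at distance `≤ b - a`) -/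
theorem pairs_in_window (u : ℕ → Bool) (a b : ℕ) :
    ∃ Q, PairFam u a b (b - a) Q ∧ Q.card = mc u a b := by
  classical
  obtain ⟨F, hF, hFc⟩ := Finset.exists_subset_card_eq
    (s := (Ico a b).filter (fun x => u x = false)) (n := mc u a b) (min_le_right _ _)
  obtain ⟨T, hT, hTc⟩ := Finset.exists_subset_card_eq
    (s := (Ico a b).filter (fun x => u x = true)) (n := mc u a b) (min_le_left _ _)
  let e : F ≃ T := Finset.equivOfCardEq (hFc.trans hTc.symm)
  refine ⟨F.attach.image (fun x => (x.1, (e x).1)), ⟨?_, ?_, ?_⟩, ?_⟩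
  · intro p hp
    obtain ⟨x, -, rfl⟩ := Finset.mem_image.mp hp
    have h1 := hF x.2
    have h2 := hT (e x).2
    simp only [Finset.mem_filter, Finset.mem_Ico] at h1 h2
    refine ⟨h1.1, h2.1, h1.2, h2.2, ?_, ?_⟩
    · show (x : ℕ) ≤ (e x : ℕ) + (b - a)
      omega
    · show (e x : ℕ) ≤ (x : ℕ) + (b - a)
      omega
  · intro p hp q hq h
    obtain ⟨x, -, rfl⟩ := Finset.mem_image.mp hp
    obtain ⟨y, -, rfl⟩ := Finset.mem_image.mp hq
    have : x = y := Subtype.ext h
    rw [this]
  · intro p hp q hq h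
    obtain ⟨x, -, rfl⟩ := Finset.mem_image.mp hp
    obtain ⟨y, -, rfl⟩ := Finset.mem_image.mp hq
    have h1 : e x = e y := Subtype.ext h
    have : x = y := e.injective h1
    rw [this]
  · rw [Finset.card_image_of_injective, Finset.card_attach, hFc]
    intro x y h
    exact Subtype.ext (congrArg Prod.fst h)

/-- counts over consecutive windows -/
private theorem cont_cb_sum (β : Bool) (u : ℕ → Bool) (a κ t : ℕ) :
    cb β u a (a + t * κ) = ∑ j ∈ range t, cb β u (a + j * κ) (a + (j + 1) * κ) := by
  induction t with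
  | zero => simp [cb]
  | succ t ih =>
    rw [Finset.sum_range_succ, ← ih]
    exact (cb_add β u (by omega) (by nlinarith)).symm

private theorem cont_mc_le (β : Bool) (u : ℕ → Bool) (a b : ℕ) : mc u a b ≤ cb β u a b := by
  cases β
  · exact min_le_right _ _
  · exact min_le_left _ _

/-- One window cut in `t` cells of length `κ`, with `κ ≤ 4 * mc`.
If the sum of the minority counts of the cells is `≥ κ/4`, take pairs inside the cells.
Otherwise every cell has `> 3κ/4` letters of its majority colour; not all the majority colours are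
the same (else `mc(window) ≤ sum of the mc(cells) < κ/4`), so there are two adjacent cells with
different majority colours, and between them there are `≥ 3κ/4` disjoint pairs at distance
`≤ 2κ`. -/
theorem cont_window (u : ℕ → Bool) (a κ t : ℕ) (hκ : 1 ≤ κ)
    (h : κ ≤ 4 * mc u a (a + t * κ)) :
    ∃ Q, PairFam u a (a + t * κ) (2 * κ) Q ∧ κ ≤ 4 * Q.card := by
  classical
  by_cases hs : κ ≤ 4 * ∑ j ∈ range t, mc u (a + j * κ) (a + (j + 1) * κ)
  · choose f hf hfc using fun j => pairs_in_window u (a + j * κ) (a + (j + 1) * κ)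
    obtain ⟨Q, hQ, hQc⟩ := cont_union u a κ (2 * κ) t f
      (fun j _ => cont_pf_mono (hf j) le_rfl le_rfl (by
        have : a + (j + 1) * κ - (a + j * κ) = κ := by
          have : (j + 1) * κ = j * κ + κ := by ring
          omega
        omega))
    refine ⟨Q, hQ, ?_⟩
    rw [hQc]
    simpa [hfc] using hs
  · push Not at hs
    -- every cell has small minority
    have hcell : ∀ j < t, 4 * mc u (a + j * κ) (a + (j + 1) * κ) < κ := by
      intro j hj
      have : mc u (a + j * κ) (a + (j + 1) * κ) ≤
          ∑ j ∈ range t, mc u (a + j * κ) (a + (j + 1) * κ) :=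
        Finset.single_le_sum (f := fun j => mc u (a + j * κ) (a + (j + 1) * κ))
          (fun _ _ => Nat.zero_le _) (Finset.mem_range.mpr hj)
      omega
    -- there is an adjacent pair with different minority colours
    have hadj : ∃ j, j + 1 < t ∧ ∃ β : Bool,
        cb β u (a + j * κ) (a + (j + 1) * κ) = mc u (a + j * κ) (a + (j + 1) * κ) ∧
        cb (!β) u (a + (j + 1) * κ) (a + (j + 2) * κ) =
          mc u (a + (j + 1) * κ) (a + (j + 2) * κ) := by
      by_contra hno
      push Not at hno
      have ht : 0 < t := by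
        rcases Nat.eq_zero_or_pos t with h0 | h0
        · subst h0
          have : mc u a (a + 0 * κ) = 0 := by simp [mc, cb]
          omega
        · exact h0
      -- the minority colour of the first cell
      obtain ⟨β, hβ⟩ : ∃ β : Bool, cb β u (a + 0 * κ) (a + (0 + 1) * κ) =
          mc u (a + 0 * κ) (a + (0 + 1) * κ) := by
        rcases min_choice (cb true u (a + 0 * κ) (a + (0 + 1) * κ))
          (cb false u (a + 0 * κ) (a + (0 + 1) * κ)) with h1 | h1
        · exact ⟨true, h1.symm⟩
        · exact ⟨false, h1.symm⟩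
      have hall : ∀ j < t, cb β u (a + j * κ) (a + (j + 1) * κ) =
          mc u (a + j * κ) (a + (j + 1) * κ) := by
        intro j
        induction j with
        | zero => intro _; exact hβ
        | succ j ih =>
          intro hj
          have h1 := ih (by omega)
          have h2 := hno j hj β h1
          rcases min_choice (cb true u (a + (j + 1) * κ) (a + (j + 1 + 1) * κ))
            (cb false u (a + (j + 1) * κ) (a + (j + 1 + 1) * κ)) with h3 | h3
          · cases β
            · exact absurd h3.symm h2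
            · exact h3.symm
          · cases β
            · exact h3.symm
            · exact absurd h3.symm h2
      have h1 := cont_mc_le β u a (a + t * κ)
      rw [cont_cb_sum, Finset.sum_congr rfl (fun j hj => hall j (Finset.mem_range.mp hj))] at h1
      omega
    obtain ⟨j, hj, β, h1, h2⟩ := hadj
    obtain ⟨Q, hQ, hQc⟩ := pairs_in_window u (a + j * κ) (a + (j + 2) * κ)
    have e1 : (j + 1) * κ = j * κ + κ := by ring
    have e2 : (j + 2) * κ = j * κ + 2 * κ := by ring
    have e3 : (j + 2) * κ ≤ t * κ := Nat.mul_le_mul_right κ hj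
    refine ⟨Q, cont_pf_mono hQ (by omega) (by omega) (by omega), ?_⟩
    rw [hQc]
    have c1 := hcell j (by omega)
    have c2 := hcell (j + 1) hj
    have s1 := cb_true_add_false u (a + j * κ) (a + (j + 1) * κ)
    have s2 := cb_true_add_false u (a + (j + 1) * κ) (a + (j + 2) * κ)
    have m1 : ∀ γ, cb γ u (a + j * κ) (a + (j + 1) * κ) ≤
        cb γ u (a + j * κ) (a + (j + 2) * κ) := fun γ => cb_mono γ u le_rfl (by omega)
    have m2 : ∀ γ, cb γ u (a + (j + 1) * κ) (a + (j + 2) * κ) ≤
        cb γ u (a + j * κ) (a + (j + 2) * κ) := fun γ => cb_mono γ u (by omega) le_rfl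
    have g1 : κ ≤ 4 * cb true u (a + j * κ) (a + (j + 2) * κ) := by
      cases β
      · have := m1 true
        omega
      · have := m2 true
        simp only [Bool.not_true] at h2
        have c2' : 4 * mc u (a + (j + 1) * κ) (a + (j + 2) * κ) < κ := c2
        omega
    have g2 : κ ≤ 4 * cb false u (a + j * κ) (a + (j + 2) * κ) := by
      cases β
      · have := m2 false
        simp only [Bool.not_false] at h2
        have c2' : 4 * mc u (a + (j + 1) * κ) (a + (j + 2) * κ) < κ := c2
        omega
      · have := m1 false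
        omega
    have : mc u (a + j * κ) (a + (j + 2) * κ) =
      min (cb true u (a + j * κ) (a + (j + 2) * κ)) (cb false u (a + j * κ) (a + (j + 2) * κ)) :=
      rfl
    omega

/-- `n` windows of length `t * κ`.  The windows with `κ ≤ 4 * mc` (the good ones) give `≥ κ/4`
pairs each, and `2 * msum ≤ #good * (t * κ) + n * κ / 2`. -/
theorem cont (u : ℕ → Bool) (a κ t n : ℕ) (hκ : 1 ≤ κ) :
    ∃ Q, PairFam u a (a + n * (t * κ)) (2 * κ) Q ∧
      4 * κ * msum u (t * κ) a n ≤ 8 * (t * κ) * Q.card + n * κ * κ := by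
  classical
  have key : ∀ j, ∃ Q, PairFam u (a + j * (t * κ)) (a + (j + 1) * (t * κ)) (2 * κ) Q ∧
      4 * κ * mc u (a + j * (t * κ)) (a + (j + 1) * (t * κ)) ≤ 8 * (t * κ) * Q.card + κ * κ := by
    intro j
    have e : a + (j + 1) * (t * κ) = a + j * (t * κ) + t * κ := by ring
    rw [e]
    by_cases hg : κ ≤ 4 * mc u (a + j * (t * κ)) (a + j * (t * κ) + t * κ)
    · obtain ⟨Q, hQ, hQc⟩ := cont_window u (a + j * (t * κ)) κ t hκ hg
      refine ⟨Q, hQ, ?_⟩
      have h2 := two_mc_le u (a + j * (t * κ)) (a + j * (t * κ) + t * κ)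
      have h3 : a + j * (t * κ) + t * κ - (a + j * (t * κ)) = t * κ := by omega
      rw [h3] at h2
      calc 4 * κ * mc u (a + j * (t * κ)) (a + j * (t * κ) + t * κ)
          = 2 * κ * (2 * mc u (a + j * (t * κ)) (a + j * (t * κ) + t * κ)) := by ring
        _ ≤ 2 * κ * (t * κ) := Nat.mul_le_mul_left _ h2
        _ = 2 * (t * κ) * κ := by ring
        _ ≤ 2 * (t * κ) * (4 * Q.card) := Nat.mul_le_mul_left _ hQc
        _ = 8 * (t * κ) * Q.card := by ring
        _ ≤ _ := Nat.le_add_right _ _
    · push Not at hg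
      refine ⟨∅, cont_pf_empty _ _ _ _, ?_⟩
      calc 4 * κ * mc u (a + j * (t * κ)) (a + j * (t * κ) + t * κ)
          = κ * (4 * mc u (a + j * (t * κ)) (a + j * (t * κ) + t * κ)) := by ring
        _ ≤ κ * κ := Nat.mul_le_mul_left _ hg.le
        _ ≤ _ := Nat.le_add_left _ _
  choose f hf hfc using key
  obtain ⟨Q, hQ, hQc⟩ := cont_union u a (t * κ) (2 * κ) n f (fun j _ => hf j)
  refine ⟨Q, hQ, ?_⟩
  rw [hQc]
  unfold msum
  rw [Finset.mul_sum, Finset.mul_sum]
  calc ∑ j ∈ range n, 4 * κ * mc u (a + j * (t * κ)) (a + (j + 1) * (t * κ))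
      ≤ ∑ j ∈ range n, (8 * (t * κ) * (f j).card + κ * κ) := Finset.sum_le_sum (fun j _ => hfc j)
    _ = ∑ j ∈ range n, 8 * (t * κ) * (f j).card + n * κ * κ := by
        rw [Finset.sum_add_distrib, Finset.sum_const, Finset.card_range, smul_eq_mul, mul_assoc]

end MP8C
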