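import Pool.Agent.Lib.MP_8c24b6_lc.Row

/-!
Module A7 (60 min). THE SQUARE LEMMA.
Square `[x0, x1) × [y0, y1)`, `x1 = x0 + n ρ`, `y1 = y0 + m ρ`; `Qz` = close pairs of rows in the top
part `[y2, y1)`, `Qw` = close pairs of columns in the left part `[x0, x2)`.
For `π = (y,y') ∈ Qz` and `π' = (x,x') ∈ Qw`
  L(x1,y1) ≤ L(x1,y) + (y1 - y2)           (increments ≤ 1)
  L(x1,y) ≤ L(x0,y) + n k + msum w + S(π)    (row),  S(π) = Σ_{X in [x0,x1)} (exc X y + exc X y')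
  L(x0,y) ≤ L(x,y) ≤ L(x,y1)                (monotone)
  L(x,y1) ≤ L(x,y0) + m k + msum z + S'(π')  (col),  S'(π') = Σ_Y (exc x Y + exc x' Y)
  L(x,y0) ≤ L(x0,y0) + (x2 - x0).
With `hB` this gives `2 t ≤ S(π) + S'(π')` for ALL `π, π'`, so either all `S(π) ≥ t` or all
`S'(π') ≥ t`.  The rows used by the pairs of `Qz` are pairwise different (the first ones carry
`false`, the second ones `true`), so `Σ_π S(π) ≤` the total excess of the square; the same for the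
columns.
-/

namespace MP8C

open Finset

theorem square_pairs {u : ℕ → Bool} {a b k : ℕ} {Q : Finset (ℕ × ℕ)} (h : PairFam u a b k Q)
    (f : ℕ → ℕ) : ∑ p ∈ Q, (f p.1 + f p.2) ≤ ∑ x ∈ Ico a b, f x := by
  obtain ⟨h1, h2, h3⟩ := h
  rw [Finset.sum_add_distrib]
  have e1 : ∑ p ∈ Q, f p.1 = ∑ x ∈ Q.image Prod.fst, f x := by
    rw [Finset.sum_image]
    intro p hp q hq e
    exact h2 p hp q hq e
  have e2 : ∑ p ∈ Q, f p.2 = ∑ x ∈ Q.image Prod.snd, f x := by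
    rw [Finset.sum_image]
    intro p hp q hq e
    exact h3 p hp q hq e
  have hd : Disjoint (Q.image Prod.fst) (Q.image Prod.snd) := by
    rw [Finset.disjoint_left]
    intro x hx hx'
    rw [Finset.mem_image] at hx hx'
    obtain ⟨p, hp, rfl⟩ := hx
    obtain ⟨q, hq, e⟩ := hx'
    have := (h1 p hp).2.2.1
    have h4 := (h1 q hq).2.2.2.1
    rw [e, this] at h4
    exact Bool.noConfusion h4
  rw [e1, e2, ← Finset.sum_union hd]
  apply Finset.sum_le_sum_of_subset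
  intro x hx
  rw [Finset.mem_union, Finset.mem_image, Finset.mem_image] at hx
  rw [Finset.mem_Ico]
  rcases hx with ⟨p, hp, rfl⟩ | ⟨p, hp, rfl⟩
  · exact (h1 p hp).1
  · exact (h1 p hp).2.1

theorem square (w z : ℕ → Bool) (x0 n y0 m ρ k t x2 y2 : ℕ) (Qw Qz : Finset (ℕ × ℕ))
    (hQw : PairFam w x0 x2 k Qw) (hQz : PairFam z y2 (y0 + m * ρ) k Qz)
    (hx : x0 ≤ x2) (hx2 : x2 ≤ x0 + n * ρ) (hy : y0 ≤ y2) (hy2 : y2 ≤ y0 + m * ρ)
    (hB : lcs w z 0 x0 0 y0 + (y0 + m * ρ - y2) + (x2 - x0) + (n + m) * k + msum w ρ x0 n +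
      msum z ρ y0 m + 2 * t ≤ lcs w z 0 (x0 + n * ρ) 0 (y0 + m * ρ)) :
    t * min Qw.card Qz.card ≤
      ∑ x ∈ Ico x0 (x0 + n * ρ), ∑ y ∈ Ico y0 (y0 + m * ρ), exc w z x y := by
  set R := x0 + n * ρ with hR
  set T := y0 + m * ρ with hT
  have key : ∀ p ∈ Qz, ∀ q ∈ Qw, 2 * t ≤ ∑ x ∈ Ico x0 R, (exc w z x p.1 + exc w z x p.2) +
      ∑ y ∈ Ico y0 T, (exc w z q.1 y + exc w z q.2 y) := by
    intro p hp q hq
    obtain ⟨⟨p1, p2⟩, -, p3, p4, p5, p6⟩ := hQz.1 p hp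
    obtain ⟨⟨q1, q2⟩, -, q3, q4, q5, q6⟩ := hQw.1 q hq
    have s1 := row_lcs_add w z R p.1 (T - p.1)
    rw [show p.1 + (T - p.1) = T by omega] at s1
    have s2 := row w z x0 n ρ p.1 p.2 k p3 p4 p5 p6
    rw [← hR] at s2
    have s3 : lcs w z 0 x0 0 p.1 ≤ lcs w z 0 q.1 0 T :=
      lcs_mono w z le_rfl q1 le_rfl (by omega)
    have s4 := col w z y0 m ρ q.1 q.2 k q3 q4 q5 q6
    rw [← hT] at s4
    have s5 := row_lcs_add z w y0 x0 (q.1 - x0)
    rw [show x0 + (q.1 - x0) = q.1 by omega, lcs_swap z w 0 y0 0 q.1,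
      lcs_swap z w 0 y0 0 x0] at s5
    have e : (n + m) * k = n * k + m * k := by ring
    rw [e] at hB
    omega
  have hcase : (∀ p ∈ Qz, t ≤ ∑ x ∈ Ico x0 R, (exc w z x p.1 + exc w z x p.2)) ∨
      (∀ q ∈ Qw, t ≤ ∑ y ∈ Ico y0 T, (exc w z q.1 y + exc w z q.2 y)) := by
    by_contra hcon
    rw [not_or] at hcon
    obtain ⟨c1, c2⟩ := hcon
    push Not at c1 c2
    obtain ⟨p, hp, hp'⟩ := c1
    obtain ⟨q, hq, hq'⟩ := c2
    have := key p hp q hq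
    omega
  rcases hcase with hc | hc
  · calc t * min Qw.card Qz.card ≤ t * Qz.card := Nat.mul_le_mul_left _ (min_le_right _ _)
      _ = ∑ p ∈ Qz, t := by rw [Finset.sum_const, smul_eq_mul, mul_comm]
      _ ≤ ∑ p ∈ Qz, ∑ x ∈ Ico x0 R, (exc w z x p.1 + exc w z x p.2) := Finset.sum_le_sum hc
      _ = ∑ x ∈ Ico x0 R, ∑ p ∈ Qz, (exc w z x p.1 + exc w z x p.2) := Finset.sum_comm
      _ ≤ ∑ x ∈ Ico x0 R, ∑ y ∈ Ico y0 T, exc w z x y := by
        refine Finset.sum_le_sum fun x _ => ?_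
        refine (square_pairs hQz (fun y => exc w z x y)).trans ?_
        apply Finset.sum_le_sum_of_subset
        exact Finset.Ico_subset_Ico hy le_rfl
  · calc t * min Qw.card Qz.card ≤ t * Qw.card := Nat.mul_le_mul_left _ (min_le_left _ _)
      _ = ∑ q ∈ Qw, t := by rw [Finset.sum_const, smul_eq_mul, mul_comm]
      _ ≤ ∑ q ∈ Qw, ∑ y ∈ Ico y0 T, (exc w z q.1 y + exc w z q.2 y) := Finset.sum_le_sum hc
      _ = ∑ y ∈ Ico y0 T, ∑ q ∈ Qw, (exc w z q.1 y + exc w z q.2 y) := Finset.sum_comm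
      _ ≤ ∑ y ∈ Ico y0 T, ∑ x ∈ Ico x0 R, exc w z x y := by
        refine Finset.sum_le_sum fun y _ => ?_
        refine (square_pairs hQw (fun x => exc w z x y)).trans ?_
        apply Finset.sum_le_sum_of_subset
        exact Finset.Ico_subset_Ico le_rfl hx2
      _ = _ := Finset.sum_comm

end MP8C
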