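import Pool.Agent.Lib.MP_8c24b6_lc.ChildDefs
import Pool.Agent.Lib.MP_8c24b6_lc.Cont
import Pool.Agent.Lib.MP_8c24b6_lc.Square

/-! Module A12c (100 min): case I of the child lemma.  Notation in `ChildDefs`. -/

namespace MP8C

open Finset

/-- The numbers of pairs given by `cont`, divided by `κ`. -/
theorem ChildI_cont (u : ℕ → Bool) (a κ t n : ℕ) (hκ : 1 ≤ κ) :
    ∃ Q, PairFam u a (a + n * (t * κ)) (2 * κ) Q ∧
      4 * msum u (t * κ) a n ≤ 8 * t * Q.card + n * κ := by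
  obtain ⟨Q, hQ, h⟩ := cont u a κ t n hκ
  refine ⟨Q, hQ, ?_⟩
  have h1 : κ * (4 * msum u (t * κ) a n) ≤ κ * (8 * t * Q.card + n * κ) := by
    calc κ * (4 * msum u (t * κ) a n) = 4 * κ * msum u (t * κ) a n := by ring
      _ ≤ 8 * (t * κ) * Q.card + n * κ * κ := h
      _ = κ * (8 * t * Q.card + n * κ) := by ring
  exact Nat.le_of_mul_le_mul_left h1 hκ

/-- CASE I: `11 ≤ i < I - 9`, `msum w (2^i) ≤ s/64 < msum w (2^(i+1))`, and the first and the last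
`1/32` of the child are mixed at the scale `2^(i+1)`: `msum ≥ (1/128)(s/32)`.

Scales: purity `ρ = 2^(i-6)`, pairs at distance `k = 2^(i-10) = ρ/16`, cells `κ = 2^(i-11)`.
* `msum w ρ ≤ msum w (2^i) ≤ s/64` (`msum_mono`), and by `transfer`
  `msum z ρ = msum z' ρ ≤ s/64 + s/128 + E`.
* pairs of `w` in the first part: `cont` with windows `2^(i+1)`: `|Qw| ≥ 2^-26 s`.
* `transfer'` on the last part (windows `2^(i+1)` of `w'`, windows `2^(i+9)` of `z'`, `i + 9 ≤ I`):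
  `msum z (2^(i+9)) ≥ 2^-8 |[m2 T, m1 T)|` roughly; `cont` gives `|Qz| ≥ 2^-36 s`.
* `square` with `x0 = k0 T`, `n = S T / ρ`, `y0 = m0 T`, `m = (m1-m0) T / ρ`, `x2 = x0 + (S/32) T`,
  `y2 = m2 T`, `t = s/16`: the lengths `y1 - y2 ≤ s/32 + E`, `(n + m) k ≤ (2 s + E)/16`,
  the sum of all terms in `hB` is `< 0.23 s + 3.1 E + 2 t ≤ s/2 - E`. -/
theorem child_I {I S k0 m0 m1 m2 E : ℕ} {w z w' z' : ℕ → Bool} {P : Finset (ℕ × ℕ)}
    (h : ChildHyp I S k0 m0 m1 m2 E w z w' z' P)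
    (hbase : 2 * lcs w z 0 (k0 * 2 ^ I) 0 (m0 * 2 ^ I) + S * 2 ^ I ≤
      2 * lcs w z 0 ((k0 + S) * 2 ^ I) 0 (m1 * 2 ^ I) + 2 * E)
    (i : ℕ) (hi : 11 ≤ i) (hi' : i + 1 ≤ I - 9)
    (hpure : 64 * msum w (2 ^ i) (k0 * 2 ^ I) (S * 2 ^ (I - i)) ≤ S * 2 ^ I)
    (hF : S * 2 ^ I ≤ 4096 * msum w (2 ^ (i + 1)) (k0 * 2 ^ I) ((S / 32) * 2 ^ (I - (i + 1))))
    (hL : S * 2 ^ I ≤ 4096 * msum w (2 ^ (i + 1)) ((k0 + (S - S / 32)) * 2 ^ I)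
      ((S / 32) * 2 ^ (I - (i + 1)))) :
    (S * 2 ^ I) ^ 2 ≤ 2 ^ 48 * ∑ x ∈ Ico (k0 * 2 ^ I) ((k0 + S) * 2 ^ I),
      ∑ y ∈ Ico (m0 * 2 ^ I) (m1 * 2 ^ I), exc w z x y := by
  obtain ⟨hI, ⟨S', rfl⟩, hS0, hm0, hm2, hE, ⟨PA, PB, PC, PD, hP⟩, h1, h2, skw, skz⟩ := h
  have hS32 : 32 * S' / 32 = S' := by omega
  rw [hS32] at hF hL h2
  have hS31 : 32 * S' - S' = 31 * S' := by omega
  rw [hS31] at hL h2
  -- the scales
  set κ := 2 ^ (i - 11) with hκ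
  set b := 2 ^ (I - i - 10) with hb
  have hκ1 : 1 ≤ κ := Nat.one_le_two_pow
  have e_i : 2 ^ i = 2 ^ 11 * κ := by rw [hκ, ← pow_add]; congr 1; omega
  have e_i1 : 2 ^ (i + 1) = 2 ^ 12 * κ := by rw [hκ, ← pow_add]; congr 1; omega
  have e_i9 : 2 ^ (i + 9) = 2 ^ 20 * κ := by rw [hκ, ← pow_add]; congr 1; omega
  have e_i6 : 2 ^ (i - 6) = 2 ^ 5 * κ := by rw [hκ, ← pow_add]; congr 1; omega
  have e_Ii : 2 ^ (I - i) = 2 ^ 10 * b := by rw [hb, ← pow_add]; congr 1; omega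
  have e_Ii1 : 2 ^ (I - (i + 1)) = 2 ^ 9 * b := by rw [hb, ← pow_add]; congr 1; omega
  have e_Ii9 : 2 ^ (I - (i + 9)) = 2 * b := by rw [hb, ← pow_succ']; congr 1; omega
  have e_Ii6 : 2 ^ (I - (i - 6)) = 2 ^ 16 * b := by rw [hb, ← pow_add]; congr 1; omega
  have e_I : 2 ^ I = 2 ^ 21 * (κ * b) := by
    rw [hκ, hb, ← pow_add, ← pow_add]; congr 1; omega
  set T := 2 ^ I with hT
  set A := S' * (κ * b) with hA
  have sT : 32 * S' * T = 2 ^ 26 * A := by rw [e_I, hA]; ring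
  have sT' : S' * T = 2 ^ 21 * A := by rw [e_I, hA]; ring
  -- the first coordinates
  have x1 : (k0 + 32 * S') * T = k0 * T + 2 ^ 26 * A := by rw [add_mul, sT]
  have x3 : (k0 + 31 * S') * T = k0 * T + 31 * 2 ^ 21 * A := by
    rw [add_mul, mul_assoc 31, sT', ← mul_assoc]
  have hy01 : m0 * T ≤ m2 * T := Nat.mul_le_mul_right _ hm0
  have hy21 : m2 * T ≤ m1 * T := Nat.mul_le_mul_right _ hm2
  have dm : (m1 - m0) * T = m1 * T - m0 * T := Nat.sub_mul _ _ _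
  have dm2 : (m1 - m2) * T = m1 * T - m2 * T := Nat.sub_mul _ _ _
  -- the restricted alignments
  have c1 := two_card_le hP (k0 * T) ((k0 + 32 * S') * T) (m0 * T) (m1 * T)
  have a1 := hP.restrict (k0 * T) ((k0 + 32 * S') * T) (m0 * T) (m1 * T)
  have c2 := two_card_le hP ((k0 + 31 * S') * T) ((k0 + 32 * S') * T) (m2 * T) (m1 * T)
  have a2 := hP.restrict ((k0 + 31 * S') * T) ((k0 + 32 * S') * T) (m2 * T) (m1 * T)
  obtain ⟨l1, l1'⟩ := length_le_unm hP (k0 * T) ((k0 + 32 * S') * T) (m0 * T) (m1 * T)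
  obtain ⟨l2, l2'⟩ := length_le_unm hP ((k0 + 31 * S') * T) ((k0 + 32 * S') * T) (m2 * T) (m1 * T)
  unfold unm at h1 h2 l1 l1' l2 l2'
  set P1 := P.filter (fun p => (k0 * T ≤ p.1 ∧ p.1 < (k0 + 32 * S') * T) ∧
    (m0 * T ≤ p.2 ∧ p.2 < m1 * T)) with hP1
  set P2 := P.filter (fun p => ((k0 + 31 * S') * T ≤ p.1 ∧ p.1 < (k0 + 32 * S') * T) ∧
    (m2 * T ≤ p.2 ∧ p.2 < m1 * T)) with hP2
  -- purity of `z`
  have t1 := transfer w' z' (k0 * T) (m0 * T) (32 * S' * 2 ^ (I - i)) ((m1 - m0) * 2 ^ (I - (i - 6)))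
    (2 ^ i) (2 ^ (i - 6)) P1 (by
      have g1 : k0 * T + 32 * S' * 2 ^ (I - i) * 2 ^ i = (k0 + 32 * S') * T := by
        rw [x1, e_Ii, e_i, hA]; ring
      have g2 : m0 * T + (m1 - m0) * 2 ^ (I - (i - 6)) * 2 ^ (i - 6) = m1 * T := by
        have : (m1 - m0) * 2 ^ (I - (i - 6)) * 2 ^ (i - 6) = (m1 - m0) * T := by
          rw [e_Ii6, e_i6, e_I]; ring
        rw [this, dm]; omega
      rw [g1, g2]; exact a1)
  have q1 : 32 * S' * 2 ^ (I - i) * 2 ^ (i - 6) = 2 ^ 20 * A := by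
    rw [e_Ii, e_i6, hA]; ring
  have q2 : (m1 - m0) * 2 ^ (I - (i - 6)) * 2 ^ (i - 6) = m1 * T - m0 * T := by
    rw [← dm, e_Ii6, e_i6, e_I]; ring
  rw [q1, q2] at t1
  have w1 := skw.msum_eq (i := i) (a := k0) (n := 32 * S') (by omega) le_rfl le_rfl
  have z1 := skz.msum_eq (i := i - 6) (a := m0) (n := m1 - m0) (by omega) le_rfl (by omega)
  rw [← hT] at w1 z1
  -- purity of `w` at the scale `ρ`
  have w2 : msum w (2 ^ (i - 6)) (k0 * T) (32 * S' * 2 ^ (I - (i - 6))) ≤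
      msum w (2 ^ i) (k0 * T) (32 * S' * 2 ^ (I - i)) := by
    have := msum_mono w (2 ^ 6) (2 ^ (i - 6)) (k0 * T) (32 * S' * 2 ^ (I - i))
    have g1 : 32 * S' * 2 ^ (I - i) * 2 ^ 6 = 32 * S' * 2 ^ (I - (i - 6)) := by
      rw [e_Ii, e_Ii6]; ring
    have g2 : 2 ^ 6 * 2 ^ (i - 6) = 2 ^ i := by rw [e_i, e_i6]; ring
    rw [g1, g2] at this
    exact this
  -- the pairs of `w`
  obtain ⟨Qw, hQw, cw⟩ := ChildI_cont w (k0 * T) κ (2 ^ 12) (S' * 2 ^ (I - (i + 1))) hκ1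
  have g3 : S' * 2 ^ (I - (i + 1)) * (2 ^ 12 * κ) = 2 ^ 21 * A := by
    rw [e_Ii1, hA]; ring
  have g4 : S' * 2 ^ (I - (i + 1)) * κ = 2 ^ 9 * A := by
    rw [e_Ii1, hA]; ring
  rw [g3] at hQw
  rw [g4, ← e_i1] at cw
  -- mixedness of `z` in the last part
  have t2 := transfer' w' z' ((k0 + 31 * S') * T) (m2 * T) (S' * 2 ^ (I - (i + 1)))
    ((m1 - m2) * 2 ^ (I - (i + 9))) (2 ^ (i + 9)) (2 ^ (i + 1)) P2 (by
      have g1 : (k0 + 31 * S') * T + S' * 2 ^ (I - (i + 1)) * 2 ^ (i + 1) = (k0 + 32 * S') * T := by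
        rw [x1, x3, e_i1, g3]; ring
      have g2 : m2 * T + (m1 - m2) * 2 ^ (I - (i + 9)) * 2 ^ (i + 9) = m1 * T := by
        have : (m1 - m2) * 2 ^ (I - (i + 9)) * 2 ^ (i + 9) = (m1 - m2) * T := by
          rw [e_Ii9, e_i9, e_I]; ring
        rw [this, dm2]; omega
      rw [g1, g2]; exact a2)
  have q3 : S' * 2 ^ (I - (i + 1)) * 2 ^ (i + 1) = 2 ^ 21 * A := by rw [e_i1, g3]
  have q4 : 2 ^ 8 * ((m1 - m2) * 2 ^ (I - (i + 9)) * 2 ^ (i + 1)) = m1 * T - m2 * T := by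
    rw [← dm2, e_Ii9, e_i1, e_I]; ring
  rw [q3] at t2
  have w3 := skw.msum_eq (i := i + 1) (a := k0 + 31 * S') (n := S') (by omega) (by omega) (by omega)
  have z2 := skz.msum_eq (i := i + 9) (a := m2) (n := m1 - m2) (by omega) hm0 (by omega)
  rw [← hT] at w3 z2
  -- the pairs of `z`
  obtain ⟨Qz, hQz, cz⟩ := ChildI_cont z (m2 * T) κ (2 ^ 20) ((m1 - m2) * 2 ^ (I - (i + 9))) hκ1
  have g5 : (m1 - m2) * 2 ^ (I - (i + 9)) * (2 ^ 20 * κ) = (m1 - m2) * T := by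
    rw [e_Ii9, e_I]; ring
  have g6 : 2 ^ 20 * ((m1 - m2) * 2 ^ (I - (i + 9)) * κ) = m1 * T - m2 * T := by
    rw [← dm2, e_Ii9, e_I]; ring
  have g7 : m2 * T + (m1 - m2) * T = m1 * T := by omega
  rw [g5, g7] at hQz
  rw [← e_i9] at cz
  -- the square
  have y1 : m0 * T + (m1 - m0) * 2 ^ (I - (i - 6)) * 2 ^ (i - 6) = m1 * T := by
    rw [q2]; omega
  have x1' : k0 * T + 32 * S' * 2 ^ (I - (i - 6)) * 2 ^ (i - 6) = (k0 + 32 * S') * T := by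
    rw [x1, e_Ii6, e_i6, hA]; ring
  have sq := square w z (k0 * T) (32 * S' * 2 ^ (I - (i - 6))) (m0 * T)
    ((m1 - m0) * 2 ^ (I - (i - 6))) (2 ^ (i - 6)) (2 * κ) (2 * (S' * T)) (k0 * T + 2 ^ 21 * A)
    (m2 * T) Qw Qz hQw (by rw [y1]; exact hQz) (by omega) (by rw [x1', x1]; omega) hy01
    (by rw [y1]; exact hy21) (by
      rw [y1, x1']
      have g8 : (32 * S' * 2 ^ (I - (i - 6)) + (m1 - m0) * 2 ^ (I - (i - 6))) * (2 * κ) =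
          2 ^ 22 * A + (m1 - m0) * 2 ^ (I - (i - 6)) * (2 * κ) := by
        rw [add_mul]; congr 1; rw [e_Ii6, hA]; ring
      have g9 : 2 ^ 4 * ((m1 - m0) * 2 ^ (I - (i - 6)) * (2 * κ)) = m1 * T - m0 * T := by
        rw [← dm, e_Ii6, e_I]; ring
      rw [g8, sT']
      generalize (m1 - m0) * 2 ^ (I - (i - 6)) * (2 * κ) = R at g9 ⊢
      clear hQw hQz cw cz t2 c2 l2' q1 q2 q3 q4 g3 g4 g5 g6 g7 e_i e_i1 e_i9 e_i6 e_Ii e_Ii1 e_Ii9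
        e_Ii6 hA
      omega)
  rw [y1, x1', sT'] at sq
  have hQw' : A ≤ Qw.card := by
    clear hQz cz t1 t2 c1 c2 l1 l1' l2 l2' q1 q2 q3 q4 g3 g4 g5 g6 g7 hA
    omega
  have hQz' : A ≤ 2 ^ 10 * Qz.card := by
    generalize (m1 - m2) * 2 ^ (I - (i + 9)) * κ = R at *
    generalize (m1 - m2) * 2 ^ (I - (i + 9)) * 2 ^ (i + 1) = R' at *
    clear hQw hQz cw t1 c1 l1 l1' q1 q2 q3 g3 g4 g5 g7 hA
    omega
  have hmin : A ≤ 2 ^ 10 * min Qw.card Qz.card := by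
    rcases min_cases Qw.card Qz.card with ⟨h, _⟩ | ⟨h, _⟩ <;> rw [h]
    · omega
    · exact hQz'
  rw [sT]
  calc (2 ^ 26 * A) ^ 2 = 2 ^ 30 * (2 * (2 ^ 21 * A)) * A := by ring
    _ ≤ 2 ^ 30 * (2 * (2 ^ 21 * A)) * (2 ^ 10 * min Qw.card Qz.card) :=
        Nat.mul_le_mul_left _ hmin
    _ = 2 ^ 40 * (2 * (2 ^ 21 * A) * min Qw.card Qz.card) := by ring
    _ ≤ 2 ^ 48 * _ := Nat.mul_le_mul (by norm_num) sq

end MP8C
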