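import Pool.Agent.Lib.MP_8c24b6_lc.ChildDefs
import Pool.Agent.Lib.MP_8c24b6_lc.Changes

/-! Module A12b (60 min): case II of the child lemma.  Notation in `ChildDefs`. -/

namespace MP8C

open Finset

/-- CASE II: `w` is mixed at the bounded scale `2^11`.  `chg_ge` with `R = 2^11` gives
`chg false w ≥ 2^-18 s`; by `transfer'` (windows `2^11` of `w'`, windows `2^19` of `z'`)
`msum z (2^19) = msum z' (2^19) ≥ s/64 - s/512 - ... ≥ 2^-8 s`, so `chg true z ≥ 2^-28 s`;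
`chg_prod`. -/
theorem child_II {I S k0 m0 m1 m2 E : ℕ} {w z w' z' : ℕ → Bool} {P : Finset (ℕ × ℕ)}
    (h : ChildHyp I S k0 m0 m1 m2 E w z w' z' P)
    (hII : S * 2 ^ I < 64 * msum w (2 ^ 11) (k0 * 2 ^ I) (S * 2 ^ (I - 11))) :
    (S * 2 ^ I) ^ 2 ≤ 2 ^ 48 * ∑ x ∈ Ico (k0 * 2 ^ I) ((k0 + S) * 2 ^ I),
      ∑ y ∈ Ico (m0 * 2 ^ I) (m1 * 2 ^ I), exc w z x y := by
  obtain ⟨hI, hS, hS0, hm0, hm2, hE, ⟨A, B, C, D, hP⟩, h1, _, skw, skz⟩ := h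
  obtain ⟨r, rfl⟩ : ∃ r, m1 = m0 + r := ⟨m1 - m0, by omega⟩
  have hT11 : 2 ^ (I - 11) * 2 ^ 11 = 2 ^ I := by rw [← pow_add, Nat.sub_add_cancel (by omega)]
  have hT19 : 2 ^ (I - 19) * 2 ^ 19 = 2 ^ I := by rw [← pow_add, Nat.sub_add_cancel (by omega)]
  have hT21 : 2 ^ 21 ≤ 2 ^ I := Nat.pow_le_pow_right (by norm_num) hI
  have hS32 : 32 ≤ S := Nat.le_of_dvd hS0 hS
  have hs26 : 2 ^ 26 ≤ S * 2 ^ I := by
    calc 2 ^ 26 = 32 * 2 ^ 21 := by norm_num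
      _ ≤ S * 2 ^ I := Nat.mul_le_mul hS32 hT21
  have ea : k0 * 2 ^ I + S * 2 ^ (I - 11) * 2 ^ 11 = (k0 + S) * 2 ^ I := by
    rw [mul_assoc, hT11]; ring
  have ec : m0 * 2 ^ I + r * 2 ^ (I - 19) * 2 ^ 19 = (m0 + r) * 2 ^ I := by
    rw [mul_assoc, hT19]; ring
  have hs11 : S * 2 ^ (I - 11) * 2 ^ 11 = S * 2 ^ I := by rw [mul_assoc, hT11]
  have hr19 : r * 2 ^ (I - 19) * 2 ^ 19 = r * 2 ^ I := by rw [mul_assoc, hT19]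
  have hkS : (k0 + S) * 2 ^ I - k0 * 2 ^ I = S * 2 ^ I := by
    rw [← Nat.sub_mul]; congr 1; omega
  have hmr : (m0 + r) * 2 ^ I - m0 * 2 ^ I = r * 2 ^ I := by
    rw [← Nat.sub_mul]; congr 1; omega
  -- changes of `w`
  have c1 := chg_ge w false (2 ^ 11) (k0 * 2 ^ I) (S * 2 ^ (I - 11))
  rw [ea] at c1
  have c1' : S * 2 ^ I ≤ 2 ^ 18 * chg false w (k0 * 2 ^ I) ((k0 + S) * 2 ^ I) := by
    omega
  -- transfer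
  obtain ⟨P', hP'⟩ : ∃ P' : Finset (ℕ × ℕ), P' = P.filter (fun p =>
      (k0 * 2 ^ I ≤ p.1 ∧ p.1 < (k0 + S) * 2 ^ I) ∧
        (m0 * 2 ^ I ≤ p.2 ∧ p.2 < (m0 + r) * 2 ^ I)) := ⟨_, rfl⟩
  have hal : IsAl w' z' (k0 * 2 ^ I) (k0 * 2 ^ I + S * 2 ^ (I - 11) * 2 ^ 11) (m0 * 2 ^ I)
      (m0 * 2 ^ I + r * 2 ^ (I - 19) * 2 ^ 19) P' := by
    rw [ea, ec, hP']
    refine ⟨fun p hp => ?_, fun p hp q hq => ?_⟩
    · rw [mem_filter] at hp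
      exact ⟨hp.2.1, hp.2.2, (hP.1 p hp.1).2.2⟩
    · rw [mem_filter] at hp hq
      exact hP.2 p hp.1 q hq.1
  have ht := transfer' w' z' _ _ _ _ _ _ P' hal
  have hlen := length_le_unm hP (k0 * 2 ^ I) ((k0 + S) * 2 ^ I) (m0 * 2 ^ I) ((m0 + r) * 2 ^ I)
  rw [hkS, hmr] at hlen
  unfold unm at h1 hlen
  rw [← hP', hkS, hmr] at h1 hlen
  have hw := skw.msum_eq (i := 11) (a := k0) (n := S) (by omega) (le_refl _) (le_refl _)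
  have hz := skz.msum_eq (i := 19) (a := m0) (n := r) (by omega) (le_refl _) (le_refl _)
  rw [hw] at hII
  rw [← hz, hs11] at ht
  have hr11 : 256 * (r * 2 ^ (I - 19) * 2 ^ 11) = r * 2 ^ I := by
    rw [← hr19]; ring
  -- changes of `z`
  have c2 := chg_ge z true (2 ^ 19) (m0 * 2 ^ I) (r * 2 ^ (I - 19))
  rw [ec] at c2
  have hz64 : S * 2 ^ I ≤ 128 * msum z (2 ^ 19) (m0 * 2 ^ I) (r * 2 ^ (I - 19)) := by
    omega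
  have c2' : S * 2 ^ I ≤ 2 ^ 27 * chg true z (m0 * 2 ^ I) ((m0 + r) * 2 ^ I) := by
    omega
  have c3 := chg_prod w z (k0 * 2 ^ I) ((k0 + S) * 2 ^ I) (m0 * 2 ^ I) ((m0 + r) * 2 ^ I)
  calc (S * 2 ^ I) ^ 2 = (S * 2 ^ I) * (S * 2 ^ I) := by ring
    _ ≤ (2 ^ 18 * chg false w (k0 * 2 ^ I) ((k0 + S) * 2 ^ I)) *
        (2 ^ 27 * chg true z (m0 * 2 ^ I) ((m0 + r) * 2 ^ I)) := Nat.mul_le_mul c1' c2'
    _ = 2 ^ 45 * (chg false w (k0 * 2 ^ I) ((k0 + S) * 2 ^ I) *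
        chg true z (m0 * 2 ^ I) ((m0 + r) * 2 ^ I)) := by ring
    _ ≤ 2 ^ 45 * (2 * ∑ x ∈ Ico (k0 * 2 ^ I) ((k0 + S) * 2 ^ I),
      ∑ y ∈ Ico (m0 * 2 ^ I) ((m0 + r) * 2 ^ I), exc w z x y) := Nat.mul_le_mul_left _ c3
    _ ≤ 2 ^ 48 * ∑ x ∈ Ico (k0 * 2 ^ I) ((k0 + S) * 2 ^ I),
      ∑ y ∈ Ico (m0 * 2 ^ I) ((m0 + r) * 2 ^ I), exc w z x y := by
        rw [← mul_assoc]
        exact Nat.mul_le_mul_right _ (by norm_num)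

end MP8C
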