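import Pool.Agent.Lib.MP_8c24b6_lc.ChildV
import Pool.Agent.Lib.MP_8c24b6_lc.ChildII
import Pool.Agent.Lib.MP_8c24b6_lc.ChildI

/-! The child lemma (assembly, done). -/

namespace MP8C

open Finset

theorem child {I S k0 m0 m1 m2 E : ℕ} {w z w' z' : ℕ → Bool} {P : Finset (ℕ × ℕ)}
    (h : ChildHyp I S k0 m0 m1 m2 E w z w' z' P)
    (hbase : 2 * lcs w z 0 (k0 * 2 ^ I) 0 (m0 * 2 ^ I) + S * 2 ^ I ≤
      2 * lcs w z 0 ((k0 + S) * 2 ^ I) 0 (m1 * 2 ^ I) + 2 * E)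
    (hH : Homog I S k0 w) :
    3 * (S * 2 ^ I) ≤ 4 * lcs w z (k0 * 2 ^ I) ((k0 + S) * 2 ^ I) (m0 * 2 ^ I) (m1 * 2 ^ I) ∨
    (S * 2 ^ I) ^ 2 ≤ 2 ^ 48 * ∑ x ∈ Ico (k0 * 2 ^ I) ((k0 + S) * 2 ^ I),
      ∑ y ∈ Ico (m0 * 2 ^ I) (m1 * 2 ^ I), exc w z x y := by
  have hI := h.hI
  by_cases hV : 64 * msum w (2 ^ (I - 9)) (k0 * 2 ^ I) (S * 2 ^ 9) ≤ S * 2 ^ I
  · exact Or.inl (child_V h hV)
  right
  by_cases hII : S * 2 ^ I < 64 * msum w (2 ^ 11) (k0 * 2 ^ I) (S * 2 ^ (I - 11))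
  · exact child_II h hII
  -- the last index with `msum ≤ s / 64`
  classical
  have hex : ∃ i, 11 ≤ i ∧ i ≤ I - 9 ∧
      ¬ S * 2 ^ I < 64 * msum w (2 ^ i) (k0 * 2 ^ I) (S * 2 ^ (I - i)) ∧
      ∀ i', i < i' → i' ≤ I - 9 →
        S * 2 ^ I < 64 * msum w (2 ^ i') (k0 * 2 ^ I) (S * 2 ^ (I - i')) := by
    let F := (Icc 11 (I - 9)).filter
      (fun i => ¬ S * 2 ^ I < 64 * msum w (2 ^ i) (k0 * 2 ^ I) (S * 2 ^ (I - i)))
    have hF : F.Nonempty := ⟨11, by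
      simp only [F, mem_filter, mem_Icc]
      exact ⟨⟨le_rfl, by omega⟩, hII⟩⟩
    refine ⟨F.max' hF, ?_, ?_, ?_, ?_⟩
    · have := F.max'_mem hF
      simp only [F, mem_filter, mem_Icc] at this
      exact this.1.1
    · have := F.max'_mem hF
      simp only [F, mem_filter, mem_Icc] at this
      exact this.1.2
    · have := F.max'_mem hF
      simp only [F, mem_filter, mem_Icc] at this
      exact this.2
    · intro i' h1 h2
      by_contra hcon
      have hmem : i' ∈ F := by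
        simp only [F, mem_filter, mem_Icc]
        have h11 : 11 ≤ F.max' hF := by
          have := F.max'_mem hF
          simp only [F, mem_filter, mem_Icc] at this
          exact this.1.1
        exact ⟨⟨by omega, h2⟩, hcon⟩
      have := F.le_max' i' hmem
      omega
  obtain ⟨i, hi1, hi2, hi3, hi4⟩ := hex
  have hne : i ≠ I - 9 := by
    rintro rfl
    apply hV
    have : I - (I - 9) = 9 := by omega
    rw [this] at hi3
    omega
  have hnext := hi4 (i + 1) (by omega) (by omega)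
  obtain ⟨hF, hL⟩ := hH (i + 1) (by omega) hnext
  exact child_I h hbase i hi1 (by omega) (by omega) hF hL

end MP8C
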