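import Pool.Agent.Lib.MP_8c24b6_lc.Mono

/-!
Module A3b (60 min). Equal statistics on blocks.
-/

namespace MP8C

open Finset

/-- a run of blocks: windows of length `2^i` in the blocks `lo ≤ t < lo + n` of length `2^I` -/
theorem msum_blocks (w : ℕ → Bool) (I i lo n : ℕ) (hi : i ≤ I) :
    msum w (2 ^ i) (lo * 2 ^ I) (n * 2 ^ (I - i)) =
      ∑ t ∈ range n, msum w (2 ^ i) ((lo + t) * 2 ^ I) (2 ^ (I - i)) := by
  have hK : 2 ^ (I - i) * 2 ^ i = 2 ^ I := by rw [← pow_add, Nat.sub_add_cancel hi]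
  induction n with
  | zero => simp [msum]
  | succ n ih =>
    rw [sum_range_succ, ← ih, add_mul, one_mul, msum_add]
    congr 2
    rw [mul_assoc, hK, ← add_mul]

/-- hence equal statistics on blocks give equal statistics on runs of blocks -/
theorem SameSk.msum_eq {w w' : ℕ → Bool} {I lo hi : ℕ} (h : SameSk w w' I lo hi) {i a n : ℕ}
    (hiI : i ≤ I) (ha : lo ≤ a) (hn : a + n ≤ hi) :
    msum w (2 ^ i) (a * 2 ^ I) (n * 2 ^ (I - i)) =
      msum w' (2 ^ i) (a * 2 ^ I) (n * 2 ^ (I - i)) := by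
  rw [msum_blocks w I i a n hiI, msum_blocks w' I i a n hiI]
  refine sum_congr rfl fun t ht => ?_
  have ht' := mem_range.1 ht
  exact (h (a + t) (by omega) (by omega)).1 i hiI

private theorem monoSk_cb_sum (β : Bool) (w : ℕ → Bool) (r a n : ℕ) :
    cb β w a (a + n * r) = ∑ j ∈ range n, cb β w (a + j * r) (a + (j + 1) * r) := by
  induction n with
  | zero => simp [cb]
  | succ n ih =>
    rw [sum_range_succ, ← ih]
    refine (cb_add β w (Nat.le_add_right _ _) ?_).symm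
    exact Nat.add_le_add_left (Nat.mul_le_mul_right _ (Nat.le_succ n)) a

private theorem monoSk_pow (I : ℕ) : 2 ^ (I - (I - 20)) * 2 ^ (I - 20) = 2 ^ I := by
  rw [← pow_add, Nat.sub_add_cancel (Nat.sub_le _ _)]

private theorem monoSk_cb_true {w w' : ℕ → Bool} {I lo hi : ℕ} (h : SameSk w w' I lo hi)
    {a n : ℕ} (ha : lo ≤ a) (hn : a + n ≤ hi) :
    cb true w (a * 2 ^ I) ((a + n) * 2 ^ I) = cb true w' (a * 2 ^ I) ((a + n) * 2 ^ I) := by
  rw [add_mul, monoSk_cb_sum true w, monoSk_cb_sum true w']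
  refine sum_congr rfl fun t ht => ?_
  have ht' := mem_range.1 ht
  have e1 : a * 2 ^ I + t * 2 ^ I = (a + t) * 2 ^ I := by ring
  have e2 : a * 2 ^ I + (t + 1) * 2 ^ I = (a + t) * 2 ^ I + 2 ^ (I - (I - 20)) * 2 ^ (I - 20) := by
    rw [monoSk_pow]; ring
  rw [e1, e2, monoSk_cb_sum true w, monoSk_cb_sum true w']
  refine sum_congr rfl fun j hj => ?_
  exact (h (a + t) (by omega) (by omega)).2 j (mem_range.1 hj)

/-- equal numbers of letters on a run of blocks -/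
theorem SameSk.cb_eq {w w' : ℕ → Bool} {I lo hi : ℕ} (h : SameSk w w' I lo hi) (β : Bool)
    {a n : ℕ} (ha : lo ≤ a) (hn : a + n ≤ hi) :
    cb β w (a * 2 ^ I) ((a + n) * 2 ^ I) = cb β w' (a * 2 ^ I) ((a + n) * 2 ^ I) := by
  have h1 := monoSk_cb_true h ha hn
  cases β with
  | true => exact h1
  | false =>
    have h2 := cb_true_add_false w (a * 2 ^ I) ((a + n) * 2 ^ I)
    have h3 := cb_true_add_false w' (a * 2 ^ I) ((a + n) * 2 ^ I)
    omega

theorem SameSk.mc_eq {w w' : ℕ → Bool} {I lo hi : ℕ} (h : SameSk w w' I lo hi)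
    {a n : ℕ} (ha : lo ≤ a) (hn : a + n ≤ hi) :
    mc w (a * 2 ^ I) ((a + n) * 2 ^ I) = mc w' (a * 2 ^ I) ((a + n) * 2 ^ I) := by
  rw [mc, mc, h.cb_eq true ha hn, h.cb_eq false ha hn]

/-- the windows of length `2^(I-20)` on a run of blocks have equal numbers of `true` -/
theorem SameSk.cb_small {w w' : ℕ → Bool} {I lo hi : ℕ} (h : SameSk w w' I lo hi)
    {a n : ℕ} (ha : lo ≤ a) (hn : a + n ≤ hi) (j : ℕ) (hj : j < n * 2 ^ (I - (I - 20))) :
    cb true w (a * 2 ^ I + j * 2 ^ (I - 20)) (a * 2 ^ I + (j + 1) * 2 ^ (I - 20)) =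
    cb true w' (a * 2 ^ I + j * 2 ^ (I - 20)) (a * 2 ^ I + (j + 1) * 2 ^ (I - 20)) := by
  have hKpos : 0 < 2 ^ (I - (I - 20)) := by positivity
  obtain ⟨q, r, hr, hjq⟩ : ∃ q r, r < 2 ^ (I - (I - 20)) ∧ j = q * 2 ^ (I - (I - 20)) + r :=
    ⟨j / 2 ^ (I - (I - 20)), j % 2 ^ (I - (I - 20)), Nat.mod_lt _ hKpos,
      (Nat.div_add_mod' _ _).symm⟩
  have hq : q < n := by
    by_contra hcon
    push Not at hcon
    have := Nat.mul_le_mul_right (2 ^ (I - (I - 20))) hcon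
    omega
  have hp := monoSk_pow I
  have e1 : a * 2 ^ I + j * 2 ^ (I - 20) = (a + q) * 2 ^ I + r * 2 ^ (I - 20) := by
    rw [hjq, add_mul, mul_assoc, hp]; ring
  have e2 : a * 2 ^ I + (j + 1) * 2 ^ (I - 20) = (a + q) * 2 ^ I + (r + 1) * 2 ^ (I - 20) := by
    rw [add_mul j, ← add_assoc, e1]; ring
  rw [e1, e2]
  exact (h (a + q) (by omega) (by omega)).2 r hr

theorem SameSk.mono {w w' : ℕ → Bool} {I lo hi lo' hi' : ℕ} (h : SameSk w w' I lo hi)
    (h1 : lo ≤ lo') (h2 : hi' ≤ hi) : SameSk w w' I lo' hi' :=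
  fun t ht1 ht2 => h t (le_trans h1 ht1) (lt_of_lt_of_le ht2 h2)

theorem SameSk.shift {w w' : ℕ → Bool} {I lo hi s : ℕ} (h : SameSk w w' I (lo + s) (hi + s)) :
    SameSk (fun x => w (x + s * 2 ^ I)) (fun x => w' (x + s * 2 ^ I)) I lo hi := by
  intro t ht1 ht2
  have h0 := h (t + s) (by omega) (by omega)
  have e0 : t * 2 ^ I + s * 2 ^ I = (t + s) * 2 ^ I := by ring
  refine ⟨fun i hi => ?_, fun j hj => ?_⟩
  · rw [msum_shift, msum_shift, e0]
    exact h0.1 i hi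
  · rw [cb_shift, cb_shift]
    have e1 : t * 2 ^ I + j * 2 ^ (I - 20) + s * 2 ^ I = (t + s) * 2 ^ I + j * 2 ^ (I - 20) := by
      ring
    have e2 : t * 2 ^ I + (j + 1) * 2 ^ (I - 20) + s * 2 ^ I
        = (t + s) * 2 ^ I + (j + 1) * 2 ^ (I - 20) := by ring
    rw [e1, e2]
    exact h0.2 j hj

end MP8C
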