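import Pool.Agent.Lib.MP_8c24b6_lc.LcsBasic

/-!
Module A2 (45 min). One colour, and Hamming changes.
-/

namespace MP8C

open Finset

private theorem cb_succ_eq (β : Bool) (w : ℕ → Bool) {a b : ℕ} (hab : a ≤ b) (h : w b = β) :
    cb β w a (b + 1) = cb β w a b + 1 := by
  unfold cb
  rw [Nat.Ico_succ_right_eq_insert_Ico hab, Finset.filter_insert, if_pos h,
    Finset.card_insert_of_notMem (by simp)]

private theorem cb_succ_ne (β : Bool) (w : ℕ → Bool) {a b : ℕ} (hab : a ≤ b) (h : w b ≠ β) :
    cb β w a (b + 1) = cb β w a b := by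
  unfold cb
  rw [Nat.Ico_succ_right_eq_insert_Ico hab, Finset.filter_insert, if_neg h]

private theorem cb_of_le (β : Bool) (w : ℕ → Bool) {a b : ℕ} (hab : b ≤ a) : cb β w a b = 0 := by
  unfold cb
  rw [Finset.Ico_eq_empty_of_le hab]
  simp

/-- Match the `i`-th `β` of `w` in `[a,b)` with the `i`-th `β` of `z` in `[c,d)`.
(Proof by induction on `(b - a) + (d - c)`: if the last letter of `[a,b)` is not `β` drop it, same
for `[c,d)`; if both are `β` use `lcs_match`.) -/
theorem lcs_colour (β : Bool) (w z : ℕ → Bool) (a b c d : ℕ) :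
    min (cb β w a b) (cb β z c d) ≤ lcs w z a b c d := by
  induction hN : (b - a) + (d - c) using Nat.strong_induction_on generalizing b d with
  | _ N ih =>
    by_cases hb : b ≤ a
    · rw [cb_of_le β w hb]; simp
    by_cases hd : d ≤ c
    · rw [cb_of_le β z hd]; simp
    obtain ⟨b', rfl⟩ : ∃ b', b = b' + 1 := ⟨b - 1, by omega⟩
    obtain ⟨d', rfl⟩ : ∃ d', d = d' + 1 := ⟨d - 1, by omega⟩
    have hab : a ≤ b' := by omega
    have hcd : c ≤ d' := by omega
    by_cases h1 : w b' = β
    · by_cases h2 : z d' = β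
      · rw [cb_succ_eq β w hab h1, cb_succ_eq β z hcd h2]
        have h3 := ih ((b' - a) + (d' - c)) (by omega) b' d' rfl
        have h4 := lcs_match w z hab hcd (h1.trans h2.symm)
        omega
      · rw [cb_succ_ne β z hcd h2]
        exact (ih ((b' + 1 - a) + (d' - c)) (by omega) (b' + 1) d' rfl).trans
          (lcs_mono w z le_rfl le_rfl le_rfl (Nat.le_succ d'))
    · rw [cb_succ_ne β w hab h1]
      exact (ih ((b' - a) + (d' + 1 - c)) (by omega) b' (d' + 1) rfl).trans
        (lcs_mono w z le_rfl (Nat.le_succ b') le_rfl le_rfl)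

/-- Drop the pairs of an optimal alignment of `(w', z')` at which one of the words changes. -/
theorem lcs_ham (w z w' z' : ℕ → Bool) (a b c d : ℕ) :
    lcs w' z' a b c d ≤ lcs w z a b c d + ham w w' a b + ham z z' c d := by
  classical
  obtain ⟨P, hP, e⟩ := exists_al w' z' a b c d
  have h1 : (P.filter (fun p => w p.1 = w' p.1 ∧ z p.2 = z' p.2)).card ≤ lcs w z a b c d := by
    refine card_le_lcs ⟨?_, ?_⟩
    · intro p hp
      obtain ⟨hp, e1, e2⟩ := Finset.mem_filter.1 hp
      obtain ⟨g1, g2, g3⟩ := hP.1 p hp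
      exact ⟨g1, g2, by rw [e1, e2]; exact g3⟩
    · intro p hp q hq
      exact hP.2 p (Finset.mem_filter.1 hp).1 q (Finset.mem_filter.1 hq).1
  have h2 : (P.filter (fun p => w p.1 ≠ w' p.1)).card ≤ ham w w' a b := by
    have e1 : ((P.filter (fun p => w p.1 ≠ w' p.1)).image Prod.fst).card =
        (P.filter (fun p => w p.1 ≠ w' p.1)).card :=
      Finset.card_image_of_injOn fun p hp q hq e =>
        hP.fst_inj (Finset.mem_filter.1 hp).1 (Finset.mem_filter.1 hq).1 e
    rw [← e1]
    refine Finset.card_le_card ?_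
    intro x hx
    obtain ⟨p, hp, rfl⟩ := Finset.mem_image.1 hx
    obtain ⟨hp, hne⟩ := Finset.mem_filter.1 hp
    exact Finset.mem_filter.2 ⟨Finset.mem_Ico.2 (hP.1 p hp).1, hne⟩
  have h3 : (P.filter (fun p => z p.2 ≠ z' p.2)).card ≤ ham z z' c d := by
    have e1 : ((P.filter (fun p => z p.2 ≠ z' p.2)).image Prod.snd).card =
        (P.filter (fun p => z p.2 ≠ z' p.2)).card :=
      Finset.card_image_of_injOn fun p hp q hq e =>
        hP.snd_inj (Finset.mem_filter.1 hp).1 (Finset.mem_filter.1 hq).1 e
    rw [← e1]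
    refine Finset.card_le_card ?_
    intro x hx
    obtain ⟨p, hp, rfl⟩ := Finset.mem_image.1 hx
    obtain ⟨hp, hne⟩ := Finset.mem_filter.1 hp
    exact Finset.mem_filter.2 ⟨Finset.mem_Ico.2 (hP.1 p hp).2.1, hne⟩
  have h4 : P ⊆ P.filter (fun p => w p.1 = w' p.1 ∧ z p.2 = z' p.2) ∪
      P.filter (fun p => w p.1 ≠ w' p.1) ∪ P.filter (fun p => z p.2 ≠ z' p.2) := by
    intro p hp
    simp only [Finset.mem_union, Finset.mem_filter]
    by_cases g1 : w p.1 = w' p.1
    · by_cases g2 : z p.2 = z' p.2
      · exact Or.inl (Or.inl ⟨hp, g1, g2⟩)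
      · exact Or.inr ⟨hp, g2⟩
    · exact Or.inl (Or.inr ⟨hp, g1⟩)
  have h5 := Finset.card_le_card h4
  have h6 := Finset.card_union_le (P.filter (fun p => w p.1 = w' p.1 ∧ z p.2 = z' p.2) ∪
      P.filter (fun p => w p.1 ≠ w' p.1)) (P.filter (fun p => z p.2 ≠ z' p.2))
  have h7 := Finset.card_union_le (P.filter (fun p => w p.1 = w' p.1 ∧ z p.2 = z' p.2))
      (P.filter (fun p => w p.1 ≠ w' p.1))
  omega

private theorem cb_add_eq (w : ℕ → Bool) (a b : ℕ) : cb true w a b + cb false w a b = b - a := by
  unfold cb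
  rw [← Nat.card_Ico a b, ← Finset.card_filter_add_card_filter_not (s := Ico a b)
    (fun x => w x = true)]
  congr 2
  ext x
  simp

/-- Two words with the same number of `true` on `[a,b)` differ in at most `2 * mc` places:
the places with `w = true, w' = false` are at most `cb true w` and at most
`cb false w' = cb false w`; the same for the other ones. -/
theorem ham_le (w w' : ℕ → Bool) (a b : ℕ) (h : cb true w a b = cb true w' a b) :
    ham w w' a b ≤ 2 * mc w a b := by
  have hf : cb false w a b = cb false w' a b := by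
    have h1 := cb_add_eq w a b
    have h2 := cb_add_eq w' a b
    omega
  have h1 : ham w w' a b ≤ ((Ico a b).filter (fun x => w x = true ∧ w' x = false)).card +
      ((Ico a b).filter (fun x => w x = false ∧ w' x = true)).card := by
    unfold ham
    refine (Finset.card_le_card ?_).trans (Finset.card_union_le _ _)
    intro x hx
    obtain ⟨hx, hne⟩ := Finset.mem_filter.1 hx
    simp only [Finset.mem_union, Finset.mem_filter]
    cases e1 : w x <;> cases e2 : w' x
    · exact absurd (e1.trans e2.symm) hne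
    · exact Or.inr ⟨hx, rfl, rfl⟩
    · exact Or.inl ⟨hx, rfl, rfl⟩
    · exact absurd (e1.trans e2.symm) hne
  have h2 : ((Ico a b).filter (fun x => w x = true ∧ w' x = false)).card ≤ cb true w a b := by
    unfold cb
    refine Finset.card_le_card fun x hx => ?_
    obtain ⟨hx, e1, _⟩ := Finset.mem_filter.1 hx
    exact Finset.mem_filter.2 ⟨hx, e1⟩
  have h3 : ((Ico a b).filter (fun x => w x = true ∧ w' x = false)).card ≤ cb false w' a b := by
    unfold cb
    refine Finset.card_le_card fun x hx => ?_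
    obtain ⟨hx, _, e1⟩ := Finset.mem_filter.1 hx
    exact Finset.mem_filter.2 ⟨hx, e1⟩
  have h4 : ((Ico a b).filter (fun x => w x = false ∧ w' x = true)).card ≤ cb false w a b := by
    unfold cb
    refine Finset.card_le_card fun x hx => ?_
    obtain ⟨hx, e1, _⟩ := Finset.mem_filter.1 hx
    exact Finset.mem_filter.2 ⟨hx, e1⟩
  have h5 : ((Ico a b).filter (fun x => w x = false ∧ w' x = true)).card ≤ cb true w' a b := by
    unfold cb
    refine Finset.card_le_card fun x hx => ?_
    obtain ⟨hx, _, e1⟩ := Finset.mem_filter.1 hx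
    exact Finset.mem_filter.2 ⟨hx, e1⟩
  unfold mc
  omega

theorem ham_sum (w w' : ℕ → Bool) (r a n : ℕ)
    (h : ∀ j < n, cb true w (a + j * r) (a + (j + 1) * r) =
      cb true w' (a + j * r) (a + (j + 1) * r)) :
    ham w w' a (a + n * r) ≤ 2 * msum w r a n := by
  induction n with
  | zero => simp [ham, msum]
  | succ n ih =>
    have h1 := ih fun j hj => h j (by omega)
    have h2 := ham_le w w' (a + n * r) (a + (n + 1) * r) (h n (by omega))
    have h3 : ham w w' a (a + (n + 1) * r) ≤
        ham w w' a (a + n * r) + ham w w' (a + n * r) (a + (n + 1) * r) := by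
      unfold ham
      refine (Finset.card_le_card ?_).trans (Finset.card_union_le _ _)
      intro x hx
      obtain ⟨hx, hne⟩ := Finset.mem_filter.1 hx
      rw [Finset.mem_Ico] at hx
      simp only [Finset.mem_union, Finset.mem_filter, Finset.mem_Ico]
      by_cases hlt : x < a + n * r
      · exact Or.inl ⟨⟨hx.1, hlt⟩, hne⟩
      · exact Or.inr ⟨⟨by omega, hx.2⟩, hne⟩
    have h4 : msum w r a (n + 1) = msum w r a n + mc w (a + n * r) (a + (n + 1) * r) := by
      unfold msum
      rw [Finset.sum_range_succ]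
    omega

end MP8C
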