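import Pool.Agent.Lib.MP_8c24b6_lc.LcsBasic
import Pool.Agent.Lib.MP_8c24b6_lc.LcsColour
import Pool.Agent.Lib.MP_8c24b6_lc.Mono

/-!
Module A10b (75 min). Unmatched letters in rectangles; one colour on a piece.
-/

namespace MP8C

open Finset

/-- `unm` of an alignment inside a rectangle: the number of pairs inside is
`≤ b - a` and `≤ d - c`, so the truncated subtraction in `unm` is honest. -/
theorem two_card_le {w z : ℕ → Bool} {A B C D : ℕ} {P : Finset (ℕ × ℕ)}
    (hP : IsAl w z A B C D P) (a b c d : ℕ) :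
    2 * (P.filter (fun p => (a ≤ p.1 ∧ p.1 < b) ∧ (c ≤ p.2 ∧ p.2 < d))).card ≤
      (b - a) + (d - c) := by
  have h := hP.restrict a b c d
  have h1 := h.card_le_left
  have h2 := h.card_le_right
  omega

/-- A10b. subadditivity -/
theorem unm_add_le {w z : ℕ → Bool} {A B C D : ℕ} {P : Finset (ℕ × ℕ)}
    (hP : IsAl w z A B C D P) {a b b' c d d' : ℕ} (h1 : a ≤ b) (h2 : b ≤ b') (h3 : c ≤ d)
    (h4 : d ≤ d') : unm P a b' c d' ≤ unm P a b c d + unm P b b' d d' := by
  have _ := hP
  have hdisj : Disjoint (P.filter (fun p => (a ≤ p.1 ∧ p.1 < b) ∧ (c ≤ p.2 ∧ p.2 < d)))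
      (P.filter (fun p => (b ≤ p.1 ∧ p.1 < b') ∧ (d ≤ p.2 ∧ p.2 < d'))) := by
    rw [Finset.disjoint_left]
    intro p hp hq
    have := (Finset.mem_filter.1 hp).2
    have := (Finset.mem_filter.1 hq).2
    omega
  have hsub : P.filter (fun p => (a ≤ p.1 ∧ p.1 < b) ∧ (c ≤ p.2 ∧ p.2 < d)) ∪
      P.filter (fun p => (b ≤ p.1 ∧ p.1 < b') ∧ (d ≤ p.2 ∧ p.2 < d')) ⊆
      P.filter (fun p => (a ≤ p.1 ∧ p.1 < b') ∧ (c ≤ p.2 ∧ p.2 < d')) := by
    intro p hp
    rcases Finset.mem_union.1 hp with hp | hp <;>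
    · obtain ⟨hp, hp'⟩ := Finset.mem_filter.1 hp
      refine Finset.mem_filter.2 ⟨hp, ?_⟩
      omega
  have hc := Finset.card_le_card hsub
  rw [Finset.card_union_of_disjoint hdisj] at hc
  unfold unm
  omega

/-- A10b. subadditivity for several consecutive rectangles (induction on `n`) -/
theorem unm_le_sum {w z : ℕ → Bool} {A B C D : ℕ} {P : Finset (ℕ × ℕ)}
    (hP : IsAl w z A B C D P) (f g : ℕ → ℕ) (hf : Monotone f) (hg : Monotone g) (m n : ℕ) :
    unm P (f m) (f (m + n)) (g m) (g (m + n)) ≤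
      ∑ j ∈ range n, unm P (f (m + j)) (f (m + j + 1)) (g (m + j)) (g (m + j + 1)) := by
  induction n with
  | zero => simp [unm]
  | succ n ih =>
    rw [Finset.sum_range_succ]
    have h := unm_add_le hP (hf (Nat.le_add_right m n)) (hf (Nat.le_succ (m + n)))
      (hg (Nat.le_add_right m n)) (hg (Nat.le_succ (m + n)))
    exact h.trans (Nat.add_le_add_right ih _)

/-- A10b. the lengths of the two sides differ by at most `unm` -/
theorem length_le_unm {w z : ℕ → Bool} {A B C D : ℕ} {P : Finset (ℕ × ℕ)}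
    (hP : IsAl w z A B C D P) (a b c d : ℕ) :
    (d - c) ≤ (b - a) + unm P a b c d ∧ (b - a) ≤ (d - c) + unm P a b c d := by
  have h := hP.restrict a b c d
  have h1 := h.card_le_left
  have h2 := h.card_le_right
  unfold unm
  omega

/-- pairs of one colour in a rectangle -/
private theorem colour_le {w z : ℕ → Bool} {a b c d : ℕ} {P : Finset (ℕ × ℕ)}
    (hP : IsAl w z a b c d P) (β : Bool) :
    (P.filter (fun p => w p.1 = β)).card ≤ cb β w a b ∧
      (P.filter (fun p => w p.1 = β)).card ≤ cb β z c d := by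
  constructor
  · have e : ((P.filter (fun p => w p.1 = β)).image Prod.fst).card =
        (P.filter (fun p => w p.1 = β)).card :=
      Finset.card_image_of_injOn fun p hp q hq e =>
        hP.fst_inj (Finset.mem_filter.1 hp).1 (Finset.mem_filter.1 hq).1 e
    rw [← e]
    refine Finset.card_le_card ?_
    intro x hx
    obtain ⟨p, hp, rfl⟩ := Finset.mem_image.1 hx
    obtain ⟨hp, hβ⟩ := Finset.mem_filter.1 hp
    exact Finset.mem_filter.2 ⟨Finset.mem_Ico.2 (hP.1 p hp).1, hβ⟩
  · have e : ((P.filter (fun p => w p.1 = β)).image Prod.snd).card =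
        (P.filter (fun p => w p.1 = β)).card :=
      Finset.card_image_of_injOn fun p hp q hq e =>
        hP.snd_inj (Finset.mem_filter.1 hp).1 (Finset.mem_filter.1 hq).1 e
    rw [← e]
    refine Finset.card_le_card ?_
    intro x hx
    obtain ⟨p, hp, rfl⟩ := Finset.mem_image.1 hx
    obtain ⟨hp, hβ⟩ := Finset.mem_filter.1 hp
    refine Finset.mem_filter.2 ⟨Finset.mem_Ico.2 (hP.1 p hp).2.1, ?_⟩
    rw [← (hP.1 p hp).2.2]
    exact hβ

private theorem colour_add (w : ℕ → Bool) (P : Finset (ℕ × ℕ)) :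
    (P.filter (fun p => w p.1 = true)).card + (P.filter (fun p => w p.1 = false)).card =
      P.card := by
  rw [← Finset.card_filter_add_card_filter_not (s := P) (fun p => w p.1 = true)]
  congr 2
  ext p
  simp

/-- A10b. Unmatched letters change the difference of the two letter counts by at most one each:
`(d - c) - 2 mc z' c d ≤ (b - a) - 2 mc w' a b + unm`. -/
theorem imb_le {w' z' : ℕ → Bool} {A B C D : ℕ} {P : Finset (ℕ × ℕ)}
    (hP : IsAl w' z' A B C D P) {a b c d : ℕ} (hab : a ≤ b) (hcd : c ≤ d) :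
    (d - c) - 2 * mc z' c d ≤ ((b - a) - 2 * mc w' a b) + unm P a b c d := by
  have _ := hab
  have _ := hcd
  have h := hP.restrict a b c d
  obtain ⟨h1, h2⟩ := colour_le h true
  obtain ⟨h3, h4⟩ := colour_le h false
  have h5 := colour_add w'
    (P.filter (fun p => (a ≤ p.1 ∧ p.1 < b) ∧ (c ≤ p.2 ∧ p.2 < d)))
  have h6 := cb_true_add_false w' a b
  have h7 := cb_true_add_false z' c d
  unfold unm mc
  omega

/-- A10b. ONE COLOUR on a piece.  If `w, w'` have the same number of each letter on `[a,b)` and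
`z, z'` on `[c,d)`, then with `β` the majority letter of `w` on `[a,b)`:
`lcs w z ≥ min (cb β w a b) (cb β z c d)` and `cb β z c d = cb β z' c d ≥ cb β w' a b - unm`. -/
theorem piece {w z w' z' : ℕ → Bool} {A B C D : ℕ} {P : Finset (ℕ × ℕ)}
    (hP : IsAl w' z' A B C D P) {a b c d : ℕ} (hab : a ≤ b) (hcd : c ≤ d)
    (hw : ∀ β, cb β w a b = cb β w' a b) (hz : ∀ β, cb β z c d = cb β z' c d) :
    (b - a) + ((b - a) - 2 * mc w a b) ≤ 2 * lcs w z a b c d + 2 * unm P a b c d := by
  have _ := hab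
  have _ := hcd
  have h := hP.restrict a b c d
  obtain ⟨h1, h2⟩ := colour_le h true
  obtain ⟨h3, h4⟩ := colour_le h false
  have h5 := colour_add w'
    (P.filter (fun p => (a ≤ p.1 ∧ p.1 < b) ∧ (c ≤ p.2 ∧ p.2 < d)))
  have h6 := cb_true_add_false w' a b
  have h7 := cb_true_add_false z' c d
  have h8 := lcs_colour true w z a b c d
  have h9 := lcs_colour false w z a b c d
  have e1 := hw true
  have e2 := hw false
  have e3 := hz true
  have e4 := hz false
  unfold unm mc
  omega

end MP8C
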