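import Pool.Agent.Lib.MP_8c24b6_lc.Transfer
import Pool.Agent.Lib.MP_8c24b6_lc.MonoSk
import Pool.Agent.Lib.MP_8c24b6_lc.UnmBasic

/-!
Modules A12a (V, 60 min), A12b (II, 60 min), A12c (I, 90 min), assembly (done below).
THE LEMMA ON ONE CHILD.

Notation: `T = 2^I`, `s = S T`; `w` on the child `[k0 T, (k0+S) T)`, `z` on `[m0 T, m1 T)`.  The words
`w', z'` have the same statistics and are aligned by `P` with `≤ E` unmatched letters, `E ≤ 2^-17 s`.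
`a = 1/64`.  `i` = last index `≤ I - 9` with `msum w (2^i) ≤ a s`.
-/

namespace MP8C

open Finset

/-- common hypotheses on one child -/
structure ChildHyp (I S k0 m0 m1 m2 E : ℕ) (w z w' z' : ℕ → Bool) (P : Finset (ℕ × ℕ)) : Prop where
  hI : 21 ≤ I
  hS : 32 ∣ S
  hS0 : 0 < S
  hm0 : m0 ≤ m2
  hm2 : m2 ≤ m1
  hE : 2 ^ 17 * E ≤ S * 2 ^ I
  /-- `P` is an alignment of `w'` and `z'` (on some rectangle containing the child) -/
  hP : ∃ A B C D, IsAl w' z' A B C D P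
  h1 : unm P (k0 * 2 ^ I) ((k0 + S) * 2 ^ I) (m0 * 2 ^ I) (m1 * 2 ^ I) ≤ E
  h2 : unm P ((k0 + (S - S / 32)) * 2 ^ I) ((k0 + S) * 2 ^ I) (m2 * 2 ^ I) (m1 * 2 ^ I) ≤ E
  skw : SameSk w w' I k0 (k0 + S)
  skz : SameSk z z' I m0 m1

/-- the homogeneity condition: whenever the child is mixed at the scale `2^i`, `i ≤ I - 9`
(`msum > s/64`), so are its first and its last `1/32` (`msum ≥ (1/128)(s/32)`) -/
def Homog (I S k0 : ℕ) (w : ℕ → Bool) : Prop :=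
  ∀ i ≤ I - 9, S * 2 ^ I < 64 * msum w (2 ^ i) (k0 * 2 ^ I) (S * 2 ^ (I - i)) →
    S * 2 ^ I ≤ 4096 * msum w (2 ^ i) (k0 * 2 ^ I) ((S / 32) * 2 ^ (I - i)) ∧
    S * 2 ^ I ≤ 4096 * msum w (2 ^ i) ((k0 + (S - S / 32)) * 2 ^ I) ((S / 32) * 2 ^ (I - i))

end MP8C
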