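import Pool.Agent.Lib.MP_8c24b6_lc.ChildDefs

/-! Module A12a (60 min): case V of the child lemma.  Notation in `ChildDefs`. -/

namespace MP8C

open Finset

private theorem pw (J a b c : ℕ) (h : a + b = c) : 2 ^ a * 2 ^ (J + b) = 2 ^ (J + c) := by
  rw [← pow_add]; congr 1; omega

private theorem pwm (k M J a b c : ℕ) (h : a + b = c) :
    k * 2 ^ (J + c) + M * 2 ^ a * 2 ^ (J + b) = (k + M) * 2 ^ (J + c) := by
  rw [mul_assoc, pw J a b c h, add_mul]

private theorem ham_msum {I lo hi a n e : ℕ} {w w' : ℕ → Bool} (h : SameSk w w' I lo hi)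
    (hI : 20 ≤ I) (ha : lo ≤ a) (hn : a + n ≤ hi) (he : e ≤ 20) :
    ham w w' (a * 2 ^ I) ((a + n) * 2 ^ I) ≤
      2 * msum w (2 ^ (I - e)) (a * 2 ^ I) (n * 2 ^ e) := by
  obtain ⟨J, rfl⟩ : ∃ J, I = J + 20 := ⟨I - 20, by omega⟩
  have e0 : J + 20 - (J + 20 - 20) = 20 := by omega
  have e20 : J + 20 - 20 = J + 0 := by omega
  have h1 := ham_sum w w' (2 ^ (J + 0)) (a * 2 ^ (J + 20)) (n * 2 ^ 20) (by
    intro j hj
    have := h.cb_small ha hn j (by rw [e0]; exact hj)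
    rw [e20] at this
    exact this)
  rw [pwm a n J 20 0 20 rfl] at h1
  have h2 := msum_mono w (2 ^ (20 - e)) (2 ^ (J + 0)) (a * 2 ^ (J + 20)) (n * 2 ^ e)
  have e2 : n * 2 ^ e * 2 ^ (20 - e) = n * 2 ^ 20 := by
    rw [mul_assoc, ← pow_add]; congr 2; omega
  have e3 : 2 ^ (20 - e) * 2 ^ (J + 0) = 2 ^ (J + 20 - e) := by
    rw [← pow_add]; congr 1; omega
  rw [e2, e3] at h2
  exact h1.trans (Nat.mul_le_mul_left 2 h2)

/-- CASE V: `w` is pure up to the scale `2^(I-9)`.  By `transfer` (windows `2^(I-9)` of `w'`, windows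
`2^(I-15)` of `z'`) also `z'` is pure at the scale `2^(I-15)`:
`msum z' (2^(I-15)) ≤ s/64 + s/128 + E`, hence (`msum_mono`) at the scale `2^(I-20)` both words are
pure, and by `ham_sum` the Hamming distances of `w, w'` and of `z, z'` are at most
`2 msum ≤ s/32` and `≤ 3 s/64 + 2 E`.  Now `lcs w' z' ≥ |P in the rectangle| ≥ s - E` and
`lcs_ham`. -/
theorem child_V {I S k0 m0 m1 m2 E : ℕ} {w z w' z' : ℕ → Bool} {P : Finset (ℕ × ℕ)}
    (h : ChildHyp I S k0 m0 m1 m2 E w z w' z' P)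
    (hV : 64 * msum w (2 ^ (I - 9)) (k0 * 2 ^ I) (S * 2 ^ 9) ≤ S * 2 ^ I) :
    3 * (S * 2 ^ I) ≤ 4 * lcs w z (k0 * 2 ^ I) ((k0 + S) * 2 ^ I) (m0 * 2 ^ I) (m1 * 2 ^ I) := by
  have hI := h.hI
  obtain ⟨M, rfl⟩ : ∃ M, m1 = m0 + M := ⟨m1 - m0, by have := h.hm0; have := h.hm2; omega⟩
  obtain ⟨A, B, C, D, hP⟩ := h.hP
  have hamw := ham_msum h.skw (by omega) (le_refl k0) (le_refl (k0 + S)) (e := 9) (by omega)
  have hamz := ham_msum h.skz (by omega) (le_refl m0) (le_refl (m0 + M)) (e := 15) (by omega)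
  have hw1 : msum w (2 ^ (I - 9)) (k0 * 2 ^ I) (S * 2 ^ 9) =
      msum w' (2 ^ (I - 9)) (k0 * 2 ^ I) (S * 2 ^ 9) := by
    have := h.skw.msum_eq (i := I - 9) (a := k0) (n := S) (by omega) le_rfl le_rfl
    have e : I - (I - 9) = 9 := by omega
    rw [e] at this
    exact this
  have hz1 : msum z (2 ^ (I - 15)) (m0 * 2 ^ I) (M * 2 ^ 15) =
      msum z' (2 ^ (I - 15)) (m0 * 2 ^ I) (M * 2 ^ 15) := by
    have := h.skz.msum_eq (i := I - 15) (a := m0) (n := M) (by omega) le_rfl le_rfl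
    have e : I - (I - 15) = 15 := by omega
    rw [e] at this
    exact this
  have q9 : ∀ k M : ℕ, k * 2 ^ I + M * 2 ^ 9 * 2 ^ (I - 9) = (k + M) * 2 ^ I := by
    intro k M
    have : 2 ^ 9 * 2 ^ (I - 9) = 2 ^ I := by rw [← pow_add]; congr 1; omega
    rw [mul_assoc, this, add_mul]
  have q15 : ∀ k M : ℕ, k * 2 ^ I + M * 2 ^ 15 * 2 ^ (I - 15) = (k + M) * 2 ^ I := by
    intro k M
    have : 2 ^ 15 * 2 ^ (I - 15) = 2 ^ I := by rw [← pow_add]; congr 1; omega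
    rw [mul_assoc, this, add_mul]
  have q6 : S * 2 ^ 9 * 2 ^ (I - 15) * 64 = S * 2 ^ I := by
    have : 2 ^ 9 * 2 ^ (I - 15) * 2 ^ 6 = 2 ^ I := by
      rw [← pow_add, ← pow_add]; congr 1; omega
    rw [← this]
    ring
  have q15' : M * 2 ^ 15 * 2 ^ (I - 15) = M * 2 ^ I := by
    have := q15 0 M
    simpa using this
  have hE := h.hE
  have hunm := h.h1
  generalize hT : 2 ^ I = T at *
  -- the restricted alignment
  have hR := hP.restrict (k0 * T) ((k0 + S) * T) (m0 * T) ((m0 + M) * T)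
  have hcard := card_le_lcs hR
  have hlen := length_le_unm hP (k0 * T) ((k0 + S) * T) (m0 * T) ((m0 + M) * T)
  have h2c := two_card_le hP (k0 * T) ((k0 + S) * T) (m0 * T) ((m0 + M) * T)
  have hs : (k0 + S) * T - k0 * T = S * T := by rw [add_mul]; omega
  have hd : (m0 + M) * T - m0 * T = M * T := by rw [add_mul]; omega
  have htr := transfer w' z' (k0 * T) (m0 * T) (S * 2 ^ 9) (M * 2 ^ 15) (2 ^ (I - 9)) (2 ^ (I - 15))
    _ (by rw [q9, q15]; exact hR)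
  have hu : unm P (k0 * T) ((k0 + S) * T) (m0 * T) ((m0 + M) * T) =
      S * T + M * T - 2 * (P.filter (fun p => (k0 * T ≤ p.1 ∧ p.1 < (k0 + S) * T) ∧
        (m0 * T ≤ p.2 ∧ p.2 < (m0 + M) * T))).card := by
    unfold unm
    rw [hs, hd]
  rw [hs, hd] at hlen h2c
  rw [hu] at hunm hlen
  have hlh := lcs_ham w z w' z' (k0 * T) ((k0 + S) * T) (m0 * T) ((m0 + M) * T)
  rw [q15'] at htr
  rw [hw1] at hV hamw
  rw [hz1] at hamz
  clear hu hs hd hR hw1 hz1 q9 q15 q15' hP h hT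
  generalize S * 2 ^ 9 * 2 ^ (I - 15) = q at *
  generalize msum w' (2 ^ (I - 9)) (k0 * T) (S * 2 ^ 9) = mw at *
  generalize msum z' (2 ^ (I - 15)) (m0 * T) (M * 2 ^ 15) = mz at *
  generalize lcs w z (k0 * T) ((k0 + S) * T) (m0 * T) ((m0 + M) * T) = L at *
  generalize lcs w' z' (k0 * T) ((k0 + S) * T) (m0 * T) ((m0 + M) * T) = L' at *
  generalize ham w w' (k0 * T) ((k0 + S) * T) = hw at *
  generalize ham z z' (m0 * T) ((m0 + M) * T) = hz at *
  generalize (P.filter (fun p => (k0 * T ≤ p.1 ∧ p.1 < (k0 + S) * T) ∧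
        (m0 * T ≤ p.2 ∧ p.2 < (m0 + M) * T))).card = p at *
  generalize S * T = s at *
  generalize M * T = r at *
  omega

end MP8C
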