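import Pool.Agent.Lib.MP_8c24b6_lc.ParentDefs

/-! Module A16b (90 min): counting. -/

namespace MP8C

open Finset

private lemma coreB_group (g : ℕ → ℕ) (L : ℕ) : ∀ N : ℕ,
    ∑ j ∈ range (N * L), g j = ∑ p ∈ range N, ∑ j ∈ range L, g (p * L + j) := by
  intro N
  induction N with
  | zero => simp
  | succ N ih => rw [Nat.succ_mul, Finset.sum_range_add, ih, Finset.sum_range_succ]

private lemma coreB_markov (f : ℕ → ℕ) (t n : ℕ) :
    ((range n).filter (fun p => t < f p)).card * t ≤ ∑ p ∈ range n, f p := by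
  calc ((range n).filter (fun p => t < f p)).card * t
      = ∑ p ∈ (range n).filter (fun p => t < f p), t := by
        rw [Finset.sum_const, smul_eq_mul]
    _ ≤ ∑ p ∈ (range n).filter (fun p => t < f p), f p := by
        refine Finset.sum_le_sum fun p hp => ?_
        exact (Finset.mem_filter.1 hp).2.le
    _ ≤ _ := Finset.sum_le_sum_of_subset_of_nonneg (Finset.filter_subset _ _)
        (fun _ _ _ => Nat.zero_le _)

private lemma coreB_ratio {a b c T N L B : ℕ} (hL : 0 < L) (h1 : a * T ≤ N * L)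
    (h2 : B * L ≤ b * T) (h3 : a = c * b) : c * B ≤ N := by
  refine Nat.le_of_mul_le_mul_right ?_ hL
  calc c * B * L = c * (B * L) := by ring
    _ ≤ c * (b * T) := Nat.mul_le_mul_left _ h2
    _ = a * T := by rw [h3]; ring
    _ ≤ N * L := h1

open Classical in
private theorem coreB_aux (Np H u s : ℕ) (e m : ℕ → ℕ) (Hom : ℕ → Prop) (hH : 0 < H)
    (hs : 0 < s)
    (hE : 2 ^ 160 * ∑ j ∈ range (Np * (H * u)), e j ≤ Np * (H * s))
    (hImb : 16 * H * ∑ j ∈ range (Np * (H * u)), m j ≤ Np * (H * s))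
    (hhom : 16 * ((range (Np * H)).filter (fun k => ¬ Hom k)).card ≤ Np * H) :
    ∃ A : Finset ℕ, Np ≤ 2 * A.card ∧ ∀ p ∈ A, p < Np ∧
      2 ^ 112 * ∑ j ∈ range (H * u), e (p * (H * u) + j) ≤ H * s ∧
      H * ∑ j ∈ range (H * u), m (p * (H * u) + j) ≤ H * s ∧
      ∃ Gd : Finset ℕ, (∀ c ∈ Gd, c < H) ∧ H ≤ 2 * Gd.card ∧
        ∀ c ∈ Gd, 2 ^ 17 * ∑ j ∈ range u, e ((p * H + c) * u + j) ≤ s ∧ Hom (p * H + c) := by
  have hHs : 0 < H * s := Nat.mul_pos hH hs
  set B1 := (range Np).filter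
    (fun p => H * s < 2 ^ 112 * ∑ j ∈ range (H * u), e (p * (H * u) + j)) with hB1
  set B2 := (range Np).filter
    (fun p => H * s < H * ∑ j ∈ range (H * u), m (p * (H * u) + j)) with hB2
  set C1 := (range (Np * H)).filter
    (fun k => s < 2 ^ 17 * ∑ j ∈ range u, e (k * u + j)) with hC1
  set C2 := (range (Np * H)).filter (fun k => ¬ Hom k) with hC2
  set g : ℕ → ℕ := fun p => ∑ c ∈ range H, (if p * H + c ∈ C1 ∪ C2 then 1 else 0) with hg
  set B3 := (range Np).filter (fun p => H < 2 * g p) with hB3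
  have b1 : 2 ^ 48 * B1.card ≤ Np := by
    have h := coreB_markov (fun p => 2 ^ 112 * ∑ j ∈ range (H * u), e (p * (H * u) + j))
      (H * s) Np
    rw [← Finset.mul_sum, ← coreB_group] at h
    exact coreB_ratio hHs hE h (by norm_num)
  have b2 : 16 * B2.card ≤ Np := by
    have h := coreB_markov (fun p => H * ∑ j ∈ range (H * u), m (p * (H * u) + j)) (H * s) Np
    rw [← Finset.mul_sum, ← coreB_group] at h
    exact coreB_ratio hHs hImb h rfl
  have c1 : 2 ^ 143 * C1.card ≤ Np * H := by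
    have h := coreB_markov (fun k => 2 ^ 17 * ∑ j ∈ range u, e (k * u + j)) s (Np * H)
    rw [← Finset.mul_sum, ← coreB_group, Nat.mul_assoc] at h
    refine coreB_ratio hs (a := 2 ^ 160) (b := 2 ^ 17) (N := Np * H) ?_ h (by norm_num)
    rw [Nat.mul_assoc]
    exact hE
  have hCcard : 8 * (C1 ∪ C2).card ≤ Np * H := by
    have h1 := Finset.card_union_le C1 C2
    have h2 : 16 * C1.card ≤ 2 ^ 143 * C1.card := Nat.mul_le_mul_right _ (by norm_num)
    omega
  have hgsum : ∑ p ∈ range Np, g p = (C1 ∪ C2).card := by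
    have h1 := coreB_group (fun k => if k ∈ C1 ∪ C2 then 1 else 0) H Np
    rw [← h1, ← Finset.card_filter]
    congr 1
    ext k
    simp only [Finset.mem_filter, Finset.mem_union, hC1, hC2, Finset.mem_range]
    tauto
  have b3 : 4 * B3.card ≤ Np := by
    have h := coreB_markov (fun p => 2 * g p) H Np
    rw [← Finset.mul_sum, hgsum] at h
    exact coreB_ratio hH hCcard h rfl
  refine ⟨(range Np).filter (fun p => p ∉ B1 ∧ p ∉ B2 ∧ p ∉ B3), ?_, ?_⟩
  · have h1 : Np = ((range Np).filter (fun p => p ∉ B1 ∧ p ∉ B2 ∧ p ∉ B3)).card +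
        ((range Np).filter (fun p => ¬ (p ∉ B1 ∧ p ∉ B2 ∧ p ∉ B3))).card := by
      rw [Finset.card_filter_add_card_filter_not, Finset.card_range]
    have h2 : ((range Np).filter (fun p => ¬ (p ∉ B1 ∧ p ∉ B2 ∧ p ∉ B3))).card ≤
        B1.card + B2.card + B3.card := by
      refine (Finset.card_le_card (t := (B1 ∪ B2) ∪ B3) ?_).trans ?_
      · intro p hp
        rw [Finset.mem_filter] at hp
        simp only [Finset.mem_union]
        tauto
      · have h3 := Finset.card_union_le (B1 ∪ B2) B3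
        have h4 := Finset.card_union_le B1 B2
        omega
    have h3 : 4 * B1.card ≤ 2 ^ 48 * B1.card := Nat.mul_le_mul_right _ (by norm_num)
    have h4 : 16 * B1.card ≤ 2 ^ 48 * B1.card := Nat.mul_le_mul_right _ (by norm_num)
    omega
  · intro p hp
    rw [Finset.mem_filter, Finset.mem_range] at hp
    obtain ⟨hpN, hp1, hp2, hp3⟩ := hp
    refine ⟨hpN, ?_, ?_, (range H).filter (fun c => p * H + c ∉ C1 ∪ C2), ?_, ?_, ?_⟩
    · by_contra hcon
      exact hp1 (by rw [hB1, Finset.mem_filter, Finset.mem_range]; exact ⟨hpN, by omega⟩)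
    · by_contra hcon
      exact hp2 (by rw [hB2, Finset.mem_filter, Finset.mem_range]; exact ⟨hpN, by omega⟩)
    · intro c hc
      exact Finset.mem_range.1 (Finset.mem_filter.1 hc).1
    · have h1 : ((range H).filter (fun c => p * H + c ∈ C1 ∪ C2)).card +
          ((range H).filter (fun c => p * H + c ∉ C1 ∪ C2)).card = H := by
        rw [Finset.card_filter_add_card_filter_not, Finset.card_range]
      have h2 : g p = ((range H).filter (fun c => p * H + c ∈ C1 ∪ C2)).card := by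
        rw [Finset.card_filter]
      have h3 : 2 * g p ≤ H := by
        by_contra hcon
        exact hp3 (by rw [hB3, Finset.mem_filter, Finset.mem_range]; exact ⟨hpN, by omega⟩)
      omega
    · intro c hc
      obtain ⟨hc1, hc2⟩ := Finset.mem_filter.1 hc
      rw [Finset.mem_range] at hc1
      have hlt : p * H + c < Np * H := by
        calc p * H + c < p * H + H := by omega
          _ = (p + 1) * H := by ring
          _ ≤ Np * H := Nat.mul_le_mul_right _ hpN
      rw [Finset.mem_union, not_or] at hc2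
      refine ⟨?_, ?_⟩
      · by_contra hcon
        exact hc2.1 (by rw [hC1, Finset.mem_filter, Finset.mem_range]; exact ⟨hlt, by omega⟩)
      · by_contra hcon
        exact hc2.2 (by rw [hC2, Finset.mem_filter, Finset.mem_range]; exact ⟨hlt, hcon⟩)

open Classical in
/-- A16b.  COUNTING.  Suppose `Σ eP ≤ 2^(-160) N_c s` over all pieces (`N_c = Np H` children, `s = S T`),
`16 H Σ imbP ≤ Np ℓ` and at most `N_c / 16` children are not homogeneous.  Then there is a set `A`
of at least half of the parents `p < Np` satisfying the hypotheses of `parent_at`.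
Markov four times: parents with `2^112 Σ eP > ℓ`: `≤ 2^(112-160) Np`; parents with
`2^56 Σ imbP > ℓ`: `≤ Np/16`; children with `2^17 Σ eP > s`: `≤ 2^(17-160) N_c`; so at most `N_c/8`
children are bad, and at most `Np/4` parents have more than `H/2` bad children. -/
theorem good_parents (I S3 u Np : ℕ) (w : ℕ → Bool) (P : Finset (ℕ × ℕ)) (φ : ℕ → ℕ)
    (hS3 : 0 < S3) (hu : 0 < u)
    (hE : 2 ^ 160 * ∑ j ∈ range (Np * (2 ^ 56 * u)), eP P I S3 φ j ≤
      Np * (2 ^ 56 * (S3 * u) * 2 ^ I))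
    (hImb : 16 * 2 ^ 56 * ∑ j ∈ range (Np * (2 ^ 56 * u)), imbP w I S3 j ≤
      Np * (2 ^ 56 * (S3 * u) * 2 ^ I))
    (hhom : 16 * ((range (Np * 2 ^ 56)).filter
      (fun k => ¬ Homog I (S3 * u) (k * (S3 * u)) w)).card ≤ Np * 2 ^ 56) :
    ∃ A : Finset ℕ, Np ≤ 2 * A.card ∧ ∀ p ∈ A, p < Np ∧
      2 ^ 112 * ∑ j ∈ range (2 ^ 56 * u), eP P I S3 φ (p * (2 ^ 56 * u) + j) ≤
        2 ^ 56 * (S3 * u) * 2 ^ I ∧
      2 ^ 56 * ∑ j ∈ range (2 ^ 56 * u), imbP w I S3 (p * (2 ^ 56 * u) + j) ≤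
        2 ^ 56 * (S3 * u) * 2 ^ I ∧
      ∃ Gd : Finset ℕ, (∀ c ∈ Gd, c < 2 ^ 56) ∧ 2 ^ 56 ≤ 2 * Gd.card ∧
        ∀ c ∈ Gd,
          2 ^ 17 * ∑ j ∈ range u, eP P I S3 φ ((p * 2 ^ 56 + c) * u + j) ≤ S3 * u * 2 ^ I ∧
          Homog I (S3 * u) ((p * 2 ^ 56 + c) * (S3 * u)) w := by
  have hs : 0 < S3 * u * 2 ^ I := Nat.mul_pos (Nat.mul_pos hS3 hu) (Nat.two_pow_pos I)
  have hH : 0 < 2 ^ 56 := Nat.two_pow_pos 56
  rw [Nat.mul_assoc (2 ^ 56) (S3 * u) (2 ^ I)] at hE hImb ⊢
  exact coreB_aux Np (2 ^ 56) u (S3 * u * 2 ^ I) (eP P I S3 φ) (imbP w I S3)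
    (fun k => Homog I (S3 * u) (k * (S3 * u)) w) hH hs hE hImb hhom

end MP8C
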