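import Pool.Agent.Lib.MP_8c24b6_lc.ParentDefs

/-! Module A13a (50 min).  Notation in `ParentDefs`. -/

namespace MP8C

open Finset

/-- A13a.  BASELINE: from the boundary of piece `j` to the boundary of piece `j + n`
(`lcs_add` and `piece` on every piece: a piece of length `S3 T` contributes at least
`S3 T / 2 - eP`). -/
theorem baseline {I S3 N : ℕ} {w z w' z' : ℕ → Bool} {P : Finset (ℕ × ℕ)} {φ : ℕ → ℕ}
    (hφ : Monotone φ) (hP : ∃ A B C D, IsAl w' z' A B C D P)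
    (skw : SameSk w w' I 0 (N * S3)) (skz : SameSk z z' I 0 (φ (N * S3))) (j n : ℕ)
    (hjn : j + n ≤ N) (a c : ℕ) (ha : a ≤ j * S3 * 2 ^ I) (hc : c ≤ φ (j * S3) * 2 ^ I) :
    2 * lcs w z a (j * S3 * 2 ^ I) c (φ (j * S3) * 2 ^ I) + n * (S3 * 2 ^ I) ≤
      2 * lcs w z a ((j + n) * S3 * 2 ^ I) c (φ ((j + n) * S3) * 2 ^ I) +
        2 * ∑ i ∈ range n, eP P I S3 φ (j + i) := by
  obtain ⟨A, B, C, D, hP⟩ := hP
  induction n with
  | zero => simp
  | succ n ih =>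
    have ih' := ih (by omega)
    rw [sum_range_succ]
    have hJ1 : (j + n) * S3 ≤ (j + n + 1) * S3 := Nat.mul_le_mul_right _ (by omega)
    have hJN : (j + n + 1) * S3 ≤ N * S3 := Nat.mul_le_mul_right _ (by omega)
    have hφ1 : φ ((j + n) * S3) ≤ φ ((j + n + 1) * S3) := hφ hJ1
    have hφN : φ ((j + n + 1) * S3) ≤ φ (N * S3) := hφ hJN
    have hab : (j + n) * S3 * 2 ^ I ≤ (j + n + 1) * S3 * 2 ^ I := Nat.mul_le_mul_right _ hJ1
    have hcd : φ ((j + n) * S3) * 2 ^ I ≤ φ ((j + n + 1) * S3) * 2 ^ I :=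
      Nat.mul_le_mul_right _ hφ1
    have hw : ∀ β, cb β w ((j + n) * S3 * 2 ^ I) ((j + n + 1) * S3 * 2 ^ I) =
        cb β w' ((j + n) * S3 * 2 ^ I) ((j + n + 1) * S3 * 2 ^ I) := by
      intro β
      have e : (j + n + 1) * S3 = (j + n) * S3 + S3 := by ring
      have h := skw.cb_eq β (a := (j + n) * S3) (n := S3) (Nat.zero_le _) (by rw [← e]; exact hJN)
      rw [← e] at h
      exact h
    have hz : ∀ β, cb β z (φ ((j + n) * S3) * 2 ^ I) (φ ((j + n + 1) * S3) * 2 ^ I) =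
        cb β z' (φ ((j + n) * S3) * 2 ^ I) (φ ((j + n + 1) * S3) * 2 ^ I) := by
      intro β
      have e : φ ((j + n) * S3) + (φ ((j + n + 1) * S3) - φ ((j + n) * S3)) =
          φ ((j + n + 1) * S3) := by omega
      have h := skz.cb_eq β (a := φ ((j + n) * S3))
        (n := φ ((j + n + 1) * S3) - φ ((j + n) * S3)) (Nat.zero_le _) (by rw [e]; exact hφN)
      rw [e] at h
      exact h
    have hp := piece hP hab hcd hw hz
    have hlen : (j + n + 1) * S3 * 2 ^ I - (j + n) * S3 * 2 ^ I = S3 * 2 ^ I := by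
      have : (j + n + 1) * S3 * 2 ^ I = (j + n) * S3 * 2 ^ I + S3 * 2 ^ I := by ring
      omega
    rw [hlen] at hp
    have ha' : a ≤ (j + n) * S3 * 2 ^ I :=
      ha.trans (Nat.mul_le_mul_right _ (Nat.mul_le_mul_right _ (by omega)))
    have hc' : c ≤ φ ((j + n) * S3) * 2 ^ I :=
      hc.trans (Nat.mul_le_mul_right _ (hφ (Nat.mul_le_mul_right _ (by omega))))
    have hadd := lcs_add w z ha' hab hc' hcd
    have hunm : unm P ((j + n) * S3 * 2 ^ I) ((j + n + 1) * S3 * 2 ^ I)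
        (φ ((j + n) * S3) * 2 ^ I) (φ ((j + n + 1) * S3) * 2 ^ I) = eP P I S3 φ (j + n) := rfl
    rw [hunm] at hp
    have e1 : j + (n + 1) = j + n + 1 := by ring
    rw [e1]
    have e2 : (n + 1) * (S3 * 2 ^ I) = n * (S3 * 2 ^ I) + S3 * 2 ^ I := by ring
    rw [e2]
    omega

end MP8C
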