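import Pool.Agent.Lib.MP_8c24b6_lc.GlobalDefs
import Pool.Agent.Lib.MP_8c24b6_lc.ParentA

/-! Module A15c (75 min). -/

namespace MP8C

open Finset

private theorem global_step {I S3 u H Np n n' : ℕ} {w z w' z' : ℕ → Bool} {P : Finset (ℕ × ℕ)}
    {φ : ℕ → ℕ} (hH : 0 < H) (hφ : Monotone φ) (hφn : ∀ k, φ k ≤ n')
    (hP : IsAl w' z' 0 (n * 2 ^ I) 0 (n' * 2 ^ I) P)
    (skw : SameSk w w' I 0 n) (skz : SameSk z z' I 0 n') (hn : Np * (H * (S3 * u)) ≤ n)
    (A : Finset ℕ)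
    (hA : ∀ p ∈ A, p < Np ∧ (H + 2) * (H * (S3 * u) * 2 ^ I) ≤
      2 * H * lcs w z (p * (H * (S3 * u)) * 2 ^ I) ((p + 1) * (H * (S3 * u)) * 2 ^ I)
        (φ (p * (H * (S3 * u))) * 2 ^ I) (φ ((p + 1) * (H * (S3 * u))) * 2 ^ I)) (m : ℕ) :
    m ≤ Np → m * (H * (S3 * u) * 2 ^ I) + (A.filter (fun p => p < m)).card *
        (2 * (S3 * u * 2 ^ I)) ≤
      2 * lcs w z 0 (m * (H * (S3 * u)) * 2 ^ I) 0 (φ (m * (H * (S3 * u))) * 2 ^ I) +
        2 * ∑ j ∈ range (m * (H * u)), eP P I S3 φ j := by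
  induction m with
  | zero => intro _; simp
  | succ m ih =>
    intro hm
    have ih' := ih (by omega)
    have hsum : ∑ j ∈ range ((m + 1) * (H * u)), eP P I S3 φ j =
        ∑ j ∈ range (m * (H * u)), eP P I S3 φ j +
          ∑ j ∈ range (H * u), eP P I S3 φ (m * (H * u) + j) := by
      rw [add_mul, one_mul, Finset.sum_range_add]
    rw [hsum]
    have hmono1 : m * (H * (S3 * u)) * 2 ^ I ≤ (m + 1) * (H * (S3 * u)) * 2 ^ I :=
      Nat.mul_le_mul_right _ (Nat.mul_le_mul_right _ (Nat.le_succ m))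
    have hmono2 : φ (m * (H * (S3 * u))) * 2 ^ I ≤ φ ((m + 1) * (H * (S3 * u))) * 2 ^ I :=
      Nat.mul_le_mul_right _ (hφ (Nat.mul_le_mul_right _ (Nat.le_succ m)))
    by_cases hmA : m ∈ A
    · have hcard : (A.filter (fun p => p < m + 1)).card = (A.filter (fun p => p < m)).card + 1 := by
        have : A.filter (fun p => p < m + 1) = insert m (A.filter (fun p => p < m)) := by
          ext x
          simp only [Finset.mem_filter, Finset.mem_insert]
          constructor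
          · rintro ⟨h1, h2⟩
            rcases Nat.lt_succ_iff_lt_or_eq.mp h2 with h3 | h3
            · exact Or.inr ⟨h1, h3⟩
            · exact Or.inl h3
          · rintro (h1 | ⟨h1, h2⟩)
            · subst h1
              exact ⟨hmA, Nat.lt_succ_self _⟩
            · exact ⟨h1, Nat.lt_succ_of_lt h2⟩
        rw [this, Finset.card_insert_of_notMem]
        simp
      rw [hcard]
      have h1 := (hA m hmA).2
      have h2 := lcs_add w z (Nat.zero_le (m * (H * (S3 * u)) * 2 ^ I)) hmono1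
        (Nat.zero_le (φ (m * (H * (S3 * u))) * 2 ^ I)) hmono2
      set X := lcs w z (m * (H * (S3 * u)) * 2 ^ I) ((m + 1) * (H * (S3 * u)) * 2 ^ I)
        (φ (m * (H * (S3 * u))) * 2 ^ I) (φ ((m + 1) * (H * (S3 * u))) * 2 ^ I)
      have h3 : (H + 2) * (S3 * u * 2 ^ I) ≤ 2 * X := by
        have : H * ((H + 2) * (S3 * u * 2 ^ I)) ≤ H * (2 * X) := by
          calc H * ((H + 2) * (S3 * u * 2 ^ I)) = (H + 2) * (H * (S3 * u) * 2 ^ I) := by ring
            _ ≤ 2 * H * X := h1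
            _ = H * (2 * X) := by ring
        exact Nat.le_of_mul_le_mul_left this hH
      have e1 : (m + 1) * (H * (S3 * u) * 2 ^ I) + ((A.filter (fun p => p < m)).card + 1) *
          (2 * (S3 * u * 2 ^ I)) = (m * (H * (S3 * u) * 2 ^ I) +
          (A.filter (fun p => p < m)).card * (2 * (S3 * u * 2 ^ I))) +
          (H + 2) * (S3 * u * 2 ^ I) := by ring
      rw [e1]
      omega
    · have hcard : A.filter (fun p => p < m + 1) = A.filter (fun p => p < m) := by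
        ext x
        simp only [Finset.mem_filter]
        constructor
        · rintro ⟨h1, h2⟩
          rcases Nat.lt_succ_iff_lt_or_eq.mp h2 with h3 | h3
          · exact ⟨h1, h3⟩
          · subst h3
            exact absurd h1 hmA
        · rintro ⟨h1, h2⟩
          exact ⟨h1, Nat.lt_succ_of_lt h2⟩
      rw [hcard]
      have eN : Np * (H * u) * S3 = Np * (H * (S3 * u)) := by ring
      have hb := baseline (I := I) (S3 := S3) (N := Np * (H * u)) hφ ⟨_, _, _, _, hP⟩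
        (skw.mono (le_refl 0) (by rw [eN]; exact hn)) (skz.mono (le_refl 0) (hφn _))
        (m * (H * u)) (H * u)
        (by
          have : (m + 1) * (H * u) ≤ Np * (H * u) := Nat.mul_le_mul_right _ hm
          calc m * (H * u) + H * u = (m + 1) * (H * u) := by ring
            _ ≤ _ := this) 0 0 (Nat.zero_le _) (Nat.zero_le _)
      have e1 : m * (H * u) * S3 = m * (H * (S3 * u)) := by ring
      have e2 : (m * (H * u) + H * u) * S3 = (m + 1) * (H * (S3 * u)) := by ring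
      have e3 : H * u * (S3 * 2 ^ I) = H * (S3 * u) * 2 ^ I := by ring
      rw [e1, e2, e3] at hb
      have e4 : (m + 1) * (H * (S3 * u) * 2 ^ I) = m * (H * (S3 * u) * 2 ^ I) +
        H * (S3 * u) * 2 ^ I := by ring
      rw [e4]
      omega

/-- A15c.  If at least half of the parents satisfy the hypotheses of `parent_at` (set `A`), then
(with `ℓ = H S T`, `H = 2^56`): `2 lcs ≥ Np ℓ (1 + 1/H) - 2 Σ eP`; the other parents by `baseline`;
`lcs_add` over all parents. -/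
theorem sum_parents {I S3 u Np n n' : ℕ} {w z w' z' : ℕ → Bool} {P : Finset (ℕ × ℕ)}
    {φ : ℕ → ℕ} (h : GlobalHyp I S3 u Np n n' w z w' z' P φ) (A : Finset ℕ)
    (hA : ∀ p ∈ A, p < Np ∧
      (2 ^ 56 + 2) * (2 ^ 56 * (S3 * u) * 2 ^ I) ≤
      2 * 2 ^ 56 * lcs w z (p * (2 ^ 56 * (S3 * u)) * 2 ^ I)
        ((p + 1) * (2 ^ 56 * (S3 * u)) * 2 ^ I)
        (φ (p * (2 ^ 56 * (S3 * u))) * 2 ^ I) (φ ((p + 1) * (2 ^ 56 * (S3 * u))) * 2 ^ I))
    (hcard : Np ≤ 2 * A.card) :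
    Np * (2 ^ 56 * (S3 * u) * 2 ^ I) + Np * (S3 * u * 2 ^ I) ≤
      2 * lcs w z 0 (n * 2 ^ I) 0 (n' * 2 ^ I) +
        2 * ∑ j ∈ range (Np * (2 ^ 56 * u)), eP P I S3 φ j := by
  have hs := global_step (H := 2 ^ 56) (by positivity) h.hφ h.hφn h.hP h.skw h.skz h.hn A hA Np
    (le_refl _)
  have hf : A.filter (fun p => p < Np) = A := by
    apply Finset.filter_true_of_mem
    intro p hp
    exact (hA p hp).1
  rw [hf] at hs
  have hmono := lcs_mono w z (a := 0) (a' := 0) (c := 0) (c' := 0) (le_refl _)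
    (Nat.mul_le_mul_right (2 ^ I) h.hn) (le_refl _)
    (Nat.mul_le_mul_right (2 ^ I) (h.hφn (Np * (2 ^ 56 * (S3 * u)))))
  have h2 : Np * (S3 * u * 2 ^ I) ≤ A.card * (2 * (S3 * u * 2 ^ I)) := by
    calc Np * (S3 * u * 2 ^ I) ≤ 2 * A.card * (S3 * u * 2 ^ I) := Nat.mul_le_mul_right _ hcard
      _ = A.card * (2 * (S3 * u * 2 ^ I)) := by ring
  omega

private theorem global_colour_step {I S3 N n n' : ℕ} {w z w' z' : ℕ → Bool} {P : Finset (ℕ × ℕ)}
    {φ : ℕ → ℕ} (hφ : Monotone φ) (hφn : ∀ k, φ k ≤ n')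
    (hP : IsAl w' z' 0 (n * 2 ^ I) 0 (n' * 2 ^ I) P)
    (skw : SameSk w w' I 0 n) (skz : SameSk z z' I 0 n') (hn : N * S3 ≤ n) (m : ℕ) :
    m ≤ N → m * (S3 * 2 ^ I) + ∑ j ∈ range m, imbP w I S3 j ≤
      2 * lcs w z 0 (m * S3 * 2 ^ I) 0 (φ (m * S3) * 2 ^ I) +
        2 * ∑ j ∈ range m, eP P I S3 φ j := by
  induction m with
  | zero => intro _; simp
  | succ m ih =>
    intro hm
    have ih' := ih (by omega)
    rw [Finset.sum_range_succ, Finset.sum_range_succ]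
    have e0 : (m + 1) * S3 = m * S3 + S3 := by ring
    have hle : m * S3 ≤ (m + 1) * S3 := Nat.mul_le_mul_right _ (Nat.le_succ m)
    have hmono1 : m * S3 * 2 ^ I ≤ (m + 1) * S3 * 2 ^ I := Nat.mul_le_mul_right _ hle
    have hmono2 : φ (m * S3) * 2 ^ I ≤ φ ((m + 1) * S3) * 2 ^ I :=
      Nat.mul_le_mul_right _ (hφ hle)
    have hmn : (m + 1) * S3 ≤ n := le_trans (Nat.mul_le_mul_right _ hm) hn
    have hz : φ (m * S3) + (φ ((m + 1) * S3) - φ (m * S3)) = φ ((m + 1) * S3) :=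
      Nat.add_sub_cancel' (hφ hle)
    have hp := piece (w := w) (z := z) hP hmono1 hmono2
      (fun β => by
        have := skw.cb_eq β (Nat.zero_le (m * S3)) (n := S3) (by rw [← e0]; exact hmn)
        rw [← e0] at this
        exact this)
      (fun β => by
        have := skz.cb_eq β (Nat.zero_le (φ (m * S3)))
          (n := φ ((m + 1) * S3) - φ (m * S3)) (by rw [hz]; exact hφn _)
        rw [hz] at this
        exact this)
    have e1 : (m + 1) * S3 * 2 ^ I - m * S3 * 2 ^ I = S3 * 2 ^ I := by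
      rw [e0, add_mul, Nat.add_sub_cancel_left]
    rw [e1] at hp
    have h2 := lcs_add w z (Nat.zero_le (m * S3 * 2 ^ I)) hmono1
        (Nat.zero_le (φ (m * S3) * 2 ^ I)) hmono2
    have e2 : (m + 1) * (S3 * 2 ^ I) = m * (S3 * 2 ^ I) + S3 * 2 ^ I := by ring
    have e3 : imbP w I S3 m = S3 * 2 ^ I - 2 * mc w (m * S3 * 2 ^ I) ((m + 1) * S3 * 2 ^ I) := rfl
    have e4 : eP P I S3 φ m = unm P (m * S3 * 2 ^ I) ((m + 1) * S3 * 2 ^ I)
      (φ (m * S3) * 2 ^ I) (φ ((m + 1) * S3) * 2 ^ I) := rfl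
    rw [e2, e3, e4]
    omega

/-- A15c.  One colour on every piece (`piece`, `lcs_add`). -/
theorem sum_colours {I S3 u Np n n' : ℕ} {w z w' z' : ℕ → Bool} {P : Finset (ℕ × ℕ)}
    {φ : ℕ → ℕ} (h : GlobalHyp I S3 u Np n n' w z w' z' P φ) :
    Np * (2 ^ 56 * (S3 * u) * 2 ^ I) + ∑ j ∈ range (Np * (2 ^ 56 * u)), imbP w I S3 j ≤
      2 * lcs w z 0 (n * 2 ^ I) 0 (n' * 2 ^ I) +
        2 * ∑ j ∈ range (Np * (2 ^ 56 * u)), eP P I S3 φ j := by
  have eN : Np * (2 ^ 56 * u) * S3 = Np * (2 ^ 56 * (S3 * u)) := by ring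
  have hs := global_colour_step (N := Np * (2 ^ 56 * u)) h.hφ h.hφn h.hP h.skw h.skz
    (by rw [eN]; exact h.hn) (Np * (2 ^ 56 * u)) (le_refl _)
  have e1 : Np * (2 ^ 56 * u) * (S3 * 2 ^ I) = Np * (2 ^ 56 * (S3 * u) * 2 ^ I) := by ring
  rw [e1, eN] at hs
  have hmono := lcs_mono w z (a := 0) (a' := 0) (c := 0) (c' := 0) (le_refl _)
    (Nat.mul_le_mul_right (2 ^ I) h.hn) (le_refl _)
    (Nat.mul_le_mul_right (2 ^ I) (h.hφn (Np * (2 ^ 56 * (S3 * u)))))
  omega

end MP8C
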