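import Pool.Agent.Lib.MP_8c24b6_lc.UnmBasic

/-! Module A15a (40 min). -/

namespace MP8C

open Finset

/-- A15a.  `unm` under translation: shift the pairs of `P` -/
theorem unm_shift {w z : ℕ → Bool} {A B C D : ℕ} {P : Finset (ℕ × ℕ)}
    (hP : IsAl w z A B C D P) (s t : ℕ) :
    ∃ P', (∃ A B C D, IsAl (fun x => w (x + s)) (fun y => z (y + t)) A B C D P') ∧
      ∀ a b c d, unm P' a b c d = unm P (a + s) (b + s) (c + t) (d + t) := by
  classical
  have key : ∀ p ∈ P.filter (fun p => s ≤ p.1 ∧ t ≤ p.2),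
      ((p.1 - s) + s = p.1 ∧ (p.2 - t) + t = p.2) ∧ p ∈ P := by
    intro p hp
    obtain ⟨hp, h1, h2⟩ := Finset.mem_filter.1 hp
    exact ⟨⟨Nat.sub_add_cancel h1, Nat.sub_add_cancel h2⟩, hp⟩
  refine ⟨(P.filter (fun p => s ≤ p.1 ∧ t ≤ p.2)).image (fun p => (p.1 - s, p.2 - t)),
    ⟨0, B, 0, D, ?_, ?_⟩, ?_⟩
  · intro q hq
    obtain ⟨p, hp, rfl⟩ := Finset.mem_image.1 hq
    obtain ⟨⟨e1, e2⟩, hpP⟩ := key p hp
    obtain ⟨h1, h2, h3⟩ := hP.1 p hpP
    refine ⟨⟨Nat.zero_le _, ?_⟩, ⟨Nat.zero_le _, ?_⟩, ?_⟩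
    · show p.1 - s < B
      omega
    · show p.2 - t < D
      omega
    · show w (p.1 - s + s) = z (p.2 - t + t)
      rw [e1, e2]
      exact h3
  · intro q hq q' hq'
    obtain ⟨p, hp, rfl⟩ := Finset.mem_image.1 hq
    obtain ⟨p', hp', rfl⟩ := Finset.mem_image.1 hq'
    obtain ⟨⟨e1, e2⟩, hpP⟩ := key p hp
    obtain ⟨⟨e1', e2'⟩, hpP'⟩ := key p' hp'
    have h := hP.2 p hpP p' hpP'
    show p.1 - s < p'.1 - s ↔ p.2 - t < p'.2 - t
    omega
  · intro a b c d
    have hcard : (((P.filter (fun p => s ≤ p.1 ∧ t ≤ p.2)).image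
          (fun p => (p.1 - s, p.2 - t))).filter
          (fun p => (a ≤ p.1 ∧ p.1 < b) ∧ (c ≤ p.2 ∧ p.2 < d))).card =
        (P.filter (fun p => (a + s ≤ p.1 ∧ p.1 < b + s) ∧
          (c + t ≤ p.2 ∧ p.2 < d + t))).card := by
      refine Finset.card_bij' (fun q _ => (q.1 + s, q.2 + t)) (fun p _ => (p.1 - s, p.2 - t))
        ?_ ?_ ?_ ?_
      · intro q hq
        obtain ⟨hq, h1⟩ := Finset.mem_filter.1 hq
        obtain ⟨p, hp, rfl⟩ := Finset.mem_image.1 hq
        obtain ⟨⟨e1, e2⟩, hpP⟩ := key p hp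
        refine Finset.mem_filter.2 ⟨?_, ?_⟩
        · show (p.1 - s + s, p.2 - t + t) ∈ P
          rw [e1, e2]
          exact hpP
        · simp only at h1 ⊢
          omega
      · intro p hp
        obtain ⟨hp, h1⟩ := Finset.mem_filter.1 hp
        refine Finset.mem_filter.2 ⟨Finset.mem_image.2 ⟨p, Finset.mem_filter.2 ⟨hp, ?_⟩, rfl⟩, ?_⟩
        · omega
        · simp only
          omega
      · intro q hq
        simp
      · intro p hp
        obtain ⟨hp, h1⟩ := Finset.mem_filter.1 hp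
        refine Prod.ext ?_ ?_
        · show p.1 - s + s = p.1
          omega
        · show p.2 - t + t = p.2
          omega
    unfold unm
    rw [hcard]
    omega

end MP8C
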