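import Pool.Agent.Lib.MP_8c24b6_lc.ParentDefs

/-! Module A13b (60 min).  Notation in `ParentDefs`. -/

namespace MP8C

open Finset

/-- A13b.  The hypotheses of a child: `k0 = c S`, `m0 = φ (c S)`, `m1 = φ ((c+1) S)`,
`m2 = φ (c S + (S - S/32))`, `E = Σ` of the `eP` of its `u` pieces (`unm_le_sum`; the last `1/32` is made
of the last `u/32` pieces). -/
theorem childHyp_of_parent {I S3 u : ℕ} {w z w' z' : ℕ → Bool} {P : Finset (ℕ × ℕ)} {φ : ℕ → ℕ}
    (h : ParentHyp I S3 u w z w' z' P φ) (c : ℕ) (hc : c < 2 ^ 56)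
    (hE : 2 ^ 17 * ∑ j ∈ range u, eP P I S3 φ (c * u + j) ≤ S3 * u * 2 ^ I) :
    ChildHyp I (S3 * u) (c * (S3 * u)) (φ (c * (S3 * u))) (φ ((c + 1) * (S3 * u)))
      (φ (c * (S3 * u) + (S3 * u - S3 * u / 32)))
      (∑ j ∈ range u, eP P I S3 φ (c * u + j)) w z w' z' P := by
  obtain ⟨A, B, C, D, hP⟩ := h.hP
  have hu0 : 0 < u := lt_of_lt_of_le (by positivity) h.hu
  obtain ⟨v, hv⟩ := h.hu32
  have hcS : (c + 1) * (S3 * u) = c * (S3 * u) + S3 * u := by ring
  have hcS56 : (c + 1) * (S3 * u) ≤ 2 ^ 56 * (S3 * u) := Nat.mul_le_mul_right _ hc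
  have hf : Monotone (fun j : ℕ => j * S3 * 2 ^ I) := by
    intro a b hab
    exact Nat.mul_le_mul_right _ (Nat.mul_le_mul_right _ hab)
  have hg : Monotone (fun j : ℕ => φ (j * S3) * 2 ^ I) := by
    intro a b hab
    exact Nat.mul_le_mul_right _ (h.hφ (Nat.mul_le_mul_right _ hab))
  have hdiv : S3 * u / 32 = S3 * v := by
    rw [hv, show S3 * (32 * v) = 32 * (S3 * v) by ring]
    exact Nat.mul_div_cancel_left _ (by norm_num)
  have hS32 : S3 * u = 32 * (S3 * v) := by rw [hv]; ring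
  refine
    { hI := h.hI
      hS := Dvd.dvd.mul_left h.hu32 S3
      hS0 := Nat.mul_pos h.hS3 hu0
      hm0 := h.hφ (by omega)
      hm2 := h.hφ (by omega)
      hE := hE
      hP := h.hP
      h1 := ?_
      h2 := ?_
      skw := h.skw.mono (zero_le) (by omega)
      skz := h.skz.mono (zero_le) (h.hφ hcS56) }
  · have key := unm_le_sum hP (fun j : ℕ => j * S3 * 2 ^ I) (fun j : ℕ => φ (j * S3) * 2 ^ I)
      hf hg (c * u) u
    have e1 : c * u * S3 = c * (S3 * u) := by ring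
    have e2 : (c * u + u) * S3 = c * (S3 * u) + S3 * u := by ring
    simp only [e1, e2] at key
    rw [hcS]
    exact key
  · have key := unm_le_sum hP (fun j : ℕ => j * S3 * 2 ^ I) (fun j : ℕ => φ (j * S3) * 2 ^ I)
      hf hg (c * u + 31 * v) v
    have e1 : (c * u + 31 * v) * S3 = c * (S3 * u) + (S3 * u - S3 * v) := by
      have : S3 * u - S3 * v = 31 * (S3 * v) := by omega
      rw [this]; ring
    have e2 : (c * u + 31 * v + v) * S3 = c * (S3 * u) + S3 * u := by
      rw [show (c * u + 31 * v + v) * S3 = c * (S3 * u) + 32 * (S3 * v) by ring]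
      omega
    simp only [e1, e2] at key
    rw [hcS, hdiv]
    refine key.trans ?_
    calc ∑ j ∈ range v, unm P ((c * u + 31 * v + j) * S3 * 2 ^ I)
          ((c * u + 31 * v + j + 1) * S3 * 2 ^ I) (φ ((c * u + 31 * v + j) * S3) * 2 ^ I)
          (φ ((c * u + 31 * v + j + 1) * S3) * 2 ^ I)
        = ∑ j ∈ range v, eP P I S3 φ (c * u + (31 * v + j)) := by
          refine Finset.sum_congr rfl fun j _ => ?_
          simp only [eP, ← Nat.add_assoc]
      _ ≤ ∑ j ∈ range (31 * v), eP P I S3 φ (c * u + j) +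
            ∑ j ∈ range v, eP P I S3 φ (c * u + (31 * v + j)) := Nat.le_add_left _ _
      _ = ∑ j ∈ range u, eP P I S3 φ (c * u + j) := by
          rw [show u = 31 * v + v by omega, Finset.sum_range_add]

end MP8C
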