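import Pool.Agent.Lib.MP_8c24b6_lc.StripB

/-!
The strip inequality (done).
-/

namespace MP8C

open Finset

/-- A9b.  The strip inequality. -/
theorem strip (w z : ℕ → Bool) (ℓ ℓ' D M G : ℕ) (ψ : ℕ → ℕ) (h0 : ψ 0 = 0)
    (hG : ψ G = ℓ') (hm : Monotone ψ) (hM : ∀ j < G, ψ (j + 1) - ψ j ≤ M) :
    2 * ∑ p ∈ stripCells ℓ ℓ' D, exc w z p.1 p.2 + (2 * D + 1) * (min ℓ ℓ' - D) ≤
      2 * ((2 * D + 1) * lcs w z 0 ℓ 0 ℓ') + 2 * ℓ * M +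
        (2 * D + 1) * ∑ j ∈ range G, ((ψ (j + 1) - ψ j) - 2 * mc z (ψ j) (ψ (j + 1))) := by
  have h1 := strip_telescope w z ℓ ℓ' D
  have h2 := strip_card ℓ ℓ' D
  have h3 := strip_equal w z ℓ ℓ' D M G ψ h0 hG hm hM
  rw [Finset.sum_add_distrib, ← Finset.card_filter] at h1
  omega

end MP8C
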