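import Pool.Agent.Lib.MP_8c24b6_lc.ParentDefs
import Pool.Agent.Lib.MP_8c24b6_lc.Strip

/-! Module A13c (90 min).  Notation in `ParentDefs`. -/

namespace MP8C

open Finset

/-- A13c.  UPPER BOUND for the excess of the strip `|x - y| ≤ 2 s`, if there is no gain.
`strip` with `ℓ = H s`, `ℓ' = φ(H S) T`, `D = 2 s`, `ψ j = φ(j S3) T` (`j ≤ G = H u`, constant afterwards),
`M = s/H + ℓ/H^2 = 2 s/H` (length of a piece of `z` `≤ S3 T + eP`, `S3 T = s/u ≤ s/H`), and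
`(length - 2 mc z)` of piece `j` `≤ imbP + eP` (`imb_le`, with `SameSk.mc_eq` for `z, z'` and `w, w'`).  With
`E = Σ eP ≤ ℓ/H^2`, `Σ imbP ≤ ℓ/H`, `|ℓ - ℓ'| ≤ E`, `lcs < (1/2 + 1/H) ℓ`:
`2 Σ exc ≤ (4s+1) (ℓ/H) (2 + 1/H + 2 + 1 + 1/H) + 4 s^2 ≤ 25 s^2`  (recall `ℓ / H = s`). -/
theorem strip_upper {I S3 u : ℕ} {w z w' z' : ℕ → Bool} {P : Finset (ℕ × ℕ)} {φ : ℕ → ℕ}
    (h : ParentHyp I S3 u w z w' z' P φ)
    (hno : 2 * 2 ^ 56 * lcs w z 0 (2 ^ 56 * (S3 * u) * 2 ^ I) 0 (φ (2 ^ 56 * (S3 * u)) * 2 ^ I) <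
      (2 ^ 56 + 2) * (2 ^ 56 * (S3 * u) * 2 ^ I)) :
    ∑ p ∈ stripCells (2 ^ 56 * (S3 * u) * 2 ^ I) (φ (2 ^ 56 * (S3 * u)) * 2 ^ I)
      (2 * (S3 * u * 2 ^ I)), exc w z p.1 p.2 ≤ 16 * (S3 * u * 2 ^ I) ^ 2 := by
  obtain ⟨hI, hS3, hu, hu32, hφ0, hφ, ⟨PA, PB, PC, PD, hP⟩, skw, skz, hE, hImb, -⟩ := h
  set T := 2 ^ I with hT
  have hT0 : 0 < T := by positivity
  set s := S3 * u * T with hs
  set H := 2 ^ 56 with hH
  have hℓ : H * (S3 * u) * T = H * s := by rw [hs]; ring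
  have hGS : H * (S3 * u) = H * u * S3 := by ring
  set E := ∑ j ∈ range (H * u), eP P I S3 φ j with hEdef
  set Im := ∑ j ∈ range (H * u), imbP w I S3 j with hImdef
  rw [hℓ] at hE hImb hno ⊢
  have hs0 : H ≤ s := by
    calc H ≤ u := hu
      _ ≤ S3 * u := Nat.le_mul_of_pos_left _ hS3
      _ ≤ S3 * u * T := Nat.le_mul_of_pos_right _ hT0
  have hH0 : 0 < H := by positivity
  have hHE : H * E ≤ s := by
    have h2 : H * (H * E) ≤ H * s := by
      have : (2 : ℕ) ^ 112 = H * H := by rw [hH, ← pow_add]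
      rw [this] at hE
      rw [← mul_assoc]; exact hE
    exact Nat.le_of_mul_le_mul_left h2 hH0
  have hIm : Im ≤ s := Nat.le_of_mul_le_mul_left hImb hH0
  -- the pieces
  set ψ : ℕ → ℕ := fun j => φ (j * S3) * T with hψ
  have hψm : Monotone ψ := by
    intro a b hab
    exact Nat.mul_le_mul_right _ (hφ (Nat.mul_le_mul_right _ hab))
  have hψ0 : ψ 0 = 0 := by
    simp only [hψ, zero_mul, hφ0]
  have hψG : ψ (H * u) = φ (H * (S3 * u)) * T := by
    simp only [hψ, hGS]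
  have hpl : ∀ j, (j + 1) * S3 * T - j * S3 * T = S3 * T := by
    intro j
    rw [← Nat.sub_mul, ← Nat.sub_mul, Nat.add_sub_cancel_left, one_mul]
  have hlen : ∀ j, ψ (j + 1) - ψ j ≤ S3 * T + eP P I S3 φ j := by
    intro j
    have := (length_le_unm hP (j * S3 * T) ((j + 1) * S3 * T) (φ (j * S3) * T)
      (φ ((j + 1) * S3) * T)).1
    rw [hpl] at this
    exact this
  have hePE : ∀ j < H * u, eP P I S3 φ j ≤ E := by
    intro j hj
    exact Finset.single_le_sum (f := fun j => eP P I S3 φ j) (fun _ _ => Nat.zero_le _)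
      (Finset.mem_range.2 hj)
  set M := 2 * s / H with hM
  have hHM : H * M ≤ 2 * s := Nat.mul_div_le _ _
  have hMj : ∀ j < H * u, ψ (j + 1) - ψ j ≤ M := by
    intro j hj
    rw [hM, Nat.le_div_iff_mul_le hH0]
    have h1 := hlen j
    have h2 := hePE j hj
    have h3 : H * (S3 * T) ≤ s := by
      calc H * (S3 * T) ≤ u * (S3 * T) := Nat.mul_le_mul_right _ hu
        _ = s := by rw [hs]; ring
    calc (ψ (j + 1) - ψ j) * H ≤ (S3 * T + E) * H := Nat.mul_le_mul_right _ (by omega)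
      _ = H * (S3 * T) + H * E := by ring
      _ ≤ 2 * s := by omega
  have hst := strip w z (H * s) (φ (H * (S3 * u)) * T) (2 * s) M (H * u) ψ hψ0 hψG hψm hMj
  -- the imbalances
  have himb : ∀ j ∈ range (H * u), (ψ (j + 1) - ψ j) - 2 * mc z (ψ j) (ψ (j + 1)) ≤
      imbP w I S3 j + eP P I S3 φ j := by
    intro j hj
    have hj' : j < H * u := Finset.mem_range.1 hj
    have h1 := imb_le hP (a := j * S3 * T) (b := (j + 1) * S3 * T) (c := φ (j * S3) * T)
      (d := φ ((j + 1) * S3) * T)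
      (Nat.mul_le_mul_right _ (Nat.mul_le_mul_right _ (Nat.le_succ j)))
      (hψm (Nat.le_succ j))
    rw [hpl] at h1
    have hjG : (j + 1) * S3 ≤ H * (S3 * u) := by
      rw [hGS]; exact Nat.mul_le_mul_right _ hj'
    have hφj : φ (j * S3) ≤ φ ((j + 1) * S3) := hφ (Nat.mul_le_mul_right _ (Nat.le_succ j))
    have hφG : φ ((j + 1) * S3) ≤ φ (H * (S3 * u)) := hφ hjG
    have h2 := skz.mc_eq (a := φ (j * S3)) (n := φ ((j + 1) * S3) - φ (j * S3)) (Nat.zero_le _)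
      (by omega)
    have h3 := skw.mc_eq (a := j * S3) (n := S3) (Nat.zero_le _) (by rw [← Nat.succ_mul]; exact hjG)
    have e2 : φ (j * S3) + (φ ((j + 1) * S3) - φ (j * S3)) = φ ((j + 1) * S3) := by omega
    have e3 : j * S3 + S3 = (j + 1) * S3 := by ring
    rw [e2] at h2
    rw [e3] at h3
    rw [← h2, ← h3] at h1
    exact h1
  have hsum := Finset.sum_le_sum himb
  rw [Finset.sum_add_distrib, ← hEdef, ← hImdef] at hsum
  -- the lengths
  have hunm := unm_le_sum hP (fun j => j * S3 * T) ψ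
    (fun a b hab => Nat.mul_le_mul_right _ (Nat.mul_le_mul_right _ hab)) hψm 0 (H * u)
  have hunm' : unm P 0 (H * s) 0 (φ (H * (S3 * u)) * T) ≤ E := by
    have e1 : (0 + H * u) * S3 * T = H * s := by
      rw [zero_add, hs]; ring
    have e2 : ψ (0 + H * u) = φ (H * (S3 * u)) * T := by rw [zero_add, hψG]
    rw [e1, e2, hψ0] at hunm
    simp only [zero_mul, zero_add] at hunm
    exact hunm
  have hll := (length_le_unm hP 0 (H * s) 0 (φ (H * (S3 * u)) * T)).2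
  simp only [Nat.sub_zero] at hll
  set X := ∑ p ∈ stripCells (H * s) (φ (H * (S3 * u)) * T) (2 * s), exc w z p.1 p.2 with hX
  set Lc := lcs w z 0 (H * s) 0 (φ (H * (S3 * u)) * T) with hLc
  set Sg := ∑ j ∈ range (H * u), ((ψ (j + 1) - ψ j) - 2 * mc z (ψ j) (ψ (j + 1))) with hSg
  have hLc2 : 2 * Lc ≤ (H + 2) * s := by
    have : H * (2 * Lc) < H * ((H + 2) * s) := by
      calc H * (2 * Lc) = 2 * H * Lc := by ring
        _ < (H + 2) * (H * s) := hno
        _ = H * ((H + 2) * s) := by ring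
    exact (Nat.lt_of_mul_lt_mul_left this).le
  have hmin : H * s ≤ (min (H * s) (φ (H * (S3 * u)) * T) - 2 * s) + (E + 2 * s) := by
    rcases min_cases (H * s) (φ (H * (S3 * u)) * T) with ⟨h, _⟩ | ⟨h, _⟩ <;> rw [h] <;> omega
  set mm := min (H * s) (φ (H * (S3 * u)) * T) - 2 * s with hmm
  have h2E : 2 * E ≤ s := by
    have : 2 * E ≤ H * E := Nat.mul_le_mul_right _ (by rw [hH]; norm_num)
    omega
  have hs2 : 2 ≤ s := le_trans (by rw [hH]; norm_num) hs0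
  have hℓM : H * s * M ≤ 2 * s * s := by
    calc H * s * M = H * M * s := by ring
      _ ≤ 2 * s * s := Nat.mul_le_mul_right _ hHM
  clear_value X Lc Sg mm M E Im s T ψ
  clear hX hLc hSg hmm hM hEdef hImdef hs hT
  have b1 := Nat.mul_le_mul_left (2 * (2 * s) + 1) hmin
  have b2 := Nat.mul_le_mul_left (2 * (2 * s) + 1) hLc2
  have b3 := Nat.mul_le_mul_left (2 * (2 * s) + 1) hsum
  have b4 := Nat.mul_le_mul_left (2 * (2 * s) + 1) hIm
  have b5 := Nat.mul_le_mul_left (2 * (2 * s) + 1) h2E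
  have b6 := Nat.mul_le_mul_right s hs2
  nlinarith

end MP8C
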