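import Pool.Agent.Lib.MP_8c24b6_lc.Child
import Pool.Agent.Lib.MP_8c24b6_lc.ParentA
import Pool.Agent.Lib.MP_8c24b6_lc.ParentB
import Pool.Agent.Lib.MP_8c24b6_lc.ParentC

/-! Module A13d (90 min).  Notation in `ParentDefs`. -/

namespace MP8C

open Finset

/-- baseline for the child number `c`, from the origin -/
private theorem Parent_base {I S3 u : ℕ} {w z w' z' : ℕ → Bool} {P : Finset (ℕ × ℕ)} {φ : ℕ → ℕ}
    (h : ParentHyp I S3 u w z w' z' P φ) (c : ℕ) (hc : c < 2 ^ 56) :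
    2 * lcs w z 0 (c * (S3 * u) * 2 ^ I) 0 (φ (c * (S3 * u)) * 2 ^ I) + S3 * u * 2 ^ I ≤
      2 * lcs w z 0 ((c * (S3 * u) + S3 * u) * 2 ^ I) 0 (φ ((c + 1) * (S3 * u)) * 2 ^ I) +
        2 * ∑ j ∈ range u, eP P I S3 φ (c * u + j) := by
  have e0 : 2 ^ 56 * (S3 * u) = (2 ^ 56 * u) * S3 := by ring
  have h1 : SameSk w w' I 0 ((2 ^ 56 * u) * S3) := by rw [← e0]; exact h.skw
  have h2 : SameSk z z' I 0 (φ ((2 ^ 56 * u) * S3)) := by rw [← e0]; exact h.skz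
  have hle : c * u + u ≤ 2 ^ 56 * u := by
    rw [show c * u + u = (c + 1) * u by ring]
    exact Nat.mul_le_mul_right _ hc
  have key := baseline h.hφ h.hP h1 h2 (c * u) u hle 0 0 (Nat.zero_le _) (Nat.zero_le _)
  have e1 : c * u * S3 = c * (S3 * u) := by ring
  have e2 : (c * u + u) * S3 = c * (S3 * u) + S3 * u := by ring
  have e3 : u * (S3 * 2 ^ I) = S3 * u * 2 ^ I := by ring
  have e4 : (c + 1) * (S3 * u) = c * (S3 * u) + S3 * u := by ring
  rw [e1, e2, e3] at key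
  rw [e4]
  exact key

/-- unmatched letters of the children add up -/
private theorem Parent_sumE (f : ℕ → ℕ) (u c : ℕ) :
    ∑ j ∈ range ((c + 1) * u), f j = ∑ j ∈ range (c * u), f j + ∑ j ∈ range u, f (c * u + j) := by
  rw [show (c + 1) * u = c * u + u by ring, Finset.sum_range_add]

/-- the breakpoints are close to the diagonal -/
private theorem Parent_diag {I S3 u : ℕ} {w z w' z' : ℕ → Bool} {P : Finset (ℕ × ℕ)}
    {φ : ℕ → ℕ} (h : ParentHyp I S3 u w z w' z' P φ) (c : ℕ) (hc : c ≤ 2 ^ 56) :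
    φ (c * (S3 * u)) * 2 ^ I ≤
        c * (S3 * u) * 2 ^ I + ∑ j ∈ range (2 ^ 56 * u), eP P I S3 φ j ∧
      c * (S3 * u) * 2 ^ I ≤
        φ (c * (S3 * u)) * 2 ^ I + ∑ j ∈ range (2 ^ 56 * u), eP P I S3 φ j := by
  obtain ⟨A, B, C, D, hP⟩ := h.hP
  have hf : Monotone (fun j : ℕ => j * S3 * 2 ^ I) := by
    intro a b hab
    exact Nat.mul_le_mul_right _ (Nat.mul_le_mul_right _ hab)
  have hg : Monotone (fun j : ℕ => φ (j * S3) * 2 ^ I) := by
    intro a b hab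
    exact Nat.mul_le_mul_right _ (h.hφ (Nat.mul_le_mul_right _ hab))
  have key := unm_le_sum hP (fun j : ℕ => j * S3 * 2 ^ I) (fun j : ℕ => φ (j * S3) * 2 ^ I)
      hf hg 0 (c * u)
  have e1 : c * u * S3 = c * (S3 * u) := by ring
  simp only [Nat.zero_add, Nat.zero_mul, h.hφ0, e1] at key
  have hle : ∑ j ∈ range (c * u), eP P I S3 φ j ≤ ∑ j ∈ range (2 ^ 56 * u), eP P I S3 φ j := by
    apply Finset.sum_le_sum_of_subset
    apply Finset.range_subset_range.2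
    exact Nat.mul_le_mul_right _ hc
  have hlen := length_le_unm hP 0 (c * (S3 * u) * 2 ^ I) 0 (φ (c * (S3 * u)) * 2 ^ I)
  have key2 : unm P 0 (c * (S3 * u) * 2 ^ I) 0 (φ (c * (S3 * u)) * 2 ^ I) ≤
      ∑ j ∈ range (c * u), eP P I S3 φ j := key
  omega

/-- the first alternative: gains add up -/
private theorem Parent_gain {I S3 u : ℕ} {w z w' z' : ℕ → Bool} {P : Finset (ℕ × ℕ)}
    {φ : ℕ → ℕ} (h : ParentHyp I S3 u w z w' z' P φ) (G : Finset ℕ)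
    (hG : ∀ c ∈ G, 3 * (S3 * u * 2 ^ I) ≤ 4 * lcs w z (c * (S3 * u) * 2 ^ I)
      ((c * (S3 * u) + S3 * u) * 2 ^ I) (φ (c * (S3 * u)) * 2 ^ I)
      (φ ((c + 1) * (S3 * u)) * 2 ^ I)) (c : ℕ) (hc : c ≤ 2 ^ 56) :
    2 * c * (S3 * u * 2 ^ I) + (G.filter (fun x => x < c)).card * (S3 * u * 2 ^ I) ≤
      4 * lcs w z 0 (c * (S3 * u) * 2 ^ I) 0 (φ (c * (S3 * u)) * 2 ^ I) +
        4 * ∑ j ∈ range (c * u), eP P I S3 φ j := by
  induction c with
  | zero => simp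
  | succ c ih =>
    have ih' := ih (by omega)
    obtain ⟨s, hs⟩ : ∃ s, s = S3 * u * 2 ^ I := ⟨_, rfl⟩
    have e4 : (c + 1) * (S3 * u) = c * (S3 * u) + S3 * u := by ring
    rw [Parent_sumE, mul_add 4]
    by_cases hcG : c ∈ G
    · have hfil : (G.filter (fun x => x < c + 1)).card = (G.filter (fun x => x < c)).card + 1 := by
        have : G.filter (fun x => x < c + 1) = insert c (G.filter (fun x => x < c)) := by
          ext x
          simp only [mem_filter, mem_insert]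
          constructor
          · rintro ⟨h1, h2⟩
            rcases Nat.lt_succ_iff_lt_or_eq.1 h2 with h3 | h3
            · exact Or.inr ⟨h1, h3⟩
            · exact Or.inl h3
          · rintro (h1 | ⟨h1, h2⟩)
            · subst h1; exact ⟨hcG, Nat.lt_succ_self _⟩
            · exact ⟨h1, by omega⟩
        rw [this, Finset.card_insert_of_notMem]
        simp
      have h1 := hG c hcG
      have h2 := lcs_add w z (a := 0) (b := c * (S3 * u) * 2 ^ I)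
        (b' := (c * (S3 * u) + S3 * u) * 2 ^ I) (c := 0) (d := φ (c * (S3 * u)) * 2 ^ I)
        (d' := φ ((c + 1) * (S3 * u)) * 2 ^ I) (Nat.zero_le _)
        (Nat.mul_le_mul_right _ (Nat.le_add_right _ _)) (Nat.zero_le _)
        (Nat.mul_le_mul_right _ (h.hφ (by omega)))
      rw [hfil]
      have e5 : 2 * (c + 1) * (S3 * u * 2 ^ I) = 2 * c * (S3 * u * 2 ^ I) + 2 * (S3 * u * 2 ^ I) := by
        ring
      have e6 : ((G.filter (fun x => x < c)).card + 1) * (S3 * u * 2 ^ I) =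
        (G.filter (fun x => x < c)).card * (S3 * u * 2 ^ I) + S3 * u * 2 ^ I := by ring
      rw [e5, e6]
      rw [e4] at h1 h2 ⊢
      omega
    · have hfil : (G.filter (fun x => x < c + 1)).card = (G.filter (fun x => x < c)).card := by
        congr 1
        ext x
        simp only [mem_filter]
        constructor
        · rintro ⟨h1, h2⟩
          refine ⟨h1, ?_⟩
          rcases Nat.lt_succ_iff_lt_or_eq.1 h2 with h3 | h3
          · exact h3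
          · subst h3; exact absurd h1 hcG
        · rintro ⟨h1, h2⟩
          exact ⟨h1, by omega⟩
      have h2 := Parent_base h c (by omega)
      rw [hfil]
      have e5 : 2 * (c + 1) * (S3 * u * 2 ^ I) = 2 * c * (S3 * u * 2 ^ I) + 2 * (S3 * u * 2 ^ I) := by
        ring
      rw [e5]
      rw [e4] at h2 ⊢
      omega

/-- A13d.  THE PARENT GAINS.  Put `s = S3 u 2^I`.  Suppose `hno` as in `strip_upper`.
Apply `child` to every good child (`hbase` from `baseline`).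
(1) If at least `H/4` good children are of the first kind (`lcs ≥ 3s/4`), then `lcs_add` over all
children (the others by `baseline`) gives `lcs ≥ ℓ/2 + (H/4)(s/4) - E > (1/2 + 1/H) ℓ`.
(2) Otherwise at least `H/4` good children have `2^48 Σ exc ≥ s^2` on their squares.  The squares
`[c s, (c+1) s) × [φ(cS) T, φ((c+1)S) T)` are disjoint and lie in the strip `|x - y| ≤ 2 s`, because
`|φ(c S) T - c s| ≤ E ≤ s` (`length_le_unm`, `unm_le_sum`).  So
`(H/4) s^2 ≤ 2^48 * 16 s^2`, i.e. `2^54 ≤ 2^52`: contradiction. -/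
theorem parent {I S3 u : ℕ} {w z w' z' : ℕ → Bool} {P : Finset (ℕ × ℕ)} {φ : ℕ → ℕ}
    (h : ParentHyp I S3 u w z w' z' P φ) :
    (2 ^ 56 + 2) * (2 ^ 56 * (S3 * u) * 2 ^ I) ≤
      2 * 2 ^ 56 * lcs w z 0 (2 ^ 56 * (S3 * u) * 2 ^ I) 0
        (φ (2 ^ 56 * (S3 * u)) * 2 ^ I) := by
  classical
  by_contra hcon
  have hno := not_le.1 hcon
  have hstrip := strip_upper h hno
  obtain ⟨Gd, hGd, hcard, hgood⟩ := h.hgood
  have hu0 : 0 < u := lt_of_lt_of_le (by positivity) h.hu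
  have hs0 : 0 < S3 * u * 2 ^ I := Nat.mul_pos (Nat.mul_pos h.hS3 hu0) (by positivity)
  have hE : 2 ^ 56 * ∑ j ∈ range (2 ^ 56 * u), eP P I S3 φ j ≤ S3 * u * 2 ^ I := by
    have h1 := h.hE
    have e1 : (2:ℕ) ^ 112 * ∑ j ∈ range (2 ^ 56 * u), eP P I S3 φ j =
      2 ^ 56 * (2 ^ 56 * ∑ j ∈ range (2 ^ 56 * u), eP P I S3 φ j) := by ring
    have e2 : 2 ^ 56 * (S3 * u) * 2 ^ I = 2 ^ 56 * (S3 * u * 2 ^ I) := by ring
    rw [e1, e2] at h1
    exact Nat.le_of_mul_le_mul_left h1 (by positivity)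
  have hchild : ∀ c ∈ Gd,
      3 * (S3 * u * 2 ^ I) ≤ 4 * lcs w z (c * (S3 * u) * 2 ^ I)
        ((c * (S3 * u) + S3 * u) * 2 ^ I) (φ (c * (S3 * u)) * 2 ^ I)
        (φ ((c + 1) * (S3 * u)) * 2 ^ I) ∨
      (S3 * u * 2 ^ I) ^ 2 ≤ 2 ^ 48 * ∑ x ∈ Ico (c * (S3 * u) * 2 ^ I)
        ((c * (S3 * u) + S3 * u) * 2 ^ I),
        ∑ y ∈ Ico (φ (c * (S3 * u)) * 2 ^ I) (φ ((c + 1) * (S3 * u)) * 2 ^ I), exc w z x y := by
    intro c hc
    obtain ⟨h1, h2⟩ := hgood c hc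
    exact child (childHyp_of_parent h c (hGd c hc) h1) (Parent_base h c (hGd c hc)) h2
  obtain ⟨G1, hG1⟩ : ∃ G1, G1 = Gd.filter (fun c => 3 * (S3 * u * 2 ^ I) ≤
    4 * lcs w z (c * (S3 * u) * 2 ^ I)
        ((c * (S3 * u) + S3 * u) * 2 ^ I) (φ (c * (S3 * u)) * 2 ^ I)
        (φ ((c + 1) * (S3 * u)) * 2 ^ I)) := ⟨_, rfl⟩
  obtain ⟨G2, hG2⟩ : ∃ G2, G2 = Gd.filter (fun c => ¬ 3 * (S3 * u * 2 ^ I) ≤
    4 * lcs w z (c * (S3 * u) * 2 ^ I)
        ((c * (S3 * u) + S3 * u) * 2 ^ I) (φ (c * (S3 * u)) * 2 ^ I)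
        (φ ((c + 1) * (S3 * u)) * 2 ^ I)) := ⟨_, rfl⟩
  have hsplit : G1.card + G2.card = Gd.card := by
    rw [hG1, hG2]; exact Finset.card_filter_add_card_filter_not _
  rcases Nat.lt_or_ge G1.card (2 ^ 54) with hcase | hcase
  · -- second kind
    have hG2c : 2 ^ 54 ≤ G2.card := by
      have : (2:ℕ) ^ 56 = 4 * 2 ^ 54 := by norm_num
      omega
    have hG2p : ∀ c ∈ G2, c < 2 ^ 56 ∧
      (S3 * u * 2 ^ I) ^ 2 ≤ 2 ^ 48 * ∑ x ∈ Ico (c * (S3 * u) * 2 ^ I)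
        ((c * (S3 * u) + S3 * u) * 2 ^ I),
        ∑ y ∈ Ico (φ (c * (S3 * u)) * 2 ^ I) (φ ((c + 1) * (S3 * u)) * 2 ^ I),
          exc w z x y := by
      intro c hc
      rw [hG2, mem_filter] at hc
      exact ⟨hGd c hc.1, (hchild c hc.1).resolve_left hc.2⟩
    have hsum1 : G2.card * (S3 * u * 2 ^ I) ^ 2 ≤ 2 ^ 48 * ∑ c ∈ G2,
        ∑ x ∈ Ico (c * (S3 * u) * 2 ^ I) ((c * (S3 * u) + S3 * u) * 2 ^ I),
        ∑ y ∈ Ico (φ (c * (S3 * u)) * 2 ^ I) (φ ((c + 1) * (S3 * u)) * 2 ^ I),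
          exc w z x y := by
      rw [Finset.mul_sum, ← smul_eq_mul, ← Finset.sum_const]
      exact Finset.sum_le_sum fun c hc => (hG2p c hc).2
    have hsum2 : ∑ c ∈ G2,
        ∑ x ∈ Ico (c * (S3 * u) * 2 ^ I) ((c * (S3 * u) + S3 * u) * 2 ^ I),
        ∑ y ∈ Ico (φ (c * (S3 * u)) * 2 ^ I) (φ ((c + 1) * (S3 * u)) * 2 ^ I),
          exc w z x y ≤
        ∑ p ∈ stripCells (2 ^ 56 * (S3 * u) * 2 ^ I) (φ (2 ^ 56 * (S3 * u)) * 2 ^ I)
          (2 * (S3 * u * 2 ^ I)), exc w z p.1 p.2 := by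
      have hEs : ∑ j ∈ range (2 ^ 56 * u), eP P I S3 φ j ≤ S3 * u * 2 ^ I := by
        refine le_trans ?_ hE
        exact Nat.le_mul_of_pos_left _ (by positivity)
      have e0 : ∑ c ∈ G2,
          ∑ x ∈ Ico (c * (S3 * u) * 2 ^ I) ((c * (S3 * u) + S3 * u) * 2 ^ I),
          ∑ y ∈ Ico (φ (c * (S3 * u)) * 2 ^ I) (φ ((c + 1) * (S3 * u)) * 2 ^ I),
            exc w z x y =
          ∑ c ∈ G2, ∑ p ∈ Ico (c * (S3 * u) * 2 ^ I) ((c * (S3 * u) + S3 * u) * 2 ^ I) ×ˢ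
            Ico (φ (c * (S3 * u)) * 2 ^ I) (φ ((c + 1) * (S3 * u)) * 2 ^ I),
            exc w z p.1 p.2 := by
        refine Finset.sum_congr rfl fun c _ => ?_
        rw [Finset.sum_product]
      rw [e0, ← Finset.sum_biUnion]
      · apply Finset.sum_le_sum_of_subset
        intro p hp
        simp only [mem_biUnion, mem_product, mem_Ico] at hp
        obtain ⟨c, hc, ⟨hx1, hx2⟩, hy1, hy2⟩ := hp
        have hc56 := (hG2p c hc).1
        have hd1 := Parent_diag h c (by omega)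
        have hd2 := Parent_diag h (c + 1) (by omega)
        have hm1 : (c + 1) * (S3 * u) * 2 ^ I ≤ 2 ^ 56 * (S3 * u) * 2 ^ I :=
          Nat.mul_le_mul_right _ (Nat.mul_le_mul_right _ hc56)
        have hm2 : φ ((c + 1) * (S3 * u)) * 2 ^ I ≤ φ (2 ^ 56 * (S3 * u)) * 2 ^ I :=
          Nat.mul_le_mul_right _ (h.hφ (Nat.mul_le_mul_right _ hc56))
        have e4 : (c + 1) * (S3 * u) * 2 ^ I = c * (S3 * u) * 2 ^ I + S3 * u * 2 ^ I := by ring
        have e5 : (c * (S3 * u) + S3 * u) * 2 ^ I = c * (S3 * u) * 2 ^ I + S3 * u * 2 ^ I := by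
          ring
        simp only [stripCells, mem_filter, mem_product, mem_range]
        obtain ⟨E, hEdef⟩ : ∃ E, E = ∑ j ∈ range (2 ^ 56 * u), eP P I S3 φ j := ⟨_, rfl⟩
        obtain ⟨s, hsdef⟩ : ∃ s, s = S3 * u * 2 ^ I := ⟨_, rfl⟩
        obtain ⟨X, hXdef⟩ : ∃ X, X = c * (S3 * u) * 2 ^ I := ⟨_, rfl⟩
        obtain ⟨Y, hYdef⟩ : ∃ Y, Y = φ (c * (S3 * u)) * 2 ^ I := ⟨_, rfl⟩
        obtain ⟨Y1, hY1def⟩ : ∃ Y1, Y1 = φ ((c + 1) * (S3 * u)) * 2 ^ I := ⟨_, rfl⟩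
        obtain ⟨L, hLdef⟩ : ∃ L, L = 2 ^ 56 * (S3 * u) * 2 ^ I := ⟨_, rfl⟩
        obtain ⟨L', hL'def⟩ : ∃ L', L' = φ (2 ^ 56 * (S3 * u)) * 2 ^ I := ⟨_, rfl⟩
        rw [e4] at hd2 hm1
        rw [e5] at hx2
        rw [← hEdef] at hd1 hd2 hEs
        rw [← hXdef] at hd1 hd2 hm1 hx1 hx2
        rw [← hsdef] at hd2 hm1 hx2 hEs ⊢
        rw [← hYdef] at hd1 hy1
        rw [← hY1def] at hd2 hm2 hy2
        rw [← hLdef] at hm1 ⊢
        rw [← hL'def] at hm2 ⊢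
        omega
      · intro c hc c' hc' hne
        have key : ∀ a b : ℕ, a < b → Disjoint
            (Ico (a * (S3 * u) * 2 ^ I) ((a * (S3 * u) + S3 * u) * 2 ^ I) ×ˢ
              Ico (φ (a * (S3 * u)) * 2 ^ I) (φ ((a + 1) * (S3 * u)) * 2 ^ I))
            (Ico (b * (S3 * u) * 2 ^ I) ((b * (S3 * u) + S3 * u) * 2 ^ I) ×ˢ
              Ico (φ (b * (S3 * u)) * 2 ^ I) (φ ((b + 1) * (S3 * u)) * 2 ^ I)) := by
          intro a b hab
          rw [Finset.disjoint_left]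
          intro p hp hp'
          simp only [mem_product, mem_Ico] at hp hp'
          have : (a * (S3 * u) + S3 * u) * 2 ^ I ≤ b * (S3 * u) * 2 ^ I := by
            apply Nat.mul_le_mul_right
            rw [show a * (S3 * u) + S3 * u = (a + 1) * (S3 * u) by ring]
            exact Nat.mul_le_mul_right _ hab
          omega
        rcases lt_or_gt_of_ne hne with hlt | hlt
        · exact key c c' hlt
        · exact (key c' c hlt).symm
    have hfin : 2 ^ 54 * (S3 * u * 2 ^ I) ^ 2 ≤ 2 ^ 48 * (16 * (S3 * u * 2 ^ I) ^ 2) :=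
      calc 2 ^ 54 * (S3 * u * 2 ^ I) ^ 2 ≤ G2.card * (S3 * u * 2 ^ I) ^ 2 :=
            Nat.mul_le_mul_right _ hG2c
        _ ≤ _ := hsum1
        _ ≤ 2 ^ 48 * (16 * (S3 * u * 2 ^ I) ^ 2) :=
            Nat.mul_le_mul_left _ (hsum2.trans hstrip)
    have hpos : 0 < (S3 * u * 2 ^ I) ^ 2 := by positivity
    obtain ⟨q, hq⟩ : ∃ q, q = (S3 * u * 2 ^ I) ^ 2 := ⟨_, rfl⟩
    rw [← hq] at hfin hpos
    omega
  · -- first kind
    have hG1p : ∀ c ∈ G1, 3 * (S3 * u * 2 ^ I) ≤ 4 * lcs w z (c * (S3 * u) * 2 ^ I)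
        ((c * (S3 * u) + S3 * u) * 2 ^ I) (φ (c * (S3 * u)) * 2 ^ I)
        (φ ((c + 1) * (S3 * u)) * 2 ^ I) := by
      intro c hc
      rw [hG1, mem_filter] at hc
      exact hc.2
    have hgain := Parent_gain h G1 hG1p (2 ^ 56) le_rfl
    have hfil : G1.filter (fun x => x < 2 ^ 56) = G1 := by
      apply Finset.filter_true_of_mem
      intro c hc
      rw [hG1, mem_filter] at hc
      exact hGd c hc.1
    rw [hfil] at hgain
    have hmul : 2 ^ 54 * (S3 * u * 2 ^ I) ≤ G1.card * (S3 * u * 2 ^ I) :=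
      Nat.mul_le_mul_right _ hcase
    obtain ⟨s, hsdef⟩ : ∃ s, s = S3 * u * 2 ^ I := ⟨_, rfl⟩
    obtain ⟨L, hLdef⟩ : ∃ L, L = lcs w z 0 (2 ^ 56 * (S3 * u) * 2 ^ I) 0
        (φ (2 ^ 56 * (S3 * u)) * 2 ^ I) := ⟨_, rfl⟩
    obtain ⟨E, hEdef⟩ : ∃ E, E = ∑ j ∈ range (2 ^ 56 * u), eP P I S3 φ j := ⟨_, rfl⟩
    have e2 : 2 ^ 56 * (S3 * u) * 2 ^ I = 2 ^ 56 * (S3 * u * 2 ^ I) := by ring
    rw [← hLdef] at hno hgain
    rw [← hEdef] at hgain hE
    rw [e2] at hno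
    rw [← hsdef] at hno hgain hmul hE hs0
    have hno2 : 2 * L < (2 ^ 56 + 2) * s := by
      have h3 : 2 ^ 56 * (2 * L) < 2 ^ 56 * ((2 ^ 56 + 2) * s) := by
        calc 2 ^ 56 * (2 * L) = 2 * 2 ^ 56 * L := by ring
          _ < (2 ^ 56 + 2) * (2 ^ 56 * s) := hno
          _ = 2 ^ 56 * ((2 ^ 56 + 2) * s) := by ring
      exact Nat.lt_of_mul_lt_mul_left h3
    obtain ⟨g, hg⟩ : ∃ g, g = G1.card * s := ⟨_, rfl⟩
    rw [← hg] at hgain hmul
    omega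

end MP8C
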