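import Pool.Agent.Lib.MP_8c24b6_lc.GlobalDefs
import Pool.Agent.Lib.MP_8c24b6_lc.GlobalA
import Pool.Agent.Lib.MP_8c24b6_lc.Parent

/-! Module A15b (90 min). -/

namespace MP8C

open Finset

private theorem globalB_sameSk {w w' : ℕ → Bool} {I q m N : ℕ} (hs : SameSk w w' I 0 N)
    (hm : q + m ≤ N) :
    SameSk (fun x => w (x + q * 2 ^ I)) (fun x => w' (x + q * 2 ^ I)) I 0 m := by
  intro t _ ht
  obtain ⟨h1, h2⟩ := hs (t + q) (Nat.zero_le _) (by omega)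
  refine ⟨fun i hi => ?_, fun j hj => ?_⟩
  · rw [msum_shift, msum_shift, ← add_mul]
    exact h1 i hi
  · rw [cb_shift, cb_shift]
    have e1 : t * 2 ^ I + j * 2 ^ (I - 20) + q * 2 ^ I = (t + q) * 2 ^ I + j * 2 ^ (I - 20) := by
      ring
    have e2 : t * 2 ^ I + (j + 1) * 2 ^ (I - 20) + q * 2 ^ I =
        (t + q) * 2 ^ I + (j + 1) * 2 ^ (I - 20) := by
      ring
    rw [e1, e2]
    exact h2 j hj

private theorem globalB_eP {P P' : Finset (ℕ × ℕ)} {I S3 q : ℕ} {φ : ℕ → ℕ} (hφ : Monotone φ)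
    (hu : ∀ a b c d, unm P' a b c d =
      unm P (a + q * S3 * 2 ^ I) (b + q * S3 * 2 ^ I) (c + φ (q * S3) * 2 ^ I)
        (d + φ (q * S3) * 2 ^ I)) (j : ℕ) :
    eP P' I S3 (fun k => φ (q * S3 + k) - φ (q * S3)) j = eP P I S3 φ (q + j) := by
  unfold eP
  rw [hu]
  have key : ∀ k, (φ (q * S3 + k) - φ (q * S3)) * 2 ^ I + φ (q * S3) * 2 ^ I =
      φ (q * S3 + k) * 2 ^ I := by
    intro k
    rw [← add_mul, Nat.sub_add_cancel (hφ (Nat.le_add_right _ _))]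
  simp only [key]
  have e1 : j * S3 * 2 ^ I + q * S3 * 2 ^ I = (q + j) * S3 * 2 ^ I := by ring
  have e2 : (j + 1) * S3 * 2 ^ I + q * S3 * 2 ^ I = (q + j + 1) * S3 * 2 ^ I := by ring
  have e3 : q * S3 + j * S3 = (q + j) * S3 := by ring
  have e4 : q * S3 + (j + 1) * S3 = (q + j + 1) * S3 := by ring
  rw [e1, e2, e3, e4]

private theorem globalB_imbP {w : ℕ → Bool} {I S3 q : ℕ} (j : ℕ) :
    imbP (fun x => w (x + q * S3 * 2 ^ I)) I S3 j = imbP w I S3 (q + j) := by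
  unfold imbP
  rw [mc_shift]
  have e1 : j * S3 * 2 ^ I + q * S3 * 2 ^ I = (q + j) * S3 * 2 ^ I := by ring
  have e2 : (j + 1) * S3 * 2 ^ I + q * S3 * 2 ^ I = (q + j + 1) * S3 * 2 ^ I := by ring
  rw [e1, e2]

private theorem globalB_homog {w : ℕ → Bool} {I S k0 q : ℕ} (hh : Homog I S (k0 + q) w) :
    Homog I S k0 (fun x => w (x + q * 2 ^ I)) := by
  intro i hi hm
  rw [msum_shift, ← add_mul] at hm
  have h1 := hh i hi hm
  rw [msum_shift, msum_shift, ← add_mul, ← add_mul]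
  have e : k0 + (S - S / 32) + q = k0 + q + (S - S / 32) := by ring
  rw [e]
  exact h1

private theorem globalB_aux {I S3 u H n n' : ℕ} {w z w' z' : ℕ → Bool} {P : Finset (ℕ × ℕ)}
    {φ : ℕ → ℕ} (hφ : Monotone φ) (hφn : ∀ k, φ k ≤ n')
    (hP : IsAl w' z' 0 (n * 2 ^ I) 0 (n' * 2 ^ I) P)
    (skw : SameSk w w' I 0 n) (skz : SameSk z z' I 0 n') (p : ℕ)
    (hn : (p + 1) * (H * (S3 * u)) ≤ n) :
    ∃ (w1 z1 w1' z1' : ℕ → Bool) (P1 : Finset (ℕ × ℕ)) (φ1 : ℕ → ℕ),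
      φ1 0 = 0 ∧ Monotone φ1 ∧ (∃ A B C D, IsAl w1' z1' A B C D P1) ∧
      SameSk w1 w1' I 0 (H * (S3 * u)) ∧ SameSk z1 z1' I 0 (φ1 (H * (S3 * u))) ∧
      (∀ j, eP P1 I S3 φ1 j = eP P I S3 φ (p * (H * u) + j)) ∧
      (∀ j, imbP w1 I S3 j = imbP w I S3 (p * (H * u) + j)) ∧
      (∀ c, Homog I (S3 * u) ((p * H + c) * (S3 * u)) w → Homog I (S3 * u) (c * (S3 * u)) w1) ∧
      lcs w1 z1 0 (H * (S3 * u) * 2 ^ I) 0 (φ1 (H * (S3 * u)) * 2 ^ I) =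
        lcs w z (p * (H * (S3 * u)) * 2 ^ I) ((p + 1) * (H * (S3 * u)) * 2 ^ I)
        (φ (p * (H * (S3 * u))) * 2 ^ I) (φ ((p + 1) * (H * (S3 * u))) * 2 ^ I) := by
  have eq : p * (H * (S3 * u)) = p * (H * u) * S3 := by ring
  obtain ⟨P1, hP1, hu1⟩ := unm_shift hP (p * (H * u) * S3 * 2 ^ I)
    (φ (p * (H * u) * S3) * 2 ^ I)
  refine ⟨fun x => w (x + p * (H * u) * S3 * 2 ^ I),
    fun y => z (y + φ (p * (H * u) * S3) * 2 ^ I),
    fun x => w' (x + p * (H * u) * S3 * 2 ^ I),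
    fun y => z' (y + φ (p * (H * u) * S3) * 2 ^ I), P1,
    fun k => φ (p * (H * u) * S3 + k) - φ (p * (H * u) * S3), ?_, ?_, hP1, ?_, ?_, ?_, ?_, ?_,
    ?_⟩
  · simp
  · intro a b hab
    exact Nat.sub_le_sub_right (hφ (by omega)) _
  · apply globalB_sameSk skw
    have : p * (H * u) * S3 + H * (S3 * u) = (p + 1) * (H * (S3 * u)) := by ring
    rw [this]
    exact hn
  · apply globalB_sameSk skz
    have h1 : φ (p * (H * u) * S3) ≤ φ (p * (H * u) * S3 + H * (S3 * u)) :=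
      hφ (Nat.le_add_right _ _)
    have h2 := hφn (p * (H * u) * S3 + H * (S3 * u))
    simp only
    omega
  · intro j
    exact globalB_eP hφ hu1 j
  · intro j
    exact globalB_imbP j
  · intro c hc
    apply globalB_homog
    have : c * (S3 * u) + p * (H * u) * S3 = (p * H + c) * (S3 * u) := by ring
    rw [this]
    exact hc
  · rw [lcs_shift]
    have h1 : φ (p * (H * u) * S3) ≤ φ (p * (H * u) * S3 + H * (S3 * u)) :=
      hφ (Nat.le_add_right _ _)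
    simp only
    rw [← add_mul, ← add_mul, Nat.sub_add_cancel h1, zero_add, zero_add, eq]
    have e2 : H * (S3 * u) + p * (H * u) * S3 = (p + 1) * (H * (S3 * u)) := by ring
    have e3 : p * (H * u) * S3 + H * (S3 * u) = (p + 1) * (H * (S3 * u)) := by ring
    rw [e2, e3]

/-- A15b.  THE PARENT NUMBER `p`: translate `w, w'` by `p H S T`, `z, z'` by `φ(p H S) T`, take
`φ_p k = φ (p H S + k) - φ (p H S)`, `P'` from `unm_shift`, check `ParentHyp` and translate the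
conclusion of `parent` back with `lcs_shift`. -/
theorem parent_at {I S3 u Np n n' : ℕ} {w z w' z' : ℕ → Bool} {P : Finset (ℕ × ℕ)}
    {φ : ℕ → ℕ} (h : GlobalHyp I S3 u Np n n' w z w' z' P φ) (p : ℕ) (hp : p < Np)
    (hE : 2 ^ 112 * ∑ j ∈ range (2 ^ 56 * u), eP P I S3 φ (p * (2 ^ 56 * u) + j) ≤
      2 ^ 56 * (S3 * u) * 2 ^ I)
    (hImb : 2 ^ 56 * ∑ j ∈ range (2 ^ 56 * u), imbP w I S3 (p * (2 ^ 56 * u) + j) ≤
      2 ^ 56 * (S3 * u) * 2 ^ I)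
    (hgood : ∃ Gd : Finset ℕ, (∀ c ∈ Gd, c < 2 ^ 56) ∧ 2 ^ 56 ≤ 2 * Gd.card ∧
      ∀ c ∈ Gd,
        2 ^ 17 * ∑ j ∈ range u, eP P I S3 φ ((p * 2 ^ 56 + c) * u + j) ≤ S3 * u * 2 ^ I ∧
        Homog I (S3 * u) ((p * 2 ^ 56 + c) * (S3 * u)) w) :
    (2 ^ 56 + 2) * (2 ^ 56 * (S3 * u) * 2 ^ I) ≤
      2 * 2 ^ 56 * lcs w z (p * (2 ^ 56 * (S3 * u)) * 2 ^ I)
        ((p + 1) * (2 ^ 56 * (S3 * u)) * 2 ^ I)
        (φ (p * (2 ^ 56 * (S3 * u))) * 2 ^ I) (φ ((p + 1) * (2 ^ 56 * (S3 * u))) * 2 ^ I) := by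
  have hn : (p + 1) * (2 ^ 56 * (S3 * u)) ≤ n :=
    le_trans (Nat.mul_le_mul_right _ hp) h.hn
  obtain ⟨w1, z1, w1', z1', P1, φ1, h0, hm, hP1, hsw, hsz, heP, himb, hhom, hl⟩ :=
    globalB_aux (u := u) (H := 2 ^ 56) h.hφ h.hφn h.hP h.skw h.skz p hn
  obtain ⟨Gd, hG1, hG2, hG3⟩ := hgood
  have hyp : ParentHyp I S3 u w1 z1 w1' z1' P1 φ1 := by
    refine ⟨h.hI, h.hS3, h.hu, h.hu32, h0, hm, hP1, hsw, hsz, ?_, ?_, Gd, hG1, hG2, ?_⟩
    · rw [Finset.sum_congr rfl (fun j _ => heP j)]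
      exact hE
    · rw [Finset.sum_congr rfl (fun j _ => himb j)]
      exact hImb
    · intro c hc
      obtain ⟨h1, h2⟩ := hG3 c hc
      refine ⟨?_, hhom c h2⟩
      have e : ∀ j, eP P1 I S3 φ1 (c * u + j) = eP P I S3 φ ((p * 2 ^ 56 + c) * u + j) := by
        intro j
        rw [heP]
        congr 1
        ring
      rw [Finset.sum_congr rfl (fun j _ => e j)]
      exact h1
  have := parent hyp
  rw [hl] at this
  exact this

end MP8C
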