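import Pool.Agent.Lib.MP_8c24b6_lc.Select
import Pool.Agent.Lib.MP_8c24b6_lc.Global
import Pool.Agent.Lib.MP_8c24b6_lc.GlobalB
import Pool.Agent.Lib.MP_8c24b6_lc.CoreB
import Pool.Agent.Lib.MP_8c24b6_lc.Break

/-! Module A16c (90 min): one level. -/

namespace MP8C

open Finset

/-- the numeric end of `core_large`: `M = Np ℓ`, `R = M / K1`, `nT ≤ M + R`, and the two cases -/
private theorem CoreC_num (M R nT L E Im : ℕ) (hR : 2 ^ 112 * R ≤ M) (hn : nT ≤ M + R)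
    (hE : 2 ^ 160 * E ≤ M)
    (hcase : 2 ^ 56 * M + M ≤ 2 ^ 56 * (2 * L + 2 * E) ∨
      (M ≤ 2 ^ 60 * Im ∧ M + Im ≤ 2 * L + 2 * E)) :
    (1 / 2 + (1 / 2 : ℝ) ^ 63) * (nT : ℝ) ≤ L := by
  have h0 : 2 ^ 60 * M + M ≤ 2 ^ 60 * (2 * L + 2 * E) := by
    rcases hcase with h | ⟨h1, h2⟩
    · omega
    · omega
  have h1 : (2 ^ 62 + 1) * nT ≤ 2 ^ 63 * L := by omega
  have h2 : ((2 ^ 62 + 1 : ℕ) : ℝ) * (nT : ℝ) ≤ ((2 ^ 63 : ℕ) : ℝ) * (L : ℝ) := by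
    exact_mod_cast h1
  have e1 : (1 / 2 + (1 / 2 : ℝ) ^ 63) = ((2 ^ 62 + 1 : ℕ) : ℝ) / ((2 ^ 63 : ℕ) : ℝ) := by
    push_cast; norm_num
  rw [e1, div_mul_eq_mul_div, div_le_iff₀ (by positivity)]
  linarith

/-- few unmatched letters -/
private theorem CoreC_unm (M R nT n'T Lc r6 E : ℕ) (hR : 2 ^ 112 * R ≤ M) (hn : nT ≤ M + R)
    (hLc : Lc ≤ nT) (h1 : (1 - (1 / 2 : ℝ) ^ 170) * (nT : ℝ) ≤ Lc)
    (h2 : (1 - (1 / 2 : ℝ) ^ 170) * (n'T : ℝ) ≤ Lc) (h6 : 2 ^ 168 * r6 = M)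
    (hE : E ≤ (nT + n'T - 2 * Lc) + 6 * r6) : 2 ^ 160 * E ≤ M := by
  have h1' : (2 ^ 170 - 1) * nT ≤ 2 ^ 170 * Lc := by
    have : (((2 ^ 170 - 1 : ℕ) : ℝ)) * (nT : ℝ) ≤ ((2 ^ 170 : ℕ) : ℝ) * (Lc : ℝ) := by
      have e1 : ((2 ^ 170 - 1 : ℕ) : ℝ) = ((2 ^ 170 : ℕ) : ℝ) * (1 - (1 / 2 : ℝ) ^ 170) := by
        push_cast; norm_num
      rw [e1, mul_assoc]
      exact mul_le_mul_of_nonneg_left h1 (by positivity)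
    exact_mod_cast this
  have h2' : (2 ^ 170 - 1) * n'T ≤ 2 ^ 170 * Lc := by
    have : (((2 ^ 170 - 1 : ℕ) : ℝ)) * (n'T : ℝ) ≤ ((2 ^ 170 : ℕ) : ℝ) * (Lc : ℝ) := by
      have e1 : ((2 ^ 170 - 1 : ℕ) : ℝ) = ((2 ^ 170 : ℕ) : ℝ) * (1 - (1 / 2 : ℝ) ^ 170) := by
        push_cast; norm_num
      rw [e1, mul_assoc]
      exact mul_le_mul_of_nonneg_left h2 (by positivity)
    exact_mod_cast this
  omega

/-- A16c.  ONE LEVEL.  `H = 2^56`, `K1 ≥ H^2`, `n < (K1 + 1) H^(4+J)`, `K1 H^(4+J) ≤ n`, the level `q` from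
`select` (with `K = K1 H`), `S3 = H^3`, `u = H^(q-3)`, `Np = K1 H^(3+J-q)`, so `Np H S3 u = K1 H^(4+J)`.
`φ` from `breakpoints`; `Σ eP ≤ (n T + n' T - 2|P|) + 6 T Np H u ≤ (6 ε + 6/H^3) Np ℓ ≤ 2^(-160) Np ℓ` for
`ε = 2^(-170)`.  If `16 H Σ imbP ≤ Np ℓ`: `good_parents`, `parent_at`, `sum_parents`.  Otherwise
`sum_colours`.  In both cases `2 lcs ≥ Np ℓ (1 + 1/(16 H)) - 2^(-159) Np ℓ`, and
`n T ≤ (1 + 1/H^2) Np ℓ`. -/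
theorem core_large (I J K1 n n' : ℕ) (w z w' z' : ℕ → Bool) (hI : 21 ≤ I) (hJ : 0 < J)
    (hJ' : 2 ^ 26 * Real.log (I - 8 : ℕ) ≤ J) (hK1 : 2 ^ 112 ≤ K1)
    (hn1 : K1 * (2 ^ 56) ^ (4 + J) ≤ n) (hn2 : n < (K1 + 1) * (2 ^ 56) ^ (4 + J))
    (skw : SameSk w w' I 0 n) (skz : SameSk z z' I 0 n')
    (h1 : (1 - (1 / 2 : ℝ) ^ 170) * ((n : ℝ) * 2 ^ I) ≤
      lcs w' z' 0 (n * 2 ^ I) 0 (n' * 2 ^ I))
    (h2 : (1 - (1 / 2 : ℝ) ^ 170) * ((n' : ℝ) * 2 ^ I) ≤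
      lcs w' z' 0 (n * 2 ^ I) 0 (n' * 2 ^ I)) :
    (1 / 2 + (1 / 2 : ℝ) ^ 63) * ((n : ℝ) * 2 ^ I) ≤
      lcs w z 0 (n * 2 ^ I) 0 (n' * 2 ^ I) := by
  classical
  obtain ⟨q, hq3, hqJ, hsel⟩ := select w I J (K1 * 2 ^ 56) hI hJ hJ'
  obtain ⟨S3, hS3⟩ : ∃ S3 : ℕ, S3 = (2 ^ 56) ^ 3 := ⟨_, rfl⟩
  obtain ⟨u, hu⟩ : ∃ u : ℕ, u = (2 ^ 56) ^ (q - 3) := ⟨_, rfl⟩
  obtain ⟨Np, hNp⟩ : ∃ Np : ℕ, Np = K1 * (2 ^ 56) ^ (3 + J - q) := ⟨_, rfl⟩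
  obtain ⟨T, hT⟩ : ∃ T : ℕ, T = 2 ^ I := ⟨_, rfl⟩
  have hT1 : 1 ≤ T := by rw [hT]; exact Nat.one_le_two_pow
  have hSu : S3 * u = (2 ^ 56) ^ q := by
    rw [hS3, hu, ← pow_add]; congr 1; omega
  have hNH : Np * 2 ^ 56 = K1 * 2 ^ 56 * (2 ^ 56) ^ (3 + J - q) := by rw [hNp]; ring
  have hNS : Np * (2 ^ 56 * (S3 * u)) = K1 * (2 ^ 56) ^ (4 + J) := by
    rw [hSu, hNp]
    have : ((2:ℕ) ^ 56) ^ (4 + J) = (2 ^ 56) ^ (3 + J - q) * ((2 ^ 56) ^ 1 * (2 ^ 56) ^ q) := by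
      rw [← pow_add, ← pow_add]; congr 1; omega
    rw [this, pow_one]; ring
  have hS3pos : 0 < S3 := by rw [hS3]; positivity
  have hu56 : 2 ^ 56 ≤ u := by
    rw [hu]
    calc (2:ℕ) ^ 56 = (2 ^ 56) ^ 1 := (pow_one _).symm
      _ ≤ (2 ^ 56) ^ (q - 3) := Nat.pow_le_pow_right (by positivity) (by omega)
  have hu32 : 32 ∣ u := by
    rw [hu]
    have h1 : (2:ℕ) ^ 56 ∣ (2 ^ 56) ^ (q - 3) := dvd_pow_self _ (by omega)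
    exact Dvd.dvd.trans (by norm_num) h1
  have hu0 : 0 < u := lt_of_lt_of_le (by positivity) hu56
  obtain ⟨P, hP, hPc⟩ := exists_al w' z' 0 (n * 2 ^ I) 0 (n' * 2 ^ I)
  obtain ⟨φ, hφ0, hφm, hφn, hbr⟩ := breakpoints w' z' (2 ^ I) n n' Nat.one_le_two_pow P hP
  have hG : GlobalHyp I S3 u Np n n' w z w' z' P φ :=
    { hI := hI
      hS3 := hS3pos
      hu := hu56
      hu32 := hu32
      hφ0 := hφ0
      hφ := hφm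
      hφn := hφn
      hP := hP
      skw := skw
      skz := skz
      hn := by rw [hNS]; exact hn1 }
  have hEsum := hbr (Np * (2 ^ 56 * u)) (fun j => j * S3)
    (fun a b hab => Nat.mul_le_mul_right _ hab) (by
      have : Np * (2 ^ 56 * u) * S3 = Np * (2 ^ 56 * (S3 * u)) := by ring
      change Np * (2 ^ 56 * u) * S3 ≤ n
      rw [this, hNS]; exact hn1)
  have hEsum' : ∑ j ∈ range (Np * (2 ^ 56 * u)), eP P I S3 φ j ≤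
      (n * 2 ^ I + n' * 2 ^ I - 2 * P.card) + 6 * 2 ^ I * (Np * (2 ^ 56 * u)) := hEsum
  -- abbreviations
  obtain ⟨R, hR⟩ : ∃ R : ℕ, R = (2 ^ 56) ^ (4 + J) * 2 ^ I := ⟨_, rfl⟩
  obtain ⟨M, hM⟩ : ∃ M : ℕ, M = Np * (2 ^ 56 * (S3 * u) * 2 ^ I) := ⟨_, rfl⟩
  have hMR : M = K1 * R := by
    rw [hM, hR, ← mul_assoc K1, ← hNS]; ring
  have hRM : 2 ^ 112 * R ≤ M := by rw [hMR]; exact Nat.mul_le_mul_right _ hK1
  have hnT : n * 2 ^ I ≤ M + R := by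
    have h3 : n * 2 ^ I ≤ (K1 + 1) * (2 ^ 56) ^ (4 + J) * 2 ^ I := Nat.mul_le_mul_right _ hn2.le
    rw [hMR, hR]
    calc n * 2 ^ I ≤ (K1 + 1) * (2 ^ 56) ^ (4 + J) * 2 ^ I := h3
      _ = K1 * ((2 ^ 56) ^ (4 + J) * 2 ^ I) + (2 ^ 56) ^ (4 + J) * 2 ^ I := by ring
  have h6 : 2 ^ 168 * (2 ^ I * (Np * (2 ^ 56 * u))) = M := by
    rw [hM, hS3]; ring
  have hLl := lcs_le_left w' z' 0 (n * 2 ^ I) 0 (n' * 2 ^ I)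
  have hE160 : 2 ^ 160 * ∑ j ∈ range (Np * (2 ^ 56 * u)), eP P I S3 φ j ≤ M := by
    refine CoreC_unm M R (n * 2 ^ I) (n' * 2 ^ I) P.card (2 ^ I * (Np * (2 ^ 56 * u))) _ hRM hnT
      ?_ ?_ ?_ h6 ?_
    · rw [hPc]; simpa using hLl
    · rw [hPc]; push_cast; exact h1
    · rw [hPc]; push_cast; exact h2
    · refine hEsum'.trans (le_of_eq ?_)
      ring
  have hcast : ((n : ℝ) * 2 ^ I) = ((n * 2 ^ I : ℕ) : ℝ) := by push_cast; rfl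
  rw [hcast]
  refine CoreC_num M R (n * 2 ^ I) _ (∑ j ∈ range (Np * (2 ^ 56 * u)), eP P I S3 φ j)
    (∑ j ∈ range (Np * (2 ^ 56 * u)), imbP w I S3 j) hRM hnT hE160 ?_
  by_cases hImb : 16 * 2 ^ 56 * ∑ j ∈ range (Np * (2 ^ 56 * u)), imbP w I S3 j ≤
      Np * (2 ^ 56 * (S3 * u) * 2 ^ I)
  · left
    obtain ⟨A, hA, hAp⟩ := good_parents I S3 u Np w P φ hS3pos hu0 (by rw [← hM]; exact hE160)
      hImb (by
        rw [hNH, hSu]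
        convert hsel using 3)
    have hpar := sum_parents hG A (fun p hp => ⟨(hAp p hp).1,
      parent_at hG p (hAp p hp).1 (hAp p hp).2.1 (hAp p hp).2.2.1 (hAp p hp).2.2.2⟩) hA
    have e1 : 2 ^ 56 * (Np * (S3 * u * 2 ^ I)) = M := by rw [hM]; ring
    have h3 := Nat.mul_le_mul_left (2 ^ 56) hpar
    rw [← hM, mul_add, e1] at h3
    exact h3
  · right
    have h3 := sum_colours hG
    rw [← hM] at h3 hImb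
    refine ⟨?_, h3⟩
    have h4 := (not_le.1 hImb).le
    refine h4.trans (le_of_eq ?_)
    ring

end MP8C
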