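import Pool.Agent.Lib.MP_8c24b6_lc.CoreA
import Pool.Agent.Lib.MP_8c24b6_lc.CoreC

/-! THE CORE THEOREM (assembly, done). -/

namespace MP8C

open Finset

/-- THE CORE THEOREM -/
theorem core : ∃ (ε δ : ℝ) (K : ℕ), 0 < ε ∧ ε < 1 / 4 ∧ 0 < δ ∧ δ < 1 / 4 ∧ 0 < K ∧
    ∀ (I n n' : ℕ) (w z w' z' : ℕ → Bool), K * (I + 1) ^ K ≤ n →
      SameSk w w' I 0 n → SameSk z z' I 0 n' →
      (1 - ε) * ((n : ℝ) * 2 ^ I) ≤ lcs w' z' 0 (n * 2 ^ I) 0 (n' * 2 ^ I) →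
      (1 - ε) * ((n' : ℝ) * 2 ^ I) ≤ lcs w' z' 0 (n * 2 ^ I) 0 (n' * 2 ^ I) →
      (1 / 2 + δ) * ((n : ℝ) * 2 ^ I) ≤ lcs w z 0 (n * 2 ^ I) 0 (n' * 2 ^ I) := by
  obtain ⟨K, hK⟩ := size_bound
  refine ⟨(1 / 2) ^ 170, (1 / 2) ^ 63, K + 1, by positivity, by norm_num, by positivity,
    by norm_num, by omega, ?_⟩
  intro I n n' w z w' z' hn skw skz h1 h2
  by_cases hI : I ≤ 20
  · have e : lcs w z 0 (n * 2 ^ I) 0 (n' * 2 ^ I) = lcs w' z' 0 (n * 2 ^ I) 0 (n' * 2 ^ I) :=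
      lcs_congr (fun x _ hx => eq_of_small hI skw x hx) (fun y _ hy => eq_of_small hI skz y hy)
    rw [e]
    refine le_trans ?_ h1
    have : (0 : ℝ) ≤ (n : ℝ) * 2 ^ I := by positivity
    nlinarith [this, (by norm_num : (1 / 2 + (1 / 2 : ℝ) ^ 63) ≤ 1 - (1 / 2 : ℝ) ^ 170)]
  · push Not at hI
    obtain ⟨J, hJ0, hJ, hb⟩ := hK I (by omega)
    have hpos : 0 < (2 ^ 56) ^ (4 + J) := by positivity
    have hKn : 2 ^ 112 * (2 ^ 56) ^ (4 + J) ≤ n := by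
      refine le_trans hb (le_trans ?_ hn)
      calc K * (I + 1) ^ K ≤ (K + 1) * (I + 1) ^ K := Nat.mul_le_mul_right _ (by omega)
        _ ≤ (K + 1) * (I + 1) ^ (K + 1) :=
          Nat.mul_le_mul_left _ (Nat.pow_le_pow_right (by omega) (by omega))
    refine core_large I J (n / (2 ^ 56) ^ (4 + J)) n n' w z w' z' (by omega) hJ0 hJ ?_ ?_ ?_
      skw skz h1 h2
    · rw [Nat.le_div_iff_mul_le hpos]
      exact hKn
    · exact Nat.div_mul_le_self _ _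
    · rw [Nat.add_mul, one_mul]
      exact Nat.lt_div_mul_add hpos
end MP8C
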