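import Pool.Agent.Lib.MP_8c24b6_lc.MonoSk

/-! Module A16a (45 min): small `I`, and the size bound. -/

namespace MP8C

open Finset

private theorem coreA_cb_one (w : ℕ → Bool) (x : ℕ) :
    cb true w x (x + 1) = if w x = true then 1 else 0 := by
  unfold cb
  have h1 : Ico x (x + 1) = {x} := by
    ext y
    simp only [mem_Ico, mem_singleton]
    omega
  rw [h1, filter_singleton]
  split_ifs <;> simp

/-- A16a.  For `I ≤ 20` the statistics contain the words. -/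
theorem eq_of_small {w w' : ℕ → Bool} {I n : ℕ} (hI : I ≤ 20) (h : SameSk w w' I 0 n) (x : ℕ)
    (hx : x < n * 2 ^ I) : w x = w' x := by
  have hp : 0 < 2 ^ I := by positivity
  have ht : x / 2 ^ I < n := by
    rw [Nat.div_lt_iff_lt_mul hp]
    exact hx
  have h0 : I - 20 = 0 := by omega
  have h1 := (h (x / 2 ^ I) (Nat.zero_le _) ht).2 (x % 2 ^ I) (by
    rw [h0, Nat.sub_zero]
    exact Nat.mod_lt _ hp)
  rw [h0, pow_zero, Nat.mul_one, Nat.mul_one] at h1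
  have h2 : x / 2 ^ I * 2 ^ I + x % 2 ^ I = x := Nat.div_add_mod' x (2 ^ I)
  have h3 : x / 2 ^ I * 2 ^ I + (x % 2 ^ I + 1) = x + 1 := by omega
  rw [h3, h2, coreA_cb_one, coreA_cb_one] at h1
  cases hw : w x <;> cases hw' : w' x <;> simp [hw, hw'] at h1 ⊢

private theorem coreA_size (c : ℕ) (hc : 0 < c) : ∃ K : ℕ, ∀ I : ℕ, 21 ≤ I → ∃ J : ℕ, 0 < J ∧
    (c : ℝ) * Real.log (I - 8 : ℕ) ≤ J ∧ 2 ^ 112 * (2 ^ 56) ^ (4 + J) ≤ K * (I + 1) ^ K := by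
  obtain ⟨K, hK⟩ : ∃ K : ℕ, K = 2 ^ 392 + 56 * c := ⟨_, rfl⟩
  refine ⟨K, fun I hI => ?_⟩
  obtain ⟨m, hm⟩ : ∃ m : ℕ, m = I - 8 := ⟨_, rfl⟩
  have hm13 : 13 ≤ m := by omega
  rw [← hm]
  have hmR : (1 : ℝ) < m := by exact_mod_cast (by omega : 1 < m)
  have hlog : 0 < Real.log m := Real.log_pos hmR
  have hcR : (0 : ℝ) < c := by exact_mod_cast hc
  have hpos : 0 < (c : ℝ) * Real.log m := mul_pos hcR hlog
  refine ⟨⌈(c : ℝ) * Real.log m⌉₊, Nat.ceil_pos.mpr hpos, Nat.le_ceil _, ?_⟩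
  obtain ⟨J, hJ⟩ : ∃ J : ℕ, J = ⌈(c : ℝ) * Real.log m⌉₊ := ⟨_, rfl⟩
  rw [← hJ]
  have hJ1 : (J : ℝ) ≤ c * Real.log m + 1 := by
    rw [hJ]
    exact (Nat.ceil_lt_add_one hpos.le).le
  -- the power of two
  have h1 : ((2 : ℝ) ^ 56) ^ J ≤ 2 ^ 56 * (m : ℝ) ^ (56 * c) := by
    have h2 : ((2 : ℝ) ^ 56) ^ J = Real.exp (Real.log 2 * 56 * J) := by
      rw [← pow_mul, ← Real.exp_log (show (0 : ℝ) < 2 by norm_num), ← Real.exp_nat_mul,
        Real.log_exp]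
      congr 1
      push_cast
      ring
    have h3 : (m : ℝ) ^ (56 * c) = Real.exp (56 * c * Real.log m) := by
      have hm0 : (0 : ℝ) < m := by linarith
      nth_rewrite 1 [← Real.exp_log hm0]
      rw [← Real.exp_nat_mul]
      congr 1
      push_cast
      ring
    have h4 : (2 : ℝ) ^ 56 = Real.exp (56 * Real.log 2) := by
      nth_rewrite 1 [← Real.exp_log (show (0 : ℝ) < 2 by norm_num)]
      rw [← Real.exp_nat_mul]
      norm_num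
    rw [h2, h3, h4, ← Real.exp_add]
    apply Real.exp_le_exp.mpr
    have hl2 : 0 < Real.log 2 := Real.log_pos (by norm_num)
    have hl2' : Real.log 2 ≤ 1 := by
      have := Real.log_two_lt_d9
      linarith
    have h5 : Real.log 2 * 56 * J ≤ Real.log 2 * 56 * (c * Real.log m + 1) :=
      mul_le_mul_of_nonneg_left hJ1 (by positivity)
    have h6 : Real.log 2 * (56 * (c * Real.log m)) ≤ 1 * (56 * (c * Real.log m)) :=
      mul_le_mul_of_nonneg_right hl2' (by positivity)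
    nlinarith
  have h2 : (2 ^ 56 : ℕ) ^ J ≤ 2 ^ 56 * m ^ (56 * c) := by exact_mod_cast h1
  have h3 : m ^ (56 * c) ≤ (I + 1) ^ K := by
    calc m ^ (56 * c) ≤ (I + 1) ^ (56 * c) := Nat.pow_le_pow_left (by omega) _
      _ ≤ (I + 1) ^ K := Nat.pow_le_pow_right (by omega) (by rw [hK]; exact Nat.le_add_left _ _)
  have h4 : (2 : ℕ) ^ 392 ≤ K := by rw [hK]; exact Nat.le_add_right _ _
  calc 2 ^ 112 * (2 ^ 56) ^ (4 + J) = 2 ^ 336 * (2 ^ 56) ^ J := by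
        rw [pow_add, ← mul_assoc, ← pow_mul 2 56 4, ← pow_add]
    _ ≤ 2 ^ 336 * (2 ^ 56 * m ^ (56 * c)) := Nat.mul_le_mul_left _ h2
    _ = 2 ^ 392 * m ^ (56 * c) := by rw [← mul_assoc, ← pow_add]
    _ ≤ K * (I + 1) ^ K := Nat.mul_le_mul h4 h3

/-- A16d.  The number of blocks needed is polynomial in `I`. -/
theorem size_bound : ∃ K : ℕ, ∀ I : ℕ, 21 ≤ I → ∃ J : ℕ, 0 < J ∧
    2 ^ 26 * Real.log (I - 8 : ℕ) ≤ J ∧ 2 ^ 112 * (2 ^ 56) ^ (4 + J) ≤ K * (I + 1) ^ K := by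
  obtain ⟨K, hK⟩ := coreA_size (2 ^ 26) (by positivity)
  refine ⟨K, fun I hI => ?_⟩
  obtain ⟨J, h1, h2, h3⟩ := hK I hI
  refine ⟨J, h1, ?_, h3⟩
  have h4 : (((2 ^ 26 : ℕ)) : ℝ) = 2 ^ 26 := by norm_num
  rw [h4] at h2
  exact h2

end MP8C
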