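import Mathlib

/-!
MP_8c24b6_lc, polylogarithmic sketches for two-colour words: basic definitions.

A word is a function `w : ℕ → Bool`, used on an interval `[a,b)` of positions.
-/

namespace MP8C

open Finset

/-- number of positions in `[a,b)` at which `w` has the letter `β` -/
def cb (β : Bool) (w : ℕ → Bool) (a b : ℕ) : ℕ := ((Ico a b).filter (fun x => w x = β)).card

/-- minority count of `w` on `[a,b)` -/
def mc (w : ℕ → Bool) (a b : ℕ) : ℕ := min (cb true w a b) (cb false w a b)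

/-- sum of the minority counts of `n` consecutive windows of length `r`, the first one starts at
`a` -/
def msum (w : ℕ → Bool) (r a n : ℕ) : ℕ := ∑ j ∈ range n, mc w (a + j * r) (a + (j + 1) * r)

/-- Hamming distance on `[a,b)` -/
def ham (w w' : ℕ → Bool) (a b : ℕ) : ℕ := ((Ico a b).filter (fun x => w x ≠ w' x)).card

/-- alignments (common subsequences) between `w` on `[a,b)` and `z` on `[c,d)` -/
def IsAl (w z : ℕ → Bool) (a b c d : ℕ) (P : Finset (ℕ × ℕ)) : Prop :=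
  (∀ p ∈ P, (a ≤ p.1 ∧ p.1 < b) ∧ (c ≤ p.2 ∧ p.2 < d) ∧ w p.1 = z p.2) ∧
    ∀ p ∈ P, ∀ q ∈ P, (p.1 < q.1 ↔ p.2 < q.2)

open Classical in
/-- length of a longest common subsequence of `w` on `[a,b)` and `z` on `[c,d)` -/
noncomputable def lcs (w z : ℕ → Bool) (a b c d : ℕ) : ℕ :=
  ((Ico a b ×ˢ Ico c d).powerset.filter (fun P => IsAl w z a b c d P)).sup Finset.card

/-- excess of the cell `(x,y)` of the table of the longest common subsequences of the prefixes:
`L(x+1,y+1) - L(x,y)` minus one if the two letters agree (never negative) -/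
noncomputable def exc (w z : ℕ → Bool) (x y : ℕ) : ℕ :=
  lcs w z 0 (x + 1) 0 (y + 1) - lcs w z 0 x 0 y - (if w x = z y then 1 else 0)

/-- a family of pairs (position of a `false`, position of a `true`) in `[a,b)`, at distance at most
`k`, all positions different -/
def PairFam (u : ℕ → Bool) (a b k : ℕ) (Q : Finset (ℕ × ℕ)) : Prop :=
  (∀ p ∈ Q, (a ≤ p.1 ∧ p.1 < b) ∧ (a ≤ p.2 ∧ p.2 < b) ∧ u p.1 = false ∧ u p.2 = true ∧
    p.1 ≤ p.2 + k ∧ p.2 ≤ p.1 + k) ∧
  (∀ p ∈ Q, ∀ q ∈ Q, p.1 = q.1 → p = q) ∧ (∀ p ∈ Q, ∀ q ∈ Q, p.2 = q.2 → p = q)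

/-- number of positions `x` in `[a,b)` with `x+1 < b`, `w x = α`, `w (x+1) = !α` -/
def chg (α : Bool) (w : ℕ → Bool) (a b : ℕ) : ℕ :=
  ((Ico a b).filter (fun x => x + 1 < b ∧ w x = α ∧ w (x + 1) = !α)).card

/-- number of letters of `[a,b)` and `[c,d)` that are not matched by the pairs of `P` inside
`[a,b) × [c,d)` -/
def unm (P : Finset (ℕ × ℕ)) (a b c d : ℕ) : ℕ :=
  (b - a) + (d - c) - 2 * (P.filter (fun p => (a ≤ p.1 ∧ p.1 < b) ∧ (c ≤ p.2 ∧ p.2 < d))).card

/-- `w` and `w'` have the same statistics on the blocks `[t 2^I, (t+1) 2^I)`, `lo ≤ t < hi`: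
the sums of the minority counts of the windows of length `2^i`, `i ≤ I`, and the numbers of `true`
in every window of length `2^(I-20)` -/
def SameSk (w w' : ℕ → Bool) (I lo hi : ℕ) : Prop :=
  ∀ t, lo ≤ t → t < hi →
    (∀ i ≤ I, msum w (2 ^ i) (t * 2 ^ I) (2 ^ (I - i)) =
      msum w' (2 ^ i) (t * 2 ^ I) (2 ^ (I - i))) ∧
    ∀ j < 2 ^ (I - (I - 20)),
      cb true w (t * 2 ^ I + j * 2 ^ (I - 20)) (t * 2 ^ I + (j + 1) * 2 ^ (I - 20)) =
      cb true w' (t * 2 ^ I + j * 2 ^ (I - 20)) (t * 2 ^ I + (j + 1) * 2 ^ (I - 20))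

end MP8C
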