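import Pool.Agent.Lib.MP_8c24b6_lc.EntropyA

/-!
Module A11b (90 min). ENTROPY PIGEONHOLE over the levels of an `H`-adic tree.
-/

namespace MP8C

open Finset

/-- average of the base vectors `p t` over `t ∈ [a, a + n)` -/
noncomputable def bavg {m : ℕ} (p : ℕ → Fin m → ℝ) (a n : ℕ) (j : Fin m) : ℝ :=
  (∑ t ∈ range n, p (a + t) j) / n

/-- `ℓ¹` distance of two vectors -/
noncomputable def l1 {m : ℕ} (μ ν : Fin m → ℝ) : ℝ := ∑ j, |μ j - ν j|

theorem Entropy_sum_mul (f : ℕ → ℝ) (c d : ℕ) :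
    ∑ t ∈ range (c * d), f t = ∑ e ∈ range c, ∑ t ∈ range d, f (e * d + t) := by
  induction c with
  | zero => simp
  | succ c ih =>
    rw [Finset.sum_range_succ, ← ih, Nat.succ_mul, Finset.sum_range_add]

theorem Entropy_bavg_mul {m : ℕ} (p : ℕ → Fin m → ℝ) (a c d : ℕ) (j : Fin m)
    (hd : 0 < d) :
    bavg p a (c * d) j = (∑ e ∈ range c, bavg p (a + e * d) d j) / c := by
  have hd' : (d : ℝ) ≠ 0 := by positivity
  unfold bavg
  rw [Entropy_sum_mul, ← Finset.sum_div]
  simp only [add_assoc]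
  rw [Nat.cast_mul, div_div, mul_comm (d : ℝ)]

theorem Entropy_bavg_nonneg {m : ℕ} (p : ℕ → Fin m → ℝ) (hp0 : ∀ t j, 0 ≤ p t j) (a n : ℕ)
    (j : Fin m) : 0 ≤ bavg p a n j := by
  unfold bavg
  exact div_nonneg (Finset.sum_nonneg fun t _ => hp0 _ _) (Nat.cast_nonneg _)

theorem Entropy_bavg_sum {m : ℕ} (p : ℕ → Fin m → ℝ) (hp1 : ∀ t, ∑ j, p t j = 1) (a n : ℕ)
    (hn : 0 < n) : ∑ j, bavg p a n j = 1 := by
  have hn' : (n : ℝ) ≠ 0 := by positivity
  unfold bavg
  rw [← Finset.sum_div, Finset.sum_comm]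
  simp only [hp1]
  rw [Finset.sum_const, Finset.card_range, nsmul_eq_mul, mul_one, div_self hn']

theorem Entropy_convex {m : ℕ} (s : Finset ℕ) (hs : s.Nonempty) (ν : ℕ → Fin m → ℝ)
    (μ μ' : Fin m → ℝ) (hμ' : ∀ j, μ' j = (∑ e ∈ s, ν e j) / s.card) :
    (s.card : ℝ) * l1 μ' μ ^ 2 ≤ ∑ e ∈ s, l1 (ν e) μ ^ 2 := by
  have hc : (0 : ℝ) < s.card := by exact_mod_cast hs.card_pos
  have h1 : (s.card : ℝ) * l1 μ' μ ≤ ∑ e ∈ s, l1 (ν e) μ := by
    unfold l1
    rw [Finset.sum_comm, Finset.mul_sum]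
    apply Finset.sum_le_sum
    intro j _
    have : (s.card : ℝ) * |μ' j - μ j| = |∑ e ∈ s, (ν e j - μ j)| := by
      rw [Finset.sum_sub_distrib, Finset.sum_const, nsmul_eq_mul, ← abs_of_pos hc, ← abs_mul,
        abs_of_pos hc, hμ' j, mul_sub, mul_div_cancel₀ _ hc.ne']
    rw [this]
    exact Finset.abs_sum_le_sum_abs _ _
  have h0 : 0 ≤ l1 μ' μ := Finset.sum_nonneg fun j _ => abs_nonneg _
  have h2 : ((s.card : ℝ) * l1 μ' μ) ^ 2 ≤ (s.card : ℝ) * ∑ e ∈ s, l1 (ν e) μ ^ 2 :=
    (pow_le_pow_left₀ (by positivity) h1 2).trans (sq_sum_le_card_mul_sum_sq)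
  rw [mul_pow, pow_two (s.card : ℝ), mul_assoc] at h2
  exact le_of_mul_le_mul_left h2 hc

/-- A11b.  Level `q` blocks: `[k H^q, (k+1) H^q)`.  There is a level `q ∈ (q0, q0+J]` at which, for
most blocks, the averages over the first and over the last `1/32` of the block are close to the
average over the block.

Proof.  `F q` = average over `k < K H^(q0+J-q)` of `negent` of the level-`q` average; `F` is
nonincreasing in `q` (a level-`q` average is the average of `H` level-`(q-1)` averages) and lies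
in `[-log m, 0]`, so some `q` has `F (q-1) - F q ≤ log m / J ≤ κ`.  By `avg_pinsker`, the average over
`k` and over the `H` sub-blocks `e` of `(l1 μ_e μ_k)^2` is `≤ 4 κ`.  The first part of block `k` is
the average of `H/32` of its sub-blocks, so by convexity `(l1 first μ_k)^2` is `≤ 32 *` (average
over all sub-blocks).  The same for the last part. -/
theorem entropy_select {m : ℕ} (hm : 0 < m) (H : ℕ) (hH : 32 ∣ H) (hH0 : 0 < H)
    (p : ℕ → Fin m → ℝ) (hp0 : ∀ t j, 0 ≤ p t j) (hp1 : ∀ t, ∑ j, p t j = 1) (q0 J K : ℕ)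
    (κ : ℝ) (hJ : 0 < J) (hκ : Real.log m ≤ κ * J) :
    ∃ q, q0 < q ∧ q ≤ q0 + J ∧
      ∑ k ∈ range (K * H ^ (q0 + J - q)),
        (l1 (bavg p (k * H ^ q) (H ^ q / 32)) (bavg p (k * H ^ q) (H ^ q)) ^ 2 +
         l1 (bavg p (k * H ^ q + (H ^ q - H ^ q / 32)) (H ^ q / 32))
           (bavg p (k * H ^ q) (H ^ q)) ^ 2) ≤
        256 * κ * (K * H ^ (q0 + J - q) : ℕ) := by
  rcases Nat.eq_zero_or_pos K with rfl | hK
  · exact ⟨q0 + 1, by omega, by omega, by simp⟩
  have hHr : (0 : ℝ) < H := by exact_mod_cast hH0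
  -- the entropies
  let G : ℕ → ℝ := fun q => ∑ k ∈ range (K * H ^ (q0 + J - q)), negent (bavg p (k * H ^ q) (H ^ q))
  let N : ℕ → ℕ := fun q => K * H ^ (q0 + J - q)
  have hN : ∀ q, (0 : ℝ) < N q := by
    intro q
    have : 0 < N q := Nat.mul_pos hK (pow_pos hH0 _)
    exact_mod_cast this
  let F : ℕ → ℝ := fun q => G q / N q
  have hHq : ∀ q, 0 < H ^ q := fun q => pow_pos hH0 q
  have hF0 : F q0 ≤ 0 := by
    apply div_nonpos_of_nonpos_of_nonneg _ (hN q0).le
    apply Finset.sum_nonpos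
    intro k _
    exact negent_nonpos _ (Entropy_bavg_nonneg p hp0 _ _) (Entropy_bavg_sum p hp1 _ _ (hHq _))
  have hFJ : - Real.log m ≤ F (q0 + J) := by
    rw [le_div_iff₀ (hN _)]
    have h1 : ∑ k ∈ range (N (q0 + J)), (- Real.log m) ≤ G (q0 + J) := by
      apply Finset.sum_le_sum
      intro k _
      exact neg_log_le_negent _ (Entropy_bavg_nonneg p hp0 _ _)
        (Entropy_bavg_sum p hp1 _ _ (hHq _))
    rw [Finset.sum_const, Finset.card_range, nsmul_eq_mul] at h1
    linarith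
  -- a good level
  obtain ⟨i, hi, hFi⟩ : ∃ i, i < J ∧ F (q0 + i) - F (q0 + i + 1) ≤ κ := by
    by_contra hcon
    push Not at hcon
    have h1 : ∑ i ∈ range J, (F (q0 + i) - F (q0 + i + 1)) = F q0 - F (q0 + J) := by
      have := Finset.sum_range_sub' (fun i => F (q0 + i)) J
      simpa [add_assoc] using this
    have h2 : ∑ i ∈ range J, κ < ∑ i ∈ range J, (F (q0 + i) - F (q0 + i + 1)) := by
      apply Finset.sum_lt_sum_of_nonempty (by simpa using hJ.ne')
      intro i hi
      exact hcon i (Finset.mem_range.1 hi)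
    rw [h1, Finset.sum_const, Finset.card_range, nsmul_eq_mul] at h2
    nlinarith
  set q := q0 + i + 1 with hq
  have hexp : q0 + J - (q0 + i) = (q0 + J - q) + 1 := by omega
  have hHqs : H ^ q = H * H ^ (q0 + i) := by rw [hq, pow_succ]; ring
  refine ⟨q, by omega, by omega, ?_⟩
  set M := H ^ (q0 + i) with hM
  have hM0 : 0 < M := hHq _
  have hMr : (0 : ℝ) < M := by exact_mod_cast hM0
  -- one block
  have hblock : ∀ k, ∑ e ∈ range H, l1 (bavg p (k * H ^ q + e * M) M) (bavg p (k * H ^ q) (H ^ q)) ^ 2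
      ≤ 4 * (∑ e ∈ range H, negent (bavg p (k * H ^ q + e * M) M) -
        H * negent (bavg p (k * H ^ q) (H ^ q))) := by
    intro k
    have := avg_pinsker (range H) (by simpa using hH0.ne')
      (fun e => bavg p (k * H ^ q + e * M) M) (bavg p (k * H ^ q) (H ^ q))
      (fun e _ j => Entropy_bavg_nonneg p hp0 _ _ _)
      (fun e _ => Entropy_bavg_sum p hp1 _ _ hM0) (by
        intro j
        rw [Finset.card_range, hHqs, Entropy_bavg_mul p _ H M j hM0, mul_div_cancel₀ _ hHr.ne'])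
    rw [Finset.card_range] at this
    exact this
  -- sum over the blocks
  have hGsum : ∑ k ∈ range (N q), ∑ e ∈ range H, negent (bavg p (k * H ^ q + e * M) M) =
      G (q0 + i) := by
    have h1 : K * H ^ (q0 + J - (q0 + i)) = N q * H := by
      rw [hexp, pow_succ]; simp only [N]; ring
    simp only [G]
    rw [h1, Entropy_sum_mul _ (N q) H]
    apply Finset.sum_congr rfl
    intro k _
    apply Finset.sum_congr rfl
    intro e _
    have : k * H ^ q + e * M = (k * H + e) * H ^ (q0 + i) := by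
      rw [hHqs, hM]; ring
    rw [this]
  have htot : ∑ k ∈ range (N q), ∑ e ∈ range H,
      l1 (bavg p (k * H ^ q + e * M) M) (bavg p (k * H ^ q) (H ^ q)) ^ 2 ≤
      4 * κ * H * N q := by
    refine (Finset.sum_le_sum fun k _ => hblock k).trans ?_
    rw [← Finset.mul_sum, Finset.sum_sub_distrib, hGsum, ← Finset.mul_sum]
    have h2 : G (q0 + i) = F (q0 + i) * (N q * H) := by
      have h3 : (N (q0 + i) : ℝ) = N q * H := by
        have : N (q0 + i) = N q * H := by
          simp only [N]; rw [hexp, pow_succ]; ring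
        exact_mod_cast this
      rw [← h3]
      exact (div_mul_cancel₀ _ (hN _).ne').symm
    have h4 : ∑ k ∈ range (N q), negent (bavg p (k * H ^ q) (H ^ q)) = F q * N q :=
      (div_mul_cancel₀ _ (hN _).ne').symm
    rw [h2, h4]
    have h5 : F (q0 + i) * (N q * H) - H * (F q * N q) = (F (q0 + i) - F q) * (H * N q) := by
      ring
    rw [h5]
    have h6 : 0 ≤ (H : ℝ) * N q := by have := hN q; positivity
    nlinarith [mul_le_mul_of_nonneg_right hFi h6]
  -- first and last parts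
  obtain ⟨h, rfl⟩ := hH
  have hh0 : 0 < h := by omega
  have hhr : (0 : ℝ) < h := by exact_mod_cast hh0
  have hdiv : (32 * h) ^ q / 32 = h * M := by
    rw [hHqs, mul_assoc, Nat.mul_div_cancel_left _ (by norm_num)]
  have hpart : ∀ k, l1 (bavg p (k * (32 * h) ^ q) ((32 * h) ^ q / 32))
        (bavg p (k * (32 * h) ^ q) ((32 * h) ^ q)) ^ 2 +
      l1 (bavg p (k * (32 * h) ^ q + ((32 * h) ^ q - (32 * h) ^ q / 32)) ((32 * h) ^ q / 32))
        (bavg p (k * (32 * h) ^ q) ((32 * h) ^ q)) ^ 2 ≤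
      2 / h * ∑ e ∈ range (32 * h),
        l1 (bavg p (k * (32 * h) ^ q + e * M) M) (bavg p (k * (32 * h) ^ q) ((32 * h) ^ q)) ^ 2 := by
    intro k
    set μ := bavg p (k * (32 * h) ^ q) ((32 * h) ^ q) with hμ
    set ν : ℕ → Fin m → ℝ := fun e => bavg p (k * (32 * h) ^ q + e * M) M with hν
    have hsub1 : range h ⊆ range (32 * h) := by
      intro e he
      rw [Finset.mem_range] at *
      omega
    have hnn : ∀ e, 0 ≤ l1 (ν e) μ ^ 2 := fun e => sq_nonneg _
    have h1 : (h : ℝ) * l1 (bavg p (k * (32 * h) ^ q) ((32 * h) ^ q / 32)) μ ^ 2 ≤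
        ∑ e ∈ range (32 * h), l1 (ν e) μ ^ 2 := by
      have := Entropy_convex (range h) (by simpa using hh0.ne') ν μ
        (bavg p (k * (32 * h) ^ q) ((32 * h) ^ q / 32)) (by
          intro j
          rw [hdiv, Finset.card_range, Entropy_bavg_mul p _ h M j hM0])
      rw [Finset.card_range] at this
      exact this.trans (Finset.sum_le_sum_of_subset_of_nonneg hsub1 fun e _ _ => hnn e)
    have h2 : (h : ℝ) * l1 (bavg p (k * (32 * h) ^ q + ((32 * h) ^ q - (32 * h) ^ q / 32))
        ((32 * h) ^ q / 32)) μ ^ 2 ≤ ∑ e ∈ range (32 * h), l1 (ν e) μ ^ 2 := by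
      have := Entropy_convex (range h) (by simpa using hh0.ne') (fun e => ν (31 * h + e)) μ
        (bavg p (k * (32 * h) ^ q + ((32 * h) ^ q - (32 * h) ^ q / 32)) ((32 * h) ^ q / 32)) (by
          intro j
          have h3 : (32 * h) ^ q - h * M = 31 * h * M := by
            rw [hHqs]
            have : 32 * h * M = 31 * h * M + h * M := by ring
            omega
          rw [hdiv, Finset.card_range, Entropy_bavg_mul p _ h M j hM0, h3]
          congr 1
          apply Finset.sum_congr rfl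
          intro e _
          simp only [hν]
          congr 1
          ring)
      rw [Finset.card_range] at this
      refine this.trans ?_
      have h4 : ∑ e ∈ range (32 * h), l1 (ν e) μ ^ 2 =
          ∑ e ∈ range (31 * h), l1 (ν e) μ ^ 2 + ∑ e ∈ range h, l1 (ν (31 * h + e)) μ ^ 2 := by
        rw [← Finset.sum_range_add]
        congr 2
        ring
      rw [h4]
      have : 0 ≤ ∑ e ∈ range (31 * h), l1 (ν e) μ ^ 2 := Finset.sum_nonneg fun e _ => hnn e
      linarith
    rw [div_mul_eq_mul_div, le_div_iff₀ hhr]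
    linarith
  refine (Finset.sum_le_sum fun k _ => hpart k).trans ?_
  rw [← Finset.mul_sum]
  have hfin := mul_le_mul_of_nonneg_left htot (show (0 : ℝ) ≤ 2 / h by positivity)
  refine hfin.trans (le_of_eq ?_)
  simp only [N]
  push_cast
  field_simp
  ring

end MP8C
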