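import Mathlib

/-!
Module A11a (60 min). Negative entropy, a weak Pinsker inequality.
-/

namespace MP8C

open Finset

/-- `Σ x log x` -/
noncomputable def negent {m : ℕ} (μ : Fin m → ℝ) : ℝ := ∑ j, μ j * Real.log (μ j)

theorem negent_nonpos {m : ℕ} (μ : Fin m → ℝ) (h0 : ∀ j, 0 ≤ μ j) (h1 : ∑ j, μ j = 1) :
    negent μ ≤ 0 := by
  refine Finset.sum_nonpos fun j _ => ?_
  have hj : μ j ≤ 1 := by
    rw [← h1]
    exact Finset.single_le_sum (fun i _ => h0 i) (Finset.mem_univ j)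
  exact mul_nonpos_of_nonneg_of_nonpos (h0 j) (Real.log_nonpos (h0 j) hj)

/-- `- log m ≤ Σ μ log μ` (Jensen for the logarithm) -/
theorem neg_log_le_negent {m : ℕ} (μ : Fin m → ℝ) (h0 : ∀ j, 0 ≤ μ j)
    (h1 : ∑ j, μ j = 1) : - Real.log m ≤ negent μ := by
  have hm : 0 < m := by
    rcases Nat.eq_zero_or_pos m with h | h
    · subst h
      simp at h1
    · exact h
  have hmR : (0 : ℝ) < m := by exact_mod_cast hm
  have key : ∀ j, - (μ j * Real.log m) - μ j * Real.log (μ j) ≤ 1 / m - μ j := by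
    intro j
    rcases (h0 j).eq_or_lt with h | h
    · rw [← h]
      simp
    · have h3 : Real.log (1 / (m * μ j)) ≤ 1 / (m * μ j) - 1 :=
        Real.log_le_sub_one_of_pos (by positivity)
      have h4 : Real.log (1 / (m * μ j)) = - Real.log m - Real.log (μ j) := by
        rw [one_div, Real.log_inv, Real.log_mul hmR.ne' h.ne']
        ring
      rw [h4] at h3
      have h5 := mul_le_mul_of_nonneg_left h3 h.le
      have h6 : μ j * (1 / (m * μ j) - 1) = 1 / m - μ j := by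
        field_simp
      rw [h6] at h5
      linarith
  have hs := Finset.sum_le_sum (fun j (_ : j ∈ (Finset.univ : Finset (Fin m))) => key j)
  rw [Finset.sum_sub_distrib, Finset.sum_sub_distrib, h1, Finset.sum_neg_distrib, ← Finset.sum_mul, h1,
    Finset.sum_const, Finset.card_univ, Fintype.card_fin, nsmul_eq_mul] at hs
  have h7 : (m : ℝ) * (1 / m) = 1 := by field_simp
  rw [h7] at hs
  unfold negent
  linarith

private theorem pinsker_term (a b : ℝ) (ha : 0 ≤ a) (hb : 0 ≤ b) (hac : b = 0 → a = 0) :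
    2 * a - 2 * (Real.sqrt a * Real.sqrt b) ≤ a * Real.log a - a * Real.log b := by
  rcases ha.eq_or_lt with h | h
  · rw [← h]
    simp
  · have hb' : 0 < b := lt_of_le_of_ne hb (fun e => h.ne' (hac e.symm))
    have h3 : Real.log (Real.sqrt b / Real.sqrt a) ≤ Real.sqrt b / Real.sqrt a - 1 :=
      Real.log_le_sub_one_of_pos (div_pos (Real.sqrt_pos.mpr hb') (Real.sqrt_pos.mpr h))
    have h4 : Real.log (Real.sqrt b / Real.sqrt a) = (Real.log b - Real.log a) / 2 := by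
      rw [Real.log_div (Real.sqrt_pos.mpr hb').ne' (Real.sqrt_pos.mpr h).ne',
        Real.log_sqrt hb'.le, Real.log_sqrt h.le]
      ring
    rw [h4] at h3
    have h5 := mul_le_mul_of_nonneg_left h3 h.le
    have h6 : a * (Real.sqrt b / Real.sqrt a - 1) = Real.sqrt a * Real.sqrt b - a := by
      have hs : Real.sqrt a ≠ 0 := (Real.sqrt_pos.mpr h).ne'
      have h7 : a = Real.sqrt a * Real.sqrt a := (Real.mul_self_sqrt h.le).symm
      have h8 : a * (Real.sqrt b / Real.sqrt a) = Real.sqrt a * Real.sqrt b := by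
        rw [mul_div_assoc', div_eq_iff hs]
        calc a * Real.sqrt b = (Real.sqrt a * Real.sqrt a) * Real.sqrt b := by rw [← h7]
          _ = Real.sqrt a * Real.sqrt b * Real.sqrt a := by ring
      rw [mul_sub, h8, mul_one]
    rw [h6] at h5
    linarith

/-- A weak Pinsker inequality.  For probability vectors `ν, μ` with `μ j = 0 → ν j = 0`:
`(Σ |ν j - μ j|)^2 ≤ 4 Σ ν j log (ν j / μ j)`.
Proof: `log t ≤ t - 1` with `t = sqrt (μ j / ν j)` gives
`ν j log (ν j / μ j) ≥ 2 ν j - 2 sqrt (ν j μ j)`, and the sum over `j` is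
`Σ (sqrt (ν j) - sqrt (μ j))^2`; Cauchy-Schwarz:
`(Σ |ν - μ|)^2 ≤ Σ (sqrt ν - sqrt μ)^2 * Σ (sqrt ν + sqrt μ)^2` and the last sum is `≤ 4`.
Here the right hand side is written without division. -/
theorem pinsker {m : ℕ} (ν μ : Fin m → ℝ) (hν : ∀ j, 0 ≤ ν j) (hμ : ∀ j, 0 ≤ μ j)
    (h1 : ∑ j, ν j = 1) (h2 : ∑ j, μ j = 1) (hac : ∀ j, μ j = 0 → ν j = 0) :
    (∑ j, |ν j - μ j|) ^ 2 ≤ 4 * (negent ν - ∑ j, ν j * Real.log (μ j)) := by
  have hA : ∀ j, ν j = Real.sqrt (ν j) ^ 2 := fun j => (Real.sq_sqrt (hν j)).symm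
  have hB : ∀ j, μ j = Real.sqrt (μ j) ^ 2 := fun j => (Real.sq_sqrt (hμ j)).symm
  have e1 : ∑ j, |ν j - μ j| =
      ∑ j, |Real.sqrt (ν j) - Real.sqrt (μ j)| * (Real.sqrt (ν j) + Real.sqrt (μ j)) := by
    refine Finset.sum_congr rfl fun j _ => ?_
    have h3 : ν j - μ j = (Real.sqrt (ν j) - Real.sqrt (μ j)) * (Real.sqrt (ν j) + Real.sqrt (μ j)) := by
      conv_lhs => rw [hA j, hB j]
      ring
    rw [h3, abs_mul, abs_of_nonneg (add_nonneg (Real.sqrt_nonneg (ν j)) (Real.sqrt_nonneg (μ j)))]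
  have e2 : ∑ j, |Real.sqrt (ν j) - Real.sqrt (μ j)| ^ 2 = 2 - 2 * ∑ j, Real.sqrt (ν j) * Real.sqrt (μ j) := by
    have h3 : ∀ j, |Real.sqrt (ν j) - Real.sqrt (μ j)| ^ 2 =
        ν j + μ j - 2 * (Real.sqrt (ν j) * Real.sqrt (μ j)) := by
      intro j
      rw [sq_abs]
      have := Real.sq_sqrt (hν j)
      have := Real.sq_sqrt (hμ j)
      nlinarith
    rw [Finset.sum_congr rfl fun j _ => h3 j, Finset.sum_sub_distrib, Finset.sum_add_distrib, h1, h2,
      ← Finset.mul_sum]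
    norm_num
  have e3 : ∑ j, (Real.sqrt (ν j) + Real.sqrt (μ j)) ^ 2 ≤ 4 := by
    have h3 : ∀ j, (Real.sqrt (ν j) + Real.sqrt (μ j)) ^ 2 ≤ 2 * ν j + 2 * μ j := by
      intro j
      have := Real.sq_sqrt (hν j)
      have := Real.sq_sqrt (hμ j)
      nlinarith [sq_nonneg (Real.sqrt (ν j) - Real.sqrt (μ j))]
    refine (Finset.sum_le_sum fun j _ => h3 j).trans ?_
    rw [Finset.sum_add_distrib, ← Finset.mul_sum, ← Finset.mul_sum, h1, h2]
    norm_num
  have e4 : 2 - 2 * ∑ j, Real.sqrt (ν j) * Real.sqrt (μ j) ≤ negent ν - ∑ j, ν j * Real.log (μ j) := by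
    have h3 := Finset.sum_le_sum (fun j (_ : j ∈ (Finset.univ : Finset (Fin m))) =>
      pinsker_term (ν j) (μ j) (hν j) (hμ j) (hac j))
    rw [Finset.sum_sub_distrib, Finset.sum_sub_distrib, ← Finset.mul_sum, ← Finset.mul_sum, h1] at h3
    unfold negent
    linarith
  have e5 := Finset.sum_mul_sq_le_sq_mul_sq (Finset.univ : Finset (Fin m))
    (fun j => |Real.sqrt (ν j) - Real.sqrt (μ j)|) (fun j => Real.sqrt (ν j) + Real.sqrt (μ j))
  rw [← e1, e2] at e5
  have e6 : 0 ≤ 2 - 2 * ∑ j, Real.sqrt (ν j) * Real.sqrt (μ j) := by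
    rw [← e2]
    positivity
  nlinarith

/-- Average of probability vectors.  `avg_i negent (ν i) - negent μ = avg_i KL(ν i, μ)`. -/
theorem avg_pinsker {m : ℕ} {ι : Type*} (s : Finset ι) (hs : s.Nonempty) (ν : ι → Fin m → ℝ)
    (μ : Fin m → ℝ) (hν : ∀ i ∈ s, ∀ j, 0 ≤ ν i j) (h1 : ∀ i ∈ s, ∑ j, ν i j = 1)
    (hμ : ∀ j, (s.card : ℝ) * μ j = ∑ i ∈ s, ν i j) :
    ∑ i ∈ s, (∑ j, |ν i j - μ j|) ^ 2 ≤ 4 * (∑ i ∈ s, negent (ν i) - s.card * negent μ) := by
  have hc : (0 : ℝ) < s.card := by exact_mod_cast hs.card_pos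
  have hμ0 : ∀ j, 0 ≤ μ j := by
    intro j
    have h3 : 0 ≤ (s.card : ℝ) * μ j := by
      rw [hμ j]
      exact Finset.sum_nonneg fun i hi => hν i hi j
    exact nonneg_of_mul_nonneg_right h3 hc
  have hμ1 : ∑ j, μ j = 1 := by
    have h3 : (s.card : ℝ) * ∑ j, μ j = s.card := by
      rw [Finset.mul_sum, Finset.sum_congr rfl fun j _ => hμ j, Finset.sum_comm,
        Finset.sum_congr rfl fun i hi => h1 i hi]
      simp
    have h4 : (s.card : ℝ) * ∑ j, μ j = s.card * 1 := by rw [h3, mul_one]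
    exact mul_left_cancel₀ hc.ne' h4
  have hac : ∀ i ∈ s, ∀ j, μ j = 0 → ν i j = 0 := by
    intro i hi j hj
    have h3 : ∑ i ∈ s, ν i j = 0 := by
      rw [← hμ j, hj, mul_zero]
    exact (Finset.sum_eq_zero_iff_of_nonneg fun i hi => hν i hi j).mp h3 i hi
  have h5 := Finset.sum_le_sum (fun i (hi : i ∈ s) =>
    pinsker (ν i) μ (hν i hi) hμ0 (h1 i hi) hμ1 (hac i hi))
  refine h5.trans (le_of_eq ?_)
  rw [← Finset.mul_sum, Finset.sum_sub_distrib, Finset.sum_comm (s := s)]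
  congr 2
  unfold negent
  rw [Finset.mul_sum]
  refine Finset.sum_congr rfl fun j _ => ?_
  rw [← Finset.sum_mul, ← hμ j]
  ring

end MP8C
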