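import Mathlib

/-! Module B10 (75 min): choice of the scale. -/

namespace MP8C

open Finset

private theorem finalA_bound (A K L k n I : ℕ) (hk : 1 ≤ k) (hL : 1 ≤ L) (hI : I + 1 ≤ L) (hA : 1 ≤ A)
    (hn : n + 1 ≤ 2 ^ L) (hR : n ≤ A * k ^ 2 * L ^ K * 2 ^ I) :
    (n + 1) ^ ((n / 2 ^ I + 1) * (I + 4) + (n / 2 ^ (I - 20) + 1) + I + 7) <
      2 ^ ((2 ^ 21 * A + K + 2) * (k * L) ^ (2 ^ 21 * A + K + 2)) := by
  set R := A * k ^ 2 * L ^ K with hRdef
  set C := 2 ^ 21 * A + K + 2 with hC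
  have hR1 : 1 ≤ R := by
    have h1 : 1 ≤ k ^ 2 := Nat.one_le_pow _ _ hk
    have h2 : 1 ≤ L ^ K := Nat.one_le_pow _ _ hL
    calc 1 = 1 * 1 * 1 := by norm_num
      _ ≤ A * k ^ 2 * L ^ K := Nat.mul_le_mul (Nat.mul_le_mul hA h1) h2
  have h1 : n / 2 ^ I ≤ R := by
    apply Nat.div_le_of_le_mul
    rw [mul_comm]
    exact hR
  have h2 : n / 2 ^ (I - 20) ≤ R * 2 ^ 20 := by
    apply Nat.div_le_of_le_mul
    calc n ≤ R * 2 ^ I := hR
      _ ≤ R * 2 ^ (20 + (I - 20)) := by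
          apply Nat.mul_le_mul_left
          apply Nat.pow_le_pow_right (by norm_num)
          omega
      _ = 2 ^ (I - 20) * (R * 2 ^ 20) := by
          rw [pow_add]
          ring
  have h3 : (n / 2 ^ I + 1) * (I + 4) + (n / 2 ^ (I - 20) + 1) + I + 7 ≤ 2 ^ 21 * (R * L) := by
    have h4 : (n / 2 ^ I + 1) * (I + 4) ≤ (2 * R) * (4 * L) := by
      apply Nat.mul_le_mul
      · omega
      · omega
    have h5 : R ≤ R * L := Nat.le_mul_of_pos_right _ hL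
    have h6 : L ≤ R * L := Nat.le_mul_of_pos_left _ hR1
    have h7 : (2 * R) * (4 * L) = 8 * (R * L) := by ring
    rw [h7] at h4
    have h8 : n / 2 ^ (I - 20) ≤ 2 ^ 20 * (R * L) := by
      calc n / 2 ^ (I - 20) ≤ R * 2 ^ 20 := h2
        _ = 2 ^ 20 * R := by ring
        _ ≤ 2 ^ 20 * (R * L) := Nat.mul_le_mul_left _ h5
    have h9 : 1 ≤ R * L := le_trans hL h6
    norm_num at h8 ⊢
    omega
  have h10 : L * (2 ^ 21 * (R * L)) < C * (k * L) ^ C := by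
    have e1 : L * (2 ^ 21 * (R * L)) = (2 ^ 21 * A) * (k ^ 2 * L ^ (K + 2)) := by
      rw [hRdef]
      ring
    rw [e1]
    have e2 : k ^ 2 * L ^ (K + 2) ≤ (k * L) ^ C := by
      rw [mul_pow]
      apply Nat.mul_le_mul
      · exact Nat.pow_le_pow_right hk (by omega)
      · exact Nat.pow_le_pow_right hL (by omega)
    have e3 : 0 < (k * L) ^ C := by positivity
    calc (2 ^ 21 * A) * (k ^ 2 * L ^ (K + 2)) ≤ (2 ^ 21 * A) * (k * L) ^ C := Nat.mul_le_mul_left _ e2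
      _ < C * (k * L) ^ C := by
          apply Nat.mul_lt_mul_of_pos_right _ e3
          omega
  calc (n + 1) ^ ((n / 2 ^ I + 1) * (I + 4) + (n / 2 ^ (I - 20) + 1) + I + 7)
      ≤ (n + 1) ^ (2 ^ 21 * (R * L)) := Nat.pow_le_pow_right (by omega) h3
    _ ≤ (2 ^ L) ^ (2 ^ 21 * (R * L)) := Nat.pow_le_pow_left hn _
    _ = 2 ^ (L * (2 ^ 21 * (R * L))) := by rw [← pow_mul]
    _ < 2 ^ (C * (k * L) ^ C) := Nat.pow_lt_pow_right (by norm_num) h10

/-- B10.  CHOICE OF `I`.  Given constants `η > 0` (think `ε δ / 1000`) and `K`, there is `C` such that for all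
`n ≥ 2`, `k ≥ 1` there is `I` with: either `I = 0` or the size condition holds, and in both cases the
number of bits is at most `C (k (log n + 1))^C`.  (`I` = the largest `I ≤ log2 n` with the size
condition, `I = 0` if there is none: then `η n < (k+1)^2 K (log n + 1)^K 2`, so `n` itself is at most
polynomial in `k log n`.) -/
theorem choose_scale (η : ℝ) (hη : 0 < η) (K : ℕ) : ∃ C : ℕ, ∀ n k : ℕ, 2 ≤ n → 1 ≤ k →
    ∃ I : ℕ, (I = 0 ∨ (((k + 1 : ℕ) ^ 2 * (K * (I + 1) ^ K : ℕ) * 2 ^ I : ℝ) ≤ η * n)) ∧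
      (n + 1) ^ ((n / 2 ^ I + 1) * (I + 4) + (n / 2 ^ (I - 20) + 1) + I + 7) <
        2 ^ (C * (k * (Nat.log 2 n + 1)) ^ C) := by
  classical
  set A : ℕ := Nat.ceil (8 * K * 2 ^ K / η) + 2 with hA
  refine ⟨2 ^ 21 * A + K + 2, fun n k hn hk => ?_⟩
  set L := Nat.log 2 n + 1 with hL
  have hn1 : n + 1 ≤ 2 ^ L := Nat.lt_pow_succ_log_self (by norm_num) n
  have hAη : 8 * (K : ℝ) * 2 ^ K ≤ A * η := by
    have h1 : 8 * (K : ℝ) * 2 ^ K / η ≤ A := by
      refine (Nat.le_ceil _).trans ?_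
      rw [hA]
      push_cast
      linarith
    rwa [div_le_iff₀ hη] at h1
  have hk4 : (((k + 1 : ℕ) : ℝ)) ^ 2 ≤ 4 * (k : ℝ) ^ 2 := by
    have h1 : (1 : ℝ) ≤ k := by exact_mod_cast hk
    push_cast
    nlinarith
  have hLR : (1 : ℝ) ≤ L := by
    have : 1 ≤ L := by omega
    exact_mod_cast this
  -- the general estimate for a scale at which the size condition fails
  have hfail : ∀ J : ℕ, J + 1 ≤ 2 * L →
      ¬ ((((k + 1 : ℕ) ^ 2 * (K * (J + 1) ^ K : ℕ) * 2 ^ J : ℝ) ≤ η * n)) →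
      2 * n ≤ A * k ^ 2 * L ^ K * 2 ^ J := by
    intro J hJ hf
    have h1 := lt_of_not_ge hf
    have h2 : ((K * (J + 1) ^ K : ℕ) : ℝ) ≤ K * (2 ^ K * (L : ℝ) ^ K) := by
      push_cast
      apply mul_le_mul_of_nonneg_left _ (Nat.cast_nonneg K)
      rw [← mul_pow]
      apply pow_le_pow_left₀ (by positivity)
      exact_mod_cast hJ
    have h3 : ((k + 1 : ℕ) ^ 2 * (K * (J + 1) ^ K : ℕ) * 2 ^ J : ℝ) ≤
        (4 * (k : ℝ) ^ 2) * (K * (2 ^ K * (L : ℝ) ^ K)) * 2 ^ J := by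
      apply mul_le_mul_of_nonneg_right _ (by positivity)
      exact mul_le_mul hk4 h2 (by positivity) (by positivity)
    have h4 : η * (2 * n) ≤ η * (A * k ^ 2 * L ^ K * 2 ^ J) := by
      calc η * (2 * (n : ℝ)) = 2 * (η * n) := by ring
        _ ≤ 2 * ((4 * (k : ℝ) ^ 2) * (K * (2 ^ K * (L : ℝ) ^ K)) * 2 ^ J) := by linarith
        _ = (8 * (K : ℝ) * 2 ^ K) * ((k : ℝ) ^ 2 * L ^ K * 2 ^ J) := by ring
        _ ≤ (A * η) * ((k : ℝ) ^ 2 * L ^ K * 2 ^ J) :=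
            mul_le_mul_of_nonneg_right hAη (by positivity)
        _ = η * (A * k ^ 2 * L ^ K * 2 ^ J) := by ring
    have h5 := le_of_mul_le_mul_left h4 hη
    exact_mod_cast h5
  by_cases hS : ∃ I, I ≤ Nat.log 2 n ∧
      (((k + 1 : ℕ) ^ 2 * (K * (I + 1) ^ K : ℕ) * 2 ^ I : ℝ) ≤ η * n)
  · -- the largest such scale
    obtain ⟨I, hI, hmax⟩ := Nat.findGreatest_spec
      (P := fun I => (((k + 1 : ℕ) ^ 2 * (K * (I + 1) ^ K : ℕ) * 2 ^ I : ℝ) ≤ η * n))
      hS.choose_spec.1 hS.choose_spec.2 |> fun hspec =>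
        (⟨_, hspec, rfl⟩ : ∃ I, (((k + 1 : ℕ) ^ 2 * (K * (I + 1) ^ K : ℕ) * 2 ^ I : ℝ) ≤ η * n) ∧
          I = Nat.findGreatest
            (fun I => (((k + 1 : ℕ) ^ 2 * (K * (I + 1) ^ K : ℕ) * 2 ^ I : ℝ) ≤ η * n)) (Nat.log 2 n))
    have hIle : I ≤ Nat.log 2 n := by
      rw [hmax]
      exact Nat.findGreatest_le _
    refine ⟨I, Or.inr hI, ?_⟩
    apply finalA_bound A K L k n I hk (by omega) (by omega) (by omega) hn1
    rcases hIle.eq_or_lt with he | hlt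
    · -- top scale
      have h1 : n ≤ 2 * 2 ^ I := by
        have : 2 ^ L = 2 * 2 ^ I := by
          rw [hL, ← he, pow_succ]
          ring
        omega
      calc n ≤ 2 * 2 ^ I := h1
        _ ≤ A * k ^ 2 * L ^ K * 2 ^ I := by
            apply Nat.mul_le_mul_right
            have h1 : 1 ≤ k ^ 2 := Nat.one_le_pow _ _ hk
            have h2 : 1 ≤ L ^ K := Nat.one_le_pow _ _ (by omega)
            calc 2 = 2 * 1 * 1 := by norm_num
              _ ≤ A * k ^ 2 * L ^ K := Nat.mul_le_mul (Nat.mul_le_mul (by omega) h1) h2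
    · have hnot : ¬ ((((k + 1 : ℕ) ^ 2 * (K * ((I + 1) + 1) ^ K : ℕ) * 2 ^ (I + 1) : ℝ) ≤ η * n)) := by
        have h1 : Nat.findGreatest
            (fun I => (((k + 1 : ℕ) ^ 2 * (K * (I + 1) ^ K : ℕ) * 2 ^ I : ℝ) ≤ η * n)) (Nat.log 2 n)
              < I + 1 := by
          rw [← hmax]
          omega
        have h2 := Nat.findGreatest_is_greatest h1 (by omega : I + 1 ≤ Nat.log 2 n)
        simpa using h2
      have h3 := hfail (I + 1) (by omega) hnot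
      have h4 : A * k ^ 2 * L ^ K * 2 ^ (I + 1) = 2 * (A * k ^ 2 * L ^ K * 2 ^ I) := by
        rw [pow_succ]
        ring
      rw [h4] at h3
      omega
  · refine ⟨0, Or.inl rfl, ?_⟩
    apply finalA_bound A K L k n 0 hk (by omega) (by omega) (by omega) hn1
    have hnot : ¬ ((((k + 1 : ℕ) ^ 2 * (K * (0 + 1) ^ K : ℕ) * 2 ^ 0 : ℝ) ≤ η * n)) := by
      intro h
      exact hS ⟨0, Nat.zero_le _, by simpa using h⟩
    have h3 := hfail 0 (by omega) hnot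
    omega

end MP8C
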