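import Pool.Agent.Lib.MP_8c24b6_lc.SketchDefs

/-! Module B8 (75 min): congruence. -/

namespace MP8C

open Finset

private theorem sketchA_getD_lt (x : List Base) (b : Base) {i : ℕ} (hi : i < x.length) :
    (x ++ [b]).getD i Base.A = x.getD i Base.A := by
  rw [List.getD_append _ _ _ _ hi]

private theorem sketchA_getD_eq (x : List Base) (b : Base) :
    (x ++ [b]).getD x.length Base.A = b := by
  rw [List.getD_append_right _ _ _ _ (le_refl _)]
  simp

private theorem sketchA_cb_congr {β : Bool} {w w' : ℕ → Bool} {a b : ℕ}
    (h : ∀ i, a ≤ i → i < b → w i = w' i) : cb β w a b = cb β w' a b := by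
  unfold cb
  congr 1
  apply Finset.filter_congr
  intro i hi
  rw [Finset.mem_Ico] at hi
  rw [h i hi.1 hi.2]

private theorem sketchA_cb_succ {β : Bool} {w w' : ℕ → Bool} {a l : ℕ} (hal : a ≤ l)
    (h : ∀ i, i < l → w i = w' i) :
    cb β w a (l + 1) = cb β w' a l + (if w l = β then 1 else 0) := by
  have h1 : cb β w a (l + 1) = cb β w a l + (if w l = β then 1 else 0) := by
    unfold cb
    rw [← Finset.insert_Ico_right_eq_Ico_add_one hal, Finset.filter_insert]
    split_ifs with hw
    · rw [Finset.card_insert_of_notMem]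
      simp
    · rfl
  rw [h1, sketchA_cb_congr (fun i _ hi => h i hi)]

private theorem sketchA_win {β : Bool} {w w' : ℕ → Bool} {a c l : ℕ}
    (h : ∀ i, i < l → w i = w' i) :
    cb β w a (min c (l + 1)) =
      cb β w' a (min c l) + (if a ≤ l ∧ l < c ∧ w l = β then 1 else 0) := by
  by_cases hc : l < c
  · rw [min_eq_right (by omega : l + 1 ≤ c), min_eq_right hc.le]
    by_cases ha : a ≤ l
    · rw [sketchA_cb_succ ha h]
      simp [ha, hc]
    · have e1 : Ico a (l + 1) = ∅ := Finset.Ico_eq_empty (by omega)
      have e2 : Ico a l = ∅ := Finset.Ico_eq_empty (by omega)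
      simp [cb, e1, e2, ha]
  · rw [min_eq_left (by omega : c ≤ l + 1), min_eq_left (by omega : c ≤ l)]
    rw [if_neg (by tauto)]
    rw [add_zero]
    exact sketchA_cb_congr (fun i _ hi => h i (by omega))

private theorem sketchA_div {m l : ℕ} (hm : 0 < m) (h : ¬ m ∣ l + 1) : (l + 1) / m = l / m := by
  rw [Nat.succ_div]
  rw [if_neg h, add_zero]

private theorem sketchA_div' {m l : ℕ} (hm : 0 < m) (h : m ∣ l + 1) :
    l / m * m + m = l + 1 := by
  have h1 : (l + 1) / m = l / m + 1 := by
    rw [Nat.succ_div, if_pos h]
  have h2 : (l + 1) / m * m = l + 1 := Nat.div_mul_cancel h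
  rw [h1] at h2
  linarith [Nat.add_mul (l / m) 1 m]

/-- recursion for `partCount` -/
private theorem sketchA_part (x : List Base) (b : Base) (i : ℕ) :
    partCount (x ++ [b]) i = if 2 ^ i ∣ x.length + 1 then 0
      else partCount x i + (if colour b = true then 1 else 0) := by
  have hm : 0 < 2 ^ i := by positivity
  unfold partCount
  rw [List.length_append, List.length_singleton]
  split_ifs with h1 h2
  · rw [Nat.div_mul_cancel h1]
    simp [cb]
  · rw [sketchA_div hm h1]
    rw [sketchA_cb_succ (w' := colL x) (Nat.div_mul_le_self _ _)]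
    · congr 1
      rw [colL, sketchA_getD_eq, if_pos h2]
    · intro j hj
      rw [colL, colL, sketchA_getD_lt x b hj]
  · rw [sketchA_div hm h1]
    rw [sketchA_cb_succ (w' := colL x) (Nat.div_mul_le_self _ _)]
    · congr 1
      rw [colL, sketchA_getD_eq, if_neg h2]
    · intro j hj
      rw [colL, colL, sketchA_getD_lt x b hj]

private theorem sketchA_cb_add (w : ℕ → Bool) (a b : ℕ) :
    cb true w a b + cb false w a b = b - a := by
  unfold cb
  have h := Finset.card_filter_add_card_filter_not (s := Ico a b) (fun x => w x = true)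
  rw [Nat.card_Ico] at h
  rw [← h]
  congr 2
  apply Finset.filter_congr
  intro i _
  simp

/-- recursion for `doneSum` -/
private theorem sketchA_done (I : ℕ) (x : List Base) (b : Base) (t i : ℕ) (hi : i ≤ I) :
    doneSum I (x ++ [b]) t i = doneSum I x t i +
      ∑ _j ∈ (range (2 ^ (I - i))).filter (fun j => t * 2 ^ I + (j + 1) * 2 ^ i = x.length + 1),
        min (partCount x i + (if colour b = true then 1 else 0))
          (2 ^ i - (partCount x i + (if colour b = true then 1 else 0))) := by
  have hm : 0 < 2 ^ i := by positivity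
  unfold doneSum
  rw [List.length_append, List.length_singleton]
  have hsplit : (range (2 ^ (I - i))).filter
        (fun j => t * 2 ^ I + (j + 1) * 2 ^ i ≤ x.length + 1) =
      (range (2 ^ (I - i))).filter (fun j => t * 2 ^ I + (j + 1) * 2 ^ i ≤ x.length) ∪
      (range (2 ^ (I - i))).filter (fun j => t * 2 ^ I + (j + 1) * 2 ^ i = x.length + 1) := by
    rw [← Finset.filter_or]
    apply Finset.filter_congr
    intro j _
    omega
  have hdisj : Disjoint
      ((range (2 ^ (I - i))).filter (fun j => t * 2 ^ I + (j + 1) * 2 ^ i ≤ x.length))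
      ((range (2 ^ (I - i))).filter (fun j => t * 2 ^ I + (j + 1) * 2 ^ i = x.length + 1)) := by
    rw [Finset.disjoint_filter]
    intro j _ h1 h2
    omega
  rw [hsplit, Finset.sum_union hdisj]
  congr 1
  · apply Finset.sum_congr rfl
    intro j hj
    rw [Finset.mem_filter] at hj
    unfold mc
    have hc : ∀ k, t * 2 ^ I + j * 2 ^ i ≤ k → k < t * 2 ^ I + (j + 1) * 2 ^ i →
        colL (x ++ [b]) k = colL x k := by
      intro k _ hk
      rw [colL, colL, sketchA_getD_lt x b (by omega)]
    rw [sketchA_cb_congr hc, sketchA_cb_congr hc]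
  · apply Finset.sum_congr rfl
    intro j hj
    rw [Finset.mem_filter] at hj
    obtain ⟨_, hj⟩ := hj
    have hdvd : 2 ^ i ∣ x.length + 1 := by
      rw [← hj]
      exact dvd_add (Dvd.dvd.mul_left (pow_dvd_pow 2 hi) t) (Dvd.intro_left _ rfl)
    have hdiv := sketchA_div' hm hdvd
    have ha : t * 2 ^ I + j * 2 ^ i = x.length / 2 ^ i * 2 ^ i := by
      have : (j + 1) * 2 ^ i = j * 2 ^ i + 2 ^ i := by ring
      omega
    have hcb : cb true (colL (x ++ [b])) (x.length / 2 ^ i * 2 ^ i) (x.length + 1) =
        partCount x i + (if colour b = true then 1 else 0) := by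
      rw [sketchA_cb_succ (w' := colL x) (Nat.div_mul_le_self _ _)]
      · unfold partCount
        congr 2
        rw [colL, sketchA_getD_eq]
      · intro j hj
        rw [colL, colL, sketchA_getD_lt x b hj]
    have hsum := sketchA_cb_add (colL (x ++ [b])) (x.length / 2 ^ i * 2 ^ i) (x.length + 1)
    unfold mc
    rw [hj, ha, hcb]
    rw [hcb] at hsum
    congr 1
    omega

private theorem sketchA_winCol (L : ℕ) (x : List Base) (b : Base) (j : ℕ) :
    winCol L (x ++ [b]) j = winCol L x j +
      (if j * L ≤ x.length ∧ x.length < (j + 1) * L ∧ colour b = true then 1 else 0) := by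
  unfold winCol
  rw [List.length_append, List.length_singleton]
  rw [sketchA_win (w' := colL x)]
  · congr 3
    rw [colL, sketchA_getD_eq]
  · intro k hk
    rw [colL, colL, sketchA_getD_lt x b hk]

private theorem sketchA_winSg (L : ℕ) (x : List Base) (b : Base) (j : ℕ) :
    winSg L (x ++ [b]) j = winSg L x j +
      (if j * L ≤ x.length ∧ x.length < (j + 1) * L ∧ positive b = true then 1 else 0) := by
  unfold winSg
  rw [List.length_append, List.length_singleton]
  rw [sketchA_win (w' := sgL x)]
  · congr 3
    rw [sgL, sketchA_getD_eq]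
  · intro k hk
    rw [sgL, sgL, sketchA_getD_lt x b hk]

/-- B8. CONGRUENCE.  Appending `b` to `x`, `ℓ = x.length`: `colL`, `sgL` do not change below `ℓ`;
`partCount (x ++ [b]) i = 0` if `2^i ∣ ℓ + 1`, else `partCount x i + [colour b]`;
`doneSum` grows iff `2^i ∣ ℓ + 1` and the window ends in block `t`, by
`min c (2^i - c)`, `c = partCount x i + [colour b]`; `winCol`, `winSg` grow at the window that contains
`ℓ`; the length is part of the sketch. -/
theorem sketch_congr (I : ℕ) (u v : List Base) (h : sketch I u = sketch I v) (b : Base) :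
    sketch I (u ++ [b]) = sketch I (v ++ [b]) := by
  have hlen : u.length = v.length := congrFun h (0, 0, 0)
  have hA : u.count Base.A = v.count Base.A := congrFun h (1, 0, 0)
  have hC : u.count Base.C = v.count Base.C := congrFun h (1, 1, 0)
  have hG : u.count Base.G = v.count Base.G := congrFun h (1, 2, 0)
  have hU : u.count Base.U = v.count Base.U := congrFun h (1, 3, 0)
  have hD : ∀ t i, i ≤ I → doneSum I u t i = doneSum I v t i := by
    intro t i hi
    have h2 := congrFun h (2, t, i)
    simpa only [sketch, if_pos hi] using h2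
  have hP : ∀ i, i ≤ I → partCount u i = partCount v i := by
    intro i hi
    have h3 := congrFun h (3, i, 0)
    simpa only [sketch, if_pos hi] using h3
  have hW : ∀ j, winCol (2 ^ (I - 20)) u j = winCol (2 ^ (I - 20)) v j := by
    intro j
    exact congrFun h (4, j, 0)
  have hS : ∀ t, winSg (2 ^ I) u t = winSg (2 ^ I) v t := by
    intro t
    exact congrFun h (5, t, 0)
  funext c
  match c with
  | (0, _, _) => simp only [sketch, List.length_append, hlen]
  | (1, 0, _) => simp only [sketch, List.count_append, hA]
  | (1, 1, _) => simp only [sketch, List.count_append, hC]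
  | (1, 2, _) => simp only [sketch, List.count_append, hG]
  | (1, 3, _) => simp only [sketch, List.count_append, hU]
  | (1, (_ + 4), _) => rfl
  | (2, t, i) =>
    simp only [sketch]
    split_ifs with hi
    · rw [sketchA_done I u b t i hi, sketchA_done I v b t i hi, hD t i hi, hP i hi, hlen]
    · rfl
  | (3, i, _) =>
    simp only [sketch]
    split_ifs with hi
    · rw [sketchA_part, sketchA_part, hP i hi, hlen]
    · rfl
  | (4, j, _) =>
    simp only [sketch]
    rw [sketchA_winCol, sketchA_winCol, hW j, hlen]
  | (5, t, _) =>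
    simp only [sketch]
    rw [sketchA_winSg, sketchA_winSg, hS t, hlen]
  | ((_ + 6), _, _) => rfl

end MP8C
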