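import Pool.Agent.Lib.MP_8c24b6_lc.SketchDefs

/-! Module B9 (60 min): number of values. -/

namespace MP8C

open Finset

theorem SketchB_cb_le (β : Bool) (w : ℕ → Bool) (a b : ℕ) : cb β w a b ≤ b - a := by
  unfold cb
  refine (card_filter_le _ _).trans ?_
  rw [Nat.card_Ico]

theorem SketchB_doneSum_le (I : ℕ) (x : List Base) (t i : ℕ) : doneSum I x t i ≤ x.length := by
  unfold doneSum
  have h2 : 0 < 2 ^ i := Nat.pow_pos (by norm_num)
  have h1 : ∀ j ∈ (range (2 ^ (I - i))).filter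
      (fun j => t * 2 ^ I + (j + 1) * 2 ^ i ≤ x.length),
      mc (colL x) (t * 2 ^ I + j * 2 ^ i) (t * 2 ^ I + (j + 1) * 2 ^ i) ≤ 2 ^ i := by
    intro j _
    unfold mc
    refine (min_le_left _ _).trans ((SketchB_cb_le _ _ _ _).trans ?_)
    have : (j + 1) * 2 ^ i = j * 2 ^ i + 2 ^ i := by ring
    omega
  refine (sum_le_card_nsmul _ _ _ h1).trans ?_
  have h3 : (range (2 ^ (I - i))).filter (fun j => t * 2 ^ I + (j + 1) * 2 ^ i ≤ x.length) ⊆
      range (x.length / 2 ^ i) := by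
    intro j hj
    rw [mem_filter] at hj
    rw [mem_range]
    have h4 : (j + 1) * 2 ^ i ≤ x.length := by
      have := hj.2
      omega
    have h5 : j + 1 ≤ x.length / 2 ^ i := (Nat.le_div_iff_mul_le h2).2 h4
    omega
  have h6 := card_le_card h3
  rw [card_range] at h6
  rw [smul_eq_mul]
  exact (Nat.mul_le_mul_right _ h6).trans (Nat.div_mul_le_self _ _)

theorem SketchB_doneSum_zero (I n : ℕ) (x : List Base) (hx : x.length ≤ n) (t i : ℕ)
    (ht : n / 2 ^ I < t) : doneSum I x t i = 0 := by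
  unfold doneSum
  have h2 : 0 < 2 ^ I := Nat.pow_pos (by norm_num)
  have h3 : n < t * 2 ^ I := (Nat.div_lt_iff_lt_mul h2).1 ht
  rw [filter_false_of_mem, sum_empty]
  intro j _
  omega

theorem SketchB_win_le (w : ℕ → Bool) (L j m : ℕ) : cb true w (j * L) (min ((j + 1) * L) m) ≤ m := by
  refine (SketchB_cb_le _ _ _ _).trans ?_
  have := min_le_right ((j + 1) * L) m
  omega

theorem SketchB_win_zero (w : ℕ → Bool) (L j m n : ℕ) (hL : 0 < L) (hm : m ≤ n) (hj : n / L < j) :
    cb true w (j * L) (min ((j + 1) * L) m) = 0 := by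
  have h3 : n < j * L := (Nat.div_lt_iff_lt_mul hL).1 hj
  have h4 := SketchB_cb_le true w (j * L) (min ((j + 1) * L) m)
  have h5 := min_le_right ((j + 1) * L) m
  omega

/-- normalised codes -/
def SketchB_nrm : ℕ × ℕ × ℕ → ℕ × ℕ × ℕ
  | (0, _, _) => (0, 0, 0)
  | (2, t, i) => (2, t, i)
  | (a + 1, b, _) => (a + 1, b, 0)

/-- the set of the codes that carry information -/
def SketchB_T (I n : ℕ) : Finset (ℕ × ℕ × ℕ) :=
  ({(0, 0, 0)} : Finset (ℕ × ℕ × ℕ)) ∪ ((range 4).image (fun r => (1, r, 0))) ∪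
    ((range (n / 2 ^ I + 1) ×ˢ range (I + 1)).image (fun p => (2, p.1, p.2))) ∪
    ((range (I + 1)).image (fun i => (3, i, 0))) ∪
    ((range (n / 2 ^ (I - 20) + 1)).image (fun j => (4, j, 0))) ∪
    ((range (n / 2 ^ I + 1)).image (fun t => (5, t, 0)))

theorem SketchB_T_card (I n : ℕ) :
    (SketchB_T I n).card ≤ (n / 2 ^ I + 1) * (I + 4) + (n / 2 ^ (I - 20) + 1) + I + 7 := by
  unfold SketchB_T
  have h1 : ((range 4).image (fun r => ((1, r, 0) : ℕ × ℕ × ℕ))).card ≤ 4 :=
    card_image_le.trans (by rw [card_range])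
  have h2 : ((range (n / 2 ^ I + 1) ×ˢ range (I + 1)).image
      (fun p => ((2, p.1, p.2) : ℕ × ℕ × ℕ))).card ≤ (n / 2 ^ I + 1) * (I + 1) :=
    card_image_le.trans (by rw [card_product, card_range, card_range])
  have h3 : ((range (I + 1)).image (fun i => ((3, i, 0) : ℕ × ℕ × ℕ))).card ≤ I + 1 :=
    card_image_le.trans (by rw [card_range])
  have h4 : ((range (n / 2 ^ (I - 20) + 1)).image (fun j => ((4, j, 0) : ℕ × ℕ × ℕ))).card ≤
      n / 2 ^ (I - 20) + 1 := card_image_le.trans (by rw [card_range])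
  have h5 : ((range (n / 2 ^ I + 1)).image (fun t => ((5, t, 0) : ℕ × ℕ × ℕ))).card ≤
      n / 2 ^ I + 1 := card_image_le.trans (by rw [card_range])
  have h0 : ({(0, 0, 0)} : Finset (ℕ × ℕ × ℕ)).card = 1 := card_singleton _
  have e : (n / 2 ^ I + 1) * (I + 4) = (n / 2 ^ I + 1) * (I + 1) + 3 * (n / 2 ^ I + 1) := by ring
  refine (card_union_le _ _).trans ?_
  refine (Nat.add_le_add_right (card_union_le _ _) _).trans ?_
  refine (Nat.add_le_add_right (Nat.add_le_add_right (card_union_le _ _) _) _).trans ?_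
  refine (Nat.add_le_add_right (Nat.add_le_add_right (Nat.add_le_add_right
    (card_union_le _ _) _) _) _).trans ?_
  refine (Nat.add_le_add_right (Nat.add_le_add_right (Nat.add_le_add_right
    (Nat.add_le_add_right (card_union_le _ _) _) _) _) _).trans ?_
  rw [e, h0]
  omega

theorem SketchB_le (I n : ℕ) (u : List Base) (hu : u.length ≤ n) (c : ℕ × ℕ × ℕ) :
    sketch I u c ≤ n := by
  obtain ⟨a, b, d⟩ := c
  match a, b with
  | 0, b => exact hu
  | 1, 0 => exact List.count_le_length.trans hu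
  | 1, 1 => exact List.count_le_length.trans hu
  | 1, 2 => exact List.count_le_length.trans hu
  | 1, 3 => exact List.count_le_length.trans hu
  | 1, b + 4 => exact Nat.zero_le _
  | 2, b =>
    show (if d ≤ I then doneSum I u b d else 0) ≤ n
    split_ifs
    · exact (SketchB_doneSum_le I u b d).trans hu
    · exact Nat.zero_le _
  | 3, b =>
    show (if b ≤ I then partCount u b else 0) ≤ n
    split_ifs
    · refine le_trans ?_ hu
      unfold partCount
      exact (SketchB_cb_le _ _ _ _).trans (Nat.sub_le _ _)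
    · exact Nat.zero_le _
  | 4, b => exact (SketchB_win_le _ _ _ _).trans hu
  | 5, b => exact (SketchB_win_le _ _ _ _).trans hu
  | a + 6, b => exact Nat.zero_le _

theorem SketchB_nrm_eq (I : ℕ) (u : List Base) (c : ℕ × ℕ × ℕ) :
    sketch I u (SketchB_nrm c) = sketch I u c := by
  obtain ⟨a, b, d⟩ := c
  match a, b with
  | 0, b => rfl
  | 1, 0 => rfl
  | 1, 1 => rfl
  | 1, 2 => rfl
  | 1, 3 => rfl
  | 1, b + 4 => rfl
  | 2, b => rfl
  | 3, b => rfl
  | 4, b => rfl
  | 5, b => rfl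
  | a + 6, b => rfl

theorem SketchB_zero (I n : ℕ) (u : List Base) (hu : u.length ≤ n) (c : ℕ × ℕ × ℕ)
    (hc : SketchB_nrm c ∉ SketchB_T I n) : sketch I u c = 0 := by
  obtain ⟨a, b, d⟩ := c
  have hI : 0 < 2 ^ I := Nat.pow_pos (by norm_num)
  have hI' : 0 < 2 ^ (I - 20) := Nat.pow_pos (by norm_num)
  unfold SketchB_T at hc
  simp only [mem_union, mem_singleton, mem_image, mem_range, mem_product, not_or] at hc
  obtain ⟨⟨⟨⟨⟨c0, c1⟩, c2⟩, c3⟩, c4⟩, c5⟩ := hc
  match a, b with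
  | 0, b => exact absurd rfl c0
  | 1, 0 => exact absurd ⟨0, by norm_num, rfl⟩ c1
  | 1, 1 => exact absurd ⟨1, by norm_num, rfl⟩ c1
  | 1, 2 => exact absurd ⟨2, by norm_num, rfl⟩ c1
  | 1, 3 => exact absurd ⟨3, by norm_num, rfl⟩ c1
  | 1, b + 4 => rfl
  | 2, b =>
    show (if d ≤ I then doneSum I u b d else 0) = 0
    split_ifs with hd
    · by_cases hb : n / 2 ^ I < b
      · exact SketchB_doneSum_zero I n u hu b d hb
      · exact absurd ⟨(b, d), ⟨by show b < _; omega, by show d < _; omega⟩, rfl⟩ c2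
    · rfl
  | 3, b =>
    show (if b ≤ I then partCount u b else 0) = 0
    split_ifs with hd
    · exact absurd ⟨b, by omega, rfl⟩ c3
    · rfl
  | 4, b =>
    by_cases hb : n / 2 ^ (I - 20) < b
    · exact SketchB_win_zero _ _ _ _ n hI' hu hb
    · exact absurd ⟨b, by omega, rfl⟩ c4
  | 5, b =>
    by_cases hb : n / 2 ^ I < b
    · exact SketchB_win_zero _ _ _ _ n hI hu hb
    · exact absurd ⟨b, by omega, rfl⟩ c5
  | a + 6, b => rfl

/-- B9. NUMBER OF VALUES on the words of length `≤ n`: all entries are `≤ n`, and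
they vanish outside a set of at most `(n / 2^I + 1) * (I + 4) + (n / 2^(I-20) + 1) + I + 7` codes (plus
repetitions: the entries with codes `(0,_,_)`, `(1,r,_)`, `(3,i,_)`, ... do not depend on the free
coordinates). -/
theorem sketch_values (I n : ℕ) :
    ∃ V : Finset (ℕ × ℕ × ℕ → ℕ), (∀ u : List Base, u.length ≤ n → sketch I u ∈ V) ∧
      V.card ≤ (n + 1) ^ ((n / 2 ^ I + 1) * (I + 4) + (n / 2 ^ (I - 20) + 1) + I + 7) := by
  classical
  let ext : ({c // c ∈ SketchB_T I n} → Fin (n + 1)) → (ℕ × ℕ × ℕ → ℕ) := fun g c =>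
    if h : SketchB_nrm c ∈ SketchB_T I n then (g ⟨SketchB_nrm c, h⟩ : ℕ) else 0
  refine ⟨univ.image ext, fun u hu => ?_, ?_⟩
  · rw [mem_image]
    refine ⟨fun c => ⟨sketch I u c.1, Nat.lt_succ_of_le (SketchB_le I n u hu c.1)⟩, mem_univ _, ?_⟩
    funext c
    show (if h : SketchB_nrm c ∈ SketchB_T I n then sketch I u (SketchB_nrm c) else 0) = _
    by_cases h : SketchB_nrm c ∈ SketchB_T I n
    · rw [dif_pos h, SketchB_nrm_eq]
    · rw [dif_neg h, SketchB_zero I n u hu c h]
  · refine card_image_le.trans ?_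
    rw [card_univ, Fintype.card_fun, Fintype.card_fin, Fintype.card_coe]
    exact Nat.pow_le_pow_right (Nat.succ_pos n) (SketchB_T_card I n)

end MP8C
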