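import Pool.Agent.Lib.MP_8c24b6_lc.SketchDefs

/-! Module B8b (50 min): what the sketch contains. -/

namespace MP8C

open Finset

private theorem doneSum_full (I : ℕ) (x : List Base) (t i : ℕ) (hi : i ≤ I)
    (ht : (t + 1) * 2 ^ I ≤ x.length) :
    doneSum I x t i = msum (colL x) (2 ^ i) (t * 2 ^ I) (2 ^ (I - i)) := by
  unfold doneSum msum
  rw [Finset.filter_true_of_mem]
  intro j hj
  rw [Finset.mem_range] at hj
  have h1 : (j + 1) * 2 ^ i ≤ 2 ^ (I - i) * 2 ^ i := Nat.mul_le_mul_right _ hj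
  have h2 : 2 ^ (I - i) * 2 ^ i = 2 ^ I := by
    rw [← pow_add, Nat.sub_add_cancel hi]
  rw [h2] at h1
  have h3 : (t + 1) * 2 ^ I = t * 2 ^ I + 2 ^ I := by ring
  omega

/-- B8. equal sketches of words of the same length give the hypotheses of `sound` -/
theorem sketch_sameSk (I : ℕ) (u v : List Base) (h : sketch I u = sketch I v) :
    u.length = v.length ∧ SameSk (colL u) (colL v) I 0 (u.length / 2 ^ I) ∧
    (∀ t < u.length / 2 ^ I, cb true (sgL u) (t * 2 ^ I) ((t + 1) * 2 ^ I) =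
      cb true (sgL v) (t * 2 ^ I) ((t + 1) * 2 ^ I)) ∧
    u.count Base.A = v.count Base.A ∧ u.count Base.C = v.count Base.C ∧
    u.count Base.G = v.count Base.G ∧ u.count Base.U = v.count Base.U := by
  have hlen : u.length = v.length := congrFun h (0, 0, 0)
  have hfull : ∀ t < u.length / 2 ^ I, (t + 1) * 2 ^ I ≤ u.length := by
    intro t ht
    calc (t + 1) * 2 ^ I ≤ (u.length / 2 ^ I) * 2 ^ I := Nat.mul_le_mul_right _ ht
      _ ≤ u.length := Nat.div_mul_le_self _ _
  refine ⟨hlen, ?_, ?_, congrFun h (1, 0, 0), congrFun h (1, 1, 0), congrFun h (1, 2, 0),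
    congrFun h (1, 3, 0)⟩
  · intro t _ ht
    have hf := hfull t ht
    refine ⟨?_, ?_⟩
    · intro i hi
      have h2 : (if i ≤ I then doneSum I u t i else 0) = (if i ≤ I then doneSum I v t i else 0) :=
        congrFun h (2, t, i)
      rw [if_pos hi, if_pos hi, doneSum_full I u t i hi hf,
        doneSum_full I v t i hi (hlen ▸ hf)] at h2
      exact h2
    · intro j hj
      have h4 : winCol (2 ^ (I - 20)) u (t * 2 ^ (I - (I - 20)) + j) =
          winCol (2 ^ (I - 20)) v (t * 2 ^ (I - (I - 20)) + j) :=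
        congrFun h (4, t * 2 ^ (I - (I - 20)) + j, 0)
      unfold winCol at h4
      have hp : 2 ^ (I - (I - 20)) * 2 ^ (I - 20) = 2 ^ I := by
        rw [← pow_add]
        congr 1
        omega
      have e1 : (t * 2 ^ (I - (I - 20)) + j) * 2 ^ (I - 20) = t * 2 ^ I + j * 2 ^ (I - 20) := by
        rw [add_mul, mul_assoc, hp]
      have e2 : (t * 2 ^ (I - (I - 20)) + j + 1) * 2 ^ (I - 20) =
          t * 2 ^ I + (j + 1) * 2 ^ (I - 20) := by
        rw [add_assoc, add_mul, mul_assoc, hp]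
      have h1 : (j + 1) * 2 ^ (I - 20) ≤ 2 ^ (I - (I - 20)) * 2 ^ (I - 20) :=
        Nat.mul_le_mul_right _ hj
      rw [hp] at h1
      have h3 : (t + 1) * 2 ^ I = t * 2 ^ I + 2 ^ I := by ring
      have h5 : t * 2 ^ I + (j + 1) * 2 ^ (I - 20) ≤ u.length := by omega
      rw [e1, e2, Nat.min_eq_left h5, Nat.min_eq_left (hlen ▸ h5)] at h4
      exact h4
  · intro t ht
    have hf := hfull t ht
    have h5 : winSg (2 ^ I) u t = winSg (2 ^ I) v t := congrFun h (5, t, 0)
    unfold winSg at h5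
    rw [Nat.min_eq_left hf, Nat.min_eq_left (hlen ▸ hf)] at h5
    exact h5

end MP8C
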