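import Pool.Agent.Lib.MP_8c24b6_lc.FoldA

/-! Module B2 (75 min): cut to multiples of `T`. -/

namespace MP8C

open Finset

/-- the pairs of a matching whose left end lies in a short interval are few -/
private theorem card_left_le {col sg : ℕ → Bool} {n : ℕ} {M : Finset (ℕ × ℕ)}
    (hM : IsMat col sg n M) (S : Finset (ℕ × ℕ)) (hS : S ⊆ M) (u v : ℕ)
    (h : ∀ p ∈ S, u ≤ p.1 ∧ p.1 < v) : S.card ≤ v - u := by
  rw [← Nat.card_Ico]
  apply card_le_card_of_injOn (fun p => p.1)
  · intro p hp
    rw [mem_coe, mem_Ico]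
    exact h p hp
  · intro p hp q hq e
    by_contra hne
    exact (hM.2.1 p (hS hp) q (hS hq) hne).1 e

private theorem card_right_le {col sg : ℕ → Bool} {n : ℕ} {M : Finset (ℕ × ℕ)}
    (hM : IsMat col sg n M) (S : Finset (ℕ × ℕ)) (hS : S ⊆ M) (u v : ℕ)
    (h : ∀ p ∈ S, u ≤ p.2 ∧ p.2 < v) : S.card ≤ v - u := by
  rw [← Nat.card_Ico]
  apply card_le_card_of_injOn (fun p => p.2)
  · intro p hp
    rw [mem_coe, mem_Ico]
    exact h p hp
  · intro p hp q hq e
    by_contra hne
    exact (hM.2.1 p (hS hp) q (hS hq) hne).2.2.2 e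

/-- pairs of a matching in a rectangle `[A,A') x [B,B')` with `A' <= B` form an alignment -/
private theorem strand_le_lcs {col sg : ℕ → Bool} {n : ℕ} {M : Finset (ℕ × ℕ)}
    (hM : IsMat col sg n M) (S : Finset (ℕ × ℕ)) (hS : S ⊆ M) (A A' B B' u v : ℕ) (hAB : A' ≤ B)
    (hu : u = A' - A) (hv : v = B' - B)
    (h : ∀ p ∈ S, (A ≤ p.1 ∧ p.1 < A') ∧ (B ≤ p.2 ∧ p.2 < B')) :
    S.card ≤ lcs (lw col A) (rw' col B') 0 u 0 v := by
  classical
  subst hu hv
  have hinj : Set.InjOn (fun p : ℕ × ℕ => (p.1 - A, B' - 1 - p.2)) (S : Set (ℕ × ℕ)) := by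
    intro p hp q hq e
    by_contra hne
    have h1 := (hM.2.1 p (hS hp) q (hS hq) hne).1
    have h2 := (h p hp).1
    have h3 := (h q hq).1
    have h4 : p.1 - A = q.1 - A := congrArg Prod.fst e
    omega
  rw [← card_image_of_injOn hinj]
  apply card_le_lcs
  refine ⟨?_, ?_⟩
  · intro x hx
    rw [mem_image] at hx
    obtain ⟨p, hp, rfl⟩ := hx
    obtain ⟨⟨h1, h2⟩, h3, h4⟩ := h p hp
    refine ⟨⟨Nat.zero_le _, by dsimp only; omega⟩, ⟨Nat.zero_le _, by dsimp only; omega⟩, ?_⟩
    have h5 := (hM.1 p (hS hp)).2.2.1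
    have e1 : p.1 - A + A = p.1 := by omega
    have e2 : B' - 1 - (B' - 1 - p.2) = p.2 := by omega
    simp only [lw, rw', e1, e2]
    exact h5
  · intro x hx y hy
    rw [mem_image] at hx hy
    obtain ⟨p, hp, rfl⟩ := hx
    obtain ⟨q, hq, rfl⟩ := hy
    obtain ⟨⟨h1, h2⟩, h3, h4⟩ := h p hp
    obtain ⟨⟨g1, g2⟩, g3, g4⟩ := h q hq
    have c1 := hM.2.2 p (hS hp) q (hS hq)
    have c2 := hM.2.2 q (hS hq) p (hS hp)
    dsimp only
    by_cases hpq : p = q
    · subst hpq
      simp
    · have d := hM.2.1 p (hS hp) q (hS hq) hpq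
      constructor
      · intro e
        have e1 : p.1 < q.1 := by omega
        by_contra e2
        exact c1 ⟨e1, by omega, by have := d.2.2.2; omega⟩
      · intro e
        have e1 : q.2 < p.2 := by omega
        by_contra e2
        exact c2 ⟨by have := d.1; omega, by omega, by omega⟩

/-- B2. CUT to multiples of `T`.  `α s = ⌈a s / T⌉`, `α' s = ⌊a' s / T⌋`, the same for `b`; if `α' s < α s` or
`β' s < β s` (a side shorter than `2T`) put all four equal to 0.  The pairs of
`M` in strand `s` that survive form an alignment `(p, q) ↦ (p - α T, β' T - 1 - q)` between `lw` and `rw'`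
(non-crossing means that the right end decreases when the left end increases); at most `4T` pairs of a
strand are lost. -/
theorem strands_cut (col sg : ℕ → Bool) (n k T : ℕ) (hT : 1 ≤ T) (M : Finset (ℕ × ℕ))
    (hM : IsMat col sg n M) (hk : schg sg n ≤ k) :
    ∃ α α' β β' : ℕ → ℕ,
      IsFrame n ((k + 1) ^ 2) sg (fun s => α s * T) (fun s => α' s * T) (fun s => β s * T)
        (fun s => β' s * T) ∧
      M.card ≤ ∑ s ∈ range ((k + 1) ^ 2),
        lcs (lw col (α s * T)) (rw' col (β' s * T)) 0 ((α' s - α s) * T) 0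
          ((β' s - β s) * T) + 4 * T * (k + 1) ^ 2 := by
  classical
  obtain ⟨a, a', b, b', hF, hcov⟩ := strands col sg n k M hM hk
  -- ceiling and floor
  have hup : ∀ x, x ≤ (x + (T - 1)) / T * T ∧ (x + (T - 1)) / T * T < x + T := by
    intro x
    have h1 := Nat.div_add_mod (x + (T - 1)) T
    have h2 := Nat.mod_lt (x + (T - 1)) (show 0 < T by omega)
    rw [mul_comm] at h1
    omega
  have hdn : ∀ x, x / T * T ≤ x ∧ x < x / T * T + T := by
    intro x
    have h1 := Nat.div_add_mod x T
    have h2 := Nat.mod_lt x (show 0 < T by omega)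
    rw [mul_comm] at h1
    omega
  let good : ℕ → Prop := fun s => (a s + (T - 1)) / T ≤ a' s / T ∧ (b s + (T - 1)) / T ≤ b' s / T
  let α : ℕ → ℕ := fun s => if good s then (a s + (T - 1)) / T else 0
  let α' : ℕ → ℕ := fun s => if good s then a' s / T else 0
  let β : ℕ → ℕ := fun s => if good s then (b s + (T - 1)) / T else 0
  let β' : ℕ → ℕ := fun s => if good s then b' s / T else 0
  have hα : ∀ s, α s = if good s then (a s + (T - 1)) / T else 0 := fun s => rfl
  have hα' : ∀ s, α' s = if good s then a' s / T else 0 := fun s => rfl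
  have hβ : ∀ s, β s = if good s then (b s + (T - 1)) / T else 0 := fun s => rfl
  have hβ' : ∀ s, β' s = if good s then b' s / T else 0 := fun s => rfl
  have hfr : IsFrame n ((k + 1) ^ 2) sg (fun s => α s * T) (fun s => α' s * T)
      (fun s => β s * T) (fun s => β' s * T) := by
    apply hF.shrink
    · intro s hs
      rw [hα, hα']
      split_ifs with hg
      · exact Nat.mul_le_mul_right T hg.1
      · exact le_refl _
    · intro s hs
      rw [hβ, hα']
      split_ifs with hg
      · exact le_trans (hdn (a' s)).1 (le_trans (hF.h2 s hs) (hup (b s)).1)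
      · exact le_refl _
    · intro s hs
      rw [hβ, hβ']
      split_ifs with hg
      · exact Nat.mul_le_mul_right T hg.2
      · exact le_refl _
    · intro s hs
      rw [hβ']
      split_ifs with hg
      · exact le_trans (hdn (b' s)).1 (hF.h4 s hs)
      · rw [zero_mul]; exact Nat.zero_le _
    · intro s hs p
      rw [hα, hα']
      split_ifs with hg
      · intro h1 h2
        exact ⟨le_trans (hup (a s)).1 h1, lt_of_lt_of_le h2 (hdn (a' s)).1⟩
      · intro h1 h2
        rw [zero_mul] at h2
        exact absurd h2 (Nat.not_lt_zero p)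
    · intro s hs p
      rw [hβ, hβ']
      split_ifs with hg
      · intro h1 h2
        exact ⟨le_trans (hup (b s)).1 h1, lt_of_lt_of_le h2 (hdn (b' s)).1⟩
      · intro h1 h2
        rw [zero_mul] at h2
        exact absurd h2 (Nat.not_lt_zero p)
  refine ⟨α, α', β, β', hfr, ?_⟩
  -- strand by strand
  let MS : ℕ → Finset (ℕ × ℕ) :=
    fun s => M.filter (fun p => (a s ≤ p.1 ∧ p.1 < a' s) ∧ (b s ≤ p.2 ∧ p.2 < b' s))
  have hMS : ∀ s, MS s = M.filter (fun p => (a s ≤ p.1 ∧ p.1 < a' s) ∧ (b s ≤ p.2 ∧ p.2 < b' s)) :=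
    fun s => rfl
  have hsub : ∀ s, MS s ⊆ M := fun s => filter_subset _ _
  have h1 : M.card ≤ ∑ s ∈ range ((k + 1) ^ 2), (MS s).card := by
    refine le_trans (card_le_card ?_) card_biUnion_le
    intro p hp
    obtain ⟨s, hs, h⟩ := hcov p hp
    rw [mem_biUnion]
    exact ⟨s, mem_range.mpr hs, by rw [hMS, mem_filter]; exact ⟨hp, h⟩⟩
  have h2 : ∀ s ∈ range ((k + 1) ^ 2), (MS s).card ≤
      lcs (lw col (α s * T)) (rw' col (β' s * T)) 0 ((α' s - α s) * T) 0
          ((β' s - β s) * T) + 4 * T := by
    intro s hs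
    rw [mem_range] at hs
    have hb : ∀ p ∈ MS s, (a s ≤ p.1 ∧ p.1 < a' s) ∧ (b s ≤ p.2 ∧ p.2 < b' s) := by
      intro p hp
      rw [hMS, mem_filter] at hp
      exact hp.2
    by_cases hg : good s
    · have e1 : α s = (a s + (T - 1)) / T := by rw [hα, if_pos hg]
      have e2 : α' s = a' s / T := by rw [hα', if_pos hg]
      have e3 : β s = (b s + (T - 1)) / T := by rw [hβ, if_pos hg]
      have e4 : β' s = b' s / T := by rw [hβ', if_pos hg]
      have u1 := hup (a s)
      have u2 := hdn (a' s)
      have u3 := hup (b s)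
      have u4 := hdn (b' s)
      rw [← e1] at u1
      rw [← e2] at u2
      rw [← e3] at u3
      rw [← e4] at u4
      let S0 := (MS s).filter (fun p => (α s * T ≤ p.1 ∧ p.1 < α' s * T) ∧
        (β s * T ≤ p.2 ∧ p.2 < β' s * T))
      let S1 := (MS s).filter (fun p => p.1 < α s * T)
      let S2 := (MS s).filter (fun p => α' s * T ≤ p.1)
      let S3 := (MS s).filter (fun p => p.2 < β s * T)
      let S4 := (MS s).filter (fun p => β' s * T ≤ p.2)
      have c0 : S0.card ≤ lcs (lw col (α s * T)) (rw' col (β' s * T)) 0 ((α' s - α s) * T) 0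
          ((β' s - β s) * T) := by
        apply strand_le_lcs hM S0 ((filter_subset _ _).trans (hsub s)) (α s * T) (α' s * T)
          (β s * T) (β' s * T)
        · exact hfr.h2 s hs
        · rw [Nat.sub_mul]
        · rw [Nat.sub_mul]
        · intro p hp
          rw [mem_filter] at hp
          exact hp.2
      have c1 : S1.card ≤ T := by
        refine le_trans (card_left_le hM S1 ((filter_subset _ _).trans (hsub s)) (a s) (α s * T) ?_)
          (by omega)
        intro p hp
        rw [mem_filter] at hp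
        exact ⟨(hb p hp.1).1.1, hp.2⟩
      have c2 : S2.card ≤ T := by
        refine le_trans (card_left_le hM S2 ((filter_subset _ _).trans (hsub s)) (α' s * T) (a' s) ?_)
          (by omega)
        intro p hp
        rw [mem_filter] at hp
        exact ⟨hp.2, (hb p hp.1).1.2⟩
      have c3 : S3.card ≤ T := by
        refine le_trans (card_right_le hM S3 ((filter_subset _ _).trans (hsub s)) (b s) (β s * T) ?_)
          (by omega)
        intro p hp
        rw [mem_filter] at hp
        exact ⟨(hb p hp.1).2.1, hp.2⟩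
      have c4 : S4.card ≤ T := by
        refine le_trans (card_right_le hM S4 ((filter_subset _ _).trans (hsub s)) (β' s * T) (b' s) ?_)
          (by omega)
        intro p hp
        rw [mem_filter] at hp
        exact ⟨hp.2, (hb p hp.1).2.2⟩
      have hun : MS s ⊆ S0 ∪ (S1 ∪ (S2 ∪ (S3 ∪ S4))) := by
        intro p hp
        simp only [mem_union, S0, S1, S2, S3, S4, mem_filter, hp, true_and]
        omega
      have d0 := card_le_card hun
      have d1 := card_union_le S0 (S1 ∪ (S2 ∪ (S3 ∪ S4)))
      have d2 := card_union_le S1 (S2 ∪ (S3 ∪ S4))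
      have d3 := card_union_le S2 (S3 ∪ S4)
      have d4 := card_union_le S3 S4
      omega
    · have hsmall : a' s - a s ≤ T ∨ b' s - b s ≤ T := by
        by_contra hcon
        push Not at hcon
        apply hg
        constructor
        · rw [Nat.le_div_iff_mul_le (by omega)]
          have := (hup (a s)).2
          omega
        · rw [Nat.le_div_iff_mul_le (by omega)]
          have := (hup (b s)).2
          omega
      rcases hsmall with hs1 | hs1
      · have := card_left_le hM (MS s) (hsub s) (a s) (a' s) (fun p hp => (hb p hp).1)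
        omega
      · have := card_right_le hM (MS s) (hsub s) (b s) (b' s) (fun p hp => (hb p hp).2)
        omega
  calc M.card ≤ ∑ s ∈ range ((k + 1) ^ 2), (MS s).card := h1
    _ ≤ ∑ s ∈ range ((k + 1) ^ 2),
        (lcs (lw col (α s * T)) (rw' col (β' s * T)) 0 ((α' s - α s) * T) 0
          ((β' s - β s) * T) + 4 * T) := sum_le_sum h2
    _ = _ := by
        rw [sum_add_distrib, sum_const, card_range, smul_eq_mul]
        ring

end MP8C
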