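import Pool.Agent.Lib.MP_8c24b6_lc.SoundA
import Pool.Agent.Lib.MP_8c24b6_lc.FoldB
import Pool.Agent.Lib.MP_8c24b6_lc.FoldC

/-! Module B5 (90 min): soundness. -/

namespace MP8C

open Finset

/-- B5. SOUNDNESS.  `(ε, δ, K)` as in `core`.  `x = (col, sg)`, `x' = (col', sg')` have the same sketch, `x'`
has a near perfect matching and few sign changes.  Then `opt x ≥ (1/2 + δ/4) n / 2`.
Proof: `strands_cut` for `x'`; by `pure_of_count` it is a frame for `sg` as well (drop the strands with an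
empty side); on every strand with `α' - α ≥ K (I+1)^K` and `lcs' ≥ (1-ε) max` apply `core`
(`SameSk.shift`, `SameSk.reverse`); `frame_le`.  With `A, B` = lengths, `λ = lcs'` of the strands:
`Σ (A + B) ≤ n`, `2 Σ λ ≥ (1-ε')n - 8 T (k+1)^2`; strands with `λ < (1-ε) max(A,B)` have
`A + B - 2λ ≥ ε max(A,B)`, so their total `λ` is `≤ (1/ε) Σ (A + B - 2λ)`; strands with `α' - α < K (I+1)^K`
have total `λ ≤ (k+1)^2 K (I+1)^K T`.  With `ε' = ε δ / 100` and the size hypothesis the good strands have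
`Σ λ ≥ (1 - δ/10) n/2`, and `opt x ≥ (1/2 + δ) Σ λ`. -/
theorem sound {ε δ : ℝ} {K : ℕ} (hε : 0 < ε) (hε' : ε < 1 / 4) (hδ : 0 < δ) (hδ' : δ < 1 / 4)
    (hK : 0 < K)
    (hcore : ∀ (I n n' : ℕ) (w z w' z' : ℕ → Bool), K * (I + 1) ^ K ≤ n →
      SameSk w w' I 0 n → SameSk z z' I 0 n' →
      (1 - ε) * ((n : ℝ) * 2 ^ I) ≤ lcs w' z' 0 (n * 2 ^ I) 0 (n' * 2 ^ I) →
      (1 - ε) * ((n' : ℝ) * 2 ^ I) ≤ lcs w' z' 0 (n * 2 ^ I) 0 (n' * 2 ^ I) →
      (1 / 2 + δ) * ((n : ℝ) * 2 ^ I) ≤ lcs w z 0 (n * 2 ^ I) 0 (n' * 2 ^ I))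
    (I n k m : ℕ) (col sg col' sg' : ℕ → Bool) (hm : m = n / 2 ^ I)
    (hsk : SameSk col col' I 0 m)
    (hsg : ∀ t < m, cb true sg (t * 2 ^ I) ((t + 1) * 2 ^ I) =
      cb true sg' (t * 2 ^ I) ((t + 1) * 2 ^ I))
    (hk : schg sg' n ≤ k)
    (hsize : (1000 : ℝ) * ((k + 1 : ℕ) ^ 2 * (K * (I + 1) ^ K : ℕ) * 2 ^ I) ≤ ε * δ * n)
    (hopt : (1 - ε * δ / 100) * n ≤ 2 * (optf col' sg' n : ℝ)) :
    (1 / 2 + δ / 4) * (n / 2) ≤ (optf col sg n : ℝ) := by
  classical
  subst hm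
  set T : ℕ := 2 ^ I with hT
  have hT1 : 1 ≤ T := Nat.one_le_two_pow
  set N : ℕ := (k + 1) ^ 2 with hN
  obtain ⟨M, hM, hMc⟩ := exists_mat col' sg' n
  obtain ⟨α, α', β, β', hF, hcard⟩ := strands_cut col' sg' n k T hT1 M hM hk
  rw [hMc] at hcard
  -- order of the ends
  have hαα : ∀ s < N, α s ≤ α' s := fun s hs => Nat.le_of_mul_le_mul_right (hF.h1 s hs) hT1
  have hαβ : ∀ s < N, α' s ≤ β s := fun s hs => Nat.le_of_mul_le_mul_right (hF.h2 s hs) hT1
  have hββ : ∀ s < N, β s ≤ β' s := fun s hs => Nat.le_of_mul_le_mul_right (hF.h3 s hs) hT1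
  have hβm : ∀ s < N, β' s ≤ n / T := fun s hs =>
    (Nat.le_div_iff_mul_le hT1).2 (hF.h4 s hs)
  set L' : ℕ → ℕ := fun s => lcs (lw col' (α s * T)) (rw' col' (β' s * T)) 0 ((α' s - α s) * T) 0
    ((β' s - β s) * T) with hL'
  set Q : ℕ := K * (I + 1) ^ K with hQ
  have hQ1 : 1 ≤ Q := Nat.mul_pos hK (Nat.pow_pos (Nat.succ_pos I))
  set Good : ℕ → Prop := fun s => Q ≤ α' s - α s ∧
    (1 - ε) * (((α' s - α s : ℕ) : ℝ) * T) ≤ L' s ∧
    (1 - ε) * (((β' s - β s : ℕ) : ℝ) * T) ≤ L' s with hGood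
  have hL'a : ∀ s, L' s ≤ (α' s - α s) * T := fun s => by
    have := lcs_le_left (lw col' (α s * T)) (rw' col' (β' s * T)) 0 ((α' s - α s) * T) 0
      ((β' s - β s) * T)
    simpa [hL'] using this
  have hL'b : ∀ s, L' s ≤ (β' s - β s) * T := fun s => by
    have := lcs_le_right (lw col' (α s * T)) (rw' col' (β' s * T)) 0 ((α' s - α s) * T) 0
      ((β' s - β s) * T)
    simpa [hL'] using this
  -- the restricted frame
  set f : (ℕ → ℕ) → ℕ → ℕ := fun g s => if Good s then g s else 0 with hf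
  have hfle : ∀ s, ∀ g h : ℕ → ℕ, g s ≤ h s → f g s ≤ f h s := by
    intro s g h hgh
    by_cases hg : Good s
    · simpa [hf, hg] using hgh
    · simp [hf, hg]
  have hsh : IsFrame n N sg' (fun s => f α s * T) (fun s => f α' s * T) (fun s => f β s * T)
      (fun s => f β' s * T) := by
    refine hF.shrink _ _ _ _ ?_ ?_ ?_ ?_ ?_ ?_
    · intro s hs; exact Nat.mul_le_mul_right _ (hfle s _ _ (hαα s hs))
    · intro s hs; exact Nat.mul_le_mul_right _ (hfle s _ _ (hαβ s hs))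
    · intro s hs; exact Nat.mul_le_mul_right _ (hfle s _ _ (hββ s hs))
    · intro s hs
      by_cases hg : Good s
      · simpa [hf, hg] using hF.h4 s hs
      · simp [hf, hg]
    · intro s hs p p1 p2
      by_cases hg : Good s
      · simp only [hf, hg, if_true] at p1 p2
        exact ⟨p1, p2⟩
      · simp only [hf, hg, if_false, Nat.zero_mul] at p1 p2
        omega
    · intro s hs p p1 p2
      by_cases hg : Good s
      · simp only [hf, hg, if_true] at p1 p2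
        exact ⟨p1, p2⟩
      · simp only [hf, hg, if_false, Nat.zero_mul] at p1 p2
        omega
  -- sign transfer
  have hpure : ∀ u v : ℕ, v ≤ n / T → ∀ σ : Bool,
      (∀ p, u * T ≤ p → p < v * T → sg' p = σ) → ∀ p, u * T ≤ p → p < v * T → sg p = σ := by
    intro u v hv σ hσ p p1 p2
    have ht1 : p / T * T ≤ p := Nat.div_mul_le_self p T
    have ht2 : p < (p / T + 1) * T := by
      have := Nat.lt_div_mul_add (a := p) hT1
      rw [Nat.add_mul, one_mul]; exact this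
    have ht3 : u ≤ p / T := (Nat.le_div_iff_mul_le hT1).2 p1
    have ht4 : p / T < v := (Nat.div_lt_iff_lt_mul hT1).2 p2
    refine pure_of_count (hsg (p / T) (lt_of_lt_of_le ht4 hv)) σ ?_ p ht1 ht2
    intro q q1 q2
    refine hσ q (le_trans (Nat.mul_le_mul_right _ ht3) q1) (lt_of_lt_of_le q2 ?_)
    exact Nat.mul_le_mul_right _ ht4
  have hfr : IsFrame n N sg (fun s => f α s * T) (fun s => f α' s * T) (fun s => f β s * T)
      (fun s => f β' s * T) := by
    refine ⟨hsh.h1, hsh.h2, hsh.h3, hsh.h4, ?_, hsh.disAA, hsh.disAB, hsh.disBB, hsh.ncr⟩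
    intro s hs p q p1 p2 q1 q2
    have hs0 := hsh.sgn s hs
    have hvα : f α' s ≤ n / T := by
      have h1 : f α' s ≤ f β' s := hfle s _ _ ((hαβ s hs).trans (hββ s hs))
      refine h1.trans ?_
      by_cases hg : Good s
      · simpa [hf, hg] using hβm s hs
      · simp [hf, hg]
    have hvβ : f β' s ≤ n / T := by
      by_cases hg : Good s
      · simpa [hf, hg] using hβm s hs
      · simp [hf, hg]
    have e1 : sg p = sg' p := by
      refine hpure (f α s) (f α' s) hvα (sg' p) ?_ p p1 p2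
      intro p' p1' p2'
      have h1 := hs0 p' q p1' p2' q1 q2
      have h2 := hs0 p q p1 p2 q1 q2
      revert h1 h2
      cases sg' p' <;> cases sg' p <;> cases sg' q <;> simp
    have e2 : sg q = sg' q := by
      refine hpure (f β s) (f β' s) hvβ (sg' q) ?_ q q1 q2
      intro q' q1' q2'
      have h1 := hs0 p q' p1 p2 q1' q2'
      have h2 := hs0 p q p1 p2 q1 q2
      revert h1 h2
      cases sg' q' <;> cases sg' q <;> cases sg' p <;> simp
    rw [e1, e2]
    exact hs0 p q p1 p2 q1 q2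
  have hlow := frame_le col sg n N _ _ _ _ hfr
  have hsum := hF.sum_le
  -- the bound for one strand
  set R : ℕ → ℕ := fun s => lcs (lw col (f α s * T)) (rw' col (f β' s * T)) 0
    (f α' s * T - f α s * T) 0 (f β' s * T - f β s * T) with hR
  have hone : ∀ s ∈ range N, (1 / 2 + δ) * ((ε + 2) * (L' s : ℝ) -
      ((((α' s - α s) * T + (β' s - β s) * T : ℕ) : ℝ)) - ε * ((Q : ℝ) * T)) ≤ ε * (R s : ℝ) := by
    intro s hs
    have hs : s < N := Finset.mem_range.1 hs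
    have ha : (L' s : ℝ) ≤ ((α' s - α s : ℕ) : ℝ) * T := by exact_mod_cast hL'a s
    have hb : (L' s : ℝ) ≤ ((β' s - β s : ℕ) : ℝ) * T := by exact_mod_cast hL'b s
    have hl0 : (0 : ℝ) ≤ (L' s : ℝ) := Nat.cast_nonneg _
    have hR0 : (0 : ℝ) ≤ (R s : ℝ) := Nat.cast_nonneg _
    have hQT : (0 : ℝ) ≤ (Q : ℝ) * T := by positivity
    have hd : (0 : ℝ) < 1 / 2 + δ := by linarith
    push_cast
    by_cases hg : Good s
    · obtain ⟨g1, g2, g3⟩ := hg
      have hg : Good s := ⟨g1, g2, g3⟩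
      have hA : SameSk (lw col (α s * T)) (lw col' (α s * T)) I 0 (α' s - α s) := by
        have h1 : SameSk col col' I (0 + α s) (α' s - α s + α s) :=
          hsk.mono (Nat.zero_le _) (by
            have := hαα s hs; have := hαβ s hs; have := hββ s hs; have := hβm s hs; omega)
        exact h1.shift
      have hB : SameSk (rw' col (β' s * T)) (rw' col' (β' s * T)) I 0 (β' s - β s) := by
        have h1 : SameSk col col' I (β s) (n / T) := hsk.mono (Nat.zero_le _) le_rfl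
        exact h1.reverse (hβm s hs)
      have hc := hcore I (α' s - α s) (β' s - β s) _ _ _ _ g1 hA hB
        (by push_cast at g2 ⊢; simpa [hT] using g2) (by push_cast at g3 ⊢; simpa [hT] using g3)
      have hRe : R s = lcs (lw col (α s * T)) (rw' col (β' s * T)) 0 ((α' s - α s) * 2 ^ I) 0
          ((β' s - β s) * 2 ^ I) := by
        simp only [hR, hf, hg, if_true, hT, Nat.sub_mul]
      rw [← hRe] at hc
      have hc' : (1 / 2 + δ) * (((α' s - α s : ℕ) : ℝ) * T) ≤ (R s : ℝ) := by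
        have : ((T : ℕ) : ℝ) = 2 ^ I := by rw [hT]; push_cast; rfl
        rw [this]; exact hc
      have h1 : (1 / 2 + δ) * ((ε + 2) * (L' s : ℝ) -
          (((α' s - α s : ℕ) : ℝ) * T + ((β' s - β s : ℕ) : ℝ) * T) - ε * ((Q : ℝ) * T)) ≤
          (1 / 2 + δ) * (ε * (((α' s - α s : ℕ) : ℝ) * T)) := by
        refine mul_le_mul_of_nonneg_left ?_ hd.le
        nlinarith [mul_le_mul_of_nonneg_left ha hε.le, mul_nonneg hε.le hQT]
      calc _ ≤ _ := h1
        _ = ε * ((1 / 2 + δ) * (((α' s - α s : ℕ) : ℝ) * T)) := by ring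
        _ ≤ ε * (R s : ℝ) := mul_le_mul_of_nonneg_left hc' hε.le
    · refine le_trans ?_ (mul_nonneg hε.le hR0)
      refine mul_nonpos_of_nonneg_of_nonpos hd.le ?_
      have hεL : 0 ≤ ε * (L' s : ℝ) := mul_nonneg hε.le hl0
      have hεQ : 0 ≤ ε * ((Q : ℝ) * T) := mul_nonneg hε.le hQT
      by_cases g1 : Q ≤ α' s - α s
      · by_cases g2 : (1 - ε) * (((α' s - α s : ℕ) : ℝ) * T) ≤ L' s
        · have g3 : ¬ (1 - ε) * (((β' s - β s : ℕ) : ℝ) * T) ≤ L' s := fun h => hg ⟨g1, g2, h⟩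
          push_neg at g3
          nlinarith [mul_le_mul_of_nonneg_left hb hε.le]
        · push_neg at g2
          nlinarith [mul_le_mul_of_nonneg_left ha hε.le]
      · push_neg at g1
        have h1 : (L' s : ℝ) ≤ (Q : ℝ) * T := by
          refine ha.trans (mul_le_mul_of_nonneg_right ?_ (Nat.cast_nonneg _))
          exact_mod_cast g1.le
        nlinarith [mul_le_mul_of_nonneg_left h1 hε.le]
  have htot := Finset.sum_le_sum hone
  rw [← Finset.mul_sum, ← Finset.mul_sum] at htot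
  rw [Finset.sum_sub_distrib, Finset.sum_sub_distrib, ← Finset.mul_sum, Finset.sum_const,
    Finset.card_range, nsmul_eq_mul] at htot
  have hS1 : ((∑ s ∈ range N, L' s : ℕ) : ℝ) = ∑ s ∈ range N, (L' s : ℝ) := by push_cast; rfl
  have hS2 : ((∑ s ∈ range N, R s : ℕ) : ℝ) = ∑ s ∈ range N, (R s : ℝ) := by push_cast; rfl
  have hS3 : ((∑ s ∈ range N, ((α' s - α s) * T + (β' s - β s) * T) : ℕ) : ℝ) =
      ∑ s ∈ range N, (((α' s - α s) * T + (β' s - β s) * T : ℕ) : ℝ) := by push_cast; rfl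
  have hsum' : ∑ s ∈ range N, ((α' s - α s) * T + (β' s - β s) * T) ≤ n := by
    simpa only [Nat.sub_mul] using hsum
  have hsumR : ((∑ s ∈ range N, ((α' s - α s) * T + (β' s - β s) * T) : ℕ) : ℝ) ≤ n := by
    exact_mod_cast hsum'
  have hlow' : ∑ s ∈ range N, R s ≤ optf col sg n := hlow
  have hlowR : ((∑ s ∈ range N, R s : ℕ) : ℝ) ≤ (optf col sg n : ℝ) := by exact_mod_cast hlow'
  have hcardR : (optf col' sg' n : ℝ) ≤ ((∑ s ∈ range N, L' s : ℕ) : ℝ) + 4 * T * N := by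
    have : (optf col' sg' n : ℝ) ≤ ((∑ s ∈ range N, L' s + 4 * T * N : ℕ) : ℝ) := by
      exact_mod_cast hcard
    push_cast at this ⊢; linarith
  rw [← hS1, ← hS2, ← hS3] at htot
  set S : ℝ := ((∑ s ∈ range N, L' s : ℕ) : ℝ) with hS
  set S2 : ℝ := ((∑ s ∈ range N, R s : ℕ) : ℝ)
  set S3 : ℝ := ((∑ s ∈ range N, ((α' s - α s) * T + (β' s - β s) * T) : ℕ) : ℝ)
  set o : ℝ := (optf col sg n : ℝ)
  set U : ℝ := (N : ℝ) * ((Q : ℝ) * T) with hU
  have hn0 : (0 : ℝ) ≤ (n : ℝ) := Nat.cast_nonneg _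
  have hTN : (T : ℝ) * N ≤ U := by
    have h1 : (1 : ℝ) ≤ (Q : ℝ) := by exact_mod_cast hQ1
    have h2 : (0 : ℝ) ≤ (T : ℝ) * N := by positivity
    calc (T : ℝ) * N = 1 * ((T : ℝ) * N) := by ring
      _ ≤ (Q : ℝ) * ((T : ℝ) * N) := mul_le_mul_of_nonneg_right h1 h2
      _ = U := by rw [hU]; ring
  have hUs : 1000 * U ≤ ε * δ * n := by
    have h1 : U = (((k + 1 : ℕ) : ℝ) ^ 2 * (Q : ℝ) * 2 ^ I : ℝ) := by
      rw [hU, hN, hT]; push_cast; ring
    rw [h1]
    exact hsize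
  have hS0 : (1 - ε * δ / 100) * n ≤ 2 * S + 8 * U := by
    have : (2 : ℝ) * (optf col' sg' n : ℝ) ≤ 2 * S + 8 * (T * N) := by linarith
    linarith
  have hd : (0 : ℝ) < 1 / 2 + δ := by linarith
  -- final arithmetic
  have e0 : (0 : ℝ) ≤ ε * δ * n := by positivity
  have e1 : (ε + 2) * S - S3 - (N : ℝ) * (ε * ((Q : ℝ) * T)) ≥
      ε * (n / 2) - ε * δ * n * (3 / 100) := by
    have h1 : (N : ℝ) * (ε * ((Q : ℝ) * T)) = ε * U := by rw [hU]; ring
    rw [h1]
    have h2 : (ε + 2) * ((1 - ε * δ / 100) * n) ≤ (ε + 2) * (2 * S + 8 * U) :=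
      mul_le_mul_of_nonneg_left hS0 (by linarith)
    have h3 : ε * (1000 * U) ≤ ε * (ε * δ * n) := mul_le_mul_of_nonneg_left hUs hε.le
    have h4 : ε * (ε * δ * n) ≤ 1 / 4 * (ε * δ * n) := mul_le_mul_of_nonneg_right hε'.le e0
    nlinarith
  have e2 : (1 / 2 + δ) * (ε * (n / 2) - ε * δ * n * (3 / 100)) ≤ ε * o := by
    calc _ ≤ (1 / 2 + δ) * ((ε + 2) * S - S3 - (N : ℝ) * (ε * ((Q : ℝ) * T))) :=
          mul_le_mul_of_nonneg_left e1 hd.le
      _ ≤ ε * S2 := htot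
      _ ≤ ε * o := mul_le_mul_of_nonneg_left hlowR hε.le
  have e3 : ε * ((1 / 2 + δ / 4) * (n / 2)) ≤ ε * o := by
    refine le_trans ?_ e2
    have h5 : δ * (ε * δ * n) ≤ 1 / 4 * (ε * δ * n) := mul_le_mul_of_nonneg_right hδ'.le e0
    nlinarith
  exact le_of_mul_le_mul_left e3 hε

end MP8C
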