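import Pool.Agent.Lib.MP_8c24b6_lc.Core
import Pool.Agent.Lib.MP_8c24b6_lc.Sound
import Pool.Agent.Lib.MP_8c24b6_lc.BridgeB
import Pool.Agent.Lib.MP_8c24b6_lc.SketchA
import Pool.Agent.Lib.MP_8c24b6_lc.SketchB
import Pool.Agent.Lib.MP_8c24b6_lc.SketchC
import Pool.Agent.Lib.MP_8c24b6_lc.Automaton
import Pool.Agent.Lib.MP_8c24b6_lc.FinalA

/-! Module B11 (75 min): the final theorem. -/

namespace MP8C

open Finset

theorem Final_base_ext (s t : Base) (h1 : colour s = colour t) (h2 : positive s = positive t) :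
    s = t := by
  cases s <;> cases t <;> simp_all [colour, positive]

theorem Final_cb_one (w : ℕ → Bool) (j : ℕ) : cb true w j (j + 1) = if w j = true then 1 else 0 := by
  unfold cb
  rw [Nat.Ico_succ_singleton, Finset.filter_singleton]
  split_ifs <;> simp

/-- B11.  For `I = 0` equal sketches mean equal words. -/
theorem eq_of_sketch_zero (u v : List Base) (h : sketch 0 u = sketch 0 v) : u = v := by
  have hlen : u.length = v.length := by
    have := congrFun h (0, 0, 0)
    simpa [sketch] using this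
  apply List.ext_getElem? 
  intro j
  by_cases hj : j < u.length
  · have hj' : j < v.length := by omega
    have h4 : winCol 1 u j = winCol 1 v j := by
      have := congrFun h (4, j, 0)
      simpa [sketch] using this
    have h5 : winSg 1 u j = winSg 1 v j := by
      have := congrFun h (5, j, 0)
      simpa [sketch] using this
    unfold winCol at h4
    unfold winSg at h5
    have e1 : min ((j + 1) * 1) u.length = j + 1 := by omega
    have e2 : min ((j + 1) * 1) v.length = j + 1 := by omega
    rw [e1, e2, Nat.mul_one, Final_cb_one, Final_cb_one] at h4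
    rw [e1, e2, Nat.mul_one, Final_cb_one, Final_cb_one] at h5
    have hc : colL u j = colL v j := by
      revert h4
      cases colL u j <;> cases colL v j <;> simp
    have hs : sgL u j = sgL v j := by
      revert h5
      cases sgL u j <;> cases sgL v j <;> simp
    have hg : u.getD j Base.A = v.getD j Base.A := Final_base_ext _ _ hc hs
    rw [List.getElem?_eq_getElem hj, List.getElem?_eq_getElem hj']
    rw [List.getD_eq_getElem _ _ hj, List.getD_eq_getElem _ _ hj'] at hg
    rw [hg]
  · rw [List.getElem?_eq_none (by omega), List.getElem?_eq_none (by omega)]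

/-- the counts read off a sketch -/
def Final_m (σ : ℕ × ℕ × ℕ → ℕ) : ℕ := max (min (σ (1, 0, 0)) (σ (1, 3, 0)))
  (min (σ (1, 1, 0)) (σ (1, 2, 0)))

theorem Final_m_eq (I : ℕ) (x : List Base) : Final_m (sketch I x) =
    max (min (x.count Base.A) (x.count Base.U)) (min (x.count Base.C) (x.count Base.G)) := by
  simp [Final_m, sketch]

theorem Final_two_opt (x : List Base) : 2 * opt x ≤ x.length := by
  have h1 := opt_le x
  have h2 : x.count Base.A + x.count Base.C + x.count Base.G + x.count Base.U = x.length := by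
    induction x with
    | nil => simp
    | cons b x ih =>
      have := ih (opt_le x)
      cases b <;> simp [List.count_cons] <;> omega
  omega

/-- B11.  THE FINAL THEOREM. -/
theorem final : ∃ ε : ℝ, 0 < ε ∧ ε < 1 ∧ ∃ C : ℕ, ∀ n k : ℕ, 2 ≤ n → 1 ≤ k →
    ∃ alg : StreamAlg (C * (k * (Nat.log 2 n + 1)) ^ C), ∀ x : List Base,
      x.length = n → alternations x ≤ k →
      (1 - ε) * n ≤ 2 * ((min (x.count Base.A) (x.count Base.U) +
        min (x.count Base.C) (x.count Base.G) : ℕ) : ℝ) →
      (opt x : ℝ) ≤ (2 - ε) * alg.run x ∧ alg.run x ≤ opt x := by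
  classical
  obtain ⟨ε, δ, K, hε, hε', hδ, hδ', hK, hcore⟩ := core
  obtain ⟨C, hC⟩ := choose_scale (ε * δ / 1000) (by positivity) K
  have he : 0 < min (δ / 16) (ε * δ / 200) := by positivity
  refine ⟨min (δ / 16) (ε * δ / 200), he, lt_of_le_of_lt (min_le_left _ _) (by linarith), C, ?_⟩
  set e := min (δ / 16) (ε * δ / 200) with hedef
  have he1 : e ≤ δ / 16 := min_le_left _ _
  have he2 : e ≤ ε * δ / 200 := min_le_right _ _
  intro n k hn hk
  obtain ⟨I, hI, hcard⟩ := hC n k hn hk
  obtain ⟨V, hV, hVcard⟩ := sketch_values I n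
  -- the output rule
  let good : (ℕ × ℕ × ℕ → ℕ) → Prop := fun σ =>
    (Final_m σ : ℝ) ≤ (1 / 2 + δ / 16) * (n / 2) ∧
      ∃ y : List Base, y.length = n ∧ alternations y ≤ k ∧ sketch I y = σ ∧
        (1 - ε * δ / 100) * n ≤ 2 * (opt y : ℝ)
  let g : (ℕ × ℕ × ℕ → ℕ) → ℝ := fun σ =>
    if good σ then (1 + δ / 8) * Final_m σ else Final_m σ
  obtain ⟨alg, halg⟩ := exists_alg n (C * (k * (Nat.log 2 n + 1)) ^ C) (sketch I)
    (fun u v _ _ h b => sketch_congr I u v h b)
    (fun u v h => (sketch_sameSk I u v h).1) V hV (lt_of_le_of_lt hVcard hcard) g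
  refine ⟨alg, ?_⟩
  intro x hx halt hcomp
  rw [halg x hx]
  have hm := Final_m_eq I x
  set m := Final_m (sketch I x) with hmdef
  have hmle : m ≤ opt x := by
    rw [hm]
    exact max_le (le_opt_AU x) (le_opt_CG x)
  have hol := opt_le x
  have ho2 := Final_two_opt x
  have hsum : min (x.count Base.A) (x.count Base.U) + min (x.count Base.C) (x.count Base.G) ≤
      2 * m := by
    rw [hm]; omega
  have hom : opt x ≤ 2 * m := le_trans hol hsum
  have homR : (opt x : ℝ) ≤ 2 * m := by exact_mod_cast hom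
  have hmR : (m : ℝ) ≤ opt x := by exact_mod_cast hmle
  have hsumR : ((min (x.count Base.A) (x.count Base.U) +
        min (x.count Base.C) (x.count Base.G) : ℕ) : ℝ) ≤ 2 * m := by exact_mod_cast hsum
  have ho2R : 2 * (opt x : ℝ) ≤ n := by
    rw [← hx]; exact_mod_cast ho2
  have hm0 : (0 : ℝ) ≤ m := Nat.cast_nonneg _
  have hn0 : (0 : ℝ) ≤ n := Nat.cast_nonneg _
  by_cases hgood : good (sketch I x)
  · -- soundness
    have hgx : g (sketch I x) = (1 + δ / 8) * m := by simp only [g, if_pos hgood, hmdef]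
    rw [hgx]
    obtain ⟨hsmall, y, hy, hyalt, hysk, hyopt⟩ := hgood
    have hopt : (1 / 2 + δ / 4) * ((n : ℝ) / 2) ≤ opt x := by
      rcases hI with hI0 | hsize
      · subst hI0
        have hxy : y = x := eq_of_sketch_zero y x hysk
        subst hxy
        nlinarith [hyopt, hn0, mul_pos hε hδ]
      · obtain ⟨s1, s2, s3, s4⟩ := sketch_sameSk I x y hysk.symm
        rw [opt_eq x, hx]
        have hyo : opt y = optf (colL y) (sgL y) n := by rw [opt_eq y, hy]
        rw [hyo] at hyopt
        refine sound hε hε' hδ hδ' hK hcore I n k (n / 2 ^ I) (colL x) (sgL x) (colL y) (sgL y)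
          rfl ?_ ?_ ?_ ?_ hyopt
        · rw [← hx]; exact s2
        · rw [← hx]; exact s3
        · rw [← hy, ← alternations_eq]; exact hyalt
        · have := hsize
          push_cast at this ⊢
          linarith
    constructor
    · -- opt ≤ 2 m ≤ (2 - e)(1 + δ/8) m
      have h1 : (2 : ℝ) ≤ (2 - e) * (1 + δ / 8) := by nlinarith
      calc (opt x : ℝ) ≤ 2 * m := homR
        _ ≤ ((2 - e) * (1 + δ / 8)) * m := mul_le_mul_of_nonneg_right h1 hm0
        _ = (2 - e) * ((1 + δ / 8) * m) := by ring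
    · have h1 : (1 + δ / 8) * (m : ℝ) ≤ (1 + δ / 8) * ((1 / 2 + δ / 16) * (n / 2)) :=
        mul_le_mul_of_nonneg_left hsmall (by positivity)
      have h2 : (1 + δ / 8) * ((1 / 2 + δ / 16) * ((n : ℝ) / 2)) ≤
          (1 / 2 + δ / 4) * (n / 2) := by
        have h3 : (1 + δ / 8) * (1 / 2 + δ / 16) ≤ 1 / 2 + δ / 4 := by nlinarith
        calc (1 + δ / 8) * ((1 / 2 + δ / 16) * ((n : ℝ) / 2)) =
            ((1 + δ / 8) * (1 / 2 + δ / 16)) * (n / 2) := by ring
          _ ≤ _ := mul_le_mul_of_nonneg_right h3 (by positivity)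
      linarith
  · have hgx : g (sketch I x) = m := by simp only [g, if_neg hgood, hmdef]
    rw [hgx]
    refine ⟨?_, hmR⟩
    by_cases hbig : (m : ℝ) ≤ (1 / 2 + δ / 16) * (n / 2)
    · -- no witness: in particular `x` is not one
      have hno : ¬ (1 - ε * δ / 100) * n ≤ 2 * (opt x : ℝ) := by
        intro hcon
        exact hgood ⟨hbig, x, hx, halt, rfl, hcon⟩
      push Not at hno
      -- (1 - e) n ≤ 4 m
      have h4 : (1 - e) * (n : ℝ) ≤ 4 * m := by linarith
      -- 2 opt < (1 - εδ/100) n ≤ (1 - 2e) n ≤ (1 - e)(1 - e/2) n ≤ (2 - e) 2 m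
      have h5 : 2 * e ≤ ε * δ / 100 := by linarith
      have h6 : (1 - ε * δ / 100) * (n : ℝ) ≤ (1 - e / 2) * ((1 - e) * n) := by
        have h7 : 1 - ε * δ / 100 ≤ (1 - e / 2) * (1 - e) := by nlinarith
        calc (1 - ε * δ / 100) * (n : ℝ) ≤ ((1 - e / 2) * (1 - e)) * n :=
              mul_le_mul_of_nonneg_right h7 hn0
          _ = _ := by ring
      have h8 : (1 - e / 2) * ((1 - e) * (n : ℝ)) ≤ (1 - e / 2) * (4 * m) := by
        apply mul_le_mul_of_nonneg_left h4
        linarith
      nlinarith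
    · push Not at hbig
      have h1 : (n : ℝ) / 2 ≤ (2 - e) * m := by
        have h2 : (1 : ℝ) ≤ (2 - e) * (1 / 2 + δ / 16) := by nlinarith
        have h3 : (n : ℝ) / 2 ≤ ((2 - e) * (1 / 2 + δ / 16)) * (n / 2) := by
          have : (0 : ℝ) ≤ (n : ℝ) / 2 := by positivity
          nlinarith
        have h4 : (2 - e) * ((1 / 2 + δ / 16) * ((n : ℝ) / 2)) ≤ (2 - e) * m := by
          apply mul_le_mul_of_nonneg_left hbig.le
          linarith
        nlinarith
      linarith

end MP8C
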