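import Pool.Agent.Lib.MP_8c24b6_lc.FoldDefs

/-! Module B1 (90 min): strands. -/

namespace MP8C

open Finset

/-- number of sign changes before position `i` -/
def foldA_r (sg : ℕ → Bool) (i : ℕ) : ℕ := ((range i).filter (fun j => sg j ≠ sg (j + 1))).card

theorem foldA_r_mono (sg : ℕ → Bool) {i j : ℕ} (h : i ≤ j) : foldA_r sg i ≤ foldA_r sg j := by
  unfold foldA_r
  apply Finset.card_le_card
  apply Finset.filter_subset_filter
  exact Finset.range_subset_range.mpr h

theorem foldA_lt (sg : ℕ → Bool) {i j : ℕ} (h : foldA_r sg i < foldA_r sg j) : i < j := by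
  by_contra hc
  have := foldA_r_mono sg (not_lt.mp hc)
  omega

theorem foldA_r_succ (sg : ℕ → Bool) (i : ℕ) :
    foldA_r sg (i + 1) = foldA_r sg i + (if sg i ≠ sg (i + 1) then 1 else 0) := by
  unfold foldA_r
  rw [Finset.range_add_one, Finset.filter_insert]
  split_ifs with h
  · rw [Finset.card_insert_of_notMem]
    simp
  · rfl

theorem foldA_const_aux (sg : ℕ → Bool) (i d : ℕ) (h : foldA_r sg i = foldA_r sg (i + d)) :
    sg i = sg (i + d) := by
  induction d with
  | zero => rfl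
  | succ d ih =>
    have h1 := foldA_r_succ sg (i + d)
    have h2 := foldA_r_mono sg (show i ≤ i + d by omega)
    have h3 : foldA_r sg (i + d + 1) = foldA_r sg i := by rw [h]; rfl
    by_cases hc : sg (i + d) ≠ sg (i + d + 1)
    · rw [if_pos hc] at h1
      omega
    · rw [if_neg hc] at h1
      have h4 := ih (by omega)
      rw [h4]
      push Not at hc
      rw [hc]
      rfl

theorem foldA_const (sg : ℕ → Bool) {i j : ℕ} (h : foldA_r sg i = foldA_r sg j) :
    sg i = sg j := by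
  rcases le_total i j with hij | hij
  · obtain ⟨d, rfl⟩ := Nat.exists_eq_add_of_le hij
    exact foldA_const_aux sg i d h
  · obtain ⟨d, rfl⟩ := Nat.exists_eq_add_of_le hij
    exact (foldA_const_aux sg j d h.symm).symm

theorem foldA_r_le (sg : ℕ → Bool) (n k i : ℕ) (hk : schg sg n ≤ k) (hi : i < n) :
    foldA_r sg i ≤ k := by
  refine le_trans ?_ hk
  unfold foldA_r schg
  apply Finset.card_le_card
  intro j hj
  rw [mem_filter, mem_range] at hj ⊢
  exact ⟨by omega, by omega, hj.2⟩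

/-- the pairs of the strand `s` -/
def foldA_F (sg : ℕ → Bool) (k : ℕ) (M : Finset (ℕ × ℕ)) (s : ℕ) : Finset (ℕ × ℕ) :=
  M.filter (fun p => foldA_r sg p.1 = s / (k + 1) ∧ foldA_r sg p.2 = s % (k + 1))

/-- lower end of the hull -/
noncomputable def foldA_lo (F : Finset (ℕ × ℕ)) (f : ℕ × ℕ → ℕ) : ℕ := sInf {x | ∃ p ∈ F, x = f p}

/-- upper end of the hull -/
def foldA_hi (F : Finset (ℕ × ℕ)) (f : ℕ × ℕ → ℕ) : ℕ := F.sup (fun p => f p + 1)

theorem foldA_lo_le (F : Finset (ℕ × ℕ)) (f : ℕ × ℕ → ℕ) {p : ℕ × ℕ} (hp : p ∈ F) :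
    foldA_lo F f ≤ f p := Nat.sInf_le ⟨p, hp, rfl⟩

theorem foldA_lt_hi (F : Finset (ℕ × ℕ)) (f : ℕ × ℕ → ℕ) {p : ℕ × ℕ} (hp : p ∈ F) :
    f p < foldA_hi F f :=
  lt_of_lt_of_le (Nat.lt_succ_self _) (Finset.le_sup (f := fun p => f p + 1) hp)

theorem foldA_hi_att (F : Finset (ℕ × ℕ)) (f : ℕ × ℕ → ℕ) {x : ℕ} (hx : x < foldA_hi F f) :
    ∃ p ∈ F, x ≤ f p := by
  unfold foldA_hi at hx
  rw [Finset.lt_sup_iff] at hx
  obtain ⟨p, hp, h⟩ := hx
  exact ⟨p, hp, by omega⟩

theorem foldA_lo_att (F : Finset (ℕ × ℕ)) (f : ℕ × ℕ → ℕ) {q : ℕ × ℕ} (hq : q ∈ F) :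
    ∃ p ∈ F, foldA_lo F f = f p := by
  have h : (({x | ∃ p ∈ F, x = f p}) : Set ℕ).Nonempty := ⟨f q, q, hq, rfl⟩
  obtain ⟨p, hp, h2⟩ := Nat.sInf_mem h
  exact ⟨p, hp, h2⟩

/-- a point of the hull lies between two elements -/
theorem foldA_between (F : Finset (ℕ × ℕ)) (f : ℕ × ℕ → ℕ) {x : ℕ} (h1 : foldA_lo F f ≤ x)
    (h2 : x < foldA_hi F f) : (∃ p ∈ F, f p ≤ x) ∧ ∃ p ∈ F, x ≤ f p := by
  obtain ⟨p, hp, h⟩ := foldA_hi_att F f h2
  obtain ⟨q, hq, h'⟩ := foldA_lo_att F f hp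
  exact ⟨⟨q, hq, by omega⟩, p, hp, h⟩

/-- B1. STRANDS of a matching.  `r i` = number of sign changes before position `i`
(`j < i`, `sg j ≠ sg (j+1)`): `r` is monotone, `r i ≤ k` for `i < n`, and `sg` is constant on
`{i : r i = c}`.  Strand `s = r1 (k+1) + r2` collects the pairs `p ∈ M` with `r p.1 = r1`, `r p.2 = r2`
(then `r1 < r2`, because the signs differ): `[a,a')` = hull of the left ends, `[b,b')` = hull of the right
ends (all zero if there is no such pair).  Disjointness and non-crossing of the hulls: the ends of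
the hulls are ends of pairs of `M`; e.g. if `p, p2` are left ends of strand `s`, `p < p' < p2`, and `p'` is an
end of a pair of another strand, then `p'` lies in the same run, so the pair of `p'` has its other end
in another run than `q, q2`, and it crosses the pair of `p` or the pair of `p2`. -/
theorem strands (col sg : ℕ → Bool) (n k : ℕ) (M : Finset (ℕ × ℕ)) (hM : IsMat col sg n M)
    (hk : schg sg n ≤ k) :
    ∃ a a' b b' : ℕ → ℕ, IsFrame n ((k + 1) ^ 2) sg a a' b b' ∧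
      ∀ p ∈ M, ∃ s < (k + 1) ^ 2, (a s ≤ p.1 ∧ p.1 < a' s) ∧ (b s ≤ p.2 ∧ p.2 < b' s) := by
  obtain ⟨hM1, hM2, hM3⟩ := hM
  set F := foldA_F sg k M with hF
  set r := foldA_r sg with hr
  -- basic facts on the members of a strand
  have hmem : ∀ s p, p ∈ F s ↔ p ∈ M ∧ r p.1 = s / (k + 1) ∧ r p.2 = s % (k + 1) := by
    intro s p
    rw [hF, foldA_F, mem_filter]
  have hlt : ∀ s, ∀ p ∈ F s, s / (k + 1) < s % (k + 1) := by
    intro s p hp
    rw [hmem] at hp
    obtain ⟨hpM, h1, h2⟩ := hp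
    obtain ⟨h3, _, _, h4⟩ := hM1 p hpM
    have h5 := foldA_r_mono sg h3.le
    rw [← hr, h1, h2] at h5
    rcases Nat.lt_or_ge (s / (k + 1)) (s % (k + 1)) with h6 | h6
    · exact h6
    · exfalso
      apply h4
      apply foldA_const sg
      rw [← hr, h1, h2]
      omega
  -- runs of the points of the hulls
  have hrA : ∀ s x, foldA_lo (F s) Prod.fst ≤ x → x < foldA_hi (F s) Prod.fst →
      r x = s / (k + 1) := by
    intro s x h1 h2
    obtain ⟨⟨p, hp, h3⟩, q, hq, h4⟩ := foldA_between _ _ h1 h2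
    have h5 := foldA_r_mono sg h3
    have h6 := foldA_r_mono sg h4
    rw [hmem] at hp hq
    rw [← hr] at h5 h6
    omega
  have hrB : ∀ s x, foldA_lo (F s) Prod.snd ≤ x → x < foldA_hi (F s) Prod.snd →
      r x = s % (k + 1) := by
    intro s x h1 h2
    obtain ⟨⟨p, hp, h3⟩, q, hq, h4⟩ := foldA_between _ _ h1 h2
    have h5 := foldA_r_mono sg h3
    have h6 := foldA_r_mono sg h4
    rw [hmem] at hp hq
    rw [← hr] at h5 h6
    omega
  have hltr : ∀ i j, r i < r j → i < j := fun i j h => foldA_lt sg h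
  -- members of different strands are different
  have hne : ∀ s t, s ≠ t → ∀ x ∈ F s, ∀ y ∈ F t, x ≠ y := by
    intro s t hst x hx y hy hxy
    subst hxy
    rw [hmem] at hx hy
    apply hst
    rw [← Nat.div_add_mod s (k + 1), ← Nat.div_add_mod t (k + 1), ← hx.2.1, ← hx.2.2, ← hy.2.1,
      ← hy.2.2]
  -- L1
  have L1 : ∀ s t, s ≠ t → s / (k + 1) = t / (k + 1) → s % (k + 1) < t % (k + 1) →
      ∀ x ∈ F s, ∀ y ∈ F t, y.1 < x.1 := by
    intro s t hst h1 h2 x hx y hy
    have h3 := hlt s x hx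
    have h4 := hlt t y hy
    have h5 := hne s t hst x hx y hy
    rw [hmem] at hx hy
    have h6 := hM3 x hx.1 y hy.1
    have h7 := (hM2 x hx.1 y hy.1 h5).1
    have h8 : y.1 < x.2 := hltr _ _ (by omega)
    have h9 : x.2 < y.2 := hltr _ _ (by omega)
    by_contra hc
    exact h6 ⟨by omega, h8, h9⟩
  -- L2
  have L2 : ∀ s t, s ≠ t → s / (k + 1) < t / (k + 1) → s % (k + 1) = t % (k + 1) →
      ∀ x ∈ F s, ∀ y ∈ F t, y.2 < x.2 := by
    intro s t hst h1 h2 x hx y hy
    have h3 := hlt s x hx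
    have h4 := hlt t y hy
    have h5 := hne s t hst x hx y hy
    rw [hmem] at hx hy
    have h6 := hM3 x hx.1 y hy.1
    have h7 := (hM2 x hx.1 y hy.1 h5).2.2.2
    have h8 : y.1 < x.2 := hltr _ _ (by omega)
    have h9 : x.1 < y.1 := hltr _ _ (by omega)
    by_contra hc
    exact h6 ⟨h9, h8, by omega⟩
  -- L3
  have L3 : ∀ s t, s ≠ t → s % (k + 1) = t / (k + 1) →
      ∀ x ∈ F s, ∀ y ∈ F t, x.2 < y.1 := by
    intro s t hst h1 x hx y hy
    have h3 := hlt s x hx
    have h4 := hlt t y hy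
    have h5 := hne s t hst x hx y hy
    rw [hmem] at hx hy
    have h6 := hM3 x hx.1 y hy.1
    have h7 := (hM2 x hx.1 y hy.1 h5).2.2.1
    have h8 : x.1 < y.1 := hltr _ _ (by omega)
    have h9 : x.2 < y.2 := hltr _ _ (by omega)
    by_contra hc
    exact h6 ⟨h8, by omega, h9⟩
  have hdm : ∀ s t, s ≠ t → s / (k + 1) = t / (k + 1) → s % (k + 1) ≠ t % (k + 1) := by
    intro s t hst h1 h2
    apply hst
    rw [← Nat.div_add_mod s (k + 1), ← Nat.div_add_mod t (k + 1), h1, h2]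
  -- disjointness
  have dAA : ∀ s t, s ≠ t → ∀ p, foldA_lo (F s) Prod.fst ≤ p → p < foldA_hi (F s) Prod.fst →
      foldA_lo (F t) Prod.fst ≤ p → p < foldA_hi (F t) Prod.fst → False := by
    intro s t hst p h1 h2 h3 h4
    have e1 := hrA s p h1 h2
    have e2 := hrA t p h3 h4
    obtain ⟨⟨x1, hx1, g1⟩, x2, hx2, g2⟩ := foldA_between _ _ h1 h2
    obtain ⟨⟨y1, hy1, g3⟩, y2, hy2, g4⟩ := foldA_between _ _ h3 h4
    have e3 := hdm s t hst (by omega)
    rcases Nat.lt_or_gt_of_ne e3 with h | h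
    · have := L1 s t hst (by omega) h x1 hx1 y2 hy2
      omega
    · have := L1 t s hst.symm (by omega) h y1 hy1 x2 hx2
      omega
  have dBB : ∀ s t, s ≠ t → ∀ p, foldA_lo (F s) Prod.snd ≤ p → p < foldA_hi (F s) Prod.snd →
      foldA_lo (F t) Prod.snd ≤ p → p < foldA_hi (F t) Prod.snd → False := by
    intro s t hst p h1 h2 h3 h4
    have e1 := hrB s p h1 h2
    have e2 := hrB t p h3 h4
    obtain ⟨⟨x1, hx1, g1⟩, x2, hx2, g2⟩ := foldA_between _ _ h1 h2
    obtain ⟨⟨y1, hy1, g3⟩, y2, hy2, g4⟩ := foldA_between _ _ h3 h4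
    have e3 : s / (k + 1) ≠ t / (k + 1) := fun h => hdm s t hst h (by omega)
    rcases Nat.lt_or_gt_of_ne e3 with h | h
    · have := L2 s t hst h (by omega) x1 hx1 y2 hy2
      omega
    · have := L2 t s hst.symm h (by omega) y1 hy1 x2 hx2
      omega
  refine ⟨fun s => foldA_lo (F s) Prod.fst, fun s => foldA_hi (F s) Prod.fst,
    fun s => foldA_lo (F s) Prod.snd, fun s => foldA_hi (F s) Prod.snd, ?_, ?_⟩
  · constructor
    · -- h1
      intro s _
      rcases (F s).eq_empty_or_nonempty with he | ⟨p, hp⟩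
      · simp [foldA_lo, foldA_hi, he]
      · exact le_trans (foldA_lo_le _ _ hp) (foldA_lt_hi _ _ hp).le
    · -- h2
      intro s _
      by_contra hc
      push Not at hc
      obtain ⟨p, hp, h1⟩ := foldA_hi_att (F s) Prod.fst hc
      obtain ⟨q, hq, h2⟩ := foldA_lo_att (F s) Prod.snd hp
      have h3 := hlt s p hp
      rw [hmem] at hp hq
      have h4 : p.1 < q.2 := hltr _ _ (by omega)
      omega
    · -- h3
      intro s _
      rcases (F s).eq_empty_or_nonempty with he | ⟨p, hp⟩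
      · simp [foldA_lo, foldA_hi, he]
      · exact le_trans (foldA_lo_le _ _ hp) (foldA_lt_hi _ _ hp).le
    · -- h4
      intro s _
      apply Finset.sup_le
      intro p hp
      rw [hmem] at hp
      exact (hM1 p hp.1).2.1
    · -- sgn
      intro s _ p q h1 h2 h3 h4
      obtain ⟨⟨x, hx, _⟩, _⟩ := foldA_between _ _ h1 h2
      have e1 := hrA s p h1 h2
      have e2 := hrB s q h3 h4
      rw [hmem] at hx
      have e3 : sg p = sg x.1 := foldA_const sg (by rw [← hr]; omega)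
      have e4 : sg q = sg x.2 := foldA_const sg (by rw [← hr]; omega)
      rw [e3, e4]
      exact (hM1 x hx.1).2.2.2
    · exact fun s _ t _ hst => dAA s t hst
    · -- disAB
      intro s _ t _ hst p h1 h2 h3 h4
      have e1 := hrA s p h1 h2
      have e2 := hrB t p h3 h4
      obtain ⟨⟨x1, hx1, g1⟩, x2, hx2, g2⟩ := foldA_between _ _ h1 h2
      obtain ⟨⟨y1, hy1, g3⟩, y2, hy2, g4⟩ := foldA_between _ _ h3 h4
      have := L3 t s hst.symm (by omega) y2 hy2 x1 hx1
      omega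
    · exact fun s _ t _ hst => dBB s t hst
    · -- ncr
      intro s _ t _ hst p q p' q' h1 h2 h3 h4 h5 h6 h7 h8 ⟨c1, c2, c3⟩
      have e1 := hrA s p h1 h2
      have e2 := hrB s q h3 h4
      have e3 := hrA t p' h5 h6
      have e4 := hrB t q' h7 h8
      obtain ⟨⟨x1, hx1, g1⟩, x2, hx2, g2⟩ := foldA_between _ _ h1 h2
      obtain ⟨⟨x3, hx3, g3⟩, x4, hx4, g4⟩ := foldA_between _ _ h3 h4
      obtain ⟨⟨y1, hy1, g5⟩, y2, hy2, g6⟩ := foldA_between _ _ h5 h6
      obtain ⟨⟨y3, hy3, g7⟩, y4, hy4, g8⟩ := foldA_between _ _ h7 h8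
      have m1 := foldA_r_mono sg c1.le
      have m2 := foldA_r_mono sg c2.le
      have m3 := foldA_r_mono sg c3.le
      rw [← hr] at m1 m2 m3
      have s1 := hlt s x1 hx1
      have s2 := hlt t y1 hy1
      by_cases k1 : s / (k + 1) = t / (k + 1)
      · have k2 := hdm s t hst k1
        have := L1 s t hst k1 (by omega) x1 hx1 y2 hy2
        omega
      · by_cases k2 : s % (k + 1) = t % (k + 1)
        · have := L2 s t hst (by omega) k2 x3 hx3 y4 hy4
          omega
        · by_cases k3 : s % (k + 1) = t / (k + 1)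
          · have := L3 s t hst k3 x4 hx4 y1 hy1
            omega
          · have hx1' := (hmem s x1).mp hx1
            have hy1' := (hmem t y1).mp hy1
            have k4 : x1.1 < y1.1 := hltr _ _ (by omega)
            have k5 : y1.1 < x1.2 := hltr _ _ (by omega)
            have k6 : x1.2 < y1.2 := hltr _ _ (by omega)
            exact hM3 x1 hx1'.1 y1 hy1'.1 ⟨k4, k5, k6⟩
  · intro p hp
    have h1 := foldA_r_le sg n k p.1 hk (by have := hM1 p hp; omega)
    have h2 := foldA_r_le sg n k p.2 hk (by have := hM1 p hp; omega)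
    have e1 : (foldA_r sg p.1 * (k + 1) + foldA_r sg p.2) / (k + 1) = foldA_r sg p.1 := by
      rw [Nat.mul_comm, Nat.mul_add_div (by omega), Nat.div_eq_of_lt (by omega), Nat.add_zero]
    have e2 : (foldA_r sg p.1 * (k + 1) + foldA_r sg p.2) % (k + 1) = foldA_r sg p.2 := by
      rw [Nat.mul_comm, Nat.mul_add_mod, Nat.mod_eq_of_lt (by omega)]
    have hpF : p ∈ F (foldA_r sg p.1 * (k + 1) + foldA_r sg p.2) := by
      rw [hmem, e1, e2]
      exact ⟨hp, rfl, rfl⟩
    refine ⟨foldA_r sg p.1 * (k + 1) + foldA_r sg p.2, ?_, ⟨foldA_lo_le _ _ hpF,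
      foldA_lt_hi _ _ hpF⟩, foldA_lo_le _ _ hpF, foldA_lt_hi _ _ hpF⟩
    nlinarith

end MP8C
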