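import Pool.Agent.Lib.MP_8c24b6_lc.LcsBasic
import Pool.Agent.Lib.MP_8c24b6_lc.Mono

/-!
Modules B1 (strands, 90 min), B2 (cut, 60 min), B3 (lower bound, 75 min).

Function level folding: `col i` = colour (`false` for A, U; `true` for C, G), `sg i` = sign (`true` for
A, C; `false` for G, U).  Two positions are complementary iff `col` agrees and `sg` differs.
-/

namespace MP8C

open Finset

/-- non-crossing matchings of complementary positions `< n` -/
def IsMat (col sg : ℕ → Bool) (n : ℕ) (M : Finset (ℕ × ℕ)) : Prop :=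
  (∀ p ∈ M, p.1 < p.2 ∧ p.2 < n ∧ col p.1 = col p.2 ∧ sg p.1 ≠ sg p.2) ∧
  (∀ p ∈ M, ∀ q ∈ M, p ≠ q → p.1 ≠ q.1 ∧ p.1 ≠ q.2 ∧ p.2 ≠ q.1 ∧ p.2 ≠ q.2) ∧
  (∀ p ∈ M, ∀ q ∈ M, ¬ (p.1 < q.1 ∧ q.1 < p.2 ∧ p.2 < q.2))

/-- number of sign changes among the first `n` positions -/
def schg (sg : ℕ → Bool) (n : ℕ) : ℕ :=
  ((range n).filter (fun i => i + 1 < n ∧ sg i ≠ sg (i + 1))).card

/-- A frame: `N` strands; strand `s` consists of the left interval `[a s, a' s)` and the right interval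
`[b s, b' s)`, of opposite constant signs; different strands are disjoint and do not cross. -/
structure IsFrame (n N : ℕ) (sg : ℕ → Bool) (a a' b b' : ℕ → ℕ) : Prop where
  h1 : ∀ s < N, a s ≤ a' s
  h2 : ∀ s < N, a' s ≤ b s
  h3 : ∀ s < N, b s ≤ b' s
  h4 : ∀ s < N, b' s ≤ n
  sgn : ∀ s < N, ∀ p q, a s ≤ p → p < a' s → b s ≤ q → q < b' s → sg p ≠ sg q
  disAA : ∀ s < N, ∀ t < N, s ≠ t → ∀ p, a s ≤ p → p < a' s → a t ≤ p → p < a' t → False
  disAB : ∀ s < N, ∀ t < N, s ≠ t → ∀ p, a s ≤ p → p < a' s → b t ≤ p → p < b' t → False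
  disBB : ∀ s < N, ∀ t < N, s ≠ t → ∀ p, b s ≤ p → p < b' s → b t ≤ p → p < b' t → False
  ncr : ∀ s < N, ∀ t < N, s ≠ t → ∀ p q p' q', a s ≤ p → p < a' s → b s ≤ q → q < b' s →
    a t ≤ p' → p' < a' t → b t ≤ q' → q' < b' t → ¬ (p < p' ∧ p' < q ∧ q < q')

/-- shrinking the intervals -/
theorem IsFrame.shrink {n N : ℕ} {sg : ℕ → Bool} {a a' b b' : ℕ → ℕ}
    (h : IsFrame n N sg a a' b b') (α α' β β' : ℕ → ℕ) (h1 : ∀ s < N, α s ≤ α' s)
    (h2 : ∀ s < N, α' s ≤ β s) (h3 : ∀ s < N, β s ≤ β' s) (h4 : ∀ s < N, β' s ≤ n)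
    (ha : ∀ s < N, ∀ p, α s ≤ p → p < α' s → a s ≤ p ∧ p < a' s)
    (hb : ∀ s < N, ∀ p, β s ≤ p → p < β' s → b s ≤ p ∧ p < b' s) :
    IsFrame n N sg α α' β β' := by
  constructor
  · exact h1
  · exact h2
  · exact h3
  · exact h4
  · intro s hs p q p1 p2 q1 q2
    exact h.sgn s hs p q (ha s hs p p1 p2).1 (ha s hs p p1 p2).2 (hb s hs q q1 q2).1
      (hb s hs q q1 q2).2
  · intro s hs t ht hst p p1 p2 p3 p4
    exact h.disAA s hs t ht hst p (ha s hs p p1 p2).1 (ha s hs p p1 p2).2 (ha t ht p p3 p4).1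
      (ha t ht p p3 p4).2
  · intro s hs t ht hst p p1 p2 p3 p4
    exact h.disAB s hs t ht hst p (ha s hs p p1 p2).1 (ha s hs p p1 p2).2 (hb t ht p p3 p4).1
      (hb t ht p p3 p4).2
  · intro s hs t ht hst p p1 p2 p3 p4
    exact h.disBB s hs t ht hst p (hb s hs p p1 p2).1 (hb s hs p p1 p2).2 (hb t ht p p3 p4).1
      (hb t ht p p3 p4).2
  · intro s hs t ht hst p q p' q' p1 p2 q1 q2 p3 p4 q3 q4
    exact h.ncr s hs t ht hst p q p' q' (ha s hs p p1 p2).1 (ha s hs p p1 p2).2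
      (hb s hs q q1 q2).1 (hb s hs q q1 q2).2 (ha t ht p' p3 p4).1 (ha t ht p' p3 p4).2
      (hb t ht q' q3 q4).1 (hb t ht q' q3 q4).2

/-- left word of a strand -/
def lw (col : ℕ → Bool) (a : ℕ) : ℕ → Bool := fun x => col (x + a)

/-- right word of a strand, read backwards from `b'` -/
def rw' (col : ℕ → Bool) (b' : ℕ) : ℕ → Bool := fun y => col (b' - 1 - y)

open Classical in
/-- maximal size of a non-crossing matching -/
noncomputable def optf (col sg : ℕ → Bool) (n : ℕ) : ℕ :=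
  ((range n ×ˢ range n).powerset.filter (fun M => IsMat col sg n M)).sup Finset.card

end MP8C
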