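import Pool.Agent.Lib.MP_8c24b6_lc.ParentDefs

/-! Hypotheses on the whole words. -/

namespace MP8C

open Finset

structure GlobalHyp (I S3 u Np n n' : ℕ) (w z w' z' : ℕ → Bool) (P : Finset (ℕ × ℕ))
    (φ : ℕ → ℕ) : Prop where
  hI : 21 ≤ I
  hS3 : 0 < S3
  hu : 2 ^ 56 ≤ u
  hu32 : 32 ∣ u
  hφ0 : φ 0 = 0
  hφ : Monotone φ
  hφn : ∀ k, φ k ≤ n'
  hP : IsAl w' z' 0 (n * 2 ^ I) 0 (n' * 2 ^ I) P
  skw : SameSk w w' I 0 n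
  skz : SameSk z z' I 0 n'
  hn : Np * (2 ^ 56 * (S3 * u)) ≤ n

end MP8C
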