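import Pool.Agent.Lib.MP_8c24b6_lc.Defs

/-!
Module A1 (60 min). Elementary facts on `lcs`.  Everything is finite combinatorics of
alignments: an alignment is a finite set of pairs, strictly increasing in both coordinates
(from `p.1 < q.1 ↔ p.2 < q.2` one gets `p.1 = q.1 ↔ p.2 = q.2`, so both projections are
injective on it).
-/

namespace MP8C

open Finset

theorem IsAl.fst_inj {w z : ℕ → Bool} {a b c d : ℕ} {P : Finset (ℕ × ℕ)}
    (h : IsAl w z a b c d P) {p q : ℕ × ℕ} (hp : p ∈ P) (hq : q ∈ P) (e : p.1 = q.1) : p = q := by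
  have h1 := h.2 p hp q hq
  have h2 := h.2 q hq p hp
  refine Prod.ext e ?_
  have t1 : ¬ p.2 < q.2 := fun t => by have := h1.2 t; omega
  have t2 : ¬ q.2 < p.2 := fun t => by have := h2.2 t; omega
  omega

theorem IsAl.snd_inj {w z : ℕ → Bool} {a b c d : ℕ} {P : Finset (ℕ × ℕ)}
    (h : IsAl w z a b c d P) {p q : ℕ × ℕ} (hp : p ∈ P) (hq : q ∈ P) (e : p.2 = q.2) : p = q := by
  have h1 := h.2 p hp q hq
  have h2 := h.2 q hq p hp
  refine Prod.ext ?_ e
  have t1 : ¬ p.1 < q.1 := fun t => by have := h1.1 t; omega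
  have t2 : ¬ q.1 < p.1 := fun t => by have := h2.1 t; omega
  omega

theorem IsAl.swap {w z : ℕ → Bool} {a b c d : ℕ} {P : Finset (ℕ × ℕ)}
    (h : IsAl w z a b c d P) : IsAl z w c d a b (P.image Prod.swap) := by
  refine ⟨?_, ?_⟩
  · intro p hp
    obtain ⟨q, hq, rfl⟩ := Finset.mem_image.1 hp
    obtain ⟨h1, h2, h3⟩ := h.1 q hq
    exact ⟨h2, h1, h3.symm⟩
  · intro p hp q hq
    obtain ⟨p', hp', rfl⟩ := Finset.mem_image.1 hp
    obtain ⟨q', hq', rfl⟩ := Finset.mem_image.1 hq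
    exact (h.2 p' hp' q' hq').symm

theorem IsAl.card_le_left {w z : ℕ → Bool} {a b c d : ℕ} {P : Finset (ℕ × ℕ)}
    (h : IsAl w z a b c d P) : P.card ≤ b - a := by
  have e : (P.image Prod.fst).card = P.card :=
    Finset.card_image_of_injOn fun p hp q hq e => h.fst_inj hp hq e
  rw [← e, ← Nat.card_Ico a b]
  refine Finset.card_le_card ?_
  intro x hx
  obtain ⟨p, hp, rfl⟩ := Finset.mem_image.1 hx
  exact Finset.mem_Ico.2 (h.1 p hp).1

theorem IsAl.card_le_right {w z : ℕ → Bool} {a b c d : ℕ} {P : Finset (ℕ × ℕ)}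
    (h : IsAl w z a b c d P) : P.card ≤ d - c := by
  have e : (P.image Prod.snd).card = P.card :=
    Finset.card_image_of_injOn fun p hp q hq e => h.snd_inj hp hq e
  rw [← e, ← Nat.card_Ico c d]
  refine Finset.card_le_card ?_
  intro x hx
  obtain ⟨p, hp, rfl⟩ := Finset.mem_image.1 hx
  exact Finset.mem_Ico.2 (h.1 p hp).2.1

/-- the pairs of an alignment that lie in a smaller rectangle form an alignment -/
theorem IsAl.restrict {w z : ℕ → Bool} {a b c d : ℕ} {P : Finset (ℕ × ℕ)}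
    (h : IsAl w z a b c d P) (a' b' c' d' : ℕ) :
    IsAl w z a' b' c' d' (P.filter (fun p => (a' ≤ p.1 ∧ p.1 < b') ∧ (c' ≤ p.2 ∧ p.2 < d'))) := by
  refine ⟨?_, ?_⟩
  · intro p hp
    obtain ⟨hp, h1, h2⟩ := Finset.mem_filter.1 hp
    exact ⟨h1, h2, (h.1 p hp).2.2⟩
  · intro p hp q hq
    exact h.2 p (Finset.mem_filter.1 hp).1 q (Finset.mem_filter.1 hq).1

theorem card_le_lcs {w z : ℕ → Bool} {a b c d : ℕ} {P : Finset (ℕ × ℕ)}
    (h : IsAl w z a b c d P) : P.card ≤ lcs w z a b c d := by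
  classical
  unfold lcs
  refine Finset.le_sup (f := Finset.card) ?_
  rw [Finset.mem_filter, Finset.mem_powerset]
  refine ⟨?_, h⟩
  intro p hp
  obtain ⟨h1, h2, _⟩ := h.1 p hp
  exact Finset.mem_product.2 ⟨Finset.mem_Ico.2 h1, Finset.mem_Ico.2 h2⟩

theorem exists_al (w z : ℕ → Bool) (a b c d : ℕ) :
    ∃ P, IsAl w z a b c d P ∧ P.card = lcs w z a b c d := by
  classical
  have hne : ((Ico a b ×ˢ Ico c d).powerset.filter (fun P => IsAl w z a b c d P)).Nonempty := by
    refine ⟨∅, ?_⟩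
    rw [Finset.mem_filter, Finset.mem_powerset]
    exact ⟨Finset.empty_subset _, by simp [IsAl]⟩
  obtain ⟨P, hP, e⟩ := Finset.exists_mem_eq_sup _ hne Finset.card
  exact ⟨P, (Finset.mem_filter.1 hP).2, by unfold lcs; exact e.symm⟩

theorem lcs_le_left (w z : ℕ → Bool) (a b c d : ℕ) : lcs w z a b c d ≤ b - a := by
  obtain ⟨P, hP, e⟩ := exists_al w z a b c d
  rw [← e]; exact hP.card_le_left

theorem lcs_le_right (w z : ℕ → Bool) (a b c d : ℕ) : lcs w z a b c d ≤ d - c := by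
  obtain ⟨P, hP, e⟩ := exists_al w z a b c d
  rw [← e]; exact hP.card_le_right

theorem lcs_mono (w z : ℕ → Bool) {a b c d a' b' c' d' : ℕ} (ha : a' ≤ a) (hb : b ≤ b')
    (hc : c' ≤ c) (hd : d ≤ d') : lcs w z a b c d ≤ lcs w z a' b' c' d' := by
  obtain ⟨P, hP, e⟩ := exists_al w z a b c d
  rw [← e]
  refine card_le_lcs ⟨?_, hP.2⟩
  intro p hp
  obtain ⟨h1, h2, h3⟩ := hP.1 p hp
  exact ⟨⟨by omega, by omega⟩, ⟨by omega, by omega⟩, h3⟩

theorem lcs_succ_left (w z : ℕ → Bool) (a b c d : ℕ) :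
    lcs w z a (b + 1) c d ≤ lcs w z a b c d + 1 := by
  obtain ⟨P, hP, e⟩ := exists_al w z a (b + 1) c d
  rw [← e, ← Finset.card_filter_add_card_filter_not (s := P) (fun p => p.1 < b)]
  refine Nat.add_le_add ?_ ?_
  · refine card_le_lcs ⟨?_, ?_⟩
    · intro p hp
      obtain ⟨hp, hb⟩ := Finset.mem_filter.1 hp
      obtain ⟨h1, h2, h3⟩ := hP.1 p hp
      exact ⟨⟨h1.1, hb⟩, h2, h3⟩
    · intro p hp q hq
      exact hP.2 p (Finset.mem_filter.1 hp).1 q (Finset.mem_filter.1 hq).1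
  · refine Finset.card_le_one.2 ?_
    intro p hp q hq
    obtain ⟨hp, hb⟩ := Finset.mem_filter.1 hp
    obtain ⟨hq, hb'⟩ := Finset.mem_filter.1 hq
    have := (hP.1 p hp).1
    have := (hP.1 q hq).1
    exact hP.fst_inj hp hq (by omega)

theorem LcsBasic_swap_le (w z : ℕ → Bool) (a b c d : ℕ) :
    lcs w z a b c d ≤ lcs z w c d a b := by
  obtain ⟨P, hP, e⟩ := exists_al w z a b c d
  rw [← e, ← Finset.card_image_of_injective P Prod.swap_injective]
  exact card_le_lcs hP.swap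

theorem lcs_swap (w z : ℕ → Bool) (a b c d : ℕ) : lcs w z a b c d = lcs z w c d a b :=
  le_antisymm (LcsBasic_swap_le w z a b c d) (LcsBasic_swap_le z w c d a b)

theorem lcs_succ_right (w z : ℕ → Bool) (a b c d : ℕ) :
    lcs w z a b c (d + 1) ≤ lcs w z a b c d + 1 := by
  rw [lcs_swap w z a b c (d + 1), lcs_swap w z a b c d]
  exact lcs_succ_left z w c d a b

theorem lcs_add (w z : ℕ → Bool) {a b b' c d d' : ℕ} (hab : a ≤ b) (hb : b ≤ b') (hcd : c ≤ d)
    (hd : d ≤ d') : lcs w z a b c d + lcs w z b b' d d' ≤ lcs w z a b' c d' := by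
  classical
  obtain ⟨P, hP, e⟩ := exists_al w z a b c d
  obtain ⟨Q, hQ, e'⟩ := exists_al w z b b' d d'
  have hdisj : Disjoint P Q := by
    rw [Finset.disjoint_left]
    intro p hp hq
    have h1 := (hP.1 p hp).1
    have h2 := (hQ.1 p hq).1
    omega
  rw [← e, ← e', ← Finset.card_union_of_disjoint hdisj]
  refine card_le_lcs ⟨?_, ?_⟩
  · intro p hp
    rcases Finset.mem_union.1 hp with hp | hp
    · obtain ⟨h1, h2, h3⟩ := hP.1 p hp
      exact ⟨⟨by omega, by omega⟩, ⟨by omega, by omega⟩, h3⟩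
    · obtain ⟨h1, h2, h3⟩ := hQ.1 p hp
      exact ⟨⟨by omega, by omega⟩, ⟨by omega, by omega⟩, h3⟩
  · intro p hp q hq
    rcases Finset.mem_union.1 hp with hp | hp <;> rcases Finset.mem_union.1 hq with hq | hq
    · exact hP.2 p hp q hq
    · have h1 := hP.1 p hp
      have h2 := hQ.1 q hq
      exact ⟨fun _ => by omega, fun _ => by omega⟩
    · have h1 := hQ.1 p hp
      have h2 := hP.1 q hq
      exact ⟨fun _ => by omega, fun _ => by omega⟩
    · exact hQ.2 p hp q hq

theorem lcs_match (w z : ℕ → Bool) {a b c d : ℕ} (hab : a ≤ b) (hcd : c ≤ d) (h : w b = z d) :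
    lcs w z a b c d + 1 ≤ lcs w z a (b + 1) c (d + 1) := by
  have h1 : 1 ≤ lcs w z b (b + 1) d (d + 1) := by
    have : IsAl w z b (b + 1) d (d + 1) {(b, d)} := by
      refine ⟨?_, ?_⟩
      · intro p hp
        rw [Finset.mem_singleton] at hp
        subst hp
        exact ⟨⟨le_rfl, Nat.lt_succ_self _⟩, ⟨le_rfl, Nat.lt_succ_self _⟩, h⟩
      · intro p hp q hq
        rw [Finset.mem_singleton] at hp hq
        subst hp; subst hq
        simp
    simpa using card_le_lcs this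
  have h2 := lcs_add w z hab (Nat.le_succ b) hcd (Nat.le_succ d)
  have e1 : Nat.succ b = b + 1 := rfl
  have e2 : Nat.succ d = d + 1 := rfl
  rw [e1, e2] at h2
  omega

theorem lcs_shift (w z : ℕ → Bool) (s t a b c d : ℕ) :
    lcs (fun x => w (x + s)) (fun y => z (y + t)) a b c d =
      lcs w z (a + s) (b + s) (c + t) (d + t) := by
  classical
  apply le_antisymm
  · obtain ⟨P, hP, e⟩ := exists_al (fun x => w (x + s)) (fun y => z (y + t)) a b c d
    have hinj : Function.Injective (fun p : ℕ × ℕ => (p.1 + s, p.2 + t)) := by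
      intro p q h
      simp only [Prod.mk.injEq] at h
      exact Prod.ext (by omega) (by omega)
    rw [← e, ← Finset.card_image_of_injective P hinj]
    refine card_le_lcs ⟨?_, ?_⟩
    · intro p hp
      obtain ⟨q, hq, rfl⟩ := Finset.mem_image.1 hp
      obtain ⟨h1, h2, h3⟩ := hP.1 q hq
      exact ⟨⟨by dsimp only; omega, by dsimp only; omega⟩,
        ⟨by dsimp only; omega, by dsimp only; omega⟩, h3⟩
    · intro p hp q hq
      obtain ⟨p', hp', rfl⟩ := Finset.mem_image.1 hp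
      obtain ⟨q', hq', rfl⟩ := Finset.mem_image.1 hq
      have := hP.2 p' hp' q' hq'
      dsimp only
      rw [Nat.add_lt_add_iff_right, Nat.add_lt_add_iff_right]
      exact this
  · obtain ⟨P, hP, e⟩ := exists_al w z (a + s) (b + s) (c + t) (d + t)
    have hinj : Set.InjOn (fun p : ℕ × ℕ => (p.1 - s, p.2 - t)) (P : Set (ℕ × ℕ)) := by
      intro p hp q hq h
      simp only [Prod.mk.injEq] at h
      obtain ⟨h1, h2, _⟩ := hP.1 p hp
      obtain ⟨h1', h2', _⟩ := hP.1 q hq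
      exact Prod.ext (by omega) (by omega)
    rw [← e, ← Finset.card_image_of_injOn hinj]
    refine card_le_lcs ⟨?_, ?_⟩
    · intro p hp
      obtain ⟨q, hq, rfl⟩ := Finset.mem_image.1 hp
      obtain ⟨h1, h2, h3⟩ := hP.1 q hq
      refine ⟨⟨by dsimp only; omega, by dsimp only; omega⟩,
        ⟨by dsimp only; omega, by dsimp only; omega⟩, ?_⟩
      have e1 : q.1 - s + s = q.1 := by omega
      have e2 : q.2 - t + t = q.2 := by omega
      dsimp only
      rw [e1, e2]
      exact h3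
    · intro p hp q hq
      obtain ⟨p', hp', rfl⟩ := Finset.mem_image.1 hp
      obtain ⟨q', hq', rfl⟩ := Finset.mem_image.1 hq
      have h := hP.2 p' hp' q' hq'
      obtain ⟨h1, h2, _⟩ := hP.1 p' hp'
      obtain ⟨h1', h2', _⟩ := hP.1 q' hq'
      dsimp only
      constructor
      · intro hh
        have := h.1 (by omega)
        omega
      · intro hh
        have := h.2 (by omega)
        omega

/-- `lcs` depends only on the letters in the two intervals -/
theorem lcs_congr {w z w' z' : ℕ → Bool} {a b c d : ℕ} (hw : ∀ x, a ≤ x → x < b → w x = w' x)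
    (hz : ∀ y, c ≤ y → y < d → z y = z' y) : lcs w z a b c d = lcs w' z' a b c d := by
  apply le_antisymm
  · obtain ⟨P, hP, e⟩ := exists_al w z a b c d
    rw [← e]
    refine card_le_lcs ⟨?_, hP.2⟩
    intro p hp
    obtain ⟨h1, h2, h3⟩ := hP.1 p hp
    refine ⟨h1, h2, ?_⟩
    rw [← hw _ h1.1 h1.2, ← hz _ h2.1 h2.2]
    exact h3
  · obtain ⟨P, hP, e⟩ := exists_al w' z' a b c d
    rw [← e]
    refine card_le_lcs ⟨?_, hP.2⟩
    intro p hp
    obtain ⟨h1, h2, h3⟩ := hP.1 p hp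
    refine ⟨h1, h2, ?_⟩
    rw [hw _ h1.1 h1.2, hz _ h2.1 h2.2]
    exact h3

/-- the rule for the excess: `L(x+1,y+1) = L(x,y) + exc + [w x = z y]` -/
theorem exc_spec (w z : ℕ → Bool) (x y : ℕ) :
    lcs w z 0 (x + 1) 0 (y + 1) = lcs w z 0 x 0 y + exc w z x y +
      (if w x = z y then 1 else 0) := by
  unfold exc
  by_cases h : w x = z y
  · have := lcs_match w z (Nat.zero_le x) (Nat.zero_le y) h
    simp only [h, if_true]
    omega
  · have := lcs_mono w z (le_refl 0) (Nat.le_succ x) (le_refl 0) (Nat.le_succ y)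
    have e1 : Nat.succ x = x + 1 := rfl
    have e2 : Nat.succ y = y + 1 := rfl
    rw [e1, e2] at this
    simp only [h, if_false]
    omega

theorem exc_swap (w z : ℕ → Bool) (x y : ℕ) : exc w z x y = exc z w y x := by
  unfold exc
  rw [lcs_swap w z 0 (x + 1) 0 (y + 1), lcs_swap w z 0 x 0 y]
  by_cases h : w x = z y
  · rw [if_pos h, if_pos h.symm]
  · rw [if_neg h, if_neg (fun h' => h h'.symm)]

end MP8C
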