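import Pool.Agent.Lib.MP_8c24b6_lc.ChildDefs

/-!
Modules A13a (45 min), A13b (45 min), A13c (75 min), assembly A13d (45 min).
THE LEMMA ON ONE PARENT (a block of `H = 2^56` children, placed at the origin).

`T = 2^I`; pieces of `S3` blocks; a child = `u` pieces, `S = S3 u` blocks; parent = `H` children,
`ℓ = H S T`.  `φ` = rounded breakpoints: the piece `j` of `w'` is `[j S3 T, (j+1) S3 T)` and corresponds to
`[φ(j S3) T, φ((j+1) S3) T)` of `z'`.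
-/

namespace MP8C

open Finset

/-- unmatched letters of piece `j` -/
def eP (P : Finset (ℕ × ℕ)) (I S3 : ℕ) (φ : ℕ → ℕ) (j : ℕ) : ℕ :=
  unm P (j * S3 * 2 ^ I) ((j + 1) * S3 * 2 ^ I) (φ (j * S3) * 2 ^ I) (φ ((j + 1) * S3) * 2 ^ I)

/-- imbalance of piece `j` of `w` -/
def imbP (w : ℕ → Bool) (I S3 j : ℕ) : ℕ :=
  S3 * 2 ^ I - 2 * mc w (j * S3 * 2 ^ I) ((j + 1) * S3 * 2 ^ I)

structure ParentHyp (I S3 u : ℕ) (w z w' z' : ℕ → Bool) (P : Finset (ℕ × ℕ)) (φ : ℕ → ℕ) :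
    Prop where
  hI : 21 ≤ I
  hS3 : 0 < S3
  hu : 2 ^ 56 ≤ u
  hu32 : 32 ∣ u
  hφ0 : φ 0 = 0
  hφ : Monotone φ
  hP : ∃ A B C D, IsAl w' z' A B C D P
  skw : SameSk w w' I 0 (2 ^ 56 * (S3 * u))
  skz : SameSk z z' I 0 (φ (2 ^ 56 * (S3 * u)))
  /-- few unmatched letters -/
  hE : 2 ^ 112 * ∑ j ∈ range (2 ^ 56 * u), eP P I S3 φ j ≤ 2 ^ 56 * (S3 * u) * 2 ^ I
  /-- the pieces are balanced -/
  hImb : 2 ^ 56 * ∑ j ∈ range (2 ^ 56 * u), imbP w I S3 j ≤ 2 ^ 56 * (S3 * u) * 2 ^ I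
  /-- at least half of the children are good -/
  hgood : ∃ Gd : Finset ℕ, (∀ c ∈ Gd, c < 2 ^ 56) ∧ 2 ^ 56 ≤ 2 * Gd.card ∧
    ∀ c ∈ Gd, 2 ^ 17 * ∑ j ∈ range u, eP P I S3 φ (c * u + j) ≤ S3 * u * 2 ^ I ∧
      Homog I (S3 * u) (c * (S3 * u)) w

end MP8C
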