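import Mathlib

/-!
MP_8c24b6_lc: the definitions of the final statement.
-/

namespace MP8C

/-- the four letters -/
inductive Base where
  | A | C | G | U
deriving DecidableEq, Fintype

/-- complementary letters: `{A, U}` and `{C, G}` -/
def Complementary (s t : Base) : Prop :=
  (s = Base.A ∧ t = Base.U) ∨ (s = Base.U ∧ t = Base.A) ∨ (s = Base.C ∧ t = Base.G) ∨
    (s = Base.G ∧ t = Base.C)

/-- non-crossing matchings of the RNA string `x` -/
def IsFolding (x : List Base) (M : Finset (ℕ × ℕ)) : Prop :=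
  (∀ p ∈ M, p.1 < p.2 ∧ ∃ s t, x[p.1]? = some s ∧ x[p.2]? = some t ∧ Complementary s t) ∧
  (∀ p ∈ M, ∀ q ∈ M, p ≠ q → p.1 ≠ q.1 ∧ p.1 ≠ q.2 ∧ p.2 ≠ q.1 ∧ p.2 ≠ q.2) ∧
  (∀ p ∈ M, ∀ q ∈ M, ¬ (p.1 < q.1 ∧ q.1 < p.2 ∧ p.2 < q.2))

/-- `OPT(x)`, the maximum size of a non-crossing matching -/
noncomputable def opt (x : List Base) : ℕ := sSup {m | ∃ M, IsFolding x M ∧ M.card = m}

/-- `true` for the letters `A, C`, `false` for `G, U` -/
def positive : Base → Bool
  | .A => true
  | .C => true
  | .G => false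
  | .U => false

/-- number of positions at which the string changes from `{A, C}` to `{G, U}` or back -/
def alternations (x : List Base) : ℕ :=
  ((Finset.range x.length).filter (fun i => i + 1 < x.length ∧
    (x[i]?).map positive ≠ (x[i + 1]?).map positive)).card

/-- a one-pass streaming algorithm with `s` bits of memory, i.e. `2 ^ s` memory states -/
structure StreamAlg (s : ℕ) where
  start : Fin (2 ^ s)
  step : Fin (2 ^ s) → Base → Fin (2 ^ s)
  out : Fin (2 ^ s) → ℝ

/-- the number that the algorithm outputs after one pass over `x` -/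
def StreamAlg.run {s : ℕ} (alg : StreamAlg s) (x : List Base) : ℝ :=
  alg.out (x.foldl alg.step alg.start)

end MP8C
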