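import Pool.Agent.Lib.MP_8c24b6_lc.LcsBasic
import Pool.Agent.Lib.MP_8c24b6_lc.Mono

/-!
Module A6 (60 min). THE ROW INEQUALITY.
Write `L(x,y) = lcs w z 0 x 0 y`.

Facts: (i) if `w x ≠ z y` then `L(x+1,y) - L(x,y) ≤ L(x+1,y+1) - L(x,y) = exc w z x y`;
(ii) `L(x+1,y) ≤ L(x,y) + 1`; (iii) for fixed `x ≤ x'` the function `y ↦ L(x',y) - L(x,y)` changes by
at most one when `y` changes by one (both `L(x,·)` and `L(x',·)` have increments 0 or 1).

Take two rows `y, y'` with `z y = false`, `z y' = true`, at distance `≤ k`, and a window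
`[a, a+ρ)` of `w` with majority letter `σ`.  Choose the row with the letter `!σ`:
if `σ = true` the row `y`, if `σ = false` the row `y'`.  By (i), (ii)
`L(a+ρ, row) - L(a, row) ≤ mc w a (a+ρ) + Σ_x exc w z x row`, and by (iii) the same for the row `y`
with `+ k`.  Sum over the `n` windows.
-/

namespace MP8C

open Finset

theorem row_lcs_add (w z : ℕ → Bool) (x y j : ℕ) :
    lcs w z 0 x 0 (y + j) ≤ lcs w z 0 x 0 y + j := by
  induction j with
  | zero => simp
  | succ j ih =>
    have h := lcs_succ_right w z 0 x 0 (y + j)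
    have e : y + (j + 1) = y + j + 1 := by omega
    rw [e]
    omega

theorem row_step (w z : ℕ → Bool) (a r : ℕ) (j : ℕ) :
    lcs w z 0 (a + j) 0 r ≤ lcs w z 0 a 0 r + cb (z r) w a (a + j) +
      ∑ x ∈ Ico a (a + j), exc w z x r := by
  induction j with
  | zero => simp
  | succ j ih =>
    have e : a + (j + 1) = a + j + 1 := by omega
    rw [e, Finset.sum_Ico_succ_top (by omega)]
    have hcb : cb (z r) w a (a + j + 1) = cb (z r) w a (a + j) + (if w (a + j) = z r then 1 else 0) := by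
      unfold cb
      rw [Finset.card_filter, Finset.card_filter, Finset.sum_Ico_succ_top (by omega)]
    rw [hcb]
    by_cases hw : w (a + j) = z r
    · have h := lcs_succ_left w z 0 (a + j) 0 r
      rw [if_pos hw]
      omega
    · have h := exc_spec w z (a + j) r
      rw [if_neg hw] at h
      have h2 : lcs w z 0 (a + j + 1) 0 r ≤ lcs w z 0 (a + j + 1) 0 (r + 1) :=
        lcs_mono w z le_rfl le_rfl le_rfl (by omega)
      rw [if_neg hw]
      omega

theorem row_quad (w z : ℕ → Bool) (x x' y y' k : ℕ)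
    (h1 : y ≤ y' + k) (h2 : y' ≤ y + k) :
    lcs w z 0 x' 0 y + lcs w z 0 x 0 y' ≤ lcs w z 0 x 0 y + lcs w z 0 x' 0 y' + k := by
  rcases le_total y y' with h | h
  · have a1 : lcs w z 0 x' 0 y ≤ lcs w z 0 x' 0 y' := lcs_mono w z le_rfl le_rfl le_rfl h
    have a2 := row_lcs_add w z x y (y' - y)
    rw [show y + (y' - y) = y' by omega] at a2
    omega
  · have a1 : lcs w z 0 x 0 y' ≤ lcs w z 0 x 0 y := lcs_mono w z le_rfl le_rfl le_rfl h
    have a2 := row_lcs_add w z x' y' (y - y')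
    rw [show y' + (y - y') = y by omega] at a2
    omega

theorem row_window (w z : ℕ → Bool) (a ρ y y' k : ℕ) (hy : z y = false) (hy' : z y' = true)
    (h1 : y ≤ y' + k) (h2 : y' ≤ y + k) :
    lcs w z 0 (a + ρ) 0 y ≤ lcs w z 0 a 0 y + k + mc w a (a + ρ) +
      ∑ x ∈ Ico a (a + ρ), (exc w z x y + exc w z x y') := by
  rw [Finset.sum_add_distrib]
  have hm : mc w a (a + ρ) = cb true w a (a + ρ) ∨ mc w a (a + ρ) = cb false w a (a + ρ) := by
    unfold mc
    omega
  rcases hm with hm | hm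
  · have h := row_step w z a y' ρ
    rw [hy'] at h
    have hq := row_quad w z a (a + ρ) y y' k h1 h2
    omega
  · have h := row_step w z a y ρ
    rw [hy] at h
    omega

theorem row (w z : ℕ → Bool) (x0 n ρ y y' k : ℕ) (hy : z y = false) (hy' : z y' = true)
    (h1 : y ≤ y' + k) (h2 : y' ≤ y + k) :
    lcs w z 0 (x0 + n * ρ) 0 y ≤ lcs w z 0 x0 0 y + n * k + msum w ρ x0 n +
      ∑ x ∈ Ico x0 (x0 + n * ρ), (exc w z x y + exc w z x y') := by
  induction n with
  | zero => simp
  | succ n ih =>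
    have h := row_window w z (x0 + n * ρ) ρ y y' k hy hy' h1 h2
    have e : x0 + n * ρ + ρ = x0 + (n + 1) * ρ := by ring
    rw [e] at h
    have hs : msum w ρ x0 (n + 1) =
        msum w ρ x0 n + mc w (x0 + n * ρ) (x0 + (n + 1) * ρ) := by
      unfold msum
      rw [Finset.sum_range_succ]
    have hI : ∑ x ∈ Ico x0 (x0 + (n + 1) * ρ), (exc w z x y + exc w z x y') =
        ∑ x ∈ Ico x0 (x0 + n * ρ), (exc w z x y + exc w z x y') +
        ∑ x ∈ Ico (x0 + n * ρ) (x0 + (n + 1) * ρ), (exc w z x y + exc w z x y') := by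
      rw [Finset.sum_Ico_consecutive _ (by omega) (by rw [← e]; omega)]
    rw [hs, hI]
    have e2 : (n + 1) * k = n * k + k := by ring
    rw [e2]
    omega

/-- the same for columns (use `lcs_swap`, `exc_swap`) -/
theorem col (w z : ℕ → Bool) (y0 n ρ x x' k : ℕ) (hx : w x = false) (hx' : w x' = true)
    (h1 : x ≤ x' + k) (h2 : x' ≤ x + k) :
    lcs w z 0 x 0 (y0 + n * ρ) ≤ lcs w z 0 x 0 y0 + n * k + msum z ρ y0 n +
      ∑ y ∈ Ico y0 (y0 + n * ρ), (exc w z x y + exc w z x' y) := by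
  have h := row z w y0 n ρ x x' k hx hx' h1 h2
  rw [lcs_swap w z 0 x 0 (y0 + n * ρ), lcs_swap w z 0 x 0 y0]
  have hI : ∑ y ∈ Ico y0 (y0 + n * ρ), (exc w z x y + exc w z x' y) =
      ∑ y ∈ Ico y0 (y0 + n * ρ), (exc z w y x + exc z w y x') := by
    refine Finset.sum_congr rfl fun y _ => ?_
    rw [exc_swap w z x y, exc_swap w z x' y]
  rw [hI]
  exact h

end MP8C
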