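import Pool.Agent.Lib.MP_8c24b6_lc.SelectA

/-!
Module A14b (50 min). Most children of a suitable level are homogeneous.
-/

namespace MP8C

open Finset

theorem Select_l1_nonneg {m : ℕ} (μ ν : Fin m → ℝ) : 0 ≤ l1 μ ν :=
  Finset.sum_nonneg fun _ _ => abs_nonneg _

open Classical in
/-- A14b.  `entropy_select` with `m = I - 8`, `H = 2^56`, `q0 = 3`, `κ = 2^(-26)`: the sum of the squares
is `≤ 2^(-18) N`, a child that is not homogeneous contributes `≥ 2^(-14)`. -/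
theorem select (w : ℕ → Bool) (I J K : ℕ) (hI : 21 ≤ I) (hJ : 0 < J)
    (hJ' : 2 ^ 26 * Real.log (I - 8 : ℕ) ≤ J) :
    ∃ q, 3 < q ∧ q ≤ 3 + J ∧
      16 * ((range (K * (2 ^ 56) ^ (3 + J - q))).filter
        (fun k => ¬ Homog I ((2 ^ 56) ^ q) (k * (2 ^ 56) ^ q) w)).card ≤
        K * (2 ^ 56) ^ (3 + J - q) := by
  have hm : 0 < I - 8 := by omega
  have hκ : Real.log ((I - 8 : ℕ) : ℝ) ≤ (1 / 2 ^ 26 : ℝ) * J := by
    rw [div_mul_eq_mul_div, one_mul, le_div_iff₀ (by positivity)]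
    linarith
  obtain ⟨q, hq1, hq2, hsum⟩ := entropy_select hm (2 ^ 56) (by norm_num) (by positivity)
    (pst w I) (pst_nonneg w I) (fun t => pst_sum w I t hI) 3 J K (1 / 2 ^ 26 : ℝ) hJ hκ
  refine ⟨q, hq1, hq2, ?_⟩
  have h32 : 32 ∣ (2 ^ 56) ^ q := by
    have : (32 : ℕ) ∣ (2 ^ 56) ^ 1 := by norm_num
    exact this.trans (pow_dvd_pow _ (by omega))
  have hpos : 0 < (2 ^ 56) ^ q := by positivity
  have key : ∀ B : Finset ℕ, B ⊆ range (K * (2 ^ 56) ^ (3 + J - q)) →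
      (∀ k ∈ B, ¬ Homog I ((2 ^ 56) ^ q) (k * (2 ^ 56) ^ q) w) →
      16 * B.card ≤ K * (2 ^ 56) ^ (3 + J - q) := by
    intro B hB hBh
    generalize hf : (fun k : ℕ =>
        (l1 (bavg (pst w I) (k * (2 ^ 56) ^ q) ((2 ^ 56) ^ q / 32))
          (bavg (pst w I) (k * (2 ^ 56) ^ q) ((2 ^ 56) ^ q)) ^ 2 +
         l1 (bavg (pst w I) (k * (2 ^ 56) ^ q + ((2 ^ 56) ^ q - (2 ^ 56) ^ q / 32))
            ((2 ^ 56) ^ q / 32))
           (bavg (pst w I) (k * (2 ^ 56) ^ q) ((2 ^ 56) ^ q)) ^ 2)) = f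
    have hsum' : ∑ k ∈ range (K * (2 ^ 56) ^ (3 + J - q)), f k ≤
        256 * (1 / 2 ^ 26 : ℝ) * (K * (2 ^ 56) ^ (3 + J - q) : ℕ) := by
      rw [← hf]
      exact hsum
    have h1 : ∀ k ∈ B, (1 / 2 ^ 14 : ℝ) ≤ f k := by
      intro k hk
      rw [← hf]
      by_contra hlt
      push Not at hlt
      refine hBh k hk (homog_of_l1 w I _ _ hI h32 hpos ?_ ?_)
      · have h0 := Select_l1_nonneg (bavg (pst w I) (k * (2 ^ 56) ^ q) ((2 ^ 56) ^ q / 32))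
          (bavg (pst w I) (k * (2 ^ 56) ^ q) ((2 ^ 56) ^ q))
        have h2 := sq_nonneg (l1 (bavg (pst w I) (k * (2 ^ 56) ^ q +
          ((2 ^ 56) ^ q - (2 ^ 56) ^ q / 32)) ((2 ^ 56) ^ q / 32))
           (bavg (pst w I) (k * (2 ^ 56) ^ q) ((2 ^ 56) ^ q)))
        by_contra hc
        push Not at hc
        have h3 : (1 / 2 ^ 14 : ℝ) ≤ l1 (bavg (pst w I) (k * (2 ^ 56) ^ q) ((2 ^ 56) ^ q / 32))
          (bavg (pst w I) (k * (2 ^ 56) ^ q) ((2 ^ 56) ^ q)) ^ 2 := by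
          have h4 := pow_le_pow_left₀ (by norm_num : (0 : ℝ) ≤ 1 / 128) hc.le 2
          norm_num at h4 ⊢
          linarith
        linarith
      · have h0 := Select_l1_nonneg (bavg (pst w I) (k * (2 ^ 56) ^ q +
          ((2 ^ 56) ^ q - (2 ^ 56) ^ q / 32)) ((2 ^ 56) ^ q / 32))
           (bavg (pst w I) (k * (2 ^ 56) ^ q) ((2 ^ 56) ^ q))
        have h2 := sq_nonneg (l1 (bavg (pst w I) (k * (2 ^ 56) ^ q) ((2 ^ 56) ^ q / 32))
          (bavg (pst w I) (k * (2 ^ 56) ^ q) ((2 ^ 56) ^ q)))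
        by_contra hc
        push Not at hc
        have h3 : (1 / 2 ^ 14 : ℝ) ≤ l1 (bavg (pst w I) (k * (2 ^ 56) ^ q +
          ((2 ^ 56) ^ q - (2 ^ 56) ^ q / 32)) ((2 ^ 56) ^ q / 32))
           (bavg (pst w I) (k * (2 ^ 56) ^ q) ((2 ^ 56) ^ q)) ^ 2 := by
          have h4 := pow_le_pow_left₀ (by norm_num : (0 : ℝ) ≤ 1 / 128) hc.le 2
          norm_num at h4 ⊢
          linarith
        linarith
    have hf0 : ∀ k, 0 ≤ f k := by
      intro k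
      rw [← hf]
      positivity
    have h2 : (B.card : ℝ) * (1 / 2 ^ 14 : ℝ) ≤
        ∑ k ∈ range (K * (2 ^ 56) ^ (3 + J - q)), f k := by
      calc (B.card : ℝ) * (1 / 2 ^ 14 : ℝ) = ∑ _k ∈ B, (1 / 2 ^ 14 : ℝ) := by
            rw [Finset.sum_const, nsmul_eq_mul]
        _ ≤ ∑ k ∈ B, f k := Finset.sum_le_sum h1
        _ ≤ _ := Finset.sum_le_sum_of_subset_of_nonneg hB fun k _ _ => hf0 k
    have h3 := h2.trans hsum'
    generalize K * (2 ^ 56) ^ (3 + J - q) = N at h3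
    have h4 : (16 * B.card : ℝ) ≤ (N : ℝ) := by
      norm_num at h3
      linarith
    exact_mod_cast h4
  exact key _ (filter_subset _ _) (fun k hk => (mem_filter.1 hk).2)

end MP8C
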