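import Pool.Agent.Lib.MP_8c24b6_lc.Entropy
import Pool.Agent.Lib.MP_8c24b6_lc.ChildDefs

/-!
Module A14a (75 min). The probability vectors of the blocks; homogeneity.
-/

namespace MP8C

open Finset

/-- normalised statistics of block `t` at the scale `2^i` -/
noncomputable def gst (w : ℕ → Bool) (I i t : ℕ) : ℝ :=
  (msum w (2 ^ i) (t * 2 ^ I) (2 ^ (I - i)) : ℝ) / 2 ^ I

/-- the probability vector of block `t`: mass `gst i - gst (i-1)` at `1 ≤ i ≤ I - 9`, the rest at 0 -/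
noncomputable def pst (w : ℕ → Bool) (I t : ℕ) (j : Fin (I - 8)) : ℝ :=
  if (j : ℕ) = 0 then 1 - gst w I (I - 9) t else gst w I j t - gst w I (j - 1) t

/-- `msum_mono` with `k = 2`: windows of length `2^(i+1)` against windows of length `2^i` -/
theorem gst_mono (w : ℕ → Bool) (I i t : ℕ) (hi : i + 1 ≤ I) :
    gst w I i t ≤ gst w I (i + 1) t := by
  unfold gst
  have h := msum_mono w 2 (2 ^ i) (t * 2 ^ I) (2 ^ (I - (i + 1)))
  have e1 : 2 ^ (I - (i + 1)) * 2 = 2 ^ (I - i) := by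
    rw [← pow_succ]; congr 1; omega
  have e2 : 2 * 2 ^ i = 2 ^ (i + 1) := by ring
  rw [e1, e2] at h
  have h' : (msum w (2 ^ i) (t * 2 ^ I) (2 ^ (I - i)) : ℝ) ≤
      (msum w (2 ^ (i + 1)) (t * 2 ^ I) (2 ^ (I - (i + 1))) : ℝ) := by exact_mod_cast h
  exact div_le_div_of_nonneg_right h' (by positivity)

theorem selectA_gst_le_one (w : ℕ → Bool) (I i t : ℕ) (hi : i ≤ I) : gst w I i t ≤ 1 := by
  unfold gst
  have h := two_msum_le w (2 ^ i) (t * 2 ^ I) (2 ^ (I - i))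
  have e : 2 ^ (I - i) * 2 ^ i = 2 ^ I := by rw [← pow_add]; congr 1; omega
  rw [e] at h
  have h' : (2 : ℝ) * (msum w (2 ^ i) (t * 2 ^ I) (2 ^ (I - i)) : ℝ) ≤ 2 ^ I := by
    exact_mod_cast h
  rw [div_le_one (by positivity)]
  have h0 : (0 : ℝ) ≤ (msum w (2 ^ i) (t * 2 ^ I) (2 ^ (I - i)) : ℝ) := by positivity
  linarith

theorem selectA_gst_zero (w : ℕ → Bool) (I t : ℕ) : gst w I 0 t = 0 := by
  unfold gst
  rw [pow_zero, msum_one]
  simp

theorem pst_nonneg (w : ℕ → Bool) (I t : ℕ) (j : Fin (I - 8)) : 0 ≤ pst w I t j := by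
  unfold pst
  have hj := j.2
  split_ifs with h
  · have := selectA_gst_le_one w I (I - 9) t (by omega)
    linarith
  · have := gst_mono w I (j - 1) t (by omega)
    have e : (j : ℕ) - 1 + 1 = j := by omega
    rw [e] at this
    linarith

/-- telescoping; `gst w I 0 t = 0` by `msum_one` -/
theorem pst_sum (w : ℕ → Bool) (I t : ℕ) (hI : 21 ≤ I) : ∑ j, pst w I t j = 1 := by
  obtain ⟨m, hm⟩ : ∃ m, I = m + 9 := ⟨I - 9, by omega⟩
  subst hm
  have e : ∑ j : Fin (m + 9 - 8), pst w (m + 9) t j =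
      ∑ j ∈ range (m + 1), (if j = 0 then 1 - gst w (m + 9) m t
        else gst w (m + 9) j t - gst w (m + 9) (j - 1) t) := by
    rw [← Fin.sum_univ_eq_sum_range (fun j => if j = 0 then 1 - gst w (m + 9) m t
        else gst w (m + 9) j t - gst w (m + 9) (j - 1) t)]
    rfl
  rw [e, Finset.sum_range_succ']
  simp only [if_true, Nat.add_eq_zero_iff, one_ne_zero, and_false, if_false, Nat.add_sub_cancel]
  rw [Finset.sum_range_sub (fun j => gst w (m + 9) j t) m, selectA_gst_zero]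
  ring

/-- the sum of the coordinates `1, ..., i` of the probability vector -/
theorem selectA_pst_partial (w : ℕ → Bool) (I t i : ℕ) (hI : 21 ≤ I) (hi : i ≤ I - 9) :
    ∑ j : Fin (I - 8), (if 1 ≤ (j : ℕ) ∧ (j : ℕ) ≤ i then pst w I t j else 0) = gst w I i t := by
  have e : ∑ j : Fin (I - 8), (if 1 ≤ (j : ℕ) ∧ (j : ℕ) ≤ i then pst w I t j else 0) =
      ∑ j ∈ range (I - 8), (if 1 ≤ j ∧ j ≤ i then gst w I j t - gst w I (j - 1) t else 0) := by
    rw [← Fin.sum_univ_eq_sum_range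
      (fun j => if 1 ≤ j ∧ j ≤ i then gst w I j t - gst w I (j - 1) t else 0)]
    apply Finset.sum_congr rfl
    intro j _
    by_cases h : 1 ≤ (j : ℕ) ∧ (j : ℕ) ≤ i
    · rw [if_pos h, if_pos h]
      unfold pst
      rw [if_neg (by omega)]
    · rw [if_neg h, if_neg h]
  rw [e]
  have e2 : ∑ j ∈ range (I - 8), (if 1 ≤ j ∧ j ≤ i then gst w I j t - gst w I (j - 1) t else 0) =
      ∑ j ∈ range (i + 1), (if 1 ≤ j ∧ j ≤ i then gst w I j t - gst w I (j - 1) t else 0) := by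
    symm
    apply Finset.sum_subset
    · intro j hj
      rw [mem_range] at hj ⊢
      omega
    · intro j _ hj
      rw [mem_range] at hj
      rw [if_neg (by omega)]
  rw [e2, Finset.sum_range_succ']
  rw [if_neg (by omega), add_zero]
  have e3 : ∑ k ∈ range i, (if 1 ≤ k + 1 ∧ k + 1 ≤ i then gst w I (k + 1) t -
      gst w I (k + 1 - 1) t else 0) = ∑ k ∈ range i, (gst w I (k + 1) t - gst w I k t) := by
    apply Finset.sum_congr rfl
    intro k hk
    rw [mem_range] at hk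
    rw [if_pos (by omega), Nat.add_sub_cancel]
  rw [e3, Finset.sum_range_sub (fun j => gst w I j t) i, selectA_gst_zero, sub_zero]

/-- the same for an average vector -/
theorem selectA_bavg_partial (w : ℕ → Bool) (I a n i : ℕ) (hI : 21 ≤ I) (hi : i ≤ I - 9)
    (hn : 0 < n) :
    ∑ j : Fin (I - 8), (if 1 ≤ (j : ℕ) ∧ (j : ℕ) ≤ i then bavg (pst w I) a n j else 0) =
      (msum w (2 ^ i) (a * 2 ^ I) (n * 2 ^ (I - i)) : ℝ) / (n * 2 ^ I) := by
  have hn' : (n : ℝ) ≠ 0 := by positivity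
  have e1 : ∑ j : Fin (I - 8), (if 1 ≤ (j : ℕ) ∧ (j : ℕ) ≤ i then bavg (pst w I) a n j else 0) =
      (∑ t ∈ range n, ∑ j : Fin (I - 8),
        (if 1 ≤ (j : ℕ) ∧ (j : ℕ) ≤ i then pst w I (a + t) j else 0)) / n := by
    rw [Finset.sum_comm, Finset.sum_div]
    apply Finset.sum_congr rfl
    intro j _
    by_cases h : 1 ≤ (j : ℕ) ∧ (j : ℕ) ≤ i
    · simp only [if_pos h]
      rfl
    · simp only [if_neg h]
      simp
  rw [e1]
  have e2 : ∑ t ∈ range n, ∑ j : Fin (I - 8),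
        (if 1 ≤ (j : ℕ) ∧ (j : ℕ) ≤ i then pst w I (a + t) j else 0) =
      ∑ t ∈ range n, gst w I i (a + t) :=
    Finset.sum_congr rfl (fun t _ => selectA_pst_partial w I (a + t) i hI hi)
  rw [e2, msum_blocks w I i a n (by omega)]
  unfold gst
  rw [← Finset.sum_div]
  push_cast
  field_simp

/-- transfer of one coordinate sum between two averages -/
theorem selectA_close (w : ℕ → Bool) (I a n b k i : ℕ) (hI : 21 ≤ I) (hi : i ≤ I - 9)
    (hn : 0 < n) (hk : 0 < k) (h : l1 (bavg (pst w I) b k) (bavg (pst w I) a n) ≤ 1 / 128) :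
    (msum w (2 ^ i) (a * 2 ^ I) (n * 2 ^ (I - i)) : ℝ) / (n * 2 ^ I) - 1 / 128 ≤
      (msum w (2 ^ i) (b * 2 ^ I) (k * 2 ^ (I - i)) : ℝ) / (k * 2 ^ I) := by
  rw [← selectA_bavg_partial w I a n i hI hi hn, ← selectA_bavg_partial w I b k i hI hi hk]
  have h2 : ∑ j : Fin (I - 8), (if 1 ≤ (j : ℕ) ∧ (j : ℕ) ≤ i then bavg (pst w I) a n j else 0) -
      ∑ j : Fin (I - 8), (if 1 ≤ (j : ℕ) ∧ (j : ℕ) ≤ i then bavg (pst w I) b k j else 0) ≤
      l1 (bavg (pst w I) b k) (bavg (pst w I) a n) := by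
    unfold l1
    rw [← Finset.sum_sub_distrib]
    apply Finset.sum_le_sum
    intro j _
    by_cases hj : 1 ≤ (j : ℕ) ∧ (j : ℕ) ≤ i
    · rw [if_pos hj, if_pos hj, abs_sub_comm]
      exact le_abs_self _
    · rw [if_neg hj, if_neg hj, sub_zero]
      exact abs_nonneg _
  linarith

/-- the conclusion for one part of the child -/
theorem selectA_part (w : ℕ → Bool) (I S a b i : ℕ) (hI : 21 ≤ I) (hS : 32 ∣ S) (hS0 : 0 < S)
    (hi : i ≤ I - 9) (h : l1 (bavg (pst w I) b (S / 32)) (bavg (pst w I) a S) ≤ 1 / 128)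
    (hm : S * 2 ^ I < 64 * msum w (2 ^ i) (a * 2 ^ I) (S * 2 ^ (I - i))) :
    S * 2 ^ I ≤ 4096 * msum w (2 ^ i) (b * 2 ^ I) ((S / 32) * 2 ^ (I - i)) := by
  obtain ⟨s, rfl⟩ := hS
  have hs : 0 < s := by omega
  have e : 32 * s / 32 = s := by omega
  rw [e] at h ⊢
  have h3 := selectA_close w I a (32 * s) b s i hI hi (by omega) hs h
  have hs' : (0 : ℝ) < s := by exact_mod_cast hs
  have hm' : ((32 * s : ℕ) : ℝ) * 2 ^ I <
      64 * (msum w (2 ^ i) (a * 2 ^ I) (32 * s * 2 ^ (I - i)) : ℝ) := by exact_mod_cast hm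
  have hp : (0 : ℝ) < 2 ^ I := by positivity
  have h4 : (1 : ℝ) / 64 < (msum w (2 ^ i) (a * 2 ^ I) (32 * s * 2 ^ (I - i)) : ℝ) /
      (((32 * s : ℕ) : ℝ) * 2 ^ I) := by
    rw [lt_div_iff₀ (by positivity)]
    linarith
  have h5 : (1 : ℝ) / 128 ≤ (msum w (2 ^ i) (b * 2 ^ I) (s * 2 ^ (I - i)) : ℝ) / (s * 2 ^ I) := by
    linarith
  rw [le_div_iff₀ (by positivity)] at h5
  have h6 : ((32 * s * 2 ^ I : ℕ) : ℝ) ≤
      ((4096 * msum w (2 ^ i) (b * 2 ^ I) (s * 2 ^ (I - i)) : ℕ) : ℝ) := by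
    push_cast
    linarith
  exact_mod_cast h6

/-- A14a.  For a run of `n` blocks starting at `a`, the sum of the coordinates `1, ..., i` of the
average vector `bavg (pst w I) a n` is `msum w (2^i) (a 2^I) (n 2^(I-i)) / (n 2^I)` (`msum_blocks`);
so if the averages over the first part (`H^q/32` blocks) and over the child (`H^q` blocks) are at
`l1`-distance `≤ 1/128`, then `msum > (1/64) s` on the child implies
`msum ≥ (1/64 - 1/128) (s/32)` on the part.  The same for the last part. -/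
theorem homog_of_l1 (w : ℕ → Bool) (I S a : ℕ) (hI : 21 ≤ I) (hS : 32 ∣ S) (hS0 : 0 < S)
    (h1 : l1 (bavg (pst w I) a (S / 32)) (bavg (pst w I) a S) ≤ 1 / 128)
    (h2 : l1 (bavg (pst w I) (a + (S - S / 32)) (S / 32)) (bavg (pst w I) a S) ≤ 1 / 128) :
    Homog I S a w := by
  intro i hi hm
  exact ⟨selectA_part w I S a a i hI hS hS0 hi h1 hm,
    selectA_part w I S a (a + (S - S / 32)) i hI hS hS0 hi h2 hm⟩

end MP8C
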