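import Pool.Agent.Lib.MP_8c24b6_lc.Bridge

/-! THE SKETCH, computed from left to right. -/

namespace MP8C

open Finset

/-- sum of the minority counts of those windows of length `2^i` of the block `t` of length `2^I` that
are completely read -/
def doneSum (I : ℕ) (x : List Base) (t i : ℕ) : ℕ :=
  ∑ j ∈ (range (2 ^ (I - i))).filter (fun j => t * 2 ^ I + (j + 1) * 2 ^ i ≤ x.length),
    mc (colL x) (t * 2 ^ I + j * 2 ^ i) (t * 2 ^ I + (j + 1) * 2 ^ i)

/-- number of `true` colours in the part already read of the current window of length `2^i` -/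
def partCount (x : List Base) (i : ℕ) : ℕ :=
  cb true (colL x) (x.length / 2 ^ i * 2 ^ i) x.length

/-- number of `true` colours in the part already read of the window `[j L, (j+1) L)` -/
def winCol (L : ℕ) (x : List Base) (j : ℕ) : ℕ :=
  cb true (colL x) (j * L) (min ((j + 1) * L) x.length)

/-- number of positive letters in the part already read of the window `[j L, (j+1) L)` -/
def winSg (L : ℕ) (x : List Base) (j : ℕ) : ℕ :=
  cb true (sgL x) (j * L) (min ((j + 1) * L) x.length)

/-- the sketch: a function of a code; `B` = number of blocks that are stored.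
Codes: `(0,_,_)` length; `(1,r,_)` number of letters number `r`; `(2,t,i)` `doneSum`; `(3,i,_)`
`partCount`; `(4,j,_)` colours in windows of length `2^(I-20)`; `(5,t,_)` signs in blocks. -/
def sketch (I : ℕ) (x : List Base) : ℕ × ℕ × ℕ → ℕ
  | (0, _, _) => x.length
  | (1, 0, _) => x.count Base.A
  | (1, 1, _) => x.count Base.C
  | (1, 2, _) => x.count Base.G
  | (1, 3, _) => x.count Base.U
  | (1, _, _) => 0
  | (2, t, i) => if i ≤ I then doneSum I x t i else 0
  | (3, i, _) => if i ≤ I then partCount x i else 0
  | (4, j, _) => winCol (2 ^ (I - 20)) x j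
  | (5, t, _) => winSg (2 ^ I) x t
  | (_, _, _) => 0

end MP8C
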