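import Pool.Agent.Lib.MP_8c24b6_lc.FoldDefs
import Pool.Agent.Lib.MP_8c24b6_lc.MonoSk

/-! Module B4 (60 min): reversed words, sign-purity. -/

namespace MP8C

open Finset

theorem SoundA_cb_rev (β : Bool) (w : ℕ → Bool) {a b B : ℕ} (hb : b ≤ B) :
    cb β (rw' w B) a b = cb β w (B - b) (B - a) := by
  unfold cb rw'
  refine Finset.card_bij' (fun y _ => B - 1 - y) (fun x _ => B - 1 - x) ?_ ?_ ?_ ?_
  · intro y hy
    simp only [mem_filter, mem_Ico] at hy ⊢
    exact ⟨⟨by omega, by omega⟩, hy.2⟩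
  · intro x hx
    simp only [mem_filter, mem_Ico] at hx ⊢
    refine ⟨⟨by omega, by omega⟩, ?_⟩
    have : B - 1 - (B - 1 - x) = x := by omega
    rw [this]
    exact hx.2
  · intro y hy
    simp only [mem_filter, mem_Ico] at hy
    omega
  · intro x hx
    simp only [mem_filter, mem_Ico] at hx
    omega

theorem SoundA_mc_rev (w : ℕ → Bool) {a b B : ℕ} (hb : b ≤ B) :
    mc (rw' w B) a b = mc w (B - b) (B - a) := by
  unfold mc
  rw [SoundA_cb_rev _ _ hb, SoundA_cb_rev _ _ hb]

theorem SoundA_msum_rev (w : ℕ → Bool) {r a n c B : ℕ} (h : B = a + n * r + c) :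
    msum (rw' w B) r a n = msum w r c n := by
  unfold msum
  rw [← Finset.sum_range_reflect]
  refine Finset.sum_congr rfl fun j hj => ?_
  have hj' : j < n := Finset.mem_range.1 hj
  obtain ⟨e, he⟩ : ∃ e, n = j + 1 + e := ⟨n - (j + 1), by omega⟩
  have e1 : n - 1 - j = e := by omega
  have e2 : n * r = j * r + r + e * r := by rw [he]; ring
  have e3 : (e + 1) * r = e * r + r := by ring
  have e4 : (j + 1) * r = j * r + r := by ring
  rw [e1, SoundA_mc_rev _ (by rw [h, e3, e2]; omega)]
  have e5 : B - (a + (e + 1) * r) = c + j * r := by rw [h, e3, e2]; omega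
  have e6 : B - (a + e * r) = c + (j + 1) * r := by rw [h, e4, e2]; omega
  rw [e5, e6]

/-- B4. the statistics of the reversed word: block `t` of `y ↦ w (m T - 1 - y)` is the reversed block
`m - 1 - t` of `w` (the windows inside are reversed too; the minority count of a reversed window is the
same) -/
theorem SameSk.reverse {w w' : ℕ → Bool} {I lo hi m : ℕ} (h : SameSk w w' I lo hi)
    (hm : m ≤ hi) :
    SameSk (rw' w (m * 2 ^ I)) (rw' w' (m * 2 ^ I)) I 0 (m - lo) := by
  intro t _ ht
  obtain ⟨u, hu⟩ : ∃ u, m = t + 1 + u := ⟨m - (t + 1), by omega⟩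
  obtain ⟨h1, h2⟩ := h u (by omega) (by omega)
  have hT : m * 2 ^ I = t * 2 ^ I + 2 ^ I + u * 2 ^ I := by rw [hu]; ring
  refine ⟨fun i hi' => ?_, fun j hj => ?_⟩
  · have hpow : 2 ^ (I - i) * 2 ^ i = 2 ^ I := by
      rw [← pow_add]
      congr 1
      omega
    rw [SoundA_msum_rev w (c := u * 2 ^ I) (by rw [hpow, hT]),
      SoundA_msum_rev w' (c := u * 2 ^ I) (by rw [hpow, hT])]
    exact h1 i hi'
  · have hpow : 2 ^ (I - (I - 20)) * 2 ^ (I - 20) = 2 ^ I := by
      rw [← pow_add]
      congr 1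
      omega
    generalize hn : 2 ^ (I - (I - 20)) = n at hj hpow h2
    generalize hr : 2 ^ (I - 20) = r at hpow h2 ⊢
    obtain ⟨e, he⟩ : ∃ e, n = j + 1 + e := ⟨n - (j + 1), by omega⟩
    have e2 : 2 ^ I = j * r + r + e * r := by rw [← hpow, he]; ring
    have e3 : (e + 1) * r = e * r + r := by ring
    have e4 : (j + 1) * r = j * r + r := by ring
    have hle : t * 2 ^ I + (j + 1) * r ≤ m * 2 ^ I := by
      rw [hT, e4]
      have : j * r + r ≤ 2 ^ I := by rw [e2]; omega
      omega
    rw [SoundA_cb_rev true w hle, SoundA_cb_rev true w' hle]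
    have e5 : m * 2 ^ I - (t * 2 ^ I + (j + 1) * r) = u * 2 ^ I + e * r := by
      rw [hT, e4]
      generalize t * 2 ^ I = x
      generalize u * 2 ^ I = y
      rw [e2]
      omega
    have e6 : m * 2 ^ I - (t * 2 ^ I + j * r) = u * 2 ^ I + (e + 1) * r := by
      rw [hT, e3]
      generalize t * 2 ^ I = x
      generalize u * 2 ^ I = y
      rw [e2]
      omega
    rw [e5, e6]
    exact h2 e (by omega)

/-- B4. sign-purity is visible in the number of positive letters of the blocks -/
theorem pure_of_count {sg sg' : ℕ → Bool} {T t : ℕ}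
    (h : cb true sg (t * T) ((t + 1) * T) = cb true sg' (t * T) ((t + 1) * T)) (σ : Bool)
    (h' : ∀ p, t * T ≤ p → p < (t + 1) * T → sg' p = σ) :
    ∀ p, t * T ≤ p → p < (t + 1) * T → sg p = σ := by
  intro p hp1 hp2
  cases σ with
  | true =>
    have h1 : cb true sg' (t * T) ((t + 1) * T) = (Ico (t * T) ((t + 1) * T)).card := by
      unfold cb
      rw [Finset.filter_true_of_mem]
      intro x hx
      rw [mem_Ico] at hx
      exact h' x hx.1 hx.2
    rw [h1] at h
    unfold cb at h
    have h2 := Finset.filter_card_eq h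
    exact h2 p (mem_Ico.2 ⟨hp1, hp2⟩)
  | false =>
    have h1 : cb true sg' (t * T) ((t + 1) * T) = 0 := by
      unfold cb
      rw [Finset.card_eq_zero, Finset.filter_eq_empty_iff]
      intro x hx
      rw [mem_Ico] at hx
      rw [h' x hx.1 hx.2]
      decide
    rw [h1] at h
    unfold cb at h
    rw [Finset.card_eq_zero, Finset.filter_eq_empty_iff] at h
    have h2 := h (mem_Ico.2 ⟨hp1, hp2⟩)
    simpa using h2

end MP8C
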