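import Pool.Agent.Lib.MP_8c24b6_lc.LcsBasic
import Pool.Agent.Lib.MP_8c24b6_lc.Mono

/-!
Module A9a (50 min). THE STRIP around the diagonal: telescoping.
-/

namespace MP8C

open Finset

/-- cells of the strip -/
def stripCells (ℓ ℓ' D : ℕ) : Finset (ℕ × ℕ) :=
  (range ℓ ×ˢ range ℓ').filter (fun p => p.1 ≤ p.2 + D ∧ p.2 ≤ p.1 + D)

/-- the diagonals of the strip -/
private theorem stripA_fiber (ℓ ℓ' D k : ℕ) (hk : k < 2 * D + 1) :
    (stripCells ℓ ℓ' D).filter (fun p => p.2 + D - p.1 = k) =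
      (range (min (ℓ - (D - k)) (ℓ' - (k - D)))).image
        (fun i => ((i + (D - k), i + (k - D)) : ℕ × ℕ)) := by
  ext ⟨x, y⟩
  rw [stripCells, mem_filter, mem_filter, mem_product, mem_range, mem_range, mem_image]
  constructor
  · rintro ⟨⟨⟨h1, h2⟩, h3, h4⟩, h5⟩
    dsimp only at h1 h2 h3 h4 h5
    refine ⟨x - (D - k), ?_, ?_⟩
    · rw [mem_range]
      omega
    · rw [Prod.mk.injEq]
      omega
  · rintro ⟨i, hi, h⟩
    rw [mem_range] at hi
    rw [Prod.mk.injEq] at h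
    dsimp only
    omega

private theorem stripA_sum (ℓ ℓ' D : ℕ) (f : ℕ × ℕ → ℕ) :
    ∑ p ∈ stripCells ℓ ℓ' D, f p = ∑ k ∈ range (2 * D + 1),
      ∑ i ∈ range (min (ℓ - (D - k)) (ℓ' - (k - D))), f (i + (D - k), i + (k - D)) := by
  rw [← sum_fiberwise_of_maps_to (s := stripCells ℓ ℓ' D) (t := range (2 * D + 1))
    (g := fun p => p.2 + D - p.1)]
  · refine sum_congr rfl (fun k hk => ?_)
    rw [mem_range] at hk
    rw [stripA_fiber ℓ ℓ' D k hk, sum_image]
    intro i _ j _ hij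
    rw [Prod.mk.injEq] at hij
    omega
  · intro p hp
    rw [stripCells, mem_filter] at hp
    rw [mem_range]
    omega

private theorem stripA_tel (w z : ℕ → Bool) (a b m : ℕ) :
    ∑ i ∈ range m, (exc w z (i + a) (i + b) + (if w (i + a) = z (i + b) then 1 else 0)) +
      lcs w z 0 a 0 b = lcs w z 0 (m + a) 0 (m + b) := by
  induction m with
  | zero => simp
  | succ m ih =>
    rw [sum_range_succ, show m + 1 + a = m + a + 1 by omega, show m + 1 + b = m + b + 1 by omega,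
      exc_spec, ← ih]
    ring

/-- A9a.  Telescoping along the `2D+1` diagonals `y - x = const`: on each of them
`Σ (exc + [w x = z y]) = L(end) - L(start) ≤ L(ℓ,ℓ')`.  (Group the cells by
`p.2 + D - p.1 ∈ range (2D+1)`; or by induction.) -/
theorem strip_telescope (w z : ℕ → Bool) (ℓ ℓ' D : ℕ) :
    ∑ p ∈ stripCells ℓ ℓ' D, (exc w z p.1 p.2 + (if w p.1 = z p.2 then 1 else 0)) ≤
      (2 * D + 1) * lcs w z 0 ℓ 0 ℓ' := by
  rw [stripA_sum ℓ ℓ' D (fun p => exc w z p.1 p.2 + (if w p.1 = z p.2 then 1 else 0))]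
  have h : ∀ k ∈ range (2 * D + 1), ∑ i ∈ range (min (ℓ - (D - k)) (ℓ' - (k - D))),
      (exc w z (i + (D - k)) (i + (k - D)) +
        (if w (i + (D - k)) = z (i + (k - D)) then 1 else 0)) ≤ lcs w z 0 ℓ 0 ℓ' := by
    intro k _
    rcases Nat.eq_zero_or_pos (min (ℓ - (D - k)) (ℓ' - (k - D))) with h0 | h0
    · rw [h0, range_zero, sum_empty]
      exact Nat.zero_le _
    · have h1 := stripA_tel w z (D - k) (k - D) (min (ℓ - (D - k)) (ℓ' - (k - D)))
      have h2 := lcs_mono w z (le_refl 0)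
        (show min (ℓ - (D - k)) (ℓ' - (k - D)) + (D - k) ≤ ℓ by omega) (le_refl 0)
        (show min (ℓ - (D - k)) (ℓ' - (k - D)) + (k - D) ≤ ℓ' by omega)
      omega
  refine (sum_le_sum h).trans ?_
  rw [sum_const, card_range, smul_eq_mul]

/-- A9a.  Every diagonal has at least `min ℓ ℓ' - D` cells. -/
theorem strip_card (ℓ ℓ' D : ℕ) :
    (2 * D + 1) * (min ℓ ℓ' - D) ≤ (stripCells ℓ ℓ' D).card := by
  have h1 := stripA_sum ℓ ℓ' D (fun _ => 1)
  rw [← card_eq_sum_ones] at h1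
  rw [h1]
  have h2 : ∀ k ∈ range (2 * D + 1), min ℓ ℓ' - D ≤
      ∑ _i ∈ range (min (ℓ - (D - k)) (ℓ' - (k - D))), 1 := by
    intro k hk
    rw [mem_range] at hk
    rw [sum_const, card_range, smul_eq_mul, mul_one]
    omega
  refine le_trans ?_ (sum_le_sum h2)
  rw [sum_const, card_range, smul_eq_mul]

end MP8C
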