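import Pool.Agent.Lib.MP_8c24b6_lc.StripA

/-!
Module A9b (75 min). THE STRIP around the diagonal: agreements.
-/

namespace MP8C

open Finset

private lemma stripB_pieces {ψ : ℕ → ℕ} {G M : ℕ} (h0 : ψ 0 = 0) (hm : Monotone ψ)
    (hM : ∀ j < G, ψ (j + 1) - ψ j ≤ M) (a b : ℕ) (hab : a ≤ b) (hb : b ≤ ψ G) :
    ∃ j0 j1, j0 ≤ j1 ∧ j1 ≤ G ∧ (j0 < j1 → a ≤ ψ j0 ∧ ψ j1 ≤ b) ∧
      b - a ≤ 2 * M + (ψ j1 - ψ j0) := by
  classical
  have e0 : ∃ j, a ≤ ψ j := ⟨G, hab.trans hb⟩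
  obtain ⟨j0, hj0, hj0', hj0G⟩ : ∃ j0, a ≤ ψ j0 ∧ (∀ j < j0, ψ j < a) ∧ j0 ≤ G :=
    ⟨Nat.find e0, Nat.find_spec e0, fun j hj => by
      have := Nat.find_min e0 hj
      omega, Nat.find_min' e0 (hab.trans hb)⟩
  obtain ⟨j1, hj1, hj1', hj1G⟩ : ∃ j1, ψ j1 ≤ b ∧ (∀ j, j1 < j → j ≤ G → b < ψ j) ∧ j1 ≤ G := by
    refine ⟨Nat.findGreatest (fun j => ψ j ≤ b) G, ?_, ?_, Nat.findGreatest_le _⟩
    · exact Nat.findGreatest_spec (P := fun j => ψ j ≤ b) (m := 0) (Nat.zero_le _)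
        (by rw [h0]; exact Nat.zero_le _)
    · intro j h1 h2
      have := Nat.findGreatest_is_greatest (P := fun j => ψ j ≤ b) h1 h2
      omega
  have ha : ψ j0 ≤ a + M := by
    rcases Nat.eq_zero_or_pos j0 with h | h
    · rw [h, h0]; omega
    · obtain ⟨k, hk⟩ : ∃ k, j0 = k + 1 := ⟨j0 - 1, by omega⟩
      have h1 := hj0' k (by omega)
      have h2 := hM k (by omega)
      rw [hk]
      omega
  have hb' : b ≤ ψ j1 + M := by
    rcases Nat.eq_or_lt_of_le hj1G with h | h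
    · rw [h]; omega
    · have h1 := hj1' (j1 + 1) (by omega) (by omega)
      have h2 := hM j1 h
      omega
  by_cases h : j0 ≤ j1
  · exact ⟨j0, j1, h, hj1G, fun _ => ⟨hj0, hj1⟩, by have := hm h; omega⟩
  · refine ⟨0, 0, le_rfl, Nat.zero_le _, fun h => absurd h (lt_irrefl _), ?_⟩
    have h1 := hj0' j1 (by omega)
    omega

private lemma stripB_sum (z : ℕ → Bool) (β : Bool) {ψ : ℕ → ℕ} (hm : Monotone ψ) (j0 : ℕ) :
    ∀ j1, j0 ≤ j1 → ψ j1 - ψ j0 ≤ 2 * cb β z (ψ j0) (ψ j1) +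
      ∑ j ∈ Ico j0 j1, ((ψ (j + 1) - ψ j) - 2 * mc z (ψ j) (ψ (j + 1))) := by
  intro j1 h
  induction j1, h using Nat.le_induction with
  | base => simp
  | succ k hk ih =>
    rw [Finset.sum_Ico_succ_top hk]
    have h1 := hm hk
    have h2 : ψ k ≤ ψ (k + 1) := hm (Nat.le_succ k)
    have h3 := cb_add β z h1 h2
    have h4 : mc z (ψ k) (ψ (k + 1)) ≤ cb β z (ψ k) (ψ (k + 1)) := by
      unfold mc
      cases β
      · exact min_le_right _ _
      · exact min_le_left _ _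
    omega

private lemma stripB_row (z : ℕ → Bool) (β : Bool) {ψ : ℕ → ℕ} {G M : ℕ} (h0 : ψ 0 = 0)
    (hm : Monotone ψ) (hM : ∀ j < G, ψ (j + 1) - ψ j ≤ M) (a b : ℕ) (hb : b ≤ ψ G) :
    b - a ≤ 2 * cb β z a b + 2 * M +
      ∑ j ∈ range G, (if a ≤ ψ j ∧ ψ (j + 1) ≤ b then
        ((ψ (j + 1) - ψ j) - 2 * mc z (ψ j) (ψ (j + 1))) else 0) := by
  by_cases hab : a ≤ b
  · obtain ⟨j0, j1, h1, h2, h3, h4⟩ := stripB_pieces h0 hm hM a b hab hb
    have h5 := stripB_sum z β hm j0 j1 h1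
    rcases Nat.eq_or_lt_of_le h1 with h | h
    · subst h
      omega
    · obtain ⟨h6, h7⟩ := h3 h
      have h8 : cb β z (ψ j0) (ψ j1) ≤ cb β z a b := cb_mono β z h6 h7
      have h9 : ∑ j ∈ Ico j0 j1, ((ψ (j + 1) - ψ j) - 2 * mc z (ψ j) (ψ (j + 1))) ≤
          ∑ j ∈ range G, (if a ≤ ψ j ∧ ψ (j + 1) ≤ b then
            ((ψ (j + 1) - ψ j) - 2 * mc z (ψ j) (ψ (j + 1))) else 0) := by
        calc ∑ j ∈ Ico j0 j1, ((ψ (j + 1) - ψ j) - 2 * mc z (ψ j) (ψ (j + 1)))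
            = ∑ j ∈ Ico j0 j1, (if a ≤ ψ j ∧ ψ (j + 1) ≤ b then
                ((ψ (j + 1) - ψ j) - 2 * mc z (ψ j) (ψ (j + 1))) else 0) := by
              refine Finset.sum_congr rfl fun j hj => ?_
              rw [Finset.mem_Ico] at hj
              have g1 := hm hj.1
              have g2 : ψ (j + 1) ≤ ψ j1 := hm (by omega)
              rw [if_pos ⟨by omega, by omega⟩]
          _ ≤ _ := by
              refine Finset.sum_le_sum_of_subset_of_nonneg ?_ (fun _ _ _ => Nat.zero_le _)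
              intro j hj
              rw [Finset.mem_Ico] at hj
              rw [Finset.mem_range]
              omega
      omega
  · omega

private lemma stripB_fib (ℓ' D x : ℕ) (q : ℕ → Prop) [DecidablePred q] :
    (∑ y ∈ range ℓ', if (x ≤ y + D ∧ y ≤ x + D) ∧ q y then 1 else 0) =
      ((Ico (x - D) (min ℓ' (x + D + 1))).filter q).card := by
  rw [← Finset.card_filter]
  congr 1
  ext y
  simp only [Finset.mem_filter, Finset.mem_range, Finset.mem_Ico, lt_min_iff]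
  constructor
  · rintro ⟨h1, ⟨h2, h3⟩, h4⟩
    exact ⟨⟨by omega, h1, by omega⟩, h4⟩
  · rintro ⟨⟨h1, h2, h3⟩, h4⟩
    exact ⟨h2, ⟨by omega, by omega⟩, h4⟩

/-- A9b.  Agreements in the strip.  For `x < ℓ` the window `win = {y < ℓ' : |x - y| ≤ D}` is an
interval; it contains at least `mc z win` letters equal to `w x`.  `z` on `[0,ℓ')` is cut by
`0 = ψ 0 ≤ ψ 1 ≤ ... ≤ ψ G = ℓ'` in pieces of length `≤ M`; `|win| - 2 mc z win ≤ 2 M + Σ` of
`(length - 2 mc)` over the pieces inside `win` (superadditivity `mc_add_le` and `mc_mono`; at most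
two pieces meet `win` without being inside; if `win` is inside one piece then `|win| ≤ M`); a
non-empty piece lies in `win` for at most `2D+1` values of `x`. -/
theorem strip_equal (w z : ℕ → Bool) (ℓ ℓ' D M G : ℕ) (ψ : ℕ → ℕ) (h0 : ψ 0 = 0)
    (hG : ψ G = ℓ') (hm : Monotone ψ) (hM : ∀ j < G, ψ (j + 1) - ψ j ≤ M) :
    (stripCells ℓ ℓ' D).card ≤
      2 * ((stripCells ℓ ℓ' D).filter (fun p => w p.1 = z p.2)).card + 2 * ℓ * M +
        (2 * D + 1) * ∑ j ∈ range G, ((ψ (j + 1) - ψ j) - 2 * mc z (ψ j) (ψ (j + 1))) := by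
  have hc1 : (stripCells ℓ ℓ' D).card =
      ∑ x ∈ range ℓ, (min ℓ' (x + D + 1) - (x - D)) := by
    unfold stripCells
    rw [Finset.card_filter, Finset.sum_product]
    refine Finset.sum_congr rfl fun x _ => ?_
    have := stripB_fib ℓ' D x (fun _ => True)
    simp only [and_true, Finset.filter_true, Nat.card_Ico] at this
    exact this
  have hc2 : ((stripCells ℓ ℓ' D).filter (fun p => w p.1 = z p.2)).card =
      ∑ x ∈ range ℓ, cb (w x) z (x - D) (min ℓ' (x + D + 1)) := by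
    unfold stripCells
    rw [Finset.filter_filter, Finset.card_filter, Finset.sum_product]
    refine Finset.sum_congr rfl fun x _ => ?_
    have := stripB_fib ℓ' D x (fun y => w x = z y)
    simp only at this ⊢
    rw [this]
    unfold cb
    congr 1
    refine Finset.filter_congr fun y _ => ?_
    exact eq_comm
  have hrow : ∀ x ∈ range ℓ, min ℓ' (x + D + 1) - (x - D) ≤
      2 * cb (w x) z (x - D) (min ℓ' (x + D + 1)) + 2 * M +
      ∑ j ∈ range G, (if x - D ≤ ψ j ∧ ψ (j + 1) ≤ min ℓ' (x + D + 1) then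
        ((ψ (j + 1) - ψ j) - 2 * mc z (ψ j) (ψ (j + 1))) else 0) := by
    intro x _
    exact stripB_row z (w x) h0 hm hM (x - D) (min ℓ' (x + D + 1))
      (by rw [hG]; exact min_le_left _ _)
  have hsum := Finset.sum_le_sum hrow
  rw [← hc1, Finset.sum_add_distrib, Finset.sum_add_distrib, ← Finset.mul_sum, ← hc2,
    Finset.sum_const, Finset.card_range, smul_eq_mul, Finset.sum_comm] at hsum
  have hlast : ∑ j ∈ range G, ∑ x ∈ range ℓ,
      (if x - D ≤ ψ j ∧ ψ (j + 1) ≤ min ℓ' (x + D + 1) then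
        ((ψ (j + 1) - ψ j) - 2 * mc z (ψ j) (ψ (j + 1))) else 0) ≤
      (2 * D + 1) * ∑ j ∈ range G, ((ψ (j + 1) - ψ j) - 2 * mc z (ψ j) (ψ (j + 1))) := by
    rw [Finset.mul_sum]
    refine Finset.sum_le_sum fun j _ => ?_
    set e := (ψ (j + 1) - ψ j) - 2 * mc z (ψ j) (ψ (j + 1)) with he
    rcases Nat.eq_zero_or_pos e with h | h
    · rw [h]; simp
    · have hlt : ψ j < ψ (j + 1) := by omega
      rw [← Finset.sum_filter, Finset.sum_const, smul_eq_mul]
      refine Nat.mul_le_mul_right _ ?_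
      refine (Finset.card_le_card (t := Icc (ψ j - D) (ψ j + D)) ?_).trans ?_
      · intro x hx
        rw [Finset.mem_filter, Finset.mem_range, le_min_iff] at hx
        rw [Finset.mem_Icc]
        omega
      · rw [Nat.card_Icc]
        omega
  have e1 : ℓ * (2 * M) = 2 * ℓ * M := by ring
  rw [e1] at hsum
  exact hsum.trans (by omega)

end MP8C
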