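import Pool.Agent.Lib.MP_8c24b6_lc.LcsBasic
import Pool.Agent.Lib.MP_8c24b6_lc.Mono

/-!
Module A4 (75 min). TRANSFER LEMMA.

Let `P` be an alignment between `w` on `[a, a + n * Lam)`, cut in `n` windows `W_k` of length `Lam`,
and `z` on `[c, c + m * lam)`, cut in `m` windows `V_j` of length `lam`.
For a window `V` let `P_V` be the pairs of `P` with second coordinate in `V`.

* If `P_V` is empty then `mc z V ≤ |V| =` number of unmatched letters of `V`.
* If all first coordinates of `P_V` lie in one `W_k`: let `β` be the minority letter of `w` on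
  `W_k`; then `mc z V ≤ cb β z V ≤ (unmatched letters of V) + #{p ∈ P_V : w p.1 = β}`.
  The sum over all such `V` with the same `k` is at most `(unmatched) + mc w W_k`
  (injectivity of the first projection).
* Otherwise there is a boundary `B = a + k * Lam`, `1 ≤ k < n`, such that `P_V` has a first
  coordinate `< B` and one `≥ B`; every boundary is used by at most one `V` (monotonicity of
  `P`), and `2 * mc z V ≤ lam`.

Summing: `2 * msum z lam c m ≤ 2 * msum w Lam a n + n * lam + 2 * (m * lam - P.card)`.
-/

namespace MP8C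

open Finset

theorem Transfer_window {a Lam : ℕ} (hL : 0 < Lam) {x : ℕ} (hx : a ≤ x) :
    a + (x - a) / Lam * Lam ≤ x ∧ x < a + ((x - a) / Lam + 1) * Lam := by
  have h1 := Nat.div_add_mod (x - a) Lam
  have h2 := Nat.mod_lt (x - a) hL
  rw [mul_comm] at h1
  constructor
  · omega
  · rw [add_mul, one_mul]; omega

theorem transfer (w z : ℕ → Bool) (a c n m Lam lam : ℕ) (P : Finset (ℕ × ℕ))
    (hP : IsAl w z a (a + n * Lam) c (c + m * lam) P) :
    2 * msum z lam c m + 2 * P.card ≤ 2 * msum w Lam a n + n * lam + 2 * (m * lam) := by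
  classical
  rcases Nat.eq_zero_or_pos Lam with hL | hL
  · -- no pairs
    have hPe : P = ∅ := by
      rw [Finset.eq_empty_iff_forall_notMem]
      intro p hp
      have := (hP.1 p hp).1
      rw [hL, mul_zero] at this
      omega
    have h1 := two_msum_le z lam c m
    rw [hPe, card_empty]
    omega
  rcases Nat.eq_zero_or_pos lam with hl | hl
  · have hPe : P = ∅ := by
      rw [Finset.eq_empty_iff_forall_notMem]
      intro p hp
      have := (hP.1 p hp).2.1
      rw [hl, mul_zero] at this
      omega
    have h1 := two_msum_le z lam c m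
    rw [hPe, card_empty]
    omega
  set idx : ℕ × ℕ → ℕ := fun p => (p.1 - a) / Lam with hidx
  set Q : ℕ → Finset (ℕ × ℕ) := fun j =>
    P.filter (fun p => c + j * lam ≤ p.2 ∧ p.2 < c + (j + 1) * lam) with hQ
  have hβ0 : ∀ k, ∃ β, mc w (a + k * Lam) (a + (k + 1) * Lam) =
      cb β w (a + k * Lam) (a + (k + 1) * Lam) := by
    intro k
    unfold mc
    rcases min_choice (cb true w (a + k * Lam) (a + (k + 1) * Lam))
      (cb false w (a + k * Lam) (a + (k + 1) * Lam)) with h | h
    · exact ⟨true, h⟩
    · exact ⟨false, h⟩
  choose β hβ using hβ0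
  have hinj2 : ∀ p ∈ P, ∀ q ∈ P, p.2 = q.2 → p = q := fun p hp q hq e => hP.snd_inj hp hq e
  have hinj1 : ∀ p ∈ P, ∀ q ∈ P, p.1 = q.1 → p = q := fun p hp q hq e => hP.fst_inj hp hq e
  have hlen : ∀ j, c + (j + 1) * lam - (c + j * lam) = lam := by
    intro j
    rw [add_mul, one_mul]; omega
  have hQcard : ∀ j, (Q j).card ≤ lam := by
    intro j
    have h1 : (Q j).card ≤ (Ico (c + j * lam) (c + (j + 1) * lam)).card := by
      refine card_le_card_of_injOn (fun p => p.2) ?_ ?_
      · intro p hp
        have hp' := (mem_filter.1 (mem_coe.1 hp)).2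
        exact mem_coe.2 (mem_Ico.2 hp')
      · intro p hp q hq e
        exact hinj2 p (mem_filter.1 (mem_coe.1 hp)).1 q (mem_filter.1 (mem_coe.1 hq)).1 e
    rw [Nat.card_Ico, hlen] at h1
    exact h1
  -- the inequality for one window
  have key : ∀ j, 2 * mc z (c + j * lam) (c + (j + 1) * lam) + 2 * (Q j).card ≤
      2 * lam + (if ∃ p ∈ Q j, ∃ q ∈ Q j, idx p < idx q then lam else 0) +
        2 * ((Q j).filter (fun p => w p.1 = β (idx p))).card := by
    intro j
    have h2mc := two_mc_le z (c + j * lam) (c + (j + 1) * lam)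
    rw [hlen] at h2mc
    have hQj := hQcard j
    split_ifs with hcr
    · omega
    · push Not at hcr
      rcases (Q j).eq_empty_or_nonempty with he | ⟨p0, hp0⟩
      · rw [he, card_empty]
        omega
      · have hsame : ∀ q ∈ Q j, idx q = idx p0 := fun q hq =>
          le_antisymm (hcr p0 hp0 q hq) (hcr q hq p0 hp0)
        set b := β (idx p0) with hb
        -- minority count at most the number of letters `b`
        have h3 : mc z (c + j * lam) (c + (j + 1) * lam) ≤
            cb b z (c + j * lam) (c + (j + 1) * lam) := by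
          unfold mc
          cases b
          · exact min_le_right _ _
          · exact min_le_left _ _
        have h4 : cb b z (c + j * lam) (c + (j + 1) * lam) + (Q j).card ≤
            lam + ((Q j).filter (fun p => w p.1 = β (idx p))).card := by
          -- split the matched letters
          set M := (Q j).image (fun p => p.2) with hM
          have hMc : M.card = (Q j).card := by
            rw [hM]
            refine card_image_of_injOn ?_
            intro p hp q hq e
            exact hinj2 p (mem_filter.1 (mem_coe.1 hp)).1 q (mem_filter.1 (mem_coe.1 hq)).1 e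
          have hMsub : M ⊆ Ico (c + j * lam) (c + (j + 1) * lam) := by
            intro y hy
            obtain ⟨p, hp, rfl⟩ := mem_image.1 hy
            exact mem_Ico.2 (mem_filter.1 hp).2
          have h5 : (Ico (c + j * lam) (c + (j + 1) * lam) \ M).card = lam - (Q j).card := by
            rw [card_sdiff_of_subset hMsub, Nat.card_Ico, hlen, hMc]
          have h6 : (Ico (c + j * lam) (c + (j + 1) * lam)).filter (fun y => z y = b) ⊆
              (Ico (c + j * lam) (c + (j + 1) * lam) \ M) ∪
                ((Q j).filter (fun p => w p.1 = β (idx p))).image (fun p => p.2) := by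
            intro y hy
            obtain ⟨hy1, hy2⟩ := mem_filter.1 hy
            rw [mem_union]
            by_cases hyM : y ∈ M
            · right
              obtain ⟨p, hp, rfl⟩ := mem_image.1 hyM
              refine mem_image.2 ⟨p, mem_filter.2 ⟨hp, ?_⟩, rfl⟩
              rw [hsame p hp]
              have := (hP.1 p (mem_filter.1 hp).1).2.2
              rw [this, hy2]
            · left
              exact mem_sdiff.2 ⟨hy1, hyM⟩
          have h7 := (card_le_card h6).trans (card_union_le _ _)
          have h8 : (((Q j).filter (fun p => w p.1 = β (idx p))).image (fun p => p.2)).card ≤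
              ((Q j).filter (fun p => w p.1 = β (idx p))).card := card_image_le
          unfold cb
          omega
        omega
  -- sum over the windows
  have hsum := sum_le_sum (s := range m) (fun j _ => key j)
  rw [sum_add_distrib, sum_add_distrib, sum_add_distrib, ← mul_sum, ← mul_sum, ← mul_sum,
    sum_const, card_range, smul_eq_mul] at hsum
  -- the pairs
  have hdisj : ∀ p ∈ P, ∀ j j' : ℕ, p ∈ Q j → p ∈ Q j' → j = j' := by
    intro p _ j j' h1 h2
    obtain ⟨_, h3, h4⟩ := mem_filter.1 h1
    obtain ⟨_, h5, h6⟩ := mem_filter.1 h2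
    by_contra hne
    rcases Nat.lt_or_gt_of_ne hne with h | h
    · have : (j + 1) * lam ≤ j' * lam := Nat.mul_le_mul_right _ h
      omega
    · have : (j' + 1) * lam ≤ j * lam := Nat.mul_le_mul_right _ h
      omega
  have hPcard : P.card = ∑ j ∈ range m, (Q j).card := by
    rw [← card_biUnion]
    · congr 1
      ext p
      rw [mem_biUnion]
      constructor
      · intro hp
        have h1 := (hP.1 p hp).2.1
        have h2 := Transfer_window (a := c) hl h1.1
        refine ⟨(p.2 - c) / lam, ?_, mem_filter.2 ⟨hp, h2⟩⟩
        rw [mem_range]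
        refine Nat.div_lt_of_lt_mul ?_
        rw [mul_comm]
        omega
      · rintro ⟨j, _, hj⟩
        exact (mem_filter.1 hj).1
    · intro j _ j' _ hne
      rw [Function.onFun, disjoint_left]
      intro p h1 h2
      exact hne (hdisj p (mem_filter.1 h1).1 j j' h1 h2)
  -- the minority letters
  have hY : ∑ j ∈ range m, ((Q j).filter (fun p => w p.1 = β (idx p))).card ≤
      msum w Lam a n := by
    have h1 : ∑ j ∈ range m, ((Q j).filter (fun p => w p.1 = β (idx p))).card ≤
        (P.filter (fun p => w p.1 = β (idx p))).card := by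
      rw [← card_biUnion]
      · refine card_le_card ?_
        intro p hp
        obtain ⟨j, _, hj⟩ := mem_biUnion.1 hp
        obtain ⟨h2, h3⟩ := mem_filter.1 hj
        exact mem_filter.2 ⟨(mem_filter.1 h2).1, h3⟩
      · intro j _ j' _ hne
        rw [Function.onFun, disjoint_left]
        intro p h1 h2
        exact hne (hdisj p (mem_filter.1 (mem_filter.1 h1).1).1 j j' (mem_filter.1 h1).1
          (mem_filter.1 h2).1)
    refine h1.trans ?_
    unfold msum
    have h2 : (P.filter (fun p => w p.1 = β (idx p))).card ≤
        ((range n).biUnion (fun k => (Ico (a + k * Lam) (a + (k + 1) * Lam)).filter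
          (fun x => w x = β k))).card := by
      refine card_le_card_of_injOn (fun p => p.1) ?_ ?_
      · intro p hp
        obtain ⟨hp1, hp2⟩ := mem_filter.1 (mem_coe.1 hp)
        have h3 := (hP.1 p hp1).1
        have h4 := Transfer_window (a := a) hL h3.1
        refine mem_coe.2 (mem_biUnion.2 ⟨idx p, ?_, mem_filter.2 ⟨mem_Ico.2 h4, hp2⟩⟩)
        rw [mem_range]
        refine Nat.div_lt_of_lt_mul ?_
        rw [mul_comm]
        omega
      · intro p hp q hq e
        exact hinj1 p (mem_filter.1 (mem_coe.1 hp)).1 q (mem_filter.1 (mem_coe.1 hq)).1 e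
    refine h2.trans (card_biUnion_le.trans (sum_le_sum fun k _ => ?_))
    rw [hβ k]
    exact le_of_eq rfl
  -- the crossings
  have hX : ∑ j ∈ range m, (if ∃ p ∈ Q j, ∃ q ∈ Q j, idx p < idx q then lam else 0) ≤
      n * lam := by
    rw [← sum_filter, sum_const, smul_eq_mul]
    refine Nat.mul_le_mul_right _ ?_
    rw [← card_range n]
    have hmaxex : ∀ j, (∃ p ∈ Q j, ∃ q ∈ Q j, idx p < idx q) →
        ∃ q ∈ Q j, idx q = (Q j).sup idx := by
      rintro j ⟨p, hp, _⟩
      obtain ⟨q, hq, h⟩ := exists_mem_eq_sup (Q j) ⟨p, hp⟩ idx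
      exact ⟨q, hq, h.symm⟩
    have hlt : ∀ j j' : ℕ, (∃ p ∈ Q j, ∃ q ∈ Q j, idx p < idx q) →
        (∃ p ∈ Q j', ∃ q ∈ Q j', idx p < idx q) → j < j' → (Q j).sup idx < (Q j').sup idx := by
      intro j j' h1 h2 hjj
      obtain ⟨q, hq, hqs⟩ := hmaxex j h1
      obtain ⟨p, hp, r, hr, hpr⟩ := h2
      have hqP := mem_filter.1 hq
      have hpP := mem_filter.1 hp
      have h3 : q.2 < p.2 := by
        have : (j + 1) * lam ≤ j' * lam := Nat.mul_le_mul_right _ hjj
        have h4 := hqP.2.2
        have h5 := hpP.2.1
        omega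
      have h4 : q.1 < p.1 := (hP.2 q hqP.1 p hpP.1).2 h3
      have h5 : idx q ≤ idx p := Nat.div_le_div_right (by omega)
      have h6 : idx r ≤ (Q j').sup idx := le_sup hr
      omega
    refine card_le_card_of_injOn (fun j => (Q j).sup idx) ?_ ?_
    · intro j hj
      obtain ⟨q, hq, hqs⟩ := hmaxex j (mem_filter.1 (mem_coe.1 hj)).2
      have h3 := (hP.1 q (mem_filter.1 hq).1).1
      refine mem_coe.2 (mem_range.2 ?_)
      simp only
      rw [← hqs]
      refine Nat.div_lt_of_lt_mul ?_
      rw [mul_comm]
      omega
    · intro j hj j' hj' e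
      have h1 := (mem_filter.1 (mem_coe.1 hj)).2
      have h2 := (mem_filter.1 (mem_coe.1 hj')).2
      by_contra hne
      rcases Nat.lt_or_gt_of_ne hne with h | h
      · exact absurd e (hlt j j' h1 h2 h).ne
      · exact absurd e.symm (hlt j' j h2 h1 h).ne
  have hms : msum z lam c m = ∑ j ∈ range m, mc z (c + j * lam) (c + (j + 1) * lam) := rfl
  rw [← hms, ← hPcard, ← mul_sum] at hsum
  omega

/-- the same with the roles of the two words exchanged -/
theorem transfer' (w z : ℕ → Bool) (a c n m Lam lam : ℕ) (P : Finset (ℕ × ℕ))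
    (hP : IsAl w z a (a + n * lam) c (c + m * Lam) P) :
    2 * msum w lam a n + 2 * P.card ≤ 2 * msum z Lam c m + m * lam + 2 * (n * lam) := by
  have h := transfer z w c a m n Lam lam _ hP.swap
  have hc : (P.image Prod.swap).card = P.card :=
    Finset.card_image_of_injective _ Prod.swap_injective
  omega

end MP8C
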